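import Pool.Agent.MP_5d9b3c_ag.H59.Spec
import Pool.Agent.MP_5d9b3c_ag.H72.Final

/-!
Assembly of the tasks.
-/

namespace Pool.Agent.MP_5d9b3c_ag.H59

open MvPolynomial

structure Rows : Prop where
  RL : OfRL
  PL : OfPL
  FR : OfFR
  ST : OfST
  EX : OfEX
  DV : OfDV
  NM : OfNM
  E : OfE
  TR : OfTR
  TW : OfTW
  TH : OfTH
  CV : OfCV
  LN : OfLN
  S : OfS
  KA1 : OfKA1
  KA2 : OfKA2
  KA3 : OfKA3
  ORD : OfORD
  KB : OfKB
  H1 : OfH1
  DEG : OfDEG
  Der : OfDer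
  Pres : OfPres
  PW : OfPW
  Log : OfLog
  Lf : OfLf
  Uq : OfUq
  VAN : OfVAN
  FI : OfFI
  BS : OfBS
  Res : OfRes
  U : OfU
  Curl : OfCurl
  Step : OfStep
  Loc : OfLoc
  TC : OfTC
  Core : OfCore
  Val : OfVal
  Reg0 : OfReg0
  Reg : OfReg
  Sum : OfSum
  WO : OfWO
  W2 : OfW2
  LK : OfLK
  Nice : OfNice
  In : OfIn
  LR : OfLR
  Node : OfNode
  For : OfFor
  Cmp : OfCmp
  Gen : OfGen
  Bl : OfBl
  Ind : OfInd
  Top : OfTop
  Spl : OfSpl
  CC : OfCC
  WC : SWC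
  Rat : SRat
  Deh : SDeh
  Adj : SAdj
  LC : SLC
  Sp : SSp
  Sch : SSch
  Kex : SKex
  CA : SCA
  CB : SCB

/-- the contradiction in characteristic `l` -/
theorem klev (H : Rows) {k K : Type} [Field k] [IsAlgClosed k] [Field K] [Algebra k K]
    (B : Bx k K) (N : Nm) (lam : k) {l K0 : ℕ} (hl : l.Prime) (hc : CharP K l)
    (h1 : (N.d * (K0 + 2) + 3) * N.M < l) (h2 : N.m * (N.d + N.κ) < l) (h3 : K0 < l)
    (hlam : (N.d : k) * lam = 3) {b : Polynomial ℤ} {ws : List (ℤ × ℕ × Word)}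
    (hw : WEq N.f N.d b ws) (hb : b.natDegree ≤ K0) (hws : ∀ e ∈ ws, e.2.1 + e.2.2.length ≤ K0)
    (hb0 : Polynomial.aeval (-lam) b ≠ 0) {O : Type} [CommRing O] (ρ : O →+* ZMod (l ^ 2))
    (hpt : ∀ (r : O →+* k) i c, PT N.f N.h N.m N.M r (cht O i) c) : False := by
  have FR := H.FR k K
  have TR := H.TR k K FR
  have TW := H.TW k K FR TR
  have ST := H.ST k K (H.RL k) FR TR
  have EX := H.EX k K
  have DV := H.DV k K ST EX
  have NM := H.NM k K FR EX
  have E := H.E k K ST EX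
  have PL := H.PL k K
  have TH := H.TH k K PL FR TR TW E
  have CV := H.CV k K PL
  have LN := H.LN k K EX E CV
  have S := H.S k K FR TR E TH CV NM
  have KA := (H.H1 k K).1 (H.KA1 k K (H.RL k) ST EX) (H.KA2 k K FR TR TW E DV TH NM LN S)
    (H.KA3 k K FR TR TW E DV TH NM LN S)
  have H1 := (H.H1 k K).2 (H.KB k K FR TR TW DV TH CV NM S (H.ORD k K FR ST EX DV) KA)
  have Der := H.Der k K
  have Pres := H.Pres k K FR TR ST EX Der
  have PW := H.PW k K Der
  have Log := H.Log k K DV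
  have Lf := H.Lf k K DV Der Pres Log
  have Uq := H.Uq k K TR ST EX TH Der Lf
  have VAN := H.VAN k K FR TW E DV TH Pres (H.DEG k K NM E FR)
  have Res := H.Res k K DV
  have U := H.U k K DV Der Pres Log Lf Res
  have Curl := H.Curl k K Der
  have Loc := H.Loc k K Der Log Lf Uq Curl (H.Step k K DV Der Log Lf Uq Res)
  have Core := H.Core k K FR TW DV Der Log U Curl Loc (H.TC k K FR DV S Log Lf U Curl)
  have Val := H.Val k K
  have WO := H.WO k K H.Adj Val (H.Reg k K (H.Reg0 k K)) (H.Sum k K H.Adj Val)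
  obtain ⟨R, _, ⟨W⟩⟩ := H.W2 k K l hl hc
  have Nice := H.Nice k K R l hl hc
  have In := H.In k K R l hl hc Der
  have For := H.For k K R l hl hc FR TR TW Pres Nice In (H.Node k K R l hl hc FR TR TW Pres Nice In
    (H.LR k K R l hl hc TR Pres Lf (H.LK k K TR Der Pres) Nice In))
  have hk : CharP k l := RingHom.charP (algebraMap k K) (algebraMap k K).injective l
  have hM : N.M < l := lt_of_le_of_lt (Nat.le_mul_of_pos_left _ (by omega)) h1
  have := ringChar.charP R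
  let j : O →+* R := (ZMod.castHom (ringChar.dvd (by simpa using W.sq)) R).comp ρ
  let r : O →+* k := (ZMod.castHom (dvd_pow_self l two_ne_zero) k).comp ρ
  obtain ⟨Y, L, Z, a, hF⟩ := For W B N O j r (fun o => by
    obtain ⟨n, hn⟩ := ZMod.intCast_surjective (ρ o)
    exact ⟨n, by simp only [j, RingHom.comp_apply, ← hn, map_intCast],
      by simp only [r, RingHom.comp_apply, ← hn, map_intCast]⟩) (hpt r)
  have hD := H.Cmp k K R l hl hc Lf In W B N Y L Z a hM hF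
  have hNz : B.Nz N := by
    obtain ⟨V, hV⟩ := E.ex _ (FR.rt B (.inr none))
    obtain ⟨y, hy, -⟩ := TH.th _ _ V (FR.rt B (.inr none)) (hD.cov _)
      ((E.thru _ V (FR.rt B _)).1 hV).1
    exact (Lf.nz B N y _ _ _ (hD.leaf _ y hy)).1
  have hE : l ≤ l * N.E := Nat.le_mul_of_pos_right _ N.E0
  have hH := H1 B N L l hD.cov hNz (lt_of_le_of_lt (Nat.mul_le_mul_left _ (by omega))
    (h2.trans_le hE))
  have hV := fun ζ => VAN B N L l ζ hD.cov hNz (h2.trans_le hE)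
  exact Core B N lam l K0 L _ a hc h1 hlam hNz hD.cov hD.leaf
    (WO B N lam l K0 b ws hc h3 hlam hNz hw hb hws hb0)
    (H.FI k K FR TR DV Der PW Log B N L l hl hc hD.cov hH hV)
    (H.BS k K DV Der PW Log Lf B N L l _ a _ hl hc hD hH hV)

theorem scale_eval {F : Type} [Field F] (b : Polynomial ℤ) (d : ℕ) (t : F) (h : d * t = -3) :
    (d : F) ^ b.natDegree * Polynomial.aeval t b =
      (∑ i ∈ Finset.range (b.natDegree + 1), b.coeff i * (-3) ^ i * d ^ (b.natDegree - i) : ℤ) := by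
  rw [Polynomial.aeval_eq_sum_range, Finset.mul_sum]
  push_cast
  refine Finset.sum_congr rfl fun i hi => ?_
  obtain ⟨e, he⟩ := Nat.exists_eq_add_of_le (Nat.lt_succ_iff.1 (Finset.mem_range.1 hi))
  rw [← h, he, Nat.add_sub_cancel_left, zsmul_eq_mul]
  ring

/-- `-3 / d` is a root -/
theorem root_core (H : Rows) {f : P3} {d : ℕ} (hf : f.IsHomogeneous d) (h0 : f ≠ 0)
    (hL : LogGeneral f d) {b : Polynomial ℂ} (hb : H72.IsBFunction (map (Int.castRingHom ℂ) f) b) :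
    b.eval (((-3 / d : ℚ) : ℂ)) = 0 := by
  by_contra hne
  obtain ⟨h, m, κ, hh0, hh, hlt, hLG⟩ := hL
  have hLG' : LG f h m := fun ψ π n h1 h2 h3 => by
    simpa only [aeval_eq_e3] using hLG ψ π n h1 h2 (by simpa only [aeval_eq_e3] using h3)
  obtain ⟨ws, hws⟩ := H.WC _ d b (hf.map _) hb
  obtain ⟨b1, ws1, hw, hb1⟩ := H.Rat f d b ws _ hws hne
  have Gen := H.Gen (H.RL ℂ) H.LC H.Sp
  obtain ⟨M, S, hS⟩ := H.Top H.Sp Gen (H.Ind H.LC H.Sp (H.Bl H.Sp Gen)) f h m _ hLG' (hf.mul hh)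
    (mul_ne_zero h0 hh0)
  have hm : 0 < m := Nat.pos_of_ne_zero fun h1 => by simp [h1] at hlt
  have hd : 0 < d := Nat.pos_of_ne_zero fun h1 => by simp [h1] at hlt
  let N : Nm := ⟨f, h, m, d, κ, m * d - (κ + 3 * m), M, hf, hh, by omega, hm, by omega⟩
  let K0 := b1.natDegree + (ws1.map fun e => e.2.1 + e.2.2.length).sum
  set B0 : ℤ := ∑ i ∈ Finset.range (b1.natDegree + 1),
    b1.coeff i * (-3) ^ i * d ^ (b1.natDegree - i) with hB0
  have hd0 : (d : ℚ) ≠ 0 := by exact_mod_cast hd.ne'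
  have hB : B0 ≠ 0 := fun h1 => by
    have h2 := scale_eval b1 d (-3 / d : ℚ) (by field_simp)
    rw [← hB0, h1] at h2
    simp [hd.ne', hb1] at h2
  obtain ⟨l, hl1, hl, ⟨ρ⟩⟩ := H.Spl H.Sch S
    ((d * (K0 + 2) + 3) * M + m * (d + κ) + K0 + d + B0.natAbs)
  have := Fact.mk hl
  let k := AlgebraicClosure (ZMod l)
  obtain ⟨B⟩ := H.Kex k
  have hc : CharP (FractionRing (P2 k)) l := charP_of_injective_algebraMap
    (algebraMap k (FractionRing (P2 k))).injective l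
  have hdk : (d : k) ≠ 0 := fun h1 =>
    absurd (Nat.le_of_dvd hd ((CharP.cast_eq_zero_iff k l d).1 h1)) (by omega)
  refine klev H B N (3 / d) (K0 := K0) hl hc (by simp only [N]; omega) (by simp only [N]; omega)
    (by omega) (mul_div_cancel₀ _ hdk) hw (Nat.le_add_right _ _) (fun e he => ?_)
    (fun h1 => ?_) ρ fun r i c => hS k r i c
  · exact le_add_left (List.single_le_sum (fun _ _ => Nat.zero_le _) _ (List.mem_map_of_mem he))
  · have h2 := scale_eval b1 d (-(3 / d) : k) (by rw [mul_neg, mul_div_cancel₀ _ hdk])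
    rw [← hB0, h1, mul_zero, eq_comm, CharP.intCast_eq_zero_iff k l] at h2
    have := Nat.le_of_dvd (Int.natAbs_pos.2 hB) (Int.natCast_dvd.1 h2)
    omega

theorem gch_eq (f : P3) (p : ℕ) (t : Fin 3) : ∃ (i : Fin 3) (c : Fin 2 → ℕ), (∀ j, c j = 1 ∨ c j = p) ∧
    map (Int.castRingHom ℂ) (gch f p t) = e3 (i.insertNth (α := fun _ => P2 ℂ) 1
      fun j => C (c j : ℂ) * X j) f := by
  fin_cases t
  · refine ⟨2, ![1, 1], by simp, ?_⟩
    simp only [gch, aeval_eq_e3, Fin.zero_eta, Matrix.cons_val_zero, e3_map]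
    congr 2
    funext l
    fin_cases l <;> simp [Fin.insertNth, Fin.succAboveCases]
  · refine ⟨1, ![1, p], by simp, ?_⟩
    simp only [gch, aeval_eq_e3, Fin.mk_one, Matrix.cons_val_one, Matrix.cons_val_zero, e3_map]
    congr 2
    funext l
    fin_cases l <;> simp [Fin.insertNth, Fin.succAboveCases]
  · refine ⟨0, ![p, p], by simp, ?_⟩
    simp only [gch, aeval_eq_e3, Fin.reduceFinMk, Matrix.cons_val, e3_map]
    congr 2
    funext l
    fin_cases l <;> simp [Fin.insertNth, Fin.succAboveCases]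

theorem main_of (H : Rows) {f : P3} {d : ℕ} (hf : f.IsHomogeneous d) (h0 : f ≠ 0)
    (hL : LogGeneral f d) {p : ℕ} (hp : p.Prime) {A B : Polynomial ℚ} (hAB : IsCoprime A B)
    (hP : (B : PowerSeries ℚ) * H72.poincare f p = A) {T : ℂ} (hT : Polynomial.aeval T B = 0)
    {b : Polynomial ℂ} (hb : H72.IsBFunction (map (Int.castRingHom ℂ) f) b) :
    b.eval ((-(Real.log ‖T‖ / Real.log p) : ℝ) : ℂ) = 0 := by
  have := Fact.mk hp
  by_contra h1
  have hd : 0 < d := by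
    obtain ⟨h, m, κ, -, -, hlt, -⟩ := hL
    exact Nat.pos_of_ne_zero fun h1 => by simp [h1] at hlt
  have hp0 : (p : ℂ) ≠ 0 := by exact_mod_cast hp.ne_zero
  obtain ⟨ws, hws⟩ := H.WC _ d b (hf.map _) hb
  have h2 : ∀ t, ∃ P Q : Polynomial ℂ, Q.eval T ≠ 0 ∧
      (Q : PowerSeries ℂ) * PowerSeries.map (algebraMap ℚ ℂ) (H72.poincare (gch f p t) p) = P := by
    intro t
    obtain ⟨i, c, hc, he⟩ := gch_eq f p t
    have hc0 : ∀ j, (c j : ℂ) ≠ 0 := fun j => by
      rcases hc j with h | h <;> simp [h, hp.ne_zero]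
    have h3 := H.Deh _ d b ws i (fun j => c j) (hf.map _) hws hc0
    have h8 : ∀ ψ : Fin 3 → P2 ℂ, aeval ψ (map (Int.castRingHom ℂ) f) = e3 ψ f := fun ψ => by
      rw [aeval_def, eval₂_map, RingHom.ext_int (RingHom.comp _ _) (Int.castRingHom _)]
      rfl
    rw [h8, ← he] at h3
    have h4 : gch f p t ≠ 0 := fun h5 => by
      refine e3_ne hf h0 i (fun x hx => ⟨fun j => x (i.succAbove j) / c j, fun l => ?_⟩)
        (he.symm.trans (by rw [h5, map_zero]))
      refine Fin.succAboveCases i ?_ (fun j => ?_) l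
      · simp [hx]
      · simp [mul_div_cancel₀ _ (hc0 j)]
    obtain ⟨P, Q, h6, h7⟩ := H72.reg_W (p := p) (f := ![gch f p t]) ⟨0, h4⟩ (by
      convert H50.solS.2 _ b h3 using 2 with i
      fin_cases i
      rfl) h1
    refine ⟨P, Q, h6, Eq.trans ?_ h7⟩
    simp [H72.poincare, H72.wser]
  obtain ⟨P0, Q0, a0, b0⟩ := h2 0
  obtain ⟨P1, Q1, a1, b1⟩ := h2 1
  obtain ⟨P2, Q2, a2, b2⟩ := h2 2
  have h4 := congrArg (PowerSeries.map (algebraMap ℚ ℂ)) (H.CC H.CA H.CB f d p hp hf hd)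
  simp only [map_mul, map_sub, map_add, map_one, PowerSeries.map_C, PowerSeries.map_X, map_inv₀,
    map_natCast (algebraMap ℚ ℂ), map_pow, map_sum] at h4
  have h5 := H72.no_pole hAB hP hT
    (Q := Q0 * Q1 * Q2 * (1 - Polynomial.C ((p : ℂ) ^ 3)⁻¹ * Polynomial.X ^ d))
    (P := (1 - Polynomial.C (p : ℂ)⁻¹) * (P0 * Q1 * Q2 + Polynomial.C (p : ℂ)⁻¹ * P1 * Q0 * Q2 +
      Polynomial.C ((p : ℂ) ^ 2)⁻¹ * P2 * Q0 * Q1) + Q0 * Q1 * Q2 * Polynomial.C ((p : ℂ) ^ 3)⁻¹ *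
        ∑ i ∈ Finset.range d, Polynomial.X ^ i) (by
      have h6 : ((∑ i ∈ Finset.range d, Polynomial.X ^ i : Polynomial ℂ) : PowerSeries ℂ) =
          ∑ i ∈ Finset.range d, PowerSeries.X ^ i := by
        rw [← Polynomial.coeToPowerSeries.ringHom_apply, map_sum]
        simp
      simp only [Polynomial.coe_sub, Polynomial.coe_mul, Polynomial.coe_X, Polynomial.coe_C,
        Polynomial.coe_one, Polynomial.coe_add, Polynomial.coe_pow, h6]
      linear_combination (Q0 * Q1 * Q2 : PowerSeries ℂ) * h4 +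
        (1 - PowerSeries.C (p : ℂ)⁻¹) * ((Q1 * Q2 : PowerSeries ℂ) * b0 +
          PowerSeries.C (p : ℂ)⁻¹ * (Q0 * Q2 : PowerSeries ℂ) * b1 +
          PowerSeries.C ((p : ℂ) ^ 2)⁻¹ * (Q0 * Q1 : PowerSeries ℂ) * b2))
  have h6 : T ^ d = p ^ 3 := by
    simp only [Polynomial.eval_mul, Polynomial.eval_sub, Polynomial.eval_one, Polynomial.eval_C,
      Polynomial.eval_X, Polynomial.eval_pow, mul_eq_zero, a0, a1, a2, false_or] at h5
    field_simp at h5
    linear_combination -h5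
  refine h1 (Eq.trans ?_ (root_core H hf h0 hL hb))
  have h7 := congrArg (fun z : ℂ => Real.log ‖z‖) h6
  simp only [norm_pow, Complex.norm_natCast, Real.log_pow] at h7
  have h8 := (Real.log_pos (H72.one_lt_p (p := p))).ne'
  have h9 : (d : ℝ) ≠ 0 := by exact_mod_cast hd.ne'
  have h10 : -(Real.log ‖T‖ / Real.log p) = -3 / d := by
    field_simp
    push_cast at h7
    linarith
  rw [h10]
  push_cast
  rfl

end Pool.Agent.MP_5d9b3c_ag.H59
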