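import Pool.Agent.MP_5d9b3c_ag.H59.Stmt

/-!
Definitions for the proof that `-3 / d` is a root of the b-function of a ternary form of log
general type.
-/

namespace Pool.Agent.MP_5d9b3c_ag.H59

open MvPolynomial

abbrev P2 (O : Type) [CommRing O] : Type := MvPolynomial (Fin 2) O

abbrev P3 : Type := MvPolynomial (Fin 3) ℤ

/-- evaluation of integer ternary polynomials -/
noncomputable def e3 {S : Type} [CommRing S] (v : Fin 3 → S) : P3 →+* S :=
  eval₂Hom (Int.castRingHom S) v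

/-- the numerical data -/
structure Nm where
  f : P3
  h : P3
  m : ℕ
  d : ℕ
  κ : ℕ
  E : ℕ
  M : ℕ
  hf : f.IsHomogeneous d
  hh : h.IsHomogeneous κ
  hE : κ + 3 * m + E = m * d
  m0 : 0 < m
  E0 : 0 < E

/-! ### Frames, valuation rings, trees of blow-ups -/

section Frames

variable (k : Type) {K : Type} [Field k] [Field K] [Algebra k K]

noncomputable def ev (φ : K × K) : P2 k →ₐ[k] K := aeval ![φ.1, φ.2]

/-- `φ` is a pair of algebraically independent generators of the field `K` -/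
def IsFr (φ : K × K) : Prop :=
  Function.Injective (ev k φ) ∧ ∀ z : K, ∃ a b : P2 k, b ≠ 0 ∧ z * ev k φ b = ev k φ a

/-- the local ring at the origin of the frame -/
def Lo (φ : K × K) : Subalgebra k K where
  carrier := {z | ∃ a b : P2 k, constantCoeff b ≠ 0 ∧ z * ev k φ b = ev k φ a}
  mul_mem' := by
    rintro z z' ⟨a, b, h1, h2⟩ ⟨a', b', h3, h4⟩
    refine ⟨a * a', b * b', by simp [h1, h3], ?_⟩
    rw [map_mul, map_mul, ← h2, ← h4]
    ring
  add_mem' := by
    rintro z z' ⟨a, b, h1, h2⟩ ⟨a', b', h3, h4⟩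
    refine ⟨a * b' + a' * b, b * b', by simp [h1, h3], ?_⟩
    rw [map_add, map_mul, map_mul, map_mul, ← h2, ← h4]
    ring
  algebraMap_mem' c := ⟨C c, 1, by simp, by simp [ev]⟩

def Sub (φ : K × K) (V : ValuationSubring K) : Prop := ∀ z ∈ Lo k φ, z ∈ V

/-- `V` is centred at the origin of the frame -/
def Dom (φ : K × K) (V : ValuationSubring K) : Prop :=
  Sub k φ V ∧ V.valuation φ.1 < 1 ∧ V.valuation φ.2 < 1

/-- `V` is `K` or the ring of a curve through the origin of the frame -/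
def Thru (φ : K × K) (V : ValuationSubring K) : Prop :=
  Sub k φ V ∧ ¬ (V.valuation φ.1 < 1 ∧ V.valuation φ.2 < 1)

def HasK (V : ValuationSubring K) : Prop := ∀ c : k, algebraMap k K c ∈ V

/-- the residue field is `k` -/
def ResK (W : ValuationSubring K) : Prop :=
  HasK k W ∧ ∀ z ∈ W, ∃ c : k, W.valuation (z - algebraMap k K c) < 1

/-- `V` is the ring of the line `φ.1 = 0` -/
def IsE (φ : K × K) (V : ValuationSubring K) : Prop :=
  HasK k V ∧ V.valuation φ.1 < 1 ∧ ∀ c : k, V.valuation (φ.2 - algebraMap k K c) = 1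

/-- `V` is the ring of the curve `π = 0` -/
def IsV (φ : K × K) (π : P2 k) (V : ValuationSubring K) : Prop :=
  (∀ a, ev k φ a ∈ V) ∧ V.valuation (ev k φ π) < 1 ∧
    ∀ a, ¬ π ∣ a → V.valuation (ev k φ a) = 1

/-- `t` is a uniformiser of the discrete valuation ring `V` -/
def Unif (V : ValuationSubring K) (t : K) : Prop :=
  t ≠ 0 ∧ V.valuation t < 1 ∧ ∀ z : K, z ≠ 0 → ∃ n : ℤ, V.valuation z = V.valuation t ^ n

def Dv (V : ValuationSubring K) : Prop := (∀ z, z ∈ V) ∨ ∃ t, Unif V t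

/-- the points of the exceptional line of the blow-up -/
def child (φ : K × K) : Option k → K × K
  | some c => (φ.1, φ.2 / φ.1 - algebraMap k K c)
  | none => (φ.2, φ.1 / φ.2)

/-- `L` is the set of closed points over the origin of `φ` in a tower of blow-ups -/
inductive Cov : K × K → Set (K × K) → Prop
  | leaf (φ : K × K) : Cov φ {φ}
  | node (φ : K × K) (L : Option k → Set (K × K)) (h : ∀ c, Cov (child k φ c) (L c)) :
      Cov φ (⋃ c, L c)

/-- the points of the projective plane -/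
abbrev Root : Type := (k × k) ⊕ Option k

def root (x y : K) : Root k → K × K
  | .inl c => (x - algebraMap k K c.1, y - algebraMap k K c.2)
  | .inr (some c) => (x⁻¹, y / x - algebraMap k K c)
  | .inr none => (y⁻¹, x / y)

variable {k}

/-- the chart of a point -/
def chi : Root k → Fin 3
  | .inl _ => 0
  | .inr (some _) => 1
  | .inr none => 2

end Frames

/-! ### The function field of the plane, lattices and families -/

structure Bx (k K : Type) [Field k] [Field K] [Algebra k K] where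
  x : K
  y : K
  Dx : Derivation k K K
  Dy : Derivation k K K
  fr : IsFr k (x, y)
  xx : Dx x = 1
  xy : Dx y = 0
  yx : Dy x = 0
  yy : Dy y = 1

/-- all coefficients satisfy `Λ` -/
def PIn {K : Type} [Field K] (Λ : K → Prop) (u : Polynomial K) : Prop := ∀ n, Λ (u.coeff n)

/-- a derivation acting on the coefficients -/
noncomputable def pD {k K : Type} [Field k] [Field K] [Algebra k K] (D : Derivation k K K) :
    Derivation k (Polynomial K) (Polynomial K) :=
  PolynomialModule.equivPolynomialSelf.compDer D.mapCoeffs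

namespace Bx

variable {k K : Type} [Field k] [Field K] [Algebra k K] (B : Bx k K)

/-- homogeneous coordinates -/
def XX : Fin 3 → K := ![1, B.x, B.y]

def rt (p : Root k) : K × K := root k B.x B.y p

def Covs (L : Root k → Set (K × K)) : Prop := ∀ p, Cov k (B.rt p) (L p)

/-- `V` has its centre in the chart `i` -/
def Mx (V : ValuationSubring K) (i : Fin 3) : Prop := ∀ l, B.XX l / B.XX i ∈ V

/-- dehomogenisation in the chart `i` -/
noncomputable def hat (i : Fin 3) (g : P3) : K := e3 (fun l => B.XX l / B.XX i) g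

/-- the lattices -/
def Lg (m : ℕ) (σ : K) (E : ℕ) (V : ValuationSubring K) (u : K) : Prop :=
  ∀ i, u ^ m * σ * B.XX i ^ E ∈ V

def Cp (L : Root k → Set (K × K)) (Λ : ValuationSubring K → K → Prop)
    (g : Root k → K × K → K) : Prop :=
  ∀ p y p' y' V, y ∈ L p → y' ∈ L p' → Thru k y V → Thru k y' V → Λ V (g p y - g p' y')

def AfIn (L : Root k → Set (K × K)) (s : K) (g : Root k → K × K → K) : Prop :=
  ∀ c y V, y ∈ L (.inl c) → Thru k y V → Thru k (B.rt (.inl c)) V → s * g (.inl c) y ∈ V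

def Bdd (L : Root k → Set (K × K)) (g : Root k → K × K → K) : Prop :=
  ∃ s : P2 k, s ≠ 0 ∧ B.AfIn L (ev k (B.x, B.y) s) g

def Sv (L : Root k → Set (K × K)) (Λ : ValuationSubring K → K → Prop)
    (g : Root k → K × K → K) : Prop :=
  ∀ p y V, y ∈ L p → Thru k y V → Λ V (g p y)

/-- vanishing of the first cohomology of the lattice `Λ` -/
def H1 (L : Root k → Set (K × K)) (Λ : ValuationSubring K → K → Prop) : Prop :=
  ∀ g, Cp L Λ g → B.Bdd L g → ∃ G, Sv L Λ fun p y => g p y - G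

/-- the Jacobian determinant -/
def jac (z : Fin 2 → K) : K := B.Dx (z 0) * B.Dy (z 1) - B.Dy (z 0) * B.Dx (z 1)

/-- the derivations dual to the coordinates `z` -/
noncomputable def dua (z : Fin 2 → K) : Fin 2 → Derivation k K K :=
  ![(B.Dy (z 1) / B.jac z) • B.Dx - (B.Dx (z 1) / B.jac z) • B.Dy,
    (B.Dx (z 0) / B.jac z) • B.Dy - (B.Dy (z 0) / B.jac z) • B.Dx]

/-- the logarithmic derivations -/
noncomputable def th (z : Fin 2 → K) (a : Fin 2 → ℕ) (j : Fin 2) : Derivation k K K :=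
  z j ^ min (a j) 1 • B.dua z j

variable (N : Nm)

noncomputable def sg : K := B.hat 0 N.h / B.hat 0 N.f ^ N.m

/-- the main lattice (`q = 1`) and its Frobenius twists -/
def Lam (q : ℕ) : ValuationSubring K → K → Prop := B.Lg N.m (B.sg N ^ q) (q * N.E)

def Nz : Prop := B.hat 0 N.f ≠ 0 ∧ B.hat 0 N.h ≠ 0

/-- `V` lies in the boundary -/
def Bd (V : ValuationSubring K) : Prop := ∃ i, V.valuation (B.hat i (N.f * N.h)) < 1

/-- `D` is a logarithmic derivation of `V` -/
def Log (V : ValuationSubring K) (D : Derivation k K K) : Prop :=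
  (∀ u ∈ V, D u ∈ V) ∧ (B.Bd N V → ∀ u, V.valuation u < 1 → V.valuation (D u) < 1)

/-- the form `ζ.1 dx + ζ.2 dy` is a global logarithmic form with values in the lattice -/
def Fm (L : Root k → Set (K × K)) (q : ℕ) (ζ : K × K) : Prop :=
  ∀ p y V D, y ∈ L p → Thru k y V → B.Log N V D → B.Lam N q V (ζ.1 * D B.x + ζ.2 * D B.y)

/-- normal crossings at the point `y` of the chart `i` -/
structure Leaf (y : K × K) (i : Fin 3) (z : Fin 2 → K) (a : Fin 2 → ℕ) : Prop where
  fr : IsFr k y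
  mx : ∀ l, B.XX l / B.XX i ∈ Lo k y
  mem : ∀ j, z j ∈ Lo k y
  jac : B.jac z ≠ 0
  pres : ∀ j, ∀ u ∈ Lo k y, B.dua z j u ∈ Lo k y
  le : ∀ j, a j ≤ N.M
  fac : ∃ q, q ≠ 0 ∧ q ∈ Lo k y ∧ q⁻¹ ∈ Lo k y ∧
    B.hat i (N.f * N.h) = q * z 0 ^ a 0 * z 1 ^ a 1
  nu : (z 0 ^ min (a 0) 1 * z 1 ^ min (a 1) 1 / B.jac z) ^ N.m * B.sg N * B.XX i ^ N.E ∈ Lo k y

/-- what the lifting modulo `l ^ 2` gives -/
structure Dat (l : ℕ) (L : Root k → Set (K × K)) (z : Root k → K × K → Fin 2 → K)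
    (a : Root k → K × K → Fin 2 → ℕ) (δ : Root k → K × K → Fin 2 → K) : Prop where
  cov : B.Covs L
  leaf : ∀ p y, y ∈ L p → B.Leaf N y (chi p) (z p y) (a p y)
  nice : ∀ p y j (D : Derivation k K K), y ∈ L p → D (δ p y j) =
    B.Dx (z p y j) ^ l * B.x ^ (l - 1) * D B.x + B.Dy (z p y j) ^ l * B.y ^ (l - 1) * D B.y -
      z p y j ^ (l - 1) * D (z p y j)
  cmp : ∀ p y p' y' V j, y ∈ L p → y' ∈ L p' → Thru k y V → Thru k y' V →
    (δ p' y' j - ∑ i, B.dua (z p y) i (z p' y' j) ^ l * δ p y i) /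
      z p' y' j ^ (l * min (a p' y' j) 1) ∈ V
  cmp0 : ∀ c y V j, y ∈ L (.inl c) → Thru k y V → Thru k (B.rt (.inl c)) V →
    δ (.inl c) y j ∈ V

/-- the connection at `s = -lam` -/
noncomputable def nab (lam : k) (D : Derivation k K K) (u : K) : K :=
  D u - algebraMap k K lam * (D (B.hat 0 N.f) / B.hat 0 N.f) * u

/-- the connection of the chart `i` with the parameter `t = s + lam` -/
noncomputable def nabP (lam : k) (i : Fin 3) (D : Derivation k K K) (u : Polynomial K) :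
    Polynomial K :=
  pD D u - Polynomial.C (algebraMap k K lam * (D (B.hat 0 N.f) / B.hat 0 N.f)) * u +
    Polynomial.X * Polynomial.C (D (B.hat i N.f) / B.hat i N.f) * u

/-- the form `A dy - A' dx` evaluated on `D` -/
noncomputable def bt (A A' : Polynomial K) (D : Derivation k K K) : Polynomial K :=
  A * Polynomial.C (D B.y) - A' * Polynomial.C (D B.x)

/-- the functional equation in the chart `i` -/
structure WCh (lam : k) (K0 : ℕ) (i : Fin 3) (A A' ψ : Polynomial K) : Prop where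
  eq : B.nabP N lam i B.Dx A + B.nabP N lam i B.Dy A' = ψ
  reg : ∀ V, HasK k V → B.Mx V i → PIn (fun u => u ∈ V) ψ
  pole : ∀ V (D : Derivation k K K), HasK k V → B.Mx V i → (∀ u ∈ V, D u ∈ V) →
    PIn (fun u => B.hat i N.f ^ K0 * u / B.XX i ^ 3 ∈ V) (B.bt A A' D)

def WOut (lam : k) (K0 : ℕ) : Prop :=
  ∃ (A A' ψ : Fin 3 → Polynomial K) (A0 A0' : K) (b0 : k), b0 ≠ 0 ∧ ∀ i,
    B.WCh N lam K0 i (A i) (A' i) (ψ i) ∧ (A i).coeff 0 = A0 ∧ (A' i).coeff 0 = A0' ∧
      (ψ i).coeff 0 = algebraMap k K b0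

/-- local reduction of the form into the lattice, with a pole of order `T` in the parameter -/
def Red (lam : k) (K0 : ℕ) (i : Fin 3) (A A' : Polynomial K) (y : K × K) (T : ℕ)
    (P : Polynomial k) (g : Polynomial K) : Prop :=
  P.coeff 0 = 1 ∧ ∀ V, Thru k y V →
    PIn (fun u => B.Lam N 1 V (B.hat i N.f ^ (K0 + 1) * u)) g ∧
    ∀ D, B.Log N V D → PIn (B.Lam N 1 V)
      (Polynomial.X ^ T * P.map (algebraMap k K) * B.bt A A' D - B.nabP N lam i D g)

end Bx

/-! ### Words in the Weyl algebra -/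

abbrev Word : Type := List (Fin 3 ⊕ Fin 3)

noncomputable def act {S : Type} [CommRing S] :
    Word → MvPolynomial (Fin 3) S → MvPolynomial (Fin 3) S
  | [], u => u
  | .inl j :: w, u => X j * act w u
  | .inr j :: w, u => pderiv j (act w u)

def wgt : Word → ℤ
  | [] => 0
  | .inl _ :: w => wgt w + 1
  | .inr _ :: w => wgt w - 1

/-- the functional equation written with words of weight `-d` -/
def WEq {S : Type} [CommRing S] (f : MvPolynomial (Fin 3) S) (d : ℕ) (b : Polynomial S)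
    (ws : List (S × ℕ × Word)) : Prop :=
  (∀ e ∈ ws, wgt e.2.2 = -(d : ℤ)) ∧ ∀ n : ℕ,
    (ws.map fun e => C (e.1 * (n : S) ^ e.2.1) * act e.2.2 (f ^ (n + 1))).sum =
      C (b.eval (n : S)) * f ^ n

/-- a ring with two derivations and two coordinates -/
structure DR (k R : Type) [CommRing k] [CommRing R] [Algebra k R] where
  D0 : Derivation k R R
  D1 : Derivation k R R
  x : R
  y : R

namespace DR

variable {k R : Type} [CommRing k] [CommRing R] [Algebra k R] (Q : DR k R)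

def XX : Fin 3 → R := ![1, Q.x, Q.y]

/-- the three derivatives of a section of weight `γ` for the connection `d + a0 dx + a1 dy` -/
def der (a0 a1 γ : R) (j : Fin 3) (u : R) : R :=
  ![γ * u - Q.x * (Q.D0 u + a0 * u) - Q.y * (Q.D1 u + a1 * u), Q.D0 u + a0 * u,
    Q.D1 u + a1 * u] j

/-- a word applied to the section `u` of weight `γ` -/
def vl (a0 a1 γ u : R) : Word → R
  | [] => u
  | .inl j :: w => Q.XX j * vl a0 a1 γ u w
  | .inr j :: w => Q.der a0 a1 (γ + (wgt w : R)) j (vl a0 a1 γ u w)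

/-- the adjoint word applied to the section `τ` of weight `γ` -/
def ad (a0 a1 : R) : Word → R → R → R
  | [], _, τ => τ
  | .inl j :: w, γ, τ => ad a0 a1 w (γ + 1) (Q.XX j * τ)
  | .inr j :: w, γ, τ => ad a0 a1 w (γ - 1) (-Q.der a0 a1 γ j τ)

/-- the vector field left over by the integration by parts -/
def xi (a0 a1 : R) (v : Word → R) : Word → R → R → Fin 3 → R
  | [], _, _ => 0
  | .inl j :: w, γ, τ => xi a0 a1 v w (γ + 1) (Q.XX j * τ)
  | .inr j :: w, γ, τ => Pi.single j (τ * v w) + xi a0 a1 v w (γ - 1) (-Q.der a0 a1 γ j τ)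

end DR

namespace Bx

variable {k K : Type} [Field k] [Field K] [Algebra k K] (B : Bx k K)

def dr : DR k K := ⟨B.Dx, B.Dy, B.x, B.y⟩

noncomputable def drP : DR k (Polynomial K) :=
  ⟨pD B.Dx, pD B.Dy, Polynomial.C B.x, Polynomial.C B.y⟩

/-- the coordinate ring of the chart `i` -/
def Tc (i : Fin 3) : Subalgebra k K := Algebra.adjoin k (Set.range fun l => B.XX l / B.XX i)

end Bx

/-! ### Certificates of resolution -/

section Cert

variable {O : Type} [CommRing O]

noncomputable def jac2 (z0 z1 : P2 O) : P2 O :=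
  pderiv 0 z0 * pderiv 1 z1 - pderiv 1 z0 * pderiv 0 z1

/-- normal crossings on the set `Q ≠ 0` of the chart `ψ` -/
def Cert (f h : P3) (m M : ℕ) (ψ : Fin 3 → P2 O) (Q : P2 O) : Prop :=
  ∃ (z0 z1 q2 q3 q4 q5 : P2 O) (a0 a1 n : ℕ), a0 ≤ M ∧ a1 ≤ M ∧
    e3 ψ (f * h) = q2 * z0 ^ a0 * z1 ^ a1 ∧
    q3 * (jac3 ψ * z0 ^ min a0 1 * z1 ^ min a1 1) ^ m * e3 ψ h = q4 * e3 ψ f ^ m ∧
    Q ^ n = q2 * q3 * jac2 z0 z1 * q5

noncomputable def finc (c : Fin 2 → O) (ψ : Fin 3 → P2 O) : Fin 3 → P2 O :=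
  fun l => aeval ![X 0 + C (c 0), X 0 * X 1 + C (c 1)] (ψ l)

noncomputable def infc (c : Fin 2 → O) (ψ : Fin 3 → P2 O) : Fin 3 → P2 O :=
  fun l => aeval ![X 0 * X 1 + C (c 0), X 0 + C (c 1)] (ψ l)

/-- the three charts of the plane -/
noncomputable def cht (O : Type) [CommRing O] : Fin 3 → Fin 3 → P2 O :=
  ![![1, X 0, X 1], ![X 0, 1, X 1], ![X 0, X 1, 1]]

/-- the point `c` of the chart `ψ` is resolved by blowing up points defined over `O` -/
inductive PT (f h : P3) (m M : ℕ) {k : Type} [Field k] (r : O →+* k) :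
    (Fin 3 → P2 O) → (Fin 2 → k) → Prop
  | leaf (ψ : Fin 3 → P2 O) (c : Fin 2 → k) (Q : P2 O) (h1 : Cert f h m M ψ Q)
      (h2 : eval₂ r c Q ≠ 0) : PT f h m M r ψ c
  | node (ψ : Fin 3 → P2 O) (c : Fin 2 → O) (h1 : ∀ t : k, PT f h m M r (finc c ψ) ![0, t])
      (h2 : PT f h m M r (infc c ψ) ![0, 0]) : PT f h m M r ψ fun i => r (c i)

end Cert

/-- subrings of the complex numbers that are large enough -/
def FF : Filter (Subring ℂ) := ⨅ c : ℂ, Filter.principal {A | c ∈ A}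

/-- the point `c` of the chart `ψ` is resolved over all large subrings -/
def Pt (f h : P3) (m M : ℕ) (ψ : Fin 3 → P2 ℂ) (c : Fin 2 → ℂ) : Prop :=
  ∀ᶠ A : Subring ℂ in FF, ∀ (ψA : Fin 3 → P2 A) (cA : Fin 2 → A), (∀ l, map A.subtype (ψA l) = ψ l) →
    (∀ i, (cA i : ℂ) = c i) → ∀ (k : Type) [Field k] (r : A →+* k),
      PT f h m M r ψA fun i => r (cA i)

/-- the pole condition in `LogGeneral` -/
def LG (f h : P3) (m : ℕ) : Prop :=
  ∀ (ψ : Fin 3 → P2 ℂ) (π : P2 ℂ) (n : ℕ), Irreducible π → (∃ i, ¬ π ∣ ψ i) →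
    π ^ n ∣ e3 ψ f ^ m → π ^ n ∣ e3 ψ h * (π * jac3 ψ) ^ m

/-! ### Witt vectors of length two -/

structure W2 (k K R : Type) [Field k] [Field K] [Algebra k K] [CommRing R] (l : ℕ) where
  rd : R →+* K
  dl : R → K
  cc : K → K → K
  te : K → R
  dl_mul : ∀ a b, dl (a * b) = rd a ^ l * dl b + rd b ^ l * dl a
  dl_add : ∀ a b, dl (a + b) = dl a + dl b + cc (rd a) (rd b)
  cc_mem : ∀ (S : Subring K) a b, a ∈ S → b ∈ S → cc a b ∈ S
  cc_der : ∀ (D : Derivation k K K) a b, D (cc a b) =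
    a ^ (l - 1) * D a + b ^ (l - 1) * D b - (a + b) ^ (l - 1) * D (a + b)
  rd_te : ∀ a, rd (te a) = a
  dl_te : ∀ a, dl (te a) = 0
  unit : ∀ a, rd a ≠ 0 → IsUnit a
  sq : (l : R) ^ 2 = 0

namespace W2

variable {k K R : Type} [Field k] [Field K] [Algebra k K] [CommRing R] {l : ℕ}
  (W : W2 k K R l) (B : Bx k K)

def Nice (a : R) : Prop :=
  ∀ D : Derivation k K K, D (W.dl a) = B.Dx (W.rd a) ^ l * B.x ^ (l - 1) * D B.x +
    B.Dy (W.rd a) ^ l * B.y ^ (l - 1) * D B.y - W.rd a ^ (l - 1) * D (W.rd a)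

/-- reduction of a pair -/
def rz (Z : Fin 2 → R) : Fin 2 → K := fun j => W.rd (Z j)

/-- the defect of the Frobenius lifting attached to the coordinates `Z` -/
noncomputable def del (Z : Fin 2 → R) (a : R) : K :=
  W.dl a - ∑ i, B.dua (W.rz Z) i (W.rd a) ^ l * W.dl (Z i)

def InS (Z : Fin 2 → R) (V : ValuationSubring K) (a : R) : Prop :=
  W.rd a ∈ V ∧ W.del B Z a ∈ V

def Eqv (Z Z' : Fin 2 → R) (V : ValuationSubring K) : Prop :=
  ∀ a, W.InS B Z V a ↔ W.InS B Z' V a

/-- lifted homogeneous coordinates -/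
def XT : Fin 3 → R := ![1, W.te B.x, W.te B.y]

structure LeafR (N : Nm) (Y : Fin 3 → R) (y : K × K) (i : Fin 3) (Z : Fin 2 → R)
    (a : Fin 2 → ℕ) : Prop where
  leaf : B.Leaf N y i (W.rz Z) a
  nice : ∀ j, W.Nice B (Z j)
  fac : ∀ V, Thru k y V → ∃ q, W.InS B Z V q ∧ V.valuation (W.rd q) = 1 ∧
    e3 Y (N.f * N.h) = q * Z 0 ^ a 0 * Z 1 ^ a 1

/-- a lifted chart `U` with the point `c` -/
structure Cht {O : Type} [CommRing O] (j : O →+* R) (ψ : Fin 3 → P2 O) (c : Fin 2 → k)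
    (i : Fin 3) (Y : Fin 3 → R) (U : Fin 2 → R) (φ : K × K) : Prop where
  eq : φ = (W.rd (U 0) - algebraMap k K (c 0), W.rd (U 1) - algebraMap k K (c 1))
  fr : IsFr k φ
  nice : ∀ t, W.Nice B (U t)
  ev : ∀ t, eval₂ j U (ψ t) = Y t
  hY : ∀ t, Y t * W.XT B i = W.XT B t

/-- the lifted tree over the point `φ` of the chart `U` -/
structure Tree (N : Nm) (i : Fin 3) (Y : Fin 3 → R) (U : Fin 2 → R) (φ : K × K)
    (L : Set (K × K)) (Z : K × K → Fin 2 → R) (a : K × K → Fin 2 → ℕ) : Prop where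
  cov : Cov k φ L
  leaf : ∀ y ∈ L, W.LeafR B N Y y i (Z y) (a y)
  up : ∀ y ∈ L, ∀ V, Thru k y V → Thru k φ V → W.Eqv B U (Z y) V
  pair : ∀ y ∈ L, ∀ y' ∈ L, ∀ V, Thru k y V → Thru k y' V → W.Eqv B (Z y) (Z y') V

/-- the lifted trees over all points of the plane -/
structure Forest (N : Nm) (Y : Fin 3 → Fin 3 → R) (L : Root k → Set (K × K))
    (Z : Root k → K × K → Fin 2 → R) (a : Root k → K × K → Fin 2 → ℕ) : Prop where
  hY : ∀ i t, Y i t * W.XT B i = W.XT B t
  cov : B.Covs L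
  leaf : ∀ p, ∀ y ∈ L p, W.LeafR B N (Y (chi p)) y (chi p) (Z p y) (a p y)
  pair : ∀ p, ∀ y ∈ L p, ∀ p', ∀ y' ∈ L p', ∀ V, Thru k y V → Thru k y' V →
    W.Eqv B (Z p y) (Z p' y') V ∧ W.InS B (Z p y) V (Y (chi p') (chi p))
  aff : ∀ c, ∀ y ∈ L (.inl c), ∀ V, Thru k y V → Thru k (B.rt (.inl c)) V →
    W.Eqv B ![W.te B.x, W.te B.y] (Z (.inl c) y) V

end W2

end Pool.Agent.MP_5d9b3c_ag.H59
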