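import Pool.Agent.MP_5d9b3c_ag.H59.Spec

/-! Integration by parts for words in the Weyl algebra. -/

namespace Pool.Agent.MP_5d9b3c_ag.H59

namespace AdjX

variable {k R : Type} [CommRing k] [CommRing R] [Algebra k R] (Q : DR k R)

theorem der_zero (a0 a1 γ : R) (j : Fin 3) : Q.der a0 a1 γ j 0 = 0 := by
  fin_cases j <;> simp [DR.der]

theorem der_add (a0 a1 γ : R) (j : Fin 3) (u v : R) :
    Q.der a0 a1 γ j (u + v) = Q.der a0 a1 γ j u + Q.der a0 a1 γ j v := by
  fin_cases j <;> simp [DR.der] <;> ring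

theorem der_mul (a0 a1 γ a0' a1' γ' : R) (j : Fin 3) (u v : R) :
    Q.der (a0' + a0) (a1' + a1) (γ' + γ) j (u * v) =
      u * Q.der a0 a1 γ j v + Q.der a0' a1' γ' j u * v := by
  fin_cases j <;> simp [DR.der] <;> ring

theorem adj (a0 a1 γ u a0' a1' : R) (w : Word) (γ' τ : R) : τ * Q.vl a0 a1 γ u w =
    ∑ j, Q.der (a0' + a0) (a1' + a1) (γ' + γ + (wgt w : R) + 1) j
      (Q.xi a0' a1' (Q.vl a0 a1 γ u) w γ' τ j) + Q.ad a0' a1' w γ' τ * u := by
  induction w generalizing γ' τ with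
  | nil => simp [DR.vl, DR.xi, DR.ad, der_zero]
  | cons c w ih =>
    rcases c with j | j
    · rw [DR.vl, DR.xi, DR.ad, wgt, ← mul_assoc, mul_comm τ, ih (γ' + 1)]
      push_cast
      ring_nf
    · have h := ih (γ' - 1) (-Q.der a0' a1' γ' j τ)
      have e : γ' + γ + ((wgt w - 1 : ℤ) : R) + 1 = γ' + (γ + wgt w) := by
        push_cast
        ring
      rw [show γ' - 1 + γ + wgt w + 1 = γ' + (γ + wgt w) by ring] at h
      rw [DR.vl, DR.xi, DR.ad, wgt, e]
      simp only [Pi.add_apply, der_add, Finset.sum_add_distrib]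
      rw [add_assoc, ← h, Finset.sum_eq_single j
        (fun i _ hi => by rw [Pi.single_eq_of_ne hi, der_zero]) (by simp), Pi.single_eq_same,
        der_mul]
      ring

end AdjX

theorem rowAdj : SAdj := by
  refine ⟨fun k R _ _ _ => AdjX.adj, fun k R R' _ _ _ _ _ Q Q' φ h0 h1 hx hy => ?_⟩
  have e1 : ∀ j, φ (Q.XX j) = Q'.XX j := fun j => by fin_cases j <;> simp [DR.XX, hx, hy]
  have e2 : ∀ a0 a1 γ j u, φ (Q.der a0 a1 γ j u) = Q'.der (φ a0) (φ a1) (φ γ) j (φ u) :=
    fun a0 a1 γ j u => by fin_cases j <;> simp [DR.der, h0, h1, hx, hy]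
  refine ⟨fun a0 a1 γ u w => ?_, fun a0 a1 w => ?_, fun a0 a1 v w => ?_⟩
  · induction w with
    | nil => rfl
    | cons c w ih => rcases c with j | j <;> simp [DR.vl, ih, e1, e2]
  · induction w with
    | nil => exact fun _ _ => rfl
    | cons c w ih => rcases c with j | j <;> simp [DR.ad, ih, e1, e2]
  · induction w with
    | nil => simp [DR.xi]
    | cons c w ih =>
      rcases c with j | j <;> simp [DR.xi, ih, e1, e2, Pi.single_apply, apply_ite φ]

end Pool.Agent.MP_5d9b3c_ag.H59
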