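import Pool.Agent.MP_5d9b3c_ag.H59.Spec

/-!
Vanishing of logarithmic forms through the lifting modulo the square of the characteristic.
-/

namespace Pool.Agent.MP_5d9b3c_ag.H59

open MvPolynomial

namespace BSX

variable {k K : Type} [Field k] [Field K] [Algebra k K]

/-- the form evaluated on a derivation -/
def et (B : Bx k K) (η : K × K) (D : Derivation k K K) : K := η.1 * D B.x + η.2 * D B.y

theorem et_pow (hD : SDer k K) (B : Bx k K) (η : K × K) {l : ℕ} (hl : l.Prime) (hc : CharP K l)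
    {z : Fin 2 → K} (hz : B.jac z ≠ 0) (D : Derivation k K K) :
    et B η D ^ l = ∑ j, D (z j) ^ l * et B η (B.dua z j) ^ l := by
  have := Fact.mk hl
  rw [Fin.sum_univ_two, ← mul_pow, ← mul_pow, ← add_pow_char, et, hD.span B z D B.x hz,
    hD.span B z D B.y hz, Fin.sum_univ_two, Fin.sum_univ_two, et, et]
  congr 1
  ring

theorem et_th (B : Bx k K) (η : K × K) (z : Fin 2 → K) (a : Fin 2 → ℕ) (j : Fin 2) :
    et B η (B.th z a j) = z j ^ min (a j) 1 * et B η (B.dua z j) := by
  simp only [et, Bx.th, Derivation.smul_apply, smul_eq_mul]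
  ring

theorem der_pow {l : ℕ} (hc : CharP K l) (D : Derivation k K K) (u v : K) :
    D (u ^ l * v) = u ^ l * D v := by
  rw [Derivation.leibniz, Derivation.leibniz_pow, nsmul_eq_mul, CharP.cast_eq_zero]
  simp

theorem ev_mem {V : ValuationSubring K} (h : HasK k V) {φ : K × K} (h1 : φ.1 ∈ V) (h2 : φ.2 ∈ V)
    (a : P2 k) : ev k φ a ∈ V := by
  induction a using MvPolynomial.induction_on with
  | C c => rw [ev_C]; exact h c
  | add p q hp hq => rw [map_add]; exact add_mem hp hq
  | mul_X p i hp =>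
    rw [map_mul]
    refine mul_mem hp ?_
    fin_cases i
    exacts [ev_X0 (k := k) φ ▸ h1, ev_X1 (k := k) φ ▸ h2]

theorem expo {z w : K} (hz : z ≠ 0) {l m : ℕ} (hl : 0 < l) (hm : m ≤ 1) (e : K) :
    e ^ l * (z ^ (l - 1) * w) = z ^ ((l - 1) * (1 - m)) * (w / z ^ m) * (z ^ m * e) ^ l := by
  obtain ⟨l, rfl⟩ := Nat.exists_eq_add_one_of_ne_zero hl.ne'
  interval_cases m
  · simp
    ring
  · simp only [Nat.add_sub_cancel, Nat.sub_self, mul_zero, pow_zero, pow_one]
    field_simp
    ring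

end BSX

open BSX in
theorem rowBS : OfBS := by
  intro k K _ _ _ _ hDV hD hPW hLog hLf B N L l z a δ hl hc dat h1 h2 η hη
  have key : ∀ p y V j, y ∈ L p → Thru k y V →
      B.Lam N l V ((z p y j ^ min (a p y j) 1 * et B η (B.dua (z p y) j)) ^ l) :=
    fun p y V j hy hV => by
      rw [Bx.lam_pow hl.ne_zero, ← et_th]
      exact hη p y V _ hy hV (hLf.log B N y _ _ _ V j (dat.leaf p y hy) hV)
  obtain ⟨H, hH⟩ := h1 (fun p y => ∑ j, et B η (B.dua (z p y) j) ^ l * δ p y j)
    (fun p y p' y' V hy hy' hV hV' => by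
      have e : ∑ j, et B η (B.dua (z p y) j) ^ l * δ p y j -
          ∑ j, et B η (B.dua (z p' y') j) ^ l * δ p' y' j =
          -∑ j, (δ p' y' j - ∑ i, B.dua (z p y) i (z p' y' j) ^ l * δ p y i) /
            z p' y' j ^ (l * min (a p' y' j) 1) *
            (z p' y' j ^ min (a p' y' j) 1 * et B η (B.dua (z p' y') j)) ^ l := by
        have h0 := (hLf.nz B N y' _ _ _ (dat.leaf p' y' hy')).2
        simp only [mul_pow, ← pow_mul, mul_comm (min _ 1) l, ← mul_assoc,
          div_mul_cancel₀ _ (pow_ne_zero _ (h0 _))]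
        simp only [et_pow hD B η hl hc (dat.leaf p' y' hy').jac (B.dua (z p y) _), Fin.sum_univ_two]
        ring
      beta_reduce
      rw [e]
      exact (Bx.Lg.sum N.m0 _ fun j _ =>
        (key p' y' V j hy' hV').mul (dat.cmp p y p' y' V j hy hy' hV hV')).neg)
    (by
      obtain ⟨a1, b1, hb1, e1⟩ := B.fr.2 η.1
      obtain ⟨a2, b2, hb2, e2⟩ := B.fr.2 η.2
      refine ⟨(b1 * b2) ^ l, pow_ne_zero _ (mul_ne_zero hb1 hb2), fun c y V hy hV hV' => ?_⟩
      have lf := dat.leaf _ y hy
      have hx : B.x ∈ V := by simpa [chi] using lf.mxV hV.1 1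
      have hy' : B.y ∈ V := by simpa [chi] using lf.mxV hV.1 2
      have hev := ev_mem (φ := (B.x, B.y)) hV.1.hasK hx hy'
      beta_reduce
      rw [Finset.mul_sum]
      refine sum_mem fun j _ => ?_
      rw [map_pow, ← mul_assoc, ← mul_pow]
      refine mul_mem (pow_mem ?_ _) (dat.cmp0 c y V j hy hV hV')
      have := add_mem
        (mul_mem (mul_mem (hev a1) (hev b2)) (hLf.pres B N y _ _ _ V lf hV j _ hx))
        (mul_mem (mul_mem (hev a2) (hev b1)) (hLf.pres B N y _ _ _ V lf hV j _ hy'))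
      convert this using 1
      rw [← e1, ← e2, map_mul, et]
      ring)
  have h3 := h2 (η.1 ^ l * B.x ^ (l - 1) - B.Dx H, η.2 ^ l * B.y ^ (l - 1) - B.Dy H)
    fun p y V D hy hV hDl => by
      have lf := dat.leaf p y hy
      have ex : et B η B.Dx = η.1 := by simp [et, B.xx, B.xy]
      have ey : et B η B.Dy = η.2 := by simp [et, B.yx, B.yy]
      have := (hLog.stq B N V D l _ hc (hDV.dv y V lf.fr hV) hDl (hH p y V hy hV)).add
        (Bx.Lg.sum N.m0 Finset.univ fun j _ => (key p y V j hy hV).mul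
          (mul_mem (pow_mem (hV.1 _ (lf.mem j)) ((l - 1) * (1 - min (a p y j) 1)))
            (hLf.coef B N y _ _ _ V D j lf hV hDl)))
      unfold Bx.Lam
      convert this using 1
      simp only [← expo ((hLf.nz B N y _ _ _ lf).2 _) hl.pos (min_le_right _ _), map_sub, map_sum,
        der_pow hc, dat.nice p y _ D hy]
      rw [hD.span0 B D H, ← ex, ← ey, et_pow hD B η hl hc lf.jac B.Dx,
        et_pow hD B η hl hc lf.jac B.Dy]
      simp only [Fin.sum_univ_two]
      ring
  exact Prod.ext (hPW.cx B l _ H hl hc (sub_eq_zero.1 (congrArg Prod.fst h3)))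
    (hPW.cy B l _ H hl hc (sub_eq_zero.1 (congrArg Prod.snd h3)))

end Pool.Agent.MP_5d9b3c_ag.H59
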