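import Pool.Agent.MP_5d9b3c_ag.H59.Spec

/-!
Row Bl: a point is resolved if the points of its blow-up are.
-/

namespace Pool.Agent.MP_5d9b3c_ag.H59

open MvPolynomial

namespace BlX

theorem map_aeval' {O O' : Type} [CommRing O] [CommRing O'] (φ : O →+* O') (v : Fin 2 → P2 O)
    (w : Fin 2 → P2 O') (h : ∀ i, map φ (v i) = w i) (p : P2 O) :
    map φ (aeval v p) = aeval w (map φ p) := by
  induction p using MvPolynomial.induction_on with
  | C a => simp
  | add p q hp hq => simp only [map_add, hp, hq]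
  | mul_X p i hp => simp only [map_mul, hp, aeval_X, map_X, h]

variable {A : Subring ℂ} {ψ : Fin 3 → P2 ℂ} {c : Fin 2 → ℂ} {ψA : Fin 3 → P2 A} {cA : Fin 2 → A}

theorem fin (h1 : ∀ l, map A.subtype (ψA l) = ψ l) (h2 : ∀ i, (cA i : ℂ) = c i) (l : Fin 3) :
    map A.subtype (finc cA ψA l) = finc c ψ l := by
  unfold finc
  rw [← h1]
  exact map_aeval' _ _ _ (Fin.forall_fin_two.2 ⟨by simp [h2], by simp [h2]⟩) _

theorem inf (h1 : ∀ l, map A.subtype (ψA l) = ψ l) (h2 : ∀ i, (cA i : ℂ) = c i) (l : Fin 3) :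
    map A.subtype (infc cA ψA l) = infc c ψ l := by
  unfold infc
  rw [← h1]
  exact map_aeval' _ _ _ (Fin.forall_fin_two.2 ⟨by simp [h2], by simp [h2]⟩) _

end BlX

theorem rowBl : OfBl := by
  intro hS hG f h m ψ c hL ⟨i, hi⟩ h0 ht ⟨M1, h1⟩
  choose Mt hM using ht
  obtain ⟨M0, S, h2⟩ := hG f h m (finc c ψ) hL ⟨i, by simp [finc, hi]⟩ h0
  refine ⟨max M0 (max M1 (S.sup Mt)), ?_⟩
  have h3 := (Filter.eventually_all_finset S).2 fun t _ => hM t
  filter_upwards [h1, h2, h3] with A a1 a2 a3 ψA cA e1 e2 k _ r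
  refine PT.node ψA cA (fun t => ?_) ?_
  · rcases a2 _ (BlX.fin e1 e2) k r ![0, t] with x | ⟨cB, x1, x2⟩
    · exact hS.mono _ _ _ _ _ _ _ _ _ _ (le_max_left _ _) x
    · have x3 := a3 _ (x1 1) _ ![0, cB 1] (BlX.fin e1 e2)
        (Fin.forall_fin_two.2 ⟨by simp, by simp⟩) k r
      have x4 : (fun i => r (![0, cB 1] i)) = ![0, t] := by
        funext i
        fin_cases i
        · simp
        · simpa using (congrFun x2 1).symm
      rw [x4] at x3
      exact hS.mono _ _ _ _ _ _ _ _ _ _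
        (le_max_of_le_right (le_max_of_le_right (Finset.le_sup (f := Mt) (x1 1)))) x3
  · have x3 := a1 _ ![0, 0] (BlX.inf e1 e2) (Fin.forall_fin_two.2 ⟨by simp, by simp⟩) k r
    have x4 : (fun i => r (![0, 0] i)) = ![0, 0] := by
      funext i
      fin_cases i <;> simp
    rw [x4] at x3
    exact hS.mono _ _ _ _ _ _ _ _ _ _ (le_max_of_le_right (le_max_left _ _)) x3

end Pool.Agent.MP_5d9b3c_ag.H59
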