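import Pool.Agent.MP_5d9b3c_ag.H59.Spec

/-!
The number of zeros of a form with no unit coordinate.
-/

namespace Pool.Agent.MP_5d9b3c_ag.H59

open MvPolynomial

namespace CBX

theorem card_pre {A B : Type} [AddCommGroup A] [AddCommGroup B] (φ : A →+ B)
    (h : Function.Surjective φ) (P : B → Prop) :
    Nat.card {x // P (φ x)} = Nat.card {y // P y} * Nat.card φ.ker := by
  have hs := Function.surjInv_eq h
  have hk : ∀ z : φ.ker, φ z = 0 := fun z => z.2
  rw [← Nat.card_prod]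
  refine Nat.card_congr ⟨fun x => (⟨φ x, x.2⟩, ⟨x - Function.surjInv h (φ x), by simp [hs]⟩),
    fun z => ⟨Function.surjInv h z.1 + z.2, by simpa [hs, hk] using z.1.2⟩, fun x => by simp,
    fun z => ?_⟩
  simp [hs, hk]

/-- multiplication by `p` -/
def mu (p m : ℕ) (a : ZMod (p ^ m)) : ZMod (p ^ (m + 1)) := p * (a.val : ℕ)

variable {p : ℕ} (hp : p.Prime)
include hp

theorem mu_inj (m : ℕ) : Function.Injective (mu p m) := by
  intro a b h
  have : NeZero (p ^ m) := ⟨pow_ne_zero _ hp.ne_zero⟩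
  rw [mu, mu, ← Nat.cast_mul, ← Nat.cast_mul, ZMod.natCast_eq_natCast_iff] at h
  have h1 : p * a.val ≡ p * b.val [MOD p * p ^ m] := by rwa [← pow_succ']
  have h2 := (ZMod.natCast_eq_natCast_iff _ _ _).2 (Nat.ModEq.mul_left_cancel' hp.ne_zero h1)
  rwa [ZMod.natCast_zmod_val, ZMod.natCast_zmod_val] at h2

theorem mu_range (m : ℕ) (z : ZMod (p ^ (m + 1))) : ¬ IsUnit z ↔ ∃ a, mu p m a = z := by
  have : NeZero (p ^ (m + 1)) := ⟨pow_ne_zero _ hp.ne_zero⟩
  constructor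
  · intro h
    rw [← ZMod.natCast_zmod_val z, ZMod.isUnit_iff_coprime, Nat.coprime_pow_right_iff m.succ_pos,
      Nat.coprime_comm, hp.coprime_iff_not_dvd, not_not] at h
    obtain ⟨t, ht⟩ := h
    refine ⟨t, ?_⟩
    rw [← ZMod.natCast_zmod_val z, ht, mu, ← Nat.cast_mul, ZMod.natCast_eq_natCast_iff,
      ZMod.val_natCast]
    have h1 := (Nat.mod_modEq t (p ^ m)).mul_left' p
    rwa [← pow_succ'] at h1
  · rintro ⟨a, rfl⟩ h
    have h1 := isUnit_of_mul_isUnit_left h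
    rw [ZMod.isUnit_iff_coprime, Nat.coprime_pow_right_iff m.succ_pos, Nat.coprime_self] at h1
    exact hp.ne_one h1

omit hp in
theorem cast_e3 {n : ℕ} (v : Fin 3 → ℕ) (f : P3) :
    ((e3 (fun i => (v i : ℤ)) f : ℤ) : ZMod n) = e3 (fun i => (v i : ZMod n)) f := by
  simpa using e3_map (Int.castRingHom (ZMod n)) (fun i => (v i : ℤ)) f

omit hp in
theorem mu_zero {f : P3} {d : ℕ} (hf : f.IsHomogeneous d) (m : ℕ) (x : Fin 3 → ZMod (p ^ m)) :
    aeval (fun i => mu p m (x i)) f = 0 ↔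
      (p : ℤ) ^ (m + 1) ∣ (p : ℤ) ^ d * e3 (fun i => ((x i).val : ℤ)) f := by
  rw [aeval_eq_e3, ← Nat.cast_pow, ← ZMod.intCast_zmod_eq_zero_iff_dvd, Int.cast_mul, cast_e3]
  simp only [mu, e3_hom hf, Int.cast_pow, Int.cast_natCast]

theorem card_mu (f : P3) (m : ℕ) :
    Nat.card {x : Fin 3 → ZMod (p ^ (m + 1)) // aeval x f = 0 ∧ ¬ ∃ i, IsUnit (x i)} =
      Nat.card {x : Fin 3 → ZMod (p ^ m) // aeval (fun i => mu p m (x i)) f = 0} := by
  refine (Nat.card_congr (Equiv.ofBijective (fun x => ⟨fun i => mu p m (x.1 i), x.2,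
    fun ⟨i, hi⟩ => (mu_range hp m _).2 ⟨_, rfl⟩ hi⟩) ⟨fun x y h => ?_, fun x => ?_⟩)).symm
  · exact Subtype.ext (funext fun i => mu_inj hp m (congrFun (congrArg Subtype.val h) i))
  · choose a ha using fun i => (mu_range hp m (x.1 i)).1 fun h => x.2.2 ⟨i, h⟩
    have h1 : (fun i => mu p m (a i)) = x.1 := funext ha
    exact ⟨⟨a, by rw [h1]; exact x.2.1⟩, Subtype.ext h1⟩

theorem card_all (m : ℕ) : Nat.card {_x : Fin 3 → ZMod (p ^ m) // True} = p ^ (3 * m) := by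
  have : NeZero (p ^ m) := ⟨pow_ne_zero _ hp.ne_zero⟩
  simp [← pow_mul, mul_comm]

end CBX

open CBX in
theorem rowCB : SCB := by
  intro f d p m hp hf
  rw [card_mu hp]
  simp only [mu_zero hf]
  split_ifs with h
  · rw [← card_all hp m]
    exact Nat.card_congr (Equiv.subtypeEquivRight fun x =>
      iff_true_intro ((pow_dvd_pow _ (Nat.succ_le_succ h)).mul_right _))
  obtain ⟨e, rfl⟩ := Nat.exists_eq_add_of_le (not_le.1 h).le
  have : NeZero (p ^ (d + e)) := ⟨pow_ne_zero _ hp.ne_zero⟩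
  have hd : p ^ e ∣ p ^ (d + e) := pow_dvd_pow _ (Nat.le_add_left e d)
  let φ : (Fin 3 → ZMod (p ^ (d + e))) →+ (Fin 3 → ZMod (p ^ e)) :=
    (ZMod.castHom hd (ZMod (p ^ e))).toAddMonoidHom.compLeft (Fin 3)
  have hs : Function.Surjective φ := (ZMod.castHom_surjective hd).comp_left
  have h1 := card_pre φ hs fun _ => True
  rw [card_all hp, card_all hp, mul_add, pow_add, mul_comm] at h1
  rw [Nat.add_sub_cancel_left, cnt, mul_left_cancel₀ (pow_ne_zero _ hp.ne_zero) h1,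
    ← card_pre φ hs fun y => aeval y f = 0]
  refine Nat.card_congr (Equiv.subtypeEquivRight fun x => ?_)
  rw [add_right_comm, pow_add, mul_dvd_mul_iff_left (pow_ne_zero _ (by exact_mod_cast hp.ne_zero)),
    ← Nat.cast_pow, ← ZMod.intCast_zmod_eq_zero_iff_dvd, cast_e3, aeval_eq_e3]
  have h2 : φ x = fun i => ((x i).val : ZMod (p ^ e)) := funext fun i => by simp [φ]
  rw [h2]

end Pool.Agent.MP_5d9b3c_ag.H59
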