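import Pool.Agent.MP_5d9b3c_ag.H59.Spec

/-!
The Poincare series of a ternary form and of its three scaled charts.
-/

namespace Pool.Agent.MP_5d9b3c_ag.H59

open MvPolynomial

namespace CCX

theorem cnt_zero {σ : Type} (g : MvPolynomial σ ℤ) (p : ℕ) : cnt g p 0 = 1 := by
  have : Subsingleton (ZMod (p ^ 0)) := ZMod.subsingleton_iff.2 (pow_zero p)
  exact Nat.card_eq_one_iff_unique.2 ⟨inferInstance, ⟨⟨0, Subsingleton.elim _ _⟩⟩⟩

theorem coeff_eq {n : ℕ} (g : MvPolynomial (Fin n) ℤ) (p m : ℕ) :
    PowerSeries.coeff m (H72.poincare g p) = cnt g p m * (((p : ℚ) ^ n)⁻¹) ^ m := by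
  simp [H72.poincare, cnt]

theorem card_split {α : Type} [Finite α] (P Q : α → Prop) :
    Nat.card {x // P x} = Nat.card {x // P x ∧ Q x} + Nat.card {x // P x ∧ ¬ Q x} := by
  classical
  rw [← Nat.card_sum]
  exact Nat.card_congr ((Equiv.sumCompl fun x : {x // P x} => Q x.1).symm.trans
    ((Equiv.subtypeSubtypeEquivSubtypeInter P Q).sumCongr
      (Equiv.subtypeSubtypeEquivSubtypeInter P fun x => ¬ Q x)))

end CCX

open CCX in
theorem rowCC : OfCC := by
  intro hA hB f d p hp hf hd
  obtain ⟨d, rfl⟩ : ∃ e, d = e + 1 := ⟨d - 1, by omega⟩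
  have p0 : (p : ℚ) ≠ 0 := Nat.cast_ne_zero.2 hp.ne_zero
  ext n
  simp only [sub_mul, one_mul, mul_assoc, map_sub, map_add, PowerSeries.coeff_C_mul,
    PowerSeries.coeff_X_pow_mul', map_sum, PowerSeries.coeff_X_pow, coeff_eq,
    Finset.sum_ite_eq, Finset.mem_range]
  cases n with
  | zero =>
    simp only [cnt_zero]
    rw [if_neg (by omega), if_pos (by omega)]
    field_simp
    ring
  | succ m =>
    have : NeZero (p ^ (m + 1)) := ⟨pow_ne_zero _ hp.ne_zero⟩
    have h1 := hA f _ p m hp hf
    have h2 := hB f d p m hp hf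
    have h3 : cnt f p (m + 1) = _ := card_split (α := Fin 3 → ZMod (p ^ (m + 1)))
      (fun x => aeval x f = 0) fun x => ∃ i, IsUnit (x i)
    rw [h3, h2, Nat.cast_add, eq_div_of_mul_eq (pow_ne_zero 2 p0) ((mul_comm _ _).trans h1)]
    rcases lt_or_ge m d with h | h
    · rw [if_pos h.le, if_neg (by omega), if_pos (by omega)]
      simp only [inv_pow, ← pow_mul]
      push_cast
      field_simp
      ring
    · obtain ⟨e, rfl⟩ := Nat.exists_eq_add_of_le h
      have h4 : (if d + e ≤ d then p ^ (3 * (d + e)) else cnt f p (d + e - d) * p ^ (3 * d)) =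
          cnt f p e * p ^ (3 * d) := by
        split_ifs with h5
        · obtain rfl : e = 0 := by omega
          simp [cnt_zero]
        · rw [Nat.add_sub_cancel_left]
      rw [h4, if_pos (by omega), if_neg (by omega), show d + e + 1 - (d + 1) = e by omega]
      simp only [inv_pow, ← pow_mul]
      push_cast
      field_simp
      ring

end Pool.Agent.MP_5d9b3c_ag.H59
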