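import Pool.Agent.MP_5d9b3c_ag.H59.Spec

/-!
A function on a curve which vanishes at the poles of a nonconstant function.
-/

namespace Pool.Agent.MP_5d9b3c_ag.H59

open Polynomial

namespace CVX

variable {k K : Type} [Field k] [IsAlgClosed k] [Field K] [Algebra k K] {V : ValuationSubring K}

theorem val_one (hV : HasK k V) {t : K} (ht : ∀ c : k, V.valuation (t - algebraMap k K c) = 1)
    {a : k[X]} (ha : a ≠ 0) : V.valuation (aeval t a) = 1 := by
  rw [(IsAlgClosed.splits a).eq_prod_roots, map_mul, map_mul, aeval_C,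
    hV.val (leadingCoeff_ne_zero.2 ha), one_mul, map_multiset_prod, map_multiset_prod]
  refine Multiset.prod_eq_one fun x hx => ?_
  simp only [Multiset.map_map, Multiset.mem_map] at hx
  obtain ⟨c, -, rfl⟩ := hx
  simpa using ht c

theorem pl1 (hP : SPL k K) (V : ValuationSubring K) (τ : K) (hV : HasK k V)
    (h : ∀ c : k, V.valuation (τ - algebraMap k K c) = 1) : ∃ W, W ≤ V ∧ ResK k W ∧ τ ∉ W := by
  have h0 : V.valuation τ = 1 := by simpa using h 0
  have t0 : τ ≠ 0 := by
    rintro rfl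
    simp at h0
  have ht : ∀ c : k, V.valuation (τ⁻¹ - algebraMap k K c) = 1 := fun c => by
    rcases eq_or_ne c 0 with rfl | hc
    · simp [h0]
    have hc' : algebraMap k K c ≠ 0 := (_root_.map_ne_zero _).2 hc
    have e : τ⁻¹ - algebraMap k K c = -(algebraMap k K c * τ⁻¹ * (τ - algebraMap k K c⁻¹)) := by
      rw [map_inv₀]
      field_simp
      ring
    rw [e, Valuation.map_neg, map_mul, map_mul, h, hV.val hc, map_inv₀, h0]
    simp
  obtain ⟨W, h1, h2, h3⟩ := hP k[X] (aeval τ⁻¹) (aeval 0) V (fun a => by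
      rcases eq_or_ne a 0 with rfl | ha
      · simp
      · exact (V.valuation_le_one_iff _).1 (val_one hV ht ha).le) fun a ha => by
    rcases eq_or_ne a 0 with rfl | h1
    · simp
    · exact absurd (val_one hV ht h1) ha.ne
  refine ⟨W, h1, h2, fun h4 => ?_⟩
  have h5 := h3 X
  rw [aeval_X, aeval_X, map_zero, sub_zero, map_inv₀,
    inv_lt_one₀ (by simpa [pos_iff_ne_zero] using t0)] at h5
  exact not_lt.2 ((W.valuation_le_one_iff _).2 h4) h5

end CVX

theorem rowCV : OfCV := by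
  intro k K _ _ _ _ hP
  refine ⟨CVX.pl1 hP, fun V τ ψ hV hψ hτ h => ?_⟩
  by_cases h1 : ∀ c : k, V.valuation (ψ - algebraMap k K c) = 1
  · obtain ⟨W, w1, w2, w3⟩ := CVX.pl1 hP V ψ hV h1
    exact absurd (h W w1 w2).1 w3
  obtain ⟨c, hc⟩ := not_forall.1 h1
  have h2 := lt_of_le_of_ne ((V.valuation_le_one_iff _).2 (sub_mem hψ (hV c))) hc
  rcases eq_or_ne c 0 with rfl | c0
  · simpa using h2
  obtain ⟨W, w1, w2, w3⟩ := CVX.pl1 hP V τ hV hτ
  have h3 := W.valuation.map_sub_lt ((h W w1 w2).2 w3) (val_lt_of_le w1 h2)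
  rw [sub_sub_cancel, w2.1.val c0] at h3
  exact absurd h3 (lt_irrefl _)

end Pool.Agent.MP_5d9b3c_ag.H59
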