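import Pool.Agent.MP_5d9b3c_ag.H59.Spec

/-!
Comparison of the Frobenius liftings at two leaves.
-/

namespace Pool.Agent.MP_5d9b3c_ag.H59

namespace CmpX

variable {k K R : Type} [Field k] [Field K] [Algebra k K] [CommRing R] {l : ℕ}
  (W : W2 k K R l) (B : Bx k K)

theorem rd_XT (t : Fin 3) : W.rd (W.XT B t) = B.XX t := by
  fin_cases t <;> simp [W2.XT, W.rd_te]

theorem XT_unit (t : Fin 3) : IsUnit (W.XT B t) := W.unit _ (by rw [rd_XT]; exact B.XX_ne t)

variable {W B}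

theorem rd_Y {Y : Fin 3 → Fin 3 → R} (h : ∀ i t, Y i t * W.XT B i = W.XT B t) (i t : Fin 3) :
    W.rd (Y i t) = B.XX t / B.XX i := by
  rw [eq_div_iff (B.XX_ne i), ← rd_XT W B i, ← map_mul, h, rd_XT]

theorem Y_mul {Y : Fin 3 → Fin 3 → R} (h : ∀ i t, Y i t * W.XT B i = W.XT B t) (i i' t : Fin 3) :
    Y i' t = Y i' i * Y i t := by
  refine (XT_unit W B i').mul_right_cancel ?_
  rw [h, mul_right_comm, h, mul_comm, h]

/-- the logarithmic defect -/
noncomputable def dg (W : W2 k K R l) (B : Bx k K) (Z : Fin 2 → R) (a : R) : K :=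
  W.del B Z a / W.rd a ^ l

theorem dg_mul (hI : SIn k K R l) (Z : Fin 2 → R) {a b : R} (ha : W.rd a ≠ 0)
    (hb : W.rd b ≠ 0) : dg W B Z (a * b) = dg W B Z a + dg W B Z b := by
  simp only [dg, hI.mul, map_mul, mul_pow]
  field_simp
  ring

theorem dg_pow (hI : SIn k K R l) (Z : Fin 2 → R) {a : R} (ha : W.rd a ≠ 0) (n : ℕ) :
    dg W B Z (a ^ n) = n * dg W B Z a := by
  induction n with
  | zero =>
    have h := dg_mul (W := W) (B := B) hI Z (a := 1) (b := 1) (by simp) (by simp)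
    rw [mul_one] at h
    simpa using h
  | succ n ih =>
    rw [pow_succ, dg_mul hI Z (by rw [map_pow]; exact pow_ne_zero _ ha) ha, ih]
    push_cast
    ring

theorem ne_of_val {V : ValuationSubring K} {u : K} (h : V.valuation u = 1) : u ≠ 0 := by
  rintro rfl
  simp at h

theorem dg_mem {Z : Fin 2 → R} {V : ValuationSubring K} {a : R} (h : W.InS B Z V a)
    (hv : V.valuation (W.rd a) = 1) : dg W B Z a ∈ V := by
  refine mem_of_val_le ?_ h.2
  rw [dg, map_div₀, map_pow, hv, one_pow, div_one]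

theorem dg_three (hI : SIn k K R l) (Z : Fin 2 → R) {q a b : R} (hq : W.rd q ≠ 0)
    (ha : W.rd a ≠ 0) (hb : W.rd b ≠ 0) (m n : ℕ) :
    dg W B Z (q * a ^ m * b ^ n) = dg W B Z q + m * dg W B Z a + n * dg W B Z b := by
  have h1 : W.rd (a ^ m) ≠ 0 := by rw [map_pow]; exact pow_ne_zero _ ha
  have h2 : W.rd (b ^ n) ≠ 0 := by rw [map_pow]; exact pow_ne_zero _ hb
  rw [dg_mul hI Z (by rw [map_mul]; exact mul_ne_zero hq h1) h2, dg_mul hI Z hq h1,
    dg_pow hI Z ha, dg_pow hI Z hb]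

theorem self_in (hI : SIn k K R l) {N : Nm} {Y : Fin 3 → R} {y : K × K} {i : Fin 3}
    {Z : Fin 2 → R} {a : Fin 2 → ℕ} (h : W.LeafR B N Y y i Z a) {V : ValuationSubring K}
    (hV : Thru k y V) (j : Fin 2) : W.InS B Z V (Z j) :=
  ⟨hV.1 _ (h.leaf.mem j), by rw [hI.self W B Z j h.leaf.jac]; exact zero_mem V⟩

theorem cancel {V : ValuationSubring K} (hK : HasK k V) [CharP K l] {n : ℕ} (h0 : 0 < n)
    (h1 : n < l) {u : K} (h : n * u ∈ V) : u ∈ V := by
  have h2 : (n : K) ≠ 0 := fun h3 =>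
    absurd (Nat.le_of_dvd h0 ((CharP.cast_eq_zero_iff K l n).1 h3)) (not_le.2 h1)
  have h4 := mul_mem (hK (n : k)⁻¹) h
  rwa [map_inv₀, map_natCast, inv_mul_cancel_left₀ h2] at h4

end CmpX

open CmpX

theorem rowCmp : OfCmp := by
  intro k K _ _ _ _ R _ l hl hc hL hI W B N Y L Z a hM F
  refine ⟨F.cov, fun p y hy => (F.leaf p y hy).leaf, fun p y j D hy => (F.leaf p y hy).nice j D,
    fun p y p' y' V j hy hy' hV hV' => ?_, fun c y V j hy hV hV' => ?_⟩
  · have f := F.leaf p y hy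
    have f' := F.leaf p' y' hy'
    obtain ⟨he, hY⟩ := F.pair p y hy p' y' hy' V hV hV'
    have hin : ∀ j, W.InS B (Z p y) V (Z p' y' j) := fun j => (he _).2 (self_in hI f' hV' j)
    change W.del B (Z p y) (Z p' y' j) / W.rd (Z p' y' j) ^ (l * min (a p' y' j) 1) ∈ V
    rcases Nat.eq_zero_or_pos (a p' y' j) with h0 | h0
    · simpa [h0] using (hin j).2
    rw [min_eq_right h0, mul_one]
    change dg W B (Z p y) (Z p' y' j) ∈ V
    rcases ((V.valuation_le_one_iff _).2 (hin j).1).eq_or_lt with h1 | h1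
    · exact dg_mem (hin j) h1
    have h2 := (hL.unif B N y' _ _ _ V j f'.leaf hV' h1).2
    obtain ⟨q, q1, q2, q3⟩ := f.fac V hV
    obtain ⟨q', q1', q2', q3'⟩ := f'.fac V hV'
    have nz : ∀ j, W.rd (Z p y j) ≠ 0 := (hL.nz B N y _ _ _ f.leaf).2
    have nz' : ∀ j, W.rd (Z p' y' j) ≠ 0 := (hL.nz B N y' _ _ _ f'.leaf).2
    have hv : V.valuation (W.rd (Y (chi p') (chi p))) = 1 := by
      rw [rd_Y F.hY]
      exact (f.leaf.mxV hV.1).val_eq (f'.leaf.mxV hV'.1)
    have e1 : e3 (Y (chi p')) (N.f * N.h) =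
        Y (chi p') (chi p) ^ (N.d + N.κ) * e3 (Y (chi p)) (N.f * N.h) := by
      rw [← e3_hom (N.hf.mul N.hh)]
      congr 2
      funext t
      exact Y_mul F.hY _ _ t
    have z0 : ∀ j, dg W B (Z p y) (Z p y j) = 0 := fun j => by
      rw [dg, hI.self W B _ j f.leaf.jac, zero_div]
    have e2 := congrArg (dg W B (Z p y)) e1
    rw [q3, q3', dg_three hI _ (ne_of_val q2') (nz' 0) (nz' 1), dg_mul hI _
      (by rw [map_pow]; exact pow_ne_zero _ (ne_of_val hv))
      (by simp [ne_of_val q2, nz]), dg_pow hI _ (ne_of_val hv),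
      dg_three hI _ (ne_of_val q2) (nz 0) (nz 1), z0, z0, mul_zero, mul_zero, add_zero,
      add_zero] at e2
    have m1 : ((N.d + N.κ : ℕ) : K) * dg W B (Z p y) (Y (chi p') (chi p)) + dg W B (Z p y) q -
        dg W B (Z p y) q' ∈ V :=
      sub_mem (add_mem (mul_mem (natCast_mem V _) (dg_mem hY hv)) (dg_mem q1 q2))
        (dg_mem ((he _).2 q1') q2')
    rw [← e2, add_assoc, add_sub_cancel_left] at m1
    refine cancel hV.1.hasK h0 ((f'.leaf.le j).trans_lt hM) ?_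
    fin_cases j
    · have m2 := mul_mem (natCast_mem V (a p' y' 1)) (dg_mem (hin 1) (h2 1 (by decide)))
      simpa using sub_mem m1 m2
    · have m2 := mul_mem (natCast_mem V (a p' y' 0)) (dg_mem (hin 0) (h2 0 (by decide)))
      simpa using sub_mem m1 m2
  · have h := ((F.aff c y hy V hV hV' _).2 (self_in hI (F.leaf _ y hy) hV j)).2
    simpa [W2.del, W.dl_te] using h

end Pool.Agent.MP_5d9b3c_ag.H59
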