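import Pool.Agent.MP_5d9b3c_ag.H59.Spec

/-!
The core of the argument in positive characteristic.
-/

namespace Pool.Agent.MP_5d9b3c_ag.H59

open MvPolynomial

namespace CoreX

variable {k K : Type} [Field k] [Field K] [Algebra k K]

theorem nab_sub (B : Bx k K) (N : Nm) (lam : k) (D : Derivation k K K) (u v : K) :
    B.nab N lam D (u - v) = B.nab N lam D u - B.nab N lam D v := by
  simp only [Bx.nab, map_sub]
  ring

theorem nab_neg (B : Bx k K) (N : Nm) (lam : k) (D : Derivation k K K) (u : K) :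
    B.nab N lam D (-u) = -B.nab N lam D u := by
  simp only [Bx.nab, map_neg]
  ring

theorem nab_span (h : SDer k K) (B : Bx k K) (N : Nm) (lam : k) (D : Derivation k K K) (u : K) :
    B.nab N lam D u = B.nab N lam B.Dx u * D B.x + B.nab N lam B.Dy u * D B.y := by
  simp only [Bx.nab]
  rw [h.span0 B D u, h.span0 B D (B.hat 0 N.f)]
  ring

theorem bdd {B : Bx k K} {N : Nm} (hN : B.Nz N) {V : ValuationSubring K} (hV : B.Mx V 0) {u : K}
    (h : B.Lam N 1 V u) : B.hat 0 N.h * u ∈ V := by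
  obtain ⟨m, hm⟩ : ∃ m, N.m = m + 1 := ⟨N.m - 1, by have := N.m0; omega⟩
  have h1 := mul_mem (hV.lam_iff.1 h)
    (mul_mem (pow_mem (hV.hat_mem N.f) N.m) (pow_mem (hV.hat_mem N.h) m))
  rw [← pow_mem_iff N.m0.ne']
  convert h1 using 1
  have := hN.1
  rw [hm, Bx.XX0]
  field_simp
  ring

end CoreX

open CoreX in
theorem rowCore : OfCore := by
  intro k K _ _ _ _ _ tw dv der lg su cu loc tc B N lam l K0 L z a hc hl hd hN cov lf
    ⟨A, A', ψ, A0, A0', b0, hb, hW⟩ h1 hη
  have hM : N.M < l := lt_of_le_of_lt (Nat.le_mul_of_pos_left _ (by omega)) hl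
  choose g g1 g3 using fun p => tc B N lam l K0 _ p (L p) (z p) (a p) _ _ hc hl hd (cov p) (lf p)
    fun y hy => loc B N lam l K0 y _ _ _ _ _ _ hc hM hd (lf p y hy) (hW (chi p)).1
  have g2 : ∀ p y V D, y ∈ L p → Thru k y V → B.Log N V D →
      B.Lam N 1 V (A0 * D B.y - A0' * D B.x - B.nab N lam D (g p y)) := by
    intro p y V D hy hV hD
    have := (g1 p y hy V hV).2 D hD
    rwa [(hW _).2.1, (hW _).2.2.1] at this
  obtain ⟨G, hG⟩ := h1 g (by
    intro p y p' y' V hy hy' hV hV'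
    by_cases e : p = p'
    · subst e
      exact g3 p y hy y' hy' V hV hV'
    obtain ⟨s1, m1⟩ := tw.mxl B L p y V cov hy hV.1
    obtain ⟨s2, m2⟩ := tw.mxl B L p' y' V cov hy' hV'.1
    refine su.u2 B N lam l (K0 + 1) p y _ _ V _ hc hl hd (lf p y hy) hV (tw.twor B p p' V e s1 s2)
      ?_ fun D hD => ?_
    · rw [mul_sub]
      refine Bx.Lg.sub (g1 p y hy V hV).1 (Bx.Lg.mono (g1 p' y' hy' V hV').1 (le_of_eq ?_))
      rw [B.hat_eq N.hf (chi p') (chi p)]
      simp only [map_mul, map_pow, m2.val_eq m1, one_pow, one_mul]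
    · have := Bx.Lg.sub (g2 p' y' V D hy' hV' hD) (g2 p y V D hy hV hD)
      rw [sub_sub_sub_cancel_left] at this
      rw [nab_sub]
      exact this) (by
    have e : ev k (B.x, B.y) (e3 ![1, X 0, X 1] N.h * e3 ![1, X 0, X 1] N.f ^ (K0 + 1)) =
        B.hat 0 N.h * B.hat 0 N.f ^ (K0 + 1) := by
      rw [map_mul, map_pow, B.ev_cht, B.ev_cht]
    refine ⟨e3 ![1, X 0, X 1] N.h * e3 ![1, X 0, X 1] N.f ^ (K0 + 1), fun h0 => ?_,
      fun c y V hy hV _ => ?_⟩
    · rw [h0, map_zero] at e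
      exact mul_ne_zero hN.2 (pow_ne_zero _ hN.1) e.symm
    · rw [e, mul_assoc]
      exact bdd hN (tw.mxl B L _ y V cov hy hV.1).2 (g1 _ y hy V hV).1)
  have h2 := hη (-A0' - B.nab N lam B.Dx G, A0 - B.nab N lam B.Dy G) fun p y V D hy hV hD => by
    have := Bx.Lg.add (g2 p y V D hy hV hD) (lg.stn B N lam V D _ hN hd hV.1.hasK
      (dv.dv y V (lf p y hy).fr hV) hD (hG p y V hy hV))
    rw [nab_sub, nab_span der B N lam D G] at this
    refine Bx.Lg.mono this (le_of_eq (congrArg _ ?_))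
    ring
  have h3 : A0' = -B.nab N lam B.Dx G := by
    have := congrArg Prod.fst h2
    simp only [Prod.fst_zero] at this
    linear_combination -this
  have h4 : A0 = B.nab N lam B.Dy G := sub_eq_zero.1 (congrArg Prod.snd h2)
  have h5 := congrArg (fun u => u.coeff 0) (hW 0).1.eq
  simp only [Polynomial.coeff_add, Bx.coeff_nabP_zero] at h5
  rw [(hW 0).2.1, (hW 0).2.2.1, (hW 0).2.2.2, h3, h4, nab_neg, cu.flat0, add_neg_cancel] at h5
  exact hb ((map_eq_zero _).1 h5.symm)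

end Pool.Agent.MP_5d9b3c_ag.H59
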