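import Pool.Agent.MP_5d9b3c_ag.H59.Spec

/-!
Formal identities for the connection with a parameter.
-/

namespace Pool.Agent.MP_5d9b3c_ag.H59

open Polynomial

namespace CurlX

variable {k K : Type} [Field k] [Field K] [Algebra k K] (B : Bx k K) (N : Nm) (lam : k) (i : Fin 3)

/-- the connection form -/
noncomputable def om (D : Derivation k K K) : K[X] :=
  X * C (D (B.hat i N.f) / B.hat i N.f) - C (algebraMap k K lam) * C (D (B.hat 0 N.f) / B.hat 0 N.f)

theorem nab_eq (D : Derivation k K K) (u : K[X]) :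
    B.nabP N lam i D u = pD D u + om B N lam i D * u := by
  rw [Bx.nabP, om, C_mul]
  ring

theorem pD_mul (D : Derivation k K K) (u v : K[X]) : pD D (u * v) = u * pD D v + v * pD D u := by
  rw [Derivation.leibniz, smul_eq_mul, smul_eq_mul]

theorem lin {D D0 D1 : Derivation k K K} {c0 c1 : K} (h : ∀ u, D u = c0 * D0 u + c1 * D1 u)
    (g : K[X]) : B.nabP N lam i D g = C c0 * B.nabP N lam i D0 g + C c1 * B.nabP N lam i D1 g := by
  have e : pD D g = C c0 * pD D0 g + C c1 * pD D1 g := by
    ext n
    rw [coeff_add, coeff_C_mul, coeff_C_mul, coeff_pD, coeff_pD, coeff_pD, h]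
  simp only [nab_eq, om, e, h (B.hat _ _), add_div, mul_div_assoc, C_add, C_mul]
  ring

theorem flat {D D' : Derivation k K K} (h : ∀ u, D (D' u) = D' (D u)) (u : K[X]) :
    B.nabP N lam i D (B.nabP N lam i D' u) = B.nabP N lam i D' (B.nabP N lam i D u) := by
  have e : pD D (pD D' u) = pD D' (pD D u) := by
    ext n
    simp only [coeff_pD, h]
  have e1 : ∀ f : K, D (D' f / f) = D' (D f / f) := fun f => by
    rw [Derivation.leibniz_div, Derivation.leibniz_div, h, smul_eq_mul (D' f), smul_eq_mul (D f),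
      mul_comm (D f)]
  have e2 : pD D (om B N lam i D') = pD D' (om B N lam i D) := by
    simp only [om, map_sub, pD_mul, pD_C, pD_X, e1, Derivation.map_algebraMap, map_zero, mul_zero]
  simp only [nab_eq, map_add, pD_mul, e, e2]
  ring

end CurlX

open CurlX in
theorem rowCurl : OfCurl := by
  intro k K _ _ _ _ hD
  refine ⟨fun B N lam i D D' A A' h => ?_, fun B N lam i D D' u h => flat B N lam i h u,
    fun B N lam u => ?_, fun B N lam i D u u' => ?_, fun B N lam i D P u => ?_,
    fun B N lam i D D0 D1 c0 c1 A A' g h => ⟨lin B N lam i h g, ?_⟩, fun B N V c P u hP hu n => ?_⟩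
  · have e : ∀ (D : Derivation k K K) (A A' : K[X]) (a a' : K),
        B.nabP N lam i D (A * C a - A' * C a') = B.nabP N lam i D A * C a + A * C (D a) -
          (B.nabP N lam i D A' * C a' + A' * C (D a')) := fun D A A' a a' => by
      simp only [nab_eq, map_sub, pD_mul, pD_C]
      ring
    rw [Bx.bt, Bx.bt, e, e, h, h, lin B N lam i (hD.span0 B D), lin B N lam i (hD.span0 B D),
      lin B N lam i (hD.span0 B D'), lin B N lam i (hD.span0 B D'), C_sub, C_mul, C_mul]
    ring
  · have := congrArg (coeff · 0) (flat B N lam 0 (hD.comm B ![B.x, B.y] B.Dx B.Dy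
      (by simp [Bx.jac, B.xx, B.xy, B.yx, B.yy])
      (by simp [Fin.forall_fin_two, B.xx, B.xy, B.yx, B.yy])) (C u))
    simpa only [Bx.coeff_nabP_zero, coeff_C_zero] using this
  · simp only [nab_eq, map_sub]
    ring
  · have e : pD D (P.map (algebraMap k K)) = 0 := by
      ext n
      rw [coeff_pD, coeff_map, Derivation.map_algebraMap, coeff_zero]
    simp only [nab_eq, pD_mul, e]
    ring
  · simp only [Bx.bt, h B.x, h B.y, C_add, C_mul]
    ring
  · beta_reduce
    rw [coeff_mul, Finset.mul_sum]
    refine Bx.Lg.sum N.m0 _ fun x _ => ?_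
    rw [mul_left_comm]
    exact Bx.Lg.mul (hu x.2) (hP x.1)

end Pool.Agent.MP_5d9b3c_ag.H59
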