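import Pool.Agent.MP_5d9b3c_ag.H59.Spec

/-!
Discrete valuation rings.
-/

namespace Pool.Agent.MP_5d9b3c_ag.H59

namespace DVX

variable {K : Type} [Field K] {V : ValuationSubring K} {t z : K}

theorem pos (h : Unif V t) : 0 < V.valuation t := by simpa [pos_iff_ne_zero] using h.1

theorem zle (h : Unif V t) (a b : ℤ) : V.valuation t ^ a ≤ V.valuation t ^ b ↔ b ≤ a :=
  zpow_le_zpow_iff_right_of_lt_one₀ (pos h) h.2.1

theorem lt (h : Unif V t) {n : ℤ} (hz : V.valuation t ^ n < 1) : 1 ≤ n := by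
  by_contra! h1
  have := (zle h 0 n).2 (by omega)
  rw [zpow_zero] at this
  exact not_lt.2 this hz

end DVX

open DVX in
theorem rowDV : OfDV := by
  intro k K _ _ _ _ hS hE
  refine ⟨fun φ V hφ hV => ?_, fun V t z ht hz => ?_, fun V t z ht h0 hz => ?_,
    fun V t a b ht => zle ht a b, fun V z D hV hD h1 hz => ?_⟩
  · rcases hS.st φ V hφ hV with h | ⟨π, hp, -, h⟩
    exacts [Or.inl h, Or.inr ⟨_, hE.unif φ π V hφ hp h⟩]
  · rcases eq_or_ne z 0 with rfl | h0
    · simp
    obtain ⟨n, hn⟩ := ht.2.2 z h0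
    rw [hn] at hz ⊢
    simpa using (zle ht n 1).2 (lt ht hz)
  · obtain ⟨n, hn⟩ := ht.2.2 z h0
    have h := (V.valuation_le_one_iff z).2 hz
    rw [hn, ← zpow_zero (V.valuation t), zle ht] at h
    lift n to ℕ using h
    exact ⟨n, by rw [hn, zpow_natCast]⟩
  · have h0 : z ≠ 0 := by
      rintro rfl
      simp at h1
    rcases hV with h | ⟨t, ht⟩
    · have h2 := (V.valuation_le_one_iff _).2 (h z⁻¹)
      rw [map_inv₀, inv_le_one₀ (by simpa [pos_iff_ne_zero] using h0)] at h2
      exact absurd hz (not_lt.2 h2)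
    obtain ⟨n, hn⟩ := ht.2.2 z h0
    rcases (lt ht (hn ▸ hz)).eq_or_lt with rfl | h2
    · rw [zpow_one] at hn
      exact ⟨h0, hz, fun u hu => hn ▸ ht.2.2 u hu⟩
    have t0 := ht.1
    have ht1 : t ∈ V := (V.valuation_le_one_iff t).1 ht.2.1.le
    have he : z / (t * t) ∈ V := by
      rw [← V.valuation_le_one_iff, map_div₀, map_mul, hn, ← zpow_two]
      exact div_le_one_of_le₀ ((zle ht n 2).2 h2) zero_le
    have e : (1 : K) = t * (t * D (z / (t * t)) + (z / (t * t) + z / (t * t)) * D t) := by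
      have e1 : z = t * t * (z / (t * t)) := by field_simp
      rw [← h1]
      conv_lhs => rw [e1]
      simp only [Derivation.leibniz, smul_eq_mul]
      ring
    have h3 := (V.valuation_le_one_iff _).2 (add_mem (mul_mem ht1 (hD _ he))
      (mul_mem (add_mem he he) (hD _ ht1)))
    have h4 := congrArg V.valuation e
    rw [map_one, map_mul] at h4
    exact absurd ((mul_le_of_le_one_right' h3).trans_lt ht.2.1) (by rw [← h4]; exact lt_irrefl _)

end Pool.Agent.MP_5d9b3c_ag.H59
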