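import Pool.Agent.MP_5d9b3c_ag.H59.Spec

/-!
Dehomogenisation of the functional equation.
-/

namespace Pool.Agent.MP_5d9b3c_ag.H59

open MvPolynomial

namespace DehX

/-- `Φ n` is the value at `g ^ (n + 1)` of an operator that depends polynomially on `n` -/
def Good (g : P2 ℂ) (Φ : ℕ → P2 ℂ) : Prop :=
  ∃ P : Polynomial (H72.weyl (Fin 2)), ∀ n : ℕ,
    Φ n = (P.eval (n : H72.weyl (Fin 2))).1 (g ^ (n + 1))

variable {g : P2 ℂ} {Φ Ψ : ℕ → P2 ℂ}

theorem Good.add (h : Good g Φ) (h' : Good g Ψ) : Good g fun n => Φ n + Ψ n := by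
  obtain ⟨P, h⟩ := h
  obtain ⟨Q, h'⟩ := h'
  exact ⟨P + Q, fun n => by simp [h, h']⟩

theorem Good.op (h : Good g Φ) {Q : Module.End ℂ (P2 ℂ)} (hQ : Q ∈ H72.weyl (Fin 2)) :
    Good g fun n => Q (Φ n) := by
  obtain ⟨P, h⟩ := h
  exact ⟨Polynomial.C ⟨Q, hQ⟩ * P, fun n => by simp [h]⟩

theorem Good.nat (h : Good g Φ) : Good g fun n => (n : P2 ℂ) * Φ n := by
  obtain ⟨P, h⟩ := h
  exact ⟨P * Polynomial.X, fun n => by
    beta_reduce
    rw [Polynomial.eval_mul_X, h, ← nsmul_eq_mul, ← map_nsmul]
    simp⟩

theorem mulL_mem (p : P2 ℂ) : LinearMap.mulLeft ℂ p ∈ H72.weyl (Fin 2) := by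
  induction p using MvPolynomial.induction_on with
  | C a =>
    convert (H72.weyl (Fin 2)).algebraMap_mem a using 1
    exact LinearMap.ext fun q => by simp [smul_eq_C_mul]
  | add p q hp hq =>
    convert add_mem hp hq using 1
    exact LinearMap.ext fun q => by simp [add_mul]
  | mul_X p i hp =>
    convert mul_mem hp (Algebra.subset_adjoin (Or.inl ⟨i, rfl⟩)) using 1
    exact LinearMap.ext fun q => by simp

theorem Good.mul (h : Good g Φ) (p : P2 ℂ) : Good g fun n => p * Φ n := h.op (mulL_mem p)

theorem Good.der (h : Good g Φ) (j : Fin 2) : Good g fun n => pderiv j (Φ n) :=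
  h.op (Algebra.subset_adjoin (Or.inr ⟨j, rfl⟩))

theorem Good.pow (h : Good g Φ) (t : ℕ) : Good g fun n => (n : P2 ℂ) ^ t * Φ n := by
  induction t with
  | zero => simpa using h
  | succ t ih => simpa only [pow_succ', mul_assoc] using ih.nat

theorem Good.congr (h : Good g Φ) (e : ∀ n, Ψ n = Φ n) : Good g Ψ := by
  rwa [funext e]

theorem Good.out {b : Polynomial ℂ} (h : Good g fun n => b.eval (n : ℂ) • g ^ n) :
    H72.IsBFunction g b := by
  obtain ⟨P, h⟩ := h
  refine ⟨P.natDegree + 1, fun t => P.coeff t, fun t => (P.coeff t).2, fun n => ?_⟩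
  refine Eq.trans ?_ (h n).symm
  rw [Polynomial.eval_eq_sum_range, AddSubmonoidClass.coe_finsetSum, LinearMap.sum_apply]
  refine Finset.sum_congr rfl fun t _ => ?_
  rw [← Nat.cast_pow, ← Nat.cast_pow, Nat.cast_smul_eq_nsmul, ← map_nsmul]
  generalize n ^ t = m
  simp

theorem der_comm (u : MvPolynomial (Fin 3) ℂ) (j l : Fin 3) :
    pderiv l (pderiv j u) = pderiv j (pderiv l u) := by
  induction u using MvPolynomial.induction_on with
  | C a => simp
  | add p q hp hq => simp [hp, hq]
  | mul_X p i hp =>
    simp only [Derivation.leibniz, map_add, smul_eq_mul, hp, pderiv_X, Pi.single_apply]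
    split_ifs <;> simp <;> ring

/-- Euler's identity for the value of a word -/
theorem euler {u : MvPolynomial (Fin 3) ℂ} {e : ℕ} (hu : u.IsHomogeneous e) (w : Word) :
    ∑ l, X l * pderiv l (act w u) = ((e : MvPolynomial (Fin 3) ℂ) + wgt w) * act w u := by
  induction w with
  | nil => simpa [act, wgt] using hu.sum_X_mul_pderiv
  | cons a w ih =>
    rcases a with j | j
    · have h : ∑ l, X l * (act w u * pderiv l (X j)) = X j * act w u := by
        rw [Finset.sum_eq_single j (fun b _ hb => by simp [Pi.single_eq_of_ne' hb]) (by simp)]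
        simp
      simp only [act, wgt, Derivation.leibniz, smul_eq_mul, mul_add, Finset.sum_add_distrib, h,
        mul_left_comm _ (X j : MvPolynomial (Fin 3) ℂ), ← Finset.mul_sum, ih]
      push_cast
      ring
    · have h : ∑ l, pderiv l (act w u) * pderiv j (X l) = pderiv j (act w u) := by
        rw [Finset.sum_eq_single j (fun b _ hb => by simp [Pi.single_eq_of_ne hb]) (by simp)]
        simp
      have h1 := congrArg (pderiv j) ih
      simp only [map_sum, Derivation.leibniz, smul_eq_mul, Finset.sum_add_distrib, h, map_add,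
        Derivation.map_natCast, Derivation.map_intCast] at h1
      simp only [act, wgt, der_comm _ j]
      push_cast
      linear_combination h1

theorem chain (v : Fin 3 → P2 ℂ) (u : MvPolynomial (Fin 3) ℂ) (j : Fin 2) :
    pderiv j (aeval v u) = ∑ l, aeval v (pderiv l u) * pderiv j (v l) := by
  induction u using MvPolynomial.induction_on with
  | C a => simp
  | add p q hp hq => simp only [map_add, hp, hq, add_mul, Finset.sum_add_distrib]
  | mul_X p l hp =>
    simp only [map_mul, aeval_X, Derivation.leibniz, hp, smul_eq_mul, map_add, pderiv_X, add_mul,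
      Finset.sum_add_distrib, Finset.mul_sum, mul_assoc]
    congr 1
    rw [Finset.sum_eq_single l (fun b _ hb => by simp [Pi.single_eq_of_ne' hb]) (by simp)]
    simp

end DehX

open DehX in
theorem rowDeh : SDeh := by
  intro F d b ws i c hF ⟨_, hw⟩ hc
  generalize hv : (i.insertNth (α := fun _ => P2 ℂ) 1 fun j => C (c j) * X j) = v
  have v0 : v i = 1 := by rw [← hv, Fin.insertNth_apply_same]
  have v1 : ∀ j, v (i.succAbove j) = C (c j) * X j := fun j => by
    rw [← hv, Fin.insertNth_apply_succAbove]
  have h1 : ∀ u j, pderiv j (aeval v u) = C (c j) * aeval v (pderiv (i.succAbove j) u) :=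
    fun u j => by
    rw [chain, Fin.sum_univ_succAbove _ i, v0, Finset.sum_eq_single j
      (fun b _ hb => by simp [v1, Pi.single_eq_of_ne hb]) (by simp)]
    simp [v1, mul_comm]
  have h2 : ∀ w, Good (aeval v F) fun n => aeval v (act w (F ^ (n + 1))) := fun w => by
    induction w with
    | nil => exact ⟨1, fun n => by simp [act]⟩
    | cons a w ih =>
      rcases a with j | j
      · exact (ih.mul (v j)).congr fun n => by simp [act]
      · rcases Fin.eq_self_or_eq_succAbove i j with rfl | ⟨j, rfl⟩
        · refine ((((ih.mul d).nat.add (ih.mul (d + wgt w))).add ((ih.der 0).mul (-X 0))).add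
            ((ih.der 1).mul (-X 1))).congr fun n => ?_
          have h3 := congrArg (aeval v) (euler (hF.pow (n + 1)) w)
          rw [map_sum, Fin.sum_univ_succAbove _ j, Fin.sum_univ_two] at h3
          simp only [map_mul, aeval_X, v0, v1, map_add, map_natCast, map_intCast] at h3
          simp only [act, h1]
          push_cast at h3
          linear_combination h3
        · refine ((ih.der j).mul (C (c j)⁻¹)).congr fun n => ?_
          rw [h1, ← mul_assoc, ← map_mul, inv_mul_cancel₀ (hc j), map_one, one_mul, act]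
  have h4 : ∀ ws : List (ℂ × ℕ × Word), Good (aeval v F) fun n => aeval v
      (ws.map fun e => C (e.1 * (n : ℂ) ^ e.2.1) * act e.2.2 (F ^ (n + 1))).sum := fun ws => by
    induction ws with
    | nil => exact ⟨0, fun n => by simp⟩
    | cons e ws ih =>
      exact ((((h2 e.2.2).pow e.2.1).mul (C e.1)).add ih).congr fun n => by simp [mul_assoc]
  exact ((h4 ws).congr fun n => by rw [hw]; simp [smul_eq_C_mul]).out

end Pool.Agent.MP_5d9b3c_ag.H59
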