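import Pool.Agent.MP_5d9b3c_ag.H59.Spec

/-! Derivations of the function field of the plane. -/

namespace Pool.Agent.MP_5d9b3c_ag.H59

open MvPolynomial

namespace DerX

variable {k K : Type} [Field k] [Field K] [Algebra k K]

theorem chain (φ : K × K) (D : Derivation k K K) (a : P2 k) :
    D (ev k φ a) = ev k φ (pderiv 0 a) * D φ.1 + ev k φ (pderiv 1 a) * D φ.2 := by
  induction a using MvPolynomial.induction_on with
  | C a => simp
  | add p q hp hq =>
    simp only [map_add, hp, hq]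
    ring
  | mul_X p l hp => fin_cases l <;> simp [hp] <;> ring

theorem fr {φ : K × K} (h : IsFr k φ) (z : K) :
    ∃ z0 z1 : K, ∀ D : Derivation k K K, D z = z0 * D φ.1 + z1 * D φ.2 := by
  obtain ⟨a, b, h1, h2⟩ := h.2 z
  have h3 := h.ne h1
  refine ⟨(ev k φ (pderiv 0 a) - z * ev k φ (pderiv 0 b)) / ev k φ b,
    (ev k φ (pderiv 1 a) - z * ev k φ (pderiv 1 b)) / ev k φ b, fun D => ?_⟩
  have h4 := congrArg D h2
  rw [D.leibniz, chain, chain, smul_eq_mul, smul_eq_mul] at h4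
  field_simp
  linear_combination h4

variable (B : Bx k K)

theorem span0 (D : Derivation k K K) (u : K) : D u = D B.x * B.Dx u + D B.y * B.Dy u := by
  obtain ⟨a, b, h⟩ := fr B.fr u
  rw [h D, h B.Dx, h B.Dy, B.xx, B.xy, B.yx, B.yy]
  ring

variable (z : Fin 2 → K)

theorem dua0 (u : K) :
    B.dua z 0 u = B.Dy (z 1) / B.jac z * B.Dx u - B.Dx (z 1) / B.jac z * B.Dy u := rfl

theorem dua1 (u : K) :
    B.dua z 1 u = B.Dx (z 0) / B.jac z * B.Dy u - B.Dy (z 0) / B.jac z * B.Dx u := rfl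

theorem span (D : Derivation k K K) (u : K) (h : B.jac z ≠ 0) :
    D u = ∑ j, D (z j) * B.dua z j u := by
  rw [Fin.sum_univ_two, dua0, dua1, span0 B D u, span0 B D (z 0), span0 B D (z 1)]
  field_simp
  rw [Bx.jac]
  ring

theorem jm (a b : K) (h : B.jac z ≠ 0) : B.Dx a * B.Dy b - B.Dy a * B.Dx b =
    (B.dua z 0 a * B.dua z 1 b - B.dua z 1 a * B.dua z 0 b) * B.jac z := by
  rw [dua0, dua1, dua0, dua1]
  field_simp
  rw [Bx.jac]
  ring

end DerX

open DerX

theorem rowDer : OfDer := by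
  intro k K _ _ _ _
  refine ⟨span0, chain, fun B z i j h => ?_, span, fun B z D D' h h1 u => ?_, fun B z h => ?_,
    jm, fun B φ h h0 => ?_⟩
  · fin_cases i <;> fin_cases j <;> simp [dua0, dua1] <;> field_simp <;> simp [Bx.jac] <;> ring
  · rw [← sub_eq_zero, ← Derivation.commutator_apply, span B z _ u h]
    exact Finset.sum_eq_zero fun j _ => by
      rw [Derivation.commutator_apply, h1, sub_self, zero_mul]
  · refine eq_inv_of_mul_eq_one_left ?_
    rw [← jm B z _ _ h, B.xx, B.xy, B.yx, B.yy]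
    ring
  · obtain ⟨a, b, h1⟩ := fr h B.x
    obtain ⟨c, d, h2⟩ := fr h B.y
    have h3 : B.Dx φ.1 * B.Dy φ.2 - B.Dy φ.1 * B.Dx φ.2 = 0 := h0
    have h4 : B.Dx B.x * B.Dy B.y - B.Dy B.x * B.Dx B.y = 0 := by
      rw [h1, h1, h2, h2]
      linear_combination (a * d - b * c) * h3
    simp [B.xx, B.xy, B.yy] at h4

end Pool.Agent.MP_5d9b3c_ag.H59
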