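import Pool.Agent.MP_5d9b3c_ag.H59.Spec

/-!
Row E: the ring of the line `u = 0`.
-/

namespace Pool.Agent.MP_5d9b3c_ag.H59

open MvPolynomial

namespace EX

variable {k K : Type} [Field k] [Field K] [Algebra k K] {φ : K × K} {V : ValuationSubring K}

theorem split (a : P2 k) : ∃ (q : Polynomial k) (a' : P2 k),
    a = Polynomial.aeval (X 1 : P2 k) q + X 0 * a' := by
  induction a using MvPolynomial.induction_on with
  | C c => exact ⟨Polynomial.C c, 0, by simp⟩
  | add p q hp hq =>
    obtain ⟨q1, a1, rfl⟩ := hp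
    obtain ⟨q2, a2, rfl⟩ := hq
    exact ⟨q1 + q2, a1 + a2, by rw [map_add]; ring⟩
  | mul_X p i hp =>
    obtain ⟨q1, a1, rfl⟩ := hp
    fin_cases i
    · exact ⟨0, Polynomial.aeval (X 1 : P2 k) q1 + X 0 * a1, by simp [mul_comm]⟩
    · exact ⟨q1 * Polynomial.X, a1 * X 1, by simp [add_mul, mul_assoc]⟩

theorem val2 (h : IsE k φ V) : V.valuation φ.2 = 1 := by simpa using h.2.2 0

theorem mem (h : IsE k φ V) (a : P2 k) : ev k φ a ∈ V := by
  induction a using MvPolynomial.induction_on with
  | C c => rw [ev_C]; exact h.1 c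
  | add p q hp hq => rw [map_add]; exact add_mem hp hq
  | mul_X p i hp =>
    rw [map_mul]
    refine mul_mem hp ((V.valuation_le_one_iff _).1 ?_)
    fin_cases i
    · simpa using h.2.1.le
    · simpa using (val2 h).le

theorem pol [IsAlgClosed k] (h : IsE k φ V) {q : Polynomial k} (hq : q ≠ 0) :
    V.valuation (Polynomial.aeval φ.2 q) = 1 := by
  rw [(IsAlgClosed.splits q).eq_prod_roots, map_mul, map_mul, Polynomial.aeval_C,
    h.1.val (Polynomial.leadingCoeff_ne_zero.2 hq), one_mul, map_multiset_prod, map_multiset_prod]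
  refine Multiset.prod_eq_one fun x hx => ?_
  simp only [Multiset.map_map, Multiset.mem_map] at hx
  obtain ⟨c, -, rfl⟩ := hx
  simpa using h.2.2 c

theorem isV [IsAlgClosed k] : IsE k φ V ↔ IsV k φ (X 0) V := by
  refine ⟨fun h => ⟨mem h, by simpa using h.2.1, fun a ha => ?_⟩,
    fun h => ⟨fun c => by simpa using h.1 (C c), by simpa using h.2.1, fun c => ?_⟩⟩
  · obtain ⟨q, a', rfl⟩ := split a
    have hq : q ≠ 0 := fun h0 => ha ⟨a', by simp [h0]⟩
    have h1 := pol h hq
    rw [map_add, ← Polynomial.aeval_algHom_apply, ev_X1, Valuation.map_add_eq_of_lt_left, h1]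
    rw [h1, map_mul, ev_X0, map_mul]
    exact mul_lt_one_of_lt_of_le h.2.1 ((V.valuation_le_one_iff _).2 (mem h a'))
  · have := h.2.2 (X 1 - C c) fun ⟨g, e⟩ => by simpa using congrArg (eval ![0, c + 1]) e
    simpa using this

end EX

open EX in
theorem rowE : OfE := by
  intro k K _ _ _ _ st ex
  have hp : Prime (X 0 : P2 k) := X_prime
  refine ⟨fun φ V _ => isV, fun φ V h => ⟨fun e => ⟨ex.thru φ _ V h hp (by simp) (isV.1 e), e.2.1⟩,
    fun e => isV.2 (st.tr φ 0 0 V _ h (by simpa using e.1) hp (by simpa using e.2))⟩,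
    fun φ h => (ex.ex φ _ h hp).imp fun V e => isV.2 e,
    fun φ V V' h e e' => ex.uniq φ _ V V' h hp (isV.1 e) (isV.1 e'),
    fun φ V h e => by simpa using ex.unif φ _ V h hp (isV.1 e), fun u v c V => ?_,
    fun u v u' V e h => ⟨e.1, h, fun c => ?_⟩, fun φ V q e hq => pol e hq⟩
  · refine and_congr_right fun _ => and_congr_right fun _ => ⟨fun h c' => ?_, fun h c' => ?_⟩
    · simpa using h (c' - c)
    · simpa [sub_sub] using h (c + c')
  · have h2 : V.valuation v = 1 := val2 e
    have h0 : v ≠ 0 := fun h0 => by simp [h0] at h2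
    by_cases hc : c = 0
    · simp [hc, h2]
    · have h3 : algebraMap k K c ≠ 0 := (map_ne_zero _).2 hc
      have h4 : v⁻¹ - algebraMap k K c = -(algebraMap k K c * v⁻¹ * (v - algebraMap k K c⁻¹)) := by
        rw [map_inv₀]
        field_simp
        ring
      have h5 : V.valuation (v - algebraMap k K c⁻¹) = 1 := e.2.2 c⁻¹
      show V.valuation (v⁻¹ - algebraMap k K c) = 1
      rw [h4, Valuation.map_neg, map_mul, map_mul, map_inv₀, h2, e.1.val hc, h5]
      simp

end Pool.Agent.MP_5d9b3c_ag.H59
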