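import Pool.Agent.MP_5d9b3c_ag.H59.Spec

/-!
The valuation ring of a plane curve.
-/

namespace Pool.Agent.MP_5d9b3c_ag.H59

open MvPolynomial

namespace EXX

variable {k K : Type} [Field k] [Field K] [Algebra k K] {φ : K × K} {π : P2 k}

theorem dec (h : IsFr k φ) (hp : Prime π) {z : K} (hz : z ≠ 0) : ∃ (i j : ℕ) (a b : P2 k),
    ¬ π ∣ a ∧ ¬ π ∣ b ∧ z * (ev k φ π ^ j * ev k φ b) = ev k φ π ^ i * ev k φ a := by
  obtain ⟨a, b, hb, e⟩ := h.2 z
  have ha : a ≠ 0 := by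
    rintro rfl
    exact mul_ne_zero hz (h.ne hb) (e.trans (map_zero _))
  obtain ⟨i, a, h1, rfl⟩ := WfDvdMonoid.max_power_factor ha hp.irreducible
  obtain ⟨j, b, h2, rfl⟩ := WfDvdMonoid.max_power_factor hb hp.irreducible
  exact ⟨i, j, a, b, h1, h2, by simpa only [map_mul, map_pow] using e⟩

theorem dich (h : IsFr k φ) (hp : Prime π) (z : K) :
    (∃ a b, ¬ π ∣ b ∧ z * ev k φ b = ev k φ a) ∨
      ∃ a b, ¬ π ∣ b ∧ z * ev k φ (π * a) = ev k φ b := by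
  rcases eq_or_ne z 0 with rfl | hz
  · exact .inl ⟨0, 1, hp.not_dvd_one, by simp⟩
  obtain ⟨i, j, a, b, h1, h2, e⟩ := dec h hp hz
  have p0 := h.ne hp.ne_zero
  rcases le_or_gt j i with l | l
  · obtain ⟨n, rfl⟩ := Nat.exists_eq_add_of_le l
    refine .inl ⟨π ^ n * a, b, h2, mul_left_cancel₀ (pow_ne_zero j p0) ?_⟩
    rw [map_mul, map_pow]
    linear_combination e
  · obtain ⟨n, rfl⟩ := Nat.exists_eq_add_of_lt l
    refine .inr ⟨π ^ n * b, a, h1, mul_left_cancel₀ (pow_ne_zero i p0) ?_⟩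
    rw [map_mul, map_mul, map_pow]
    linear_combination e

variable (φ) in
def loc (hp : Prime π) : Subring K where
  carrier := {z | ∃ a b : P2 k, ¬ π ∣ b ∧ z * ev k φ b = ev k φ a}
  mul_mem' := by
    rintro z z' ⟨a, b, h1, h2⟩ ⟨a', b', h3, h4⟩
    refine ⟨a * a', b * b', fun h => (hp.dvd_or_dvd h).elim h1 h3, ?_⟩
    rw [map_mul, map_mul, ← h2, ← h4]
    ring
  add_mem' := by
    rintro z z' ⟨a, b, h1, h2⟩ ⟨a', b', h3, h4⟩
    refine ⟨a * b' + a' * b, b * b', fun h => (hp.dvd_or_dvd h).elim h1 h3, ?_⟩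
    rw [map_add, map_mul, map_mul, map_mul, ← h2, ← h4]
    ring
  one_mem' := ⟨1, 1, hp.not_dvd_one, one_mul _⟩
  zero_mem' := ⟨0, 1, hp.not_dvd_one, by simp⟩
  neg_mem' := by
    rintro z ⟨a, b, h1, h2⟩
    exact ⟨-a, b, h1, by rw [map_neg, ← h2, neg_mul]⟩

theorem of {V : ValuationSubring K} (hV : IsV k φ π V) {z : K} {a b : P2 k} (hb : ¬ π ∣ b)
    (e : z * ev k φ b = ev k φ a) : z ∈ V :=
  mem_of_val_le (by rw [← e, map_mul, hV.2.2 b hb, mul_one]) (hV.1 a)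

theorem mem {V : ValuationSubring K} (h : IsFr k φ) (hp : Prime π) (hV : IsV k φ π V) (z : K)
    (hz : z ∈ V) : ∃ a b, ¬ π ∣ b ∧ z * ev k φ b = ev k φ a :=
  (dich h hp z).resolve_right fun ⟨a, b, hb, e⟩ => by
    refine (hV.2.2 b hb).not_lt (lt_of_le_of_lt ?_ hV.2.1)
    rw [← e, map_mul (ev k φ), mul_left_comm, map_mul]
    exact mul_le_of_le_one_right' ((V.valuation_le_one_iff _).2 (V.mul_mem _ _ hz (hV.1 a)))

end EXX

open EXX

theorem rowEX : OfEX := by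
  intro k K _ _ _ _
  refine ⟨fun φ π h hp => ?_, fun φ π V _ hp hc hV => ⟨fun z ⟨a, b, hb, e⟩ => of hV ?_ e, fun l => ?_⟩,
    fun φ π V h hp hV => ⟨h.ne hp.ne_zero, hV.2.1, fun z hz => ?_⟩, fun φ π V => mem,
    fun φ π V V' h hp hV hV' => ValuationSubring.ext _ _ fun z => ⟨fun hz => ?_, fun hz => ?_⟩⟩
  · have e : ∀ a, ev k φ a ∈ loc φ hp := fun a => ⟨a, 1, hp.not_dvd_one, by simp⟩
    have d : ∀ z, z ∈ loc φ hp ∨ z⁻¹ ∈ loc φ hp := fun z => (dich h hp z).imp_right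
      fun ⟨a, b, hb, l⟩ => ⟨π * a, b, hb, by
        rw [← l, inv_mul_cancel_left₀]
        rintro rfl
        exact h.ne (a := b) (fun m => hb (m ▸ dvd_zero π)) (by rw [← l, zero_mul])⟩
    refine ⟨.ofSubring (loc φ hp) d, e, ?_, fun a ha => ?_⟩
    · refine (ValuationSubring.mem_nonunits_iff _).1 ((ValuationSubring.mem_nonunits_iff_or _).2
        (.inr fun ⟨a, b, hb, l⟩ => hb ⟨a, h.1 ?_⟩))
      rw [map_mul, ← l, mul_inv_cancel_left₀ (h.ne hp.ne_zero)]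
    · have a0 : ev k φ a ≠ 0 := h.ne fun l => ha (l ▸ dvd_zero π)
      refine le_antisymm ((ValuationSubring.valuation_le_one_iff _ _).2 (e a)) (not_lt.1 fun l => ?_)
      exact ((ValuationSubring.mem_nonunits_iff_or _).1
        ((ValuationSubring.mem_nonunits_iff _).2 l)).elim a0
        fun l => l ⟨1, a, ha, by rw [inv_mul_cancel₀ a0, map_one]⟩
  · rintro ⟨c, rfl⟩
    exact hb (by rw [map_mul, hc, zero_mul])
  · have e : ∀ i, V.valuation (ev k φ (X i)) < 1 → π ∣ X i := fun i l =>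
      not_not.1 fun m => (hV.2.2 _ m).not_lt l
    have := X_dvd_X.1 (((hp.dvd_prime_iff_associated X_prime).1
      (e 0 (by simpa using l.1))).symm.dvd.trans (e 1 (by simpa using l.2)))
    simp at this
  · obtain ⟨i, j, a, b, h1, h2, e⟩ := dec h hp hz
    have e := congrArg V.valuation e
    have p0 : V.valuation (ev k φ π) ≠ 0 := (map_ne_zero _).2 (h.ne hp.ne_zero)
    simp only [map_mul, map_pow, hV.2.2 a h1, hV.2.2 b h2, mul_one] at e
    exact ⟨i - j, by rw [zpow_natCast_sub_natCast₀ p0, eq_div_iff (pow_ne_zero _ p0), e]⟩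
  · obtain ⟨a, b, hb, e⟩ := mem h hp hV z hz
    exact of hV' hb e
  · obtain ⟨a, b, hb, e⟩ := mem h hp hV' z hz
    exact of hV hb e

end Pool.Agent.MP_5d9b3c_ag.H59
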