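import Pool.Agent.MP_5d9b3c_ag.H59.Spec

/-!
Injectivity of the Frobenius on the first cohomology.
-/

namespace Pool.Agent.MP_5d9b3c_ag.H59

theorem rowFI : OfFI := by
  intro k K _ _ _ _ hFR hTR hDV hDer hPW hLog B N L l hl hc hcov hH hF g hg ⟨s, hs, hs'⟩
  have := Fact.mk hl
  obtain ⟨G, hG⟩ := hH (fun p y => g p y ^ l) (fun p y p' y' V h1 h2 h3 h4 => by
    show B.Lam N l V (g p y ^ l - g p' y' ^ l)
    rw [← sub_pow_char]
    exact (Bx.lam_pow hl.ne_zero).2 (hg p y p' y' V h1 h2 h3 h4))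
    ⟨s ^ l, pow_ne_zero _ hs, fun c y V h1 h2 h3 => by
      rw [map_pow, ← mul_pow]
      exact pow_mem (hs' c y V h1 h2 h3) l⟩
  have h0 := hF (B.Dx G, B.Dy G) fun p y V D h1 h2 h3 => by
    have h4 := hLog.stq B N V D l _ hc
      (hDV.dv y V (hTR.down _ _ y (hFR.rt B p) (hcov p) h1).1 h2) h3 (hG p y V h1 h2)
    refine Bx.Lg.mono h4 (le_of_eq ?_)
    rw [map_sub, Derivation.leibniz_pow, nsmul_eq_mul, CharP.cast_eq_zero, zero_mul, zero_sub,
      Valuation.map_neg, hDer.span0 B D G, mul_comm (D B.x), mul_comm (D B.y)]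
  obtain ⟨G0, rfl⟩ := hPW.pw B l G hl hc (congrArg Prod.fst h0) (congrArg Prod.snd h0)
  refine ⟨G0, fun p y V h1 h2 => (Bx.lam_pow hl.ne_zero).1 ?_⟩
  rw [sub_pow_char]
  exact hG p y V h1 h2

end Pool.Agent.MP_5d9b3c_ag.H59
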