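import Pool.Agent.MP_5d9b3c_ag.H59.Spec

/-!
Changes of frames.
-/

namespace Pool.Agent.MP_5d9b3c_ag.H59

open MvPolynomial

namespace FRX

variable {k K : Type} [Field k] [Field K] [Algebra k K]

theorem gen {φ ψ : K × K} (h : IsFr k φ)
    (H : ∀ E : IntermediateField k K, ψ.1 ∈ E → ψ.2 ∈ E → φ.1 ∈ E ∧ φ.2 ∈ E) : IsFr k ψ := by
  let E := IntermediateField.adjoin k (Set.range ![ψ.1, ψ.2])
  obtain ⟨h1, h2⟩ := H E (IntermediateField.subset_adjoin _ _ ⟨0, rfl⟩)
    (IntermediateField.subset_adjoin _ _ ⟨1, rfl⟩)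
  have h3 : ∀ a, ev k φ a ∈ E := fun a => by
    induction a using MvPolynomial.induction_on with
    | C c => rw [ev_C]; exact E.algebraMap_mem c
    | add p q hp hq => rw [map_add]; exact add_mem hp hq
    | mul_X p l hp =>
      rw [map_mul]
      refine mul_mem hp ?_
      fin_cases l
      exacts [(ev_X0 (k := k) φ).symm ▸ h1, (ev_X1 (k := k) φ).symm ▸ h2]
  have h4 : ∀ z, z ∈ E := fun z => by
    obtain ⟨a, b, hb, e⟩ := h.2 z
    rw [eq_div_of_mul_eq (h.ne hb) e]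
    exact div_mem (h3 a) (h3 b)
  have h5 : Algebra.IsAlgebraic E K := ⟨fun z => isAlgebraic_algebraMap (⟨z, h4 z⟩ : E)⟩
  have h6 := IntermediateField.isAlgebraic_adjoin_iff_top.1 h5
  refine ⟨(Algebra.IsAlgebraic.isTranscendenceBasis_of_le_trdeg_of_finite k ![ψ.1, ψ.2]
    (AlgebraicIndependent.cardinalMk_le_trdeg (x := ![φ.1, φ.2]) h.1)).1, fun z => ?_⟩
  obtain ⟨a, b, e⟩ := (IntermediateField.mem_adjoin_range_iff k _ z).1 (h4 z)
  by_cases hb : aeval ![ψ.1, ψ.2] b = 0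
  · exact ⟨0, 1, one_ne_zero, by simp [e, hb]⟩
  · exact ⟨a, b, fun h0 => hb (by rw [h0, map_zero]), by rw [e]; exact div_mul_cancel₀ _ hb⟩

theorem ne {φ : K × K} (h : IsFr k φ) : φ.1 ≠ 0 ∧ φ.2 ≠ 0 :=
  ⟨by simpa using h.ne (X_ne_zero 0), by simpa using h.ne (X_ne_zero 1)⟩

theorem tr {φ : K × K} (a b : k) (h : IsFr k φ) :
    IsFr k (φ.1 - algebraMap k K a, φ.2 - algebraMap k K b) :=
  gen h fun E h1 h2 => ⟨by simpa using add_mem h1 (E.algebraMap_mem a),
    by simpa using add_mem h2 (E.algebraMap_mem b)⟩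

theorem tr2 {u v : K} (b : k) (h : IsFr k (u, v)) : IsFr k (u, v - algebraMap k K b) := by
  simpa using tr 0 b h

theorem sw {φ : K × K} (h : IsFr k φ) : IsFr k (φ.2, φ.1) := gen h fun _ h1 h2 => ⟨h2, h1⟩

theorem div {φ : K × K} (h : IsFr k φ) : IsFr k (φ.1, φ.2 / φ.1) :=
  gen h fun _ h1 h2 => ⟨h1, by simpa [div_mul_cancel₀ _ (ne h).1] using mul_mem h2 h1⟩

theorem inv {φ : K × K} (h : IsFr k φ) : IsFr k (φ.1⁻¹, φ.2) :=
  gen h fun _ h1 h2 => ⟨by simpa using inv_mem h1, h2⟩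

end FRX

open FRX in
theorem rowFR : OfFR := fun _ _ _ _ _ _ =>
  { ne := fun _ => ne
    tr := fun _ => tr
    sw := fun _ => sw
    div := fun _ => div
    inv := fun _ => inv
    child := fun _ c h => by
      rcases c with _ | c
      · exact (div (sw h) :)
      · exact (tr2 c (div h) :)
    rt := fun B p => by
      rcases p with c | _ | c
      · exact (tr c.1 c.2 B.fr :)
      · exact (inv (div (sw B.fr)) :)
      · exact (tr2 c (inv (div B.fr)) :)
    inf := fun B => (inv (div B.fr) :) }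

end Pool.Agent.MP_5d9b3c_ag.H59
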