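import Pool.Agent.MP_5d9b3c_ag.H59.Spec

/-!
The lifted trees over all points of the plane.
-/

namespace Pool.Agent.MP_5d9b3c_ag.H59

open MvPolynomial

namespace ForX

variable {k K R : Type} [Field k] [Field K] [Algebra k K] [CommRing R] {l : ℕ}
  (W : W2 k K R l) (B : Bx k K)

theorem rd_XT (t : Fin 3) : W.rd (W.XT B t) = B.XX t := by
  fin_cases t <;> simp [W2.XT, W.rd_te]

theorem XT_unit (t : Fin 3) : IsUnit (W.XT B t) := W.unit _ (by rw [rd_XT]; exact B.XX_ne t)

variable {W B}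

theorem rd_Y {Y : Fin 3 → Fin 3 → R} (h : ∀ i t, Y i t * W.XT B i = W.XT B t) (i t : Fin 3) :
    W.rd (Y i t) = B.XX t / B.XX i := by
  rw [eq_div_iff (B.XX_ne i), ← rd_XT W B i, ← map_mul, h, rd_XT]

theorem Y_mul {Y : Fin 3 → Fin 3 → R} (h : ∀ i t, Y i t * W.XT B i = W.XT B t) (i i' t : Fin 3) :
    Y i' t = Y i' i * Y i t := by
  refine (XT_unit W B i').mul_right_cancel ?_
  rw [h, mul_right_comm, h, mul_comm, h]

theorem Y_self {Y : Fin 3 → Fin 3 → R} (h : ∀ i t, Y i t * W.XT B i = W.XT B t) (i : Fin 3) :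
    Y i i = 1 := (XT_unit W B i).mul_right_cancel (by rw [h, one_mul])

/-- the affine coordinates of a point in its chart -/
def pt : Root k → Fin 2 → k
  | .inl c => ![c.1, c.2]
  | .inr (some c) => ![0, c]
  | .inr none => ![0, 0]

/-- the lifted coordinates of a chart -/
def UU (Y : Fin 3 → Fin 3 → R) (i : Fin 3) : Fin 2 → R := fun j => Y i (i.succAbove j)

theorem rt_eq {Y : Fin 3 → Fin 3 → R} (h : ∀ i t, Y i t * W.XT B i = W.XT B t) (p : Root k) :
    B.rt p = (W.rd (UU Y (chi p) 0) - algebraMap k K (pt p 0),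
      W.rd (UU Y (chi p) 1) - algebraMap k K (pt p 1)) := by
  simp only [UU, rd_Y h]
  rcases p with c | _ | c
  · have e0 : Fin.succAbove (0 : Fin 3) 0 = 1 := by decide
    have e1 : Fin.succAbove (0 : Fin 3) 1 = 2 := by decide
    simp [Bx.rt, root, chi, pt, e0, e1]
  · have e0 : Fin.succAbove (2 : Fin 3) 0 = 0 := by decide
    have e1 : Fin.succAbove (2 : Fin 3) 1 = 1 := by decide
    simp [Bx.rt, root, chi, pt, e0, e1]
  · have e0 : Fin.succAbove (1 : Fin 3) 0 = 0 := by decide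
    have e1 : Fin.succAbove (1 : Fin 3) 1 = 2 := by decide
    simp [Bx.rt, root, chi, pt, e0, e1]

theorem ev_cht {O : Type} [CommRing O] (j : O →+* R) {Y : Fin 3 → Fin 3 → R}
    (h : ∀ i, Y i i = 1) (i t : Fin 3) : eval₂ j (UU Y i) (cht O i t) = Y i t := by
  have e0 : Fin.succAbove (0 : Fin 3) 0 = 1 := by decide
  have e1 : Fin.succAbove (0 : Fin 3) 1 = 2 := by decide
  have e2 : Fin.succAbove (1 : Fin 3) 0 = 0 := by decide
  have e3 : Fin.succAbove (1 : Fin 3) 1 = 2 := by decide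
  have e4 : Fin.succAbove (2 : Fin 3) 0 = 0 := by decide
  have e5 : Fin.succAbove (2 : Fin 3) 1 = 1 := by decide
  fin_cases i <;> fin_cases t <;> simp [cht, UU, h, e0, e1, e2, e3, e4, e5]

theorem UU_zero {Y : Fin 3 → Fin 3 → R} (h : ∀ i t, Y i t * W.XT B i = W.XT B t) :
    UU Y 0 = ![W.te B.x, W.te B.y] := by
  have h1 := h 0 1
  have h2 := h 0 2
  have e0 : Fin.succAbove (0 : Fin 3) 0 = 1 := by decide
  have e1 : Fin.succAbove (0 : Fin 3) 1 = 2 := by decide
  funext j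
  fin_cases j
  · simpa [W2.XT, UU, e0] using h1
  · simpa [W2.XT, UU, e1] using h2

theorem one_in (hI : SIn k K R l) (Z : Fin 2 → R) (V : ValuationSubring K) :
    W.InS B Z V 1 := by
  obtain ⟨S, hS⟩ := hI.ring W B Z V
  exact (hS 1).1 S.one_mem

theorem mul_in (hI : SIn k K R l) {Z : Fin 2 → R} {V : ValuationSubring K} {a b : R}
    (ha : W.InS B Z V a) (hb : W.InS B Z V b) : W.InS B Z V (a * b) := by
  obtain ⟨S, hS⟩ := hI.ring W B Z V
  exact (hS _).1 (S.mul_mem ((hS _).2 ha) ((hS _).2 hb))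

end ForX

open ForX

theorem rowFor : OfFor := by
  intro k K _ _ _ _ R _ l hl hc hF hT hW hP hN hI hNode W B N O _ j r hj hPT
  obtain ⟨Y, hY, hYn⟩ : ∃ Y : Fin 3 → Fin 3 → R, (∀ i t, Y i t * W.XT B i = W.XT B t) ∧
      ∀ i t, W.Nice B (Y i t) := by
    choose I hI' using fun i => (XT_unit W B i).exists_right_inv
    refine ⟨fun i t => W.XT B t * I i, fun i t => ?_, fun i t => ?_⟩
    · rw [mul_assoc, mul_comm (I i), hI', mul_one]
    · obtain ⟨S, hS⟩ := hN.ring W B
      exact (hS _).1 (S.mul_mem ((hS _).2 (hN.xt W B t))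
        ((hS _).2 (hN.inv W B _ _ (hI' i) (hN.xt W B i))))
  have hC : ∀ p : Root k, W.Cht B j (cht O (chi p)) (pt p) (chi p) (Y (chi p)) (UU Y (chi p))
      (B.rt p) := fun p =>
    ⟨rt_eq hY p, hF.rt B p, fun t => hYn _ _, ev_cht j (Y_self hY) _, hY _⟩
  choose L Z a hTr using fun p => hNode W B N O j r (chi p) (Y (chi p)) hj _ _ (hPT _ (pt p)) _ _
    (hC p)
  have hcov : B.Covs L := fun p => (hTr p).cov
  have hcrd : ∀ p V, Thru k (B.rt p) V → _ := fun p V hV =>
    hP.crd B (B.rt p) (W.rz (UU Y (chi p))) (pt p 0) (pt p 1) V (hF.rt B p) hV (rt_eq hY p)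
  refine ⟨Y, L, Z, a, hY, hcov, fun p => (hTr p).leaf, fun p y hy p' y' hy' V hV hV' => ?_,
    fun c y hy V hV hV' => ?_⟩
  · by_cases hp : p = p'
    · subst hp
      exact ⟨(hTr p).pair y hy y' hy' V hV hV', by rw [Y_self hY]; exact one_in hI _ _⟩
    obtain ⟨s1, m1⟩ := hW.mxl B L p y V hcov hy hV.1
    obtain ⟨s2, m2⟩ := hW.mxl B L p' y' V hcov hy' hV'.1
    have t1 := hW.twor B p p' V hp s1 s2
    have t2 := hW.twor B p' p V (Ne.symm hp) s2 s1
    obtain ⟨c1, c2, -⟩ := hcrd p V t1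
    obtain ⟨d1, -, d3⟩ := hcrd p' V t2
    have i1 : ∀ t, W.InS B (UU Y (chi p)) V (Y (chi p) t) := fun t => by
      rcases Fin.eq_self_or_eq_succAbove (chi p) t with rfl | ⟨u, rfl⟩
      · rw [Y_self hY]
        exact one_in hI _ _
      · exact ⟨c2 u, by
          have := hI.self W B (UU Y (chi p)) u c1
          rw [show Y (chi p) ((chi p).succAbove u) = UU Y (chi p) u from rfl, this]
          exact zero_mem V⟩
    have i2 : W.InS B (UU Y (chi p)) V (Y (chi p') (chi p)) :=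
      hI.inv W B _ V (Y (chi p) (chi p')) _ (by rw [← Y_mul hY, Y_self hY])
        (by rw [rd_Y hY]; exact m2.val_eq m1) (i1 _)
    have i3 : W.Eqv B (UU Y (chi p)) (UU Y (chi p')) V :=
      hI.eqv W B _ _ V d1 (fun u => by
        rw [show UU Y (chi p') u = Y (chi p') ((chi p').succAbove u) from rfl,
          Y_mul hY (chi p) (chi p')]
        exact mul_in hI i2 (i1 _)) d3
    have u1 := (hTr p).up y hy V hV t1
    have u2 := (hTr p').up y' hy' V hV' t2
    exact ⟨fun x => (u1 x).symm.trans ((i3 x).trans (u2 x)), (u1 _).1 i2⟩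
  · have h := (hTr (.inl c)).up y hy V hV hV'
    rwa [show chi (.inl c : Root k) = 0 from rfl, UU_zero hY] at h

end Pool.Agent.MP_5d9b3c_ag.H59
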