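import Pool.Agent.MP_5d9b3c_ag.H59.Spec

/-!
Away from a finite grid, every point of a chart is a normal crossing point.
-/

namespace Pool.Agent.MP_5d9b3c_ag.H59

open MvPolynomial

namespace GenX

theorem exists_pderiv {g : P2 ℂ} (hg : Prime g) : ∃ i, ¬g ∣ pderiv i g := by
  by_contra h
  push Not at h
  have h0 : ∀ i, pderiv i g = 0 := fun i => by
    by_contra hne
    obtain ⟨c, hc⟩ := h i
    have hc0 : c ≠ 0 := by rintro rfl; exact hne (by simpa using hc)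
    have h1 : degreeOf i (pderiv i g) = degreeOf i g + degreeOf i c := by
      rw [hc, degreeOf_mul_eq hg.ne_zero hc0]
    obtain ⟨m, hm, e⟩ := Finset.exists_mem_eq_sup (pderiv i g).support
      (support_nonempty.2 hne) fun m => m i
    have h2 : m + Finsupp.single i 1 ∈ g.support := by
      rw [mem_support_iff, coeff_pderiv] at hm
      exact mem_support_iff.2 (left_ne_zero_of_mul hm)
    have h3 := monomial_le_degreeOf i h2
    rw [degreeOf_eq_sup i (pderiv i g), e] at h1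
    simp only [Finsupp.add_apply, Finsupp.single_eq_same] at h3
    omega
  have h1 : g = C (coeff 0 g) := by
    ext m
    rw [coeff_C]
    split_ifs with hm
    · rw [hm]
    · obtain ⟨i, hi⟩ : ∃ i, m i ≠ 0 := by
        by_contra t
        push Not at t
        exact hm (Finsupp.ext fun i => (t i).symm)
      have h2 := coeff_pderiv (i := i) g (m - Finsupp.single i 1)
      rw [h0, coeff_zero, tsub_add_cancel_of_le
        (Finsupp.single_le_iff.2 (Nat.one_le_iff_ne_zero.2 hi))] at h2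
      exact (mul_eq_zero.1 h2.symm).resolve_right (Nat.cast_add_one_ne_zero _)
  have h2 : coeff 0 g ≠ 0 := fun e => hg.ne_zero (by rw [h1, e, map_zero])
  exact hg.not_isUnit (by rw [h1]; exact (IsUnit.mk0 _ h2).map C)

theorem inj (A : Subring ℂ) : Function.Injective (map A.subtype : P2 A → P2 ℂ) :=
  map_injective _ Subtype.val_injective

/-- a second coordinate along a prime curve -/
theorem exists_crd {π : P2 ℂ} (hp : Prime π) :
    ∃ j : Fin 2, ¬ π ∣ X j ∧ ¬ π ∣ jac2 π (X j) := by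
  obtain ⟨i, hi⟩ := exists_pderiv hp
  have key : ∀ j : Fin 2, j ≠ i → ¬ π ∣ X j := fun j hj ⟨u, hu⟩ => by
    have hu1 : IsUnit u :=
      ((X_prime (R := ℂ) (i := j)).irreducible.isUnit_or_isUnit hu).resolve_left hp.not_isUnit
    have h1 := congrArg (pderiv i) hu
    rw [pderiv_X_of_ne hj, pderiv_mul] at h1
    refine hi (hu1.dvd_mul_right.1 ⟨-pderiv i u, ?_⟩)
    linear_combination -h1
  revert i
  refine Fin.forall_fin_two.2 ⟨fun hi key => ⟨1, key 1 (by decide), ?_⟩,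
    fun hi key => ⟨0, key 0 (by decide), ?_⟩⟩
  · simpa [jac2] using hi
  · simpa [jac2] using hi

theorem lin (A : Subring ℂ) (t : Fin 2) (T : Multiset ℂ) (hT : ∀ s ∈ T, s ∈ A) :
    ∃ P : P2 A, map A.subtype P = (T.map fun s => (X t - C s : P2 ℂ)).prod ∧
      ∀ (k : Type) [Field k] (r : A →+* k) (c : Fin 2 → k), eval₂ r c P = 0 →
        ∃ a : A, (a : ℂ) ∈ T ∧ c t = r a := by
  induction T using Multiset.induction_on with
  | empty => exact ⟨1, by simp, fun k _ r c h => by simp at h⟩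
  | cons s T ih =>
    obtain ⟨P, h1, h2⟩ := ih fun a ha => hT a (Multiset.mem_cons_of_mem ha)
    refine ⟨(X t - C ⟨s, hT s (Multiset.mem_cons_self _ _)⟩) * P, by simp [h1], ?_⟩
    intro k _ r c h
    rw [eval₂_mul, mul_eq_zero] at h
    rcases h with h | h
    · refine ⟨⟨s, hT s (Multiset.mem_cons_self _ _)⟩, Multiset.mem_cons_self _ _, ?_⟩
      simpa [sub_eq_zero] using h
    · obtain ⟨a, ha, e⟩ := h2 k r c h
      exact ⟨a, Multiset.mem_cons_of_mem ha, e⟩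

theorem split (R : Polynomial ℂ) (hR : R.Monic) (t : Fin 2) :
    Polynomial.aeval (X t : P2 ℂ) R = (R.roots.map fun s => (X t - C s : P2 ℂ)).prod := by
  conv_lhs => rw [(IsAlgClosed.splits R).eq_prod_roots_of_monic hR]
  simp [map_multiset_prod, Multiset.map_map]

/-- the claim for the points on the curve `G = 0` -/
def Gd (f h : P3) (m : ℕ) (ψ : Fin 3 → P2 ℂ) (G : P2 ℂ) : Prop :=
  ∃ (M : ℕ) (S : Finset ℂ), ∀ᶠ A : Subring ℂ in FF, ∀ (ψA : Fin 3 → P2 A) (GA : P2 A),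
    (∀ l, map A.subtype (ψA l) = ψ l) → map A.subtype GA = G →
      ∀ (k : Type) [Field k] (r : A →+* k) (c : Fin 2 → k), eval₂ r c GA = 0 →
        PT f h m M r ψA c ∨ ∃ cA : Fin 2 → A, (∀ i, (cA i : ℂ) ∈ S) ∧ c = fun i => r (cA i)

variable {f h : P3} {m : ℕ} {ψ : Fin 3 → P2 ℂ}

theorem gd_unit (sp : SSp) {G : P2 ℂ} (hG : IsUnit G) : Gd f h m ψ G := by
  obtain ⟨G', e⟩ := hG.exists_right_inv
  refine ⟨0, ∅, (sp.poly G').mono ?_⟩
  rintro A ⟨P, hP⟩ ψA GA - h2 k _ r c h3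
  have h4 : GA * P = 1 := inj A (by rw [map_mul, h2, hP, e, map_one])
  have h5 := congrArg (eval₂ r c) h4
  rw [eval₂_mul, h3, zero_mul, eval₂_one] at h5
  exact absurd h5 zero_ne_one

theorem gd_mul (sp : SSp) {G G' : P2 ℂ} (h1 : Gd f h m ψ G) (h2 : Gd f h m ψ G') :
    Gd f h m ψ (G * G') := by
  classical
  obtain ⟨M, S, h1⟩ := h1
  obtain ⟨M', S', h2⟩ := h2
  refine ⟨max M M', S ∪ S', ?_⟩
  filter_upwards [h1, h2, sp.poly G, sp.poly G'] with A a1 a2 a3 a4 ψA GA hψ hG k _ r c h0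
  obtain ⟨P, hP⟩ := a3
  obtain ⟨P', hP'⟩ := a4
  have h4 : GA = P * P' := inj A (by rw [map_mul, hG, hP, hP'])
  rw [h4, eval₂_mul, mul_eq_zero] at h0
  rcases h0 with h0 | h0
  · rcases a1 ψA P hψ hP k r c h0 with b | ⟨cA, b1, b2⟩
    · exact Or.inl (sp.mono _ _ _ _ _ _ _ _ _ _ (le_max_left _ _) b)
    · exact Or.inr ⟨cA, fun i => Finset.mem_union_left _ (b1 i), b2⟩
  · rcases a2 ψA P' hψ hP' k r c h0 with b | ⟨cA, b1, b2⟩
    · exact Or.inl (sp.mono _ _ _ _ _ _ _ _ _ _ (le_max_right _ _) b)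
    · exact Or.inr ⟨cA, fun i => Finset.mem_union_right _ (b1 i), b2⟩

theorem gd_prime (rl : SRL ℂ) (lc : SLC) (sp : SSp) (lg : LG f h m) (h1 : ∃ i, ψ i = 1)
    (h0 : e3 ψ (f * h) ≠ 0) {π : P2 ℂ} (hp : Prime π) : Gd f h m ψ π := by
  classical
  obtain ⟨n, g, hg, e⟩ := WfDvdMonoid.max_power_factor h0 hp.irreducible
  obtain ⟨j, j1, j2⟩ := exists_crd hp
  have ce := lc f h m ψ π (X j) g n 0 lg h1 hp X_prime j1 (by rw [e]; ring)
  have hQ : ¬ π ∣ g * jac2 π (X j) := fun d => (hp.dvd_or_dvd d).elim hg j2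
  choose R α β hR hα using rl π _ hp hQ
  refine ⟨max n 0, Finset.univ.biUnion fun t => (R t).roots.toFinset, ?_⟩
  have e1 : ∀ᶠ A : Subring ℂ in FF, ∀ t, (∀ s ∈ (R t).roots.toFinset, s ∈ A) ∧
      (∃ PA : P2 A, map A.subtype PA = α t) ∧ ∃ PA : P2 A, map A.subtype PA = β t :=
    Filter.eventually_all.2 fun t => ((Filter.eventually_all_finset _).2 fun s _ => sp.el s).and
      ((sp.poly _).and (sp.poly _))
  filter_upwards [e1, sp.cert _ _ _ _ _ _ ce, sp.poly (g * jac2 π (X j))] with A a1 a2 a3 ψA GA hψ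
    hG k _ r c hc
  obtain ⟨Q, hQ⟩ := a3
  by_cases hq : eval₂ r c Q = 0
  · right
    have key : ∀ t, ∃ a : A, (a : ℂ) ∈ (R t).roots ∧ c t = r a := fun t => by
      obtain ⟨b1, ⟨a, ha⟩, b, hb⟩ := a1 t
      obtain ⟨P, p1, p2⟩ := lin A t (R t).roots fun s hs => b1 s (Multiset.mem_toFinset.2 hs)
      have h4 : P = a * GA + b * Q :=
        inj A (by rw [p1, ← split _ (hR t), hα, map_add, map_mul, map_mul, ha, hb, hG, hQ])
      exact p2 k r c (by rw [h4, eval₂_add, eval₂_mul, eval₂_mul, hc, hq, mul_zero, mul_zero,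
        add_zero])
    choose a b1 b2 using key
    exact ⟨a, fun i => Finset.mem_biUnion.2 ⟨i, Finset.mem_univ _, Multiset.mem_toFinset.2 (b1 i)⟩,
      funext b2⟩
  · exact Or.inl (PT.leaf ψA c Q (a2 ψA Q hψ hQ) hq)

theorem gd_all (rl : SRL ℂ) (lc : SLC) (sp : SSp) (lg : LG f h m) (h1 : ∃ i, ψ i = 1)
    (h0 : e3 ψ (f * h) ≠ 0) (G : P2 ℂ) : G ≠ 0 → Gd f h m ψ G := by
  induction G using UniqueFactorizationMonoid.induction_on_prime with
  | h₁ => exact fun t => absurd rfl t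
  | h₂ G hG => exact fun _ => gd_unit sp hG
  | h₃ a p ha hp ih => exact fun _ => gd_mul sp (gd_prime rl lc sp lg h1 h0 hp) (ih ha)

end GenX

theorem rowGen : OfGen := by
  intro rl lc sp f h m ψ lg h1 h0
  obtain ⟨M, S, hg⟩ := GenX.gd_all rl lc sp lg h1 h0 _ h0
  have hx : ¬ (X 0 : P2 ℂ) ∣ X 1 := fun ⟨u, hu⟩ => by
    simpa using congrArg (eval ![0, 1]) hu
  have ce := lc f h m ψ (X 0) (X 1) (e3 ψ (f * h)) 0 0 lg h1 X_prime X_prime hx (by simp)
  have ej : jac2 (X 0 : P2 ℂ) (X 1) = 1 := by simp [jac2]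
  rw [ej, mul_one] at ce
  refine ⟨M, S, ?_⟩
  filter_upwards [hg, sp.cert _ _ _ _ _ _ ce, sp.poly (e3 ψ (f * h))] with A a1 a2 a3 ψA hψ k _ r c
  obtain ⟨Q, hQ⟩ := a3
  by_cases hq : eval₂ r c Q = 0
  · exact a1 ψA Q hψ hQ k r c hq
  · exact Or.inl (sp.mono _ _ _ _ _ _ _ _ _ _ (by simp) (PT.leaf ψA c Q (a2 ψA Q hψ hQ) hq))

end Pool.Agent.MP_5d9b3c_ag.H59
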