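import Pool.Agent.MP_5d9b3c_ag.H59.Spec

/-!
Vanishing of the first cohomology of the lattices.
-/

namespace Pool.Agent.MP_5d9b3c_ag.H59

open MvPolynomial

namespace H1X

variable {k K : Type} [Field k] [Field K] [Algebra k K] {B : Bx k K}

theorem cp_sub {L : Root k → Set (K × K)} {Λ : ValuationSubring K → K → Prop}
    {g : Root k → K × K → K} (h : Bx.Cp L Λ g) (G : K) : Bx.Cp L Λ fun p y => g p y - G :=
  fun p y p' y' V h1 h2 h3 h4 => by
    rw [sub_sub_sub_cancel_right]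
    exact h p y p' y' V h1 h2 h3 h4

theorem lam_iff {N : Nm} (q : ℕ) (V : ValuationSubring K) (u : K) : B.Lam N q V u ↔
    B.Lg N.m (B.hat 0 N.h ^ q) (q * N.E) V (u / B.hat 0 N.f ^ q) := by
  refine forall_congr' fun i => ?_
  congr! 2
  rw [Bx.sg, div_pow, div_pow, ← pow_mul, ← pow_mul, mul_comm q]
  ring

end H1X

open H1X in
theorem rowH1 : OfH1 := by
  intro k K _ _ _ _
  refine ⟨fun h1 h2 h3 B L μ hL g hg hb => ?_, fun h B N L q hL hN hq g hg hb => ?_⟩
  · have hg' : Bx.Cp L (fun V u => u ∈ V) g := fun p y p' y' V a b c d => by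
      simpa using hg p y p' y' V a b c d 0
    obtain ⟨G1, R, hR, e1⟩ := h1 B L g hg' hb
    obtain ⟨G2, e2⟩ := h2 B L _ R hL (cp_sub hg' G1) hR e1
    obtain ⟨G3, e3⟩ := h3 B L _ μ hL (cp_sub (cp_sub hg G1) G2) e2
    exact ⟨G1 + G2 + G3, by simpa only [sub_sub] using e3⟩
  · have f0 := pow_ne_zero q hN.1
    have hE := N.hE
    obtain ⟨J, hJ⟩ : ∃ J, N.d = J + 3 := ⟨N.d - 3, by
      have : 3 ≤ N.d := Nat.le_of_mul_le_mul_left (by omega : N.m * 3 ≤ N.m * N.d) N.m0
      omega⟩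
    obtain ⟨s, s0, hs⟩ := hb
    obtain ⟨G, hG⟩ := h B L N.h N.κ N.m q (q * N.E) (q * J) hL N.hh hN.2 N.m0 (by
        rw [hJ, mul_add] at hE
        rw [← mul_add, mul_left_comm]
        congr 1
        omega) hq (fun p y => g p y / B.hat 0 N.f ^ q)
      (fun p y p' y' V a b c d => by
        rw [← sub_div]
        exact (lam_iff q V _).1 (hg p y p' y' V a b c d))
      ⟨s * e3 ![1, X 0, X 1] N.f ^ q, mul_ne_zero s0 (pow_ne_zero _ fun e => hN.1 (by
        rw [← B.ev_cht, e, map_zero])), fun c y V a b d => by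
          rw [map_mul, map_pow, B.ev_cht, mul_assoc, mul_div_cancel₀ _ f0]
          exact hs c y V a b d⟩
    refine ⟨G * B.hat 0 N.f ^ q, fun p y V a b => (lam_iff q V _).2 ?_⟩
    rw [sub_div, mul_div_cancel_right₀ _ f0]
    exact hG p y V a b

end Pool.Agent.MP_5d9b3c_ag.H59
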