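import Pool.Agent.MP_5d9b3c_ag.H59.Spec

/-!
The subrings attached to a Frobenius lifting.
-/

namespace Pool.Agent.MP_5d9b3c_ag.H59

open MvPolynomial

namespace InX

variable {k K R : Type} [Field k] [Field K] [Algebra k K] [CommRing R] {l : ℕ} [Fact l.Prime]
  [CharP K l] (W : W2 k K R l) (B : Bx k K) (Z : Fin 2 → R)

theorem del_mul (a b : R) :
    W.del B Z (a * b) = W.rd a ^ l * W.del B Z b + W.rd b ^ l * W.del B Z a := by
  simp only [W2.del, W.dl_mul, map_mul, Derivation.leibniz, smul_eq_mul, add_pow_char, mul_pow,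
    Fin.sum_univ_two]
  ring

theorem del_add (a b : R) :
    W.del B Z (a + b) = W.del B Z a + W.del B Z b + W.cc (W.rd a) (W.rd b) := by
  simp only [W2.del, W.dl_add, map_add, add_pow_char, Fin.sum_univ_two]
  ring

theorem del_one : W.del B Z 1 = 0 := by simpa using del_mul W B Z 1 1

theorem del_zero : W.del B Z 0 = 0 := by
  simpa [(Fact.out : l.Prime).ne_zero] using del_mul W B Z 0 0

end InX

open InX in
theorem rowIn : OfIn := by
  intro k K _ _ _ _ R _ l hl hc hD
  have : Fact l.Prime := ⟨hl⟩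
  refine ⟨fun W B Z V => ⟨⟨⟨⟨⟨{a | W.InS B Z V a}, fun {a b} ha hb => ⟨?_, ?_⟩⟩, ⟨?_, ?_⟩⟩,
    fun {a b} ha hb => ⟨?_, ?_⟩, ⟨?_, ?_⟩⟩, fun {a} ha => ⟨?_, ?_⟩⟩, fun a => Iff.rfl⟩,
    del_mul, fun W B Z V a b hab hv ha => ?_, fun W B Z j h => ?_,
    fun W B Z Z' V h hZ hp a => and_congr_right fun ha => ?_⟩
  · rw [map_mul]
    exact mul_mem ha.1 hb.1
  · rw [del_mul]
    exact add_mem (mul_mem (pow_mem ha.1 _) hb.2) (mul_mem (pow_mem hb.1 _) ha.2)
  · rw [map_one]
    exact one_mem _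
  · rw [del_one]
    exact zero_mem _
  · rw [map_add]
    exact add_mem ha.1 hb.1
  · rw [del_add]
    exact add_mem (add_mem ha.2 hb.2) (W.cc_mem V.toSubring _ _ ha.1 hb.1)
  · rw [map_zero]
    exact zero_mem _
  · rw [del_zero]
    exact zero_mem _
  · rw [map_neg]
    exact neg_mem ha.1
  · have h := del_add W B Z a (-a)
    rw [add_neg_cancel, del_zero, map_neg] at h
    rw [show W.del B Z (-a) = -(W.del B Z a + W.cc (W.rd a) (-W.rd a)) by linear_combination -h]
    exact neg_mem (add_mem ha.2 (W.cc_mem V.toSubring _ _ ha.1 (neg_mem ha.1)))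
  · have h1 : W.rd a * W.rd b = 1 := by rw [← map_mul, hab, map_one]
    have h2 : W.rd b ∈ V := by
      have h3 := congrArg V.valuation h1
      rw [map_mul, hv, one_mul, map_one] at h3
      exact (V.valuation_le_one_iff _).1 h3.le
    have h3 := del_mul W B Z a b
    have h4 : W.rd a ^ l * W.rd b ^ l = 1 := by rw [← mul_pow, h1, one_pow]
    rw [hab, del_one] at h3
    refine ⟨h2, ?_⟩
    rw [show W.del B Z b = -(W.rd b ^ l * (W.rd b ^ l * W.del B Z a)) by
      linear_combination -W.rd b ^ l * h3 - W.del B Z b * h4]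
    exact neg_mem (mul_mem (pow_mem h2 _) (mul_mem (pow_mem h2 _) ha.2))
  · have h1 := fun i => hD.dual B (W.rz Z) i j h
    simp only [W2.rz] at h1
    simp [W2.del, h1, hl.ne_zero]
  · have h1 : W.del B Z a = W.del B Z' a +
        ∑ j, B.dua (W.rz Z') j (W.rd a) ^ l * W.del B Z (Z' j) := by
      simp only [W2.del, fun i => hD.span B (W.rz Z') (B.dua (W.rz Z) i) (W.rd a) h,
        Fin.sum_univ_two, add_pow_char, mul_pow, W2.rz]
      ring
    rw [h1]
    exact add_mem_cancel_right (sum_mem fun j _ => mul_mem (pow_mem (hp j _ ha) _) (hZ j).2)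

end Pool.Agent.MP_5d9b3c_ag.H59
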