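import Pool.Agent.MP_5d9b3c_ag.H59.Spec
import Pool.Agent.MP_5d9b3c_ag.H21.ResA

/-!
Every point of a chart is resolved by finitely many blow-ups.
-/

namespace Pool.Agent.MP_5d9b3c_ag.H59

open MvPolynomial H72

namespace IndX

theorem sh_sh (a b a' b' : ℂ) (g : P2 ℂ) : sh a b (sh a' b' g) = sh (a + a') (b + b') g := by
  have : (sh a b).comp (sh a' b') = sh (a + a') (b + b') := by
    refine algHom_ext fun i => ?_
    fin_cases i <;> simp [sh, add_assoc]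
  exact DFunLike.congr_fun this g

theorem sh_zero (g : P2 ℂ) : sh 0 0 g = g := by
  have : sh (0 : ℂ) 0 = AlgHom.id ℂ _ := by
    refine algHom_ext fun i => ?_
    fin_cases i <;> simp [sh]
  rw [this]
  rfl

/-- the translation as an equivalence -/
noncomputable def shE (a b : ℂ) : P2 ℂ ≃* P2 ℂ where
  toFun := sh a b
  invFun := sh (-a) (-b)
  left_inv g := by rw [sh_sh, neg_add_cancel, neg_add_cancel, sh_zero]
  right_inv g := by rw [sh_sh, add_neg_cancel, add_neg_cancel, sh_zero]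
  map_mul' := map_mul _

theorem prime_sh (a b : ℂ) {z : P2 ℂ} (hz : Prime z) : Prime (sh a b z) :=
  (MulEquiv.prime_iff (shE a b)).2 hz

theorem pderiv_sh (a b : ℂ) (j : Fin 2) (g : P2 ℂ) :
    pderiv j (sh a b g) = sh a b (pderiv j g) := by
  induction g using MvPolynomial.induction_on with
  | C u => simp
  | add p q hp hq => simp only [map_add, hp, hq]
  | mul_X p i hp =>
    simp only [map_mul, Derivation.leibniz, hp, smul_eq_mul, map_add]
    fin_cases i <;> fin_cases j <;> simp [sh]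

theorem eval_sh (c : Fin 2 → ℂ) (g : P2 ℂ) :
    eval c (sh (-c 0) (-c 1) g) = constantCoeff g :=
  H21.hom_ext (φ := (eval c).comp (sh (-c 0) (-c 1) : RK ℂ →+* RK ℂ)) (ψ := constantCoeff)
    (by simp [sh]) (by simp [sh]) (by simp [sh]) g

theorem leaf (hLC : SLC) (hSp : SSp) {f h : P3} {m : ℕ} (hLG : LG f h m) {ψ : Fin 3 → P2 ℂ}
    {c : Fin 2 → ℂ} (h1 : ∃ i, ψ i = 1) {q g : P2 ℂ} {a b : ℕ} (hq : Prime q)
    (hd : constantCoeff (pderiv 1 q) ≠ 0) (hg : constantCoeff g ≠ 0)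
    (hF : g * X 0 ^ a * q ^ b = sh (c 0) (c 1) (e3 ψ (f * h))) : ∃ M, Pt f h m M ψ c := by
  have h2 := congrArg (sh (-c 0) (-c 1)) hF
  rw [sh_sh, neg_add_cancel, neg_add_cancel, sh_zero, map_mul, map_mul, map_pow, map_pow] at h2
  have h3 : ¬ sh (-c 0) (-c 1) (X 0) ∣ sh (-c 0) (-c 1) q := fun hh => by
    have h4 := map_dvd (sh (c 0) (c 1)) hh
    rw [sh_sh, sh_sh, add_neg_cancel, add_neg_cancel, sh_zero, sh_zero] at h4
    obtain ⟨w, rfl⟩ := h4
    exact hd (by simp [Derivation.leibniz])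
  refine ⟨_, hSp.pt f h m _ ψ _ c (hLC f h m ψ _ _ _ a b hLG h1 (prime_sh _ _ X_prime)
    (prime_sh _ _ hq) h3 h2.symm) ?_⟩
  simp only [jac2, pderiv_sh, map_mul, map_sub, eval_sh]
  simp [hd, hg]

theorem exists_fac {z : P2 ℂ} (h0 : constantCoeff z = 0) (h1 : constantCoeff (pderiv 1 z) ≠ 0) :
    ∃ q w, z = q * w ∧ Prime q ∧ constantCoeff (pderiv 1 q) ≠ 0 ∧ constantCoeff w ≠ 0 := by
  have hz : z ≠ 0 := fun h => h1 (by simp [h])
  obtain ⟨F, hF, v, hv⟩ := UniqueFactorizationMonoid.exists_prime_factors z hz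
  have h2 : (F.map constantCoeff).prod = 0 := by
    rw [← map_multiset_prod]
    rw [← hv, map_mul] at h0
    exact (mul_eq_zero.mp h0).resolve_right (v.isUnit.map _).ne_zero
  obtain ⟨q, hqF, hq0⟩ := Multiset.mem_map.mp (Multiset.prod_eq_zero_iff.mp h2)
  obtain ⟨w, rfl⟩ : q ∣ z := (Multiset.dvd_prod hqF).trans ⟨v, hv.symm⟩
  have h3 : constantCoeff (pderiv 1 q) ≠ 0 ∧ constantCoeff w ≠ 0 := by
    simpa [Derivation.leibniz, hq0, and_comm] using h1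
  exact ⟨q, w, rfl, hF q hqF, h3⟩

theorem e3_aeval (v : Fin 2 → P2 ℂ) (ψ : Fin 3 → P2 ℂ) (F : P3) :
    e3 (fun l => aeval v (ψ l)) F = aeval v (e3 ψ F) :=
  (e3_map (aeval v : P2 ℂ →ₐ[ℂ] P2 ℂ).toRingHom ψ F).symm

theorem ch_fin (c : Fin 2 → ℂ) (t : ℂ) (ψ : Fin 3 → P2 ℂ) (F : P3) :
    ch t (sh (c 0) (c 1) (e3 ψ F)) = sh 0 t (e3 (finc c ψ) F) := by
  have : (ch t).comp (sh (c 0) (c 1)) =
      (sh 0 t).comp (aeval ![X 0 + C (c 0), X 0 * X 1 + C (c 1)]) := by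
    refine algHom_ext fun i => ?_
    fin_cases i <;> simp [sh, ch]
  have h1 := DFunLike.congr_fun this (e3 ψ F)
  rw [AlgHom.comp_apply, AlgHom.comp_apply, ← e3_aeval] at h1
  exact h1

theorem ch_inf (c : Fin 2 → ℂ) (ψ : Fin 3 → P2 ℂ) (F : P3) :
    ch 0 (sw (sh (c 0) (c 1) (e3 ψ F))) = sh 0 0 (e3 (infc c ψ) F) := by
  have : (ch 0).comp (sw.comp (sh (c 0) (c 1))) =
      (sh 0 0).comp (aeval ![X 0 * X 1 + C (c 0), X 0 + C (c 1)]) := by
    refine algHom_ext fun i => ?_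
    fin_cases i <;> simp [sh, ch, sw]
  have h1 := DFunLike.congr_fun this (e3 ψ F)
  rw [AlgHom.comp_apply, AlgHom.comp_apply, AlgHom.comp_apply, ← e3_aeval] at h1
  exact h1

theorem main (hLC : SLC) (hSp : SSp) (hBl : SBl) {f h : P3} {m : ℕ} (hLG : LG f h m)
    {F : Fin 1 → RK ℂ} {k l : ℕ} (hR : Res F k l) : ∀ (ψ : Fin 3 → P2 ℂ) (c : Fin 2 → ℂ),
      (∃ i, ψ i = 1) → F 0 = sh (c 0) (c 1) (e3 ψ (f * h)) → ∃ M, Pt f h m M ψ c := by
  induction hR with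
  | mono F k l a b g hf hg =>
    intro ψ c h1 h2
    obtain ⟨i, hi⟩ := hg
    rw [Subsingleton.elim i 0] at hi
    refine leaf hLC hSp hLG h1 (q := X 1) (a := a) (b := b) X_prime (by simp) hi ?_
    rw [← h2, hf]
    ring
  | curve F k a b z g h0 hz hf hg =>
    intro ψ c h1 h2
    obtain ⟨i, hi⟩ := hg
    rw [Subsingleton.elim i 0] at hi
    obtain ⟨q, w, rfl, hq, hq1, hw⟩ := exists_fac h0 hz
    refine leaf hLC hSp hLG h1 (g := w ^ b * g 0) (a := a) (b := b) hq hq1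
      (by simp [hw, hi]) ?_
    rw [← h2, hf]
    ring
  | blow F k l _ hne _ _ ih1 ih2 =>
    intro ψ c h1 h2
    obtain ⟨i, hi⟩ := hne
    rw [Subsingleton.elim i 0] at hi
    obtain ⟨j, hj⟩ := h1
    refine hBl f h m ψ c hLG ⟨j, hj⟩ (fun h0 => H21.ch_ne hi 0 ?_) (fun t => ?_) ?_
    · rw [h2, ch_fin, h0, map_zero]
    · exact ih1 t _ _ ⟨j, by simp [finc, hj]⟩ (by simpa [h2] using ch_fin c t ψ (f * h))
    · exact ih2 0 _ _ ⟨j, by simp [infc, hj]⟩ (by simpa [h2] using ch_inf c ψ (f * h))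

end IndX

theorem rowInd : OfInd := by
  intro hLC hSp hBl f h m ψ c hLG h1 h2
  refine IndX.main hLC hSp hBl hLG
    (H21.resA ℂ 1 (fun _ => sh (c 0) (c 1) (e3 ψ (f * h))) 0 0 ⟨0, fun h0 => h2 ?_⟩) ψ c h1 rfl
  have h3 := congrArg (sh (-c 0) (-c 1)) h0
  rwa [IndX.sh_sh, neg_add_cancel, neg_add_cancel, IndX.sh_zero, map_zero] at h3

end Pool.Agent.MP_5d9b3c_ag.H59
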