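import Pool.Agent.MP_5d9b3c_ag.H59.Spec

/-!
Removal of the poles along curves that are not vertical lines.
-/

namespace Pool.Agent.MP_5d9b3c_ag.H59

open MvPolynomial

namespace KA1X

variable {k K : Type} [Field k] [Field K] [Algebra k K]

theorem af_mem {B : Bx k K} {c : k × k} {V : ValuationSubring K}
    (h : Thru k (B.rt (.inl c)) V) (a : P2 k) : ev k (B.x, B.y) a ∈ V := by
  have hk := h.1.hasK
  have hx : B.x ∈ V := by
    have h1 := h.1 _ (ev_mem_Lo (B.rt (.inl c)) (X 0))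
    rw [ev_X0] at h1
    simpa [Bx.rt, root] using add_mem h1 (hk c.1)
  have hy : B.y ∈ V := by
    have h1 := h.1 _ (ev_mem_Lo (B.rt (.inl c)) (X 1))
    rw [ev_X1] at h1
    simpa [Bx.rt, root] using add_mem h1 (hk c.2)
  induction a using MvPolynomial.induction_on with
  | C a => rw [ev_C]; exact hk a
  | add p q hp hq => rw [map_add]; exact add_mem hp hq
  | mul_X p l hp =>
    rw [map_mul]
    refine mul_mem hp ?_
    fin_cases l
    · simpa using hx
    · simpa using hy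

theorem ev_R (B : Bx k K) (R : Polynomial k) :
    ev k (B.x, B.y) (Polynomial.aeval (X 0 : P2 k) R) = Polynomial.aeval B.x R := by
  rw [← Polynomial.aeval_algHom_apply, ev_X0]

theorem inv_mem {V : ValuationSubring K} {z : K} (h : V.valuation z = 1) : z⁻¹ ∈ V := by
  rw [← V.valuation_le_one_iff, map_inv₀, h, inv_one]

theorem key (hR : SRL k) (hS : SST k K) (hE : SEX k K) (B : Bx k K) (L : Root k → Set (K × K))
    (s : P2 k) : s ≠ 0 → ∀ (g : Root k → K × K → K) (R : Polynomial k), R ≠ 0 →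
      Bx.Cp L (fun V u => u ∈ V) g → B.AfIn L (Polynomial.aeval B.x R * ev k (B.x, B.y) s) g →
      ∃ (G : K) (R : Polynomial k), R ≠ 0 ∧
        B.AfIn L (Polynomial.aeval B.x R) fun p y => g p y - G := by
  induction s using UniqueFactorizationMonoid.induction_on_prime with
  | h₁ => exact fun h => absurd rfl h
  | h₂ s hs =>
    intro _ g R h0 _ h
    obtain ⟨t, ht⟩ := hs.exists_right_inv
    refine ⟨0, R, h0, fun c y V h1 h2 h3 => ?_⟩
    have h4 := mul_mem (af_mem h3 t) (h c y V h1 h2 h3)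
    have h5 : ev k (B.x, B.y) s * ev k (B.x, B.y) t = 1 := by rw [← map_mul, ht, map_one]
    convert h4 using 1
    linear_combination (-(Polynomial.aeval B.x R * g (.inl c) y)) * h5
  | h₃ s π hs hπ ih =>
    intro _ g R h0 hc h
    have hπ0 : ev k (B.x, B.y) π ≠ 0 := B.fr.ne hπ.ne_zero
    have drop : ∀ c y V, y ∈ L (.inl c) → Thru k y V → Thru k (B.rt (.inl c)) V →
        ¬V.valuation (ev k (B.x, B.y) π) < 1 → (ev k (B.x, B.y) π)⁻¹ ∈ V ∧
          Polynomial.aeval B.x R * ev k (B.x, B.y) s * g (.inl c) y ∈ V := by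
      intro c y V h1 h2 h3 h4
      have h5 := inv_mem (le_antisymm ((V.valuation_le_one_iff _).2 (af_mem h3 π)) (not_lt.1 h4))
      refine ⟨h5, ?_⟩
      have h6 := mul_mem h5 (h c y V h1 h2 h3)
      rw [map_mul] at h6
      convert h6 using 1
      field_simp
    by_cases hex : ∃ c y V, y ∈ L (.inl c) ∧ Thru k y V ∧ Thru k (B.rt (.inl c)) V ∧
      V.valuation (ev k (B.x, B.y) π) < 1
    swap
    · exact ih hs g R h0 hc fun c y V h1 h2 h3 =>
        (drop c y V h1 h2 h3 fun h4 => hex ⟨c, y, V, h1, h2, h3, h4⟩).2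
    obtain ⟨c₀, y₀, V₀, a1, a2, a3, a4⟩ := hex
    have hV₀ := hS.tr (B.x, B.y) c₀.1 c₀.2 V₀ π B.fr a3 hπ a4
    obtain ⟨a, b, hb, hab⟩ := hE.mem _ π V₀ B.fr hπ hV₀ _ (h c₀ y₀ V₀ a1 a2 a3)
    obtain ⟨R₁, α, β, hm, hR₁⟩ := hR π b hπ hb 0
    have e1 := congrArg (ev k (B.x, B.y)) hR₁
    rw [ev_R, map_add, map_mul, map_mul] at e1
    rw [map_mul] at hab
    have hb0 : ev k (B.x, B.y) b ≠ 0 := B.fr.ne fun e => hb (e ▸ dvd_zero π)
    have hb1 := inv_mem (hV₀.2.2 b hb)
    set T := Polynomial.aeval B.x (R * R₁) * ev k (B.x, B.y) s with hT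
    by_cases hT0 : T = 0
    · exact ih hs g (R * R₁) (mul_ne_zero h0 hm.ne_zero) hc fun c y V _ _ _ => by
        rw [← hT, hT0, zero_mul]
        exact zero_mem V
    obtain ⟨G, R', b1, b2⟩ := ih hs (fun p y => g p y -
      ev k (B.x, B.y) a * ev k (B.x, B.y) β / (ev k (B.x, B.y) π * T)) (R * R₁)
      (mul_ne_zero h0 hm.ne_zero) (fun p y p' y' V h1 h2 h3 h4 => by
        simpa using hc p y p' y' V h1 h2 h3 h4) fun c y V h1 h2 h3 => by
      have e2 : T * (ev k (B.x, B.y) a * ev k (B.x, B.y) β / (ev k (B.x, B.y) π * T)) =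
          ev k (B.x, B.y) a * ev k (B.x, B.y) β * (ev k (B.x, B.y) π)⁻¹ := by field_simp
      rw [← hT, mul_sub, e2]
      by_cases h4 : V.valuation (ev k (B.x, B.y) π) < 1
      · obtain rfl : V = V₀ :=
          hE.uniq _ π _ _ B.fr hπ (hS.tr (B.x, B.y) c.1 c.2 V π B.fr h3 hπ h4) hV₀
        have h5 : T ∈ V := by
          rw [hT, ← ev_R, ← map_mul]
          exact af_mem h3 _
        have h6 := add_mem (mul_mem h5 (hc _ y _ y₀ V h1 a1 h2 a2))
          (mul_mem (mul_mem (af_mem h3 a) (af_mem h3 α)) hb1)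
        convert h6 using 1
        rw [hT, map_mul, e1, ← hab]
        field_simp
        ring
      · obtain ⟨h5, h6⟩ := drop c y V h1 h2 h3 h4
        refine sub_mem ?_ (mul_mem (mul_mem (af_mem h3 a) (af_mem h3 β)) h5)
        have h7 := mul_mem (af_mem h3 (Polynomial.aeval (X 0 : P2 k) R₁)) h6
        rw [ev_R] at h7
        convert h7 using 1
        rw [hT, map_mul]
        ring
    refine ⟨ev k (B.x, B.y) a * ev k (B.x, B.y) β / (ev k (B.x, B.y) π * T) + G, R', b1, ?_⟩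
    simpa only [sub_add_eq_sub_sub] using b2

end KA1X

theorem rowKA1 : OfKA1 := by
  intro k K _ _ _ _ hR hS hE B L g hc ⟨s, hs, h⟩
  exact KA1X.key hR hS hE B L s hs g 1 one_ne_zero hc (by simpa using h)

end Pool.Agent.MP_5d9b3c_ag.H59
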