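import Pool.Agent.MP_5d9b3c_ag.H59.Spec

/-!
Row `KA2`: removing the poles along vertical lines.
-/

namespace Pool.Agent.MP_5d9b3c_ag.H59

open MvPolynomial

namespace KA2X

variable {k K : Type} [Field k] [Field K] [Algebra k K]

theorem aeval_mem {V : ValuationSubring K} (hk : HasK k V) {z : K} (hz : z ∈ V)
    (q : Polynomial k) : Polynomial.aeval z q ∈ V := by
  induction q using Polynomial.induction_on' with
  | add p q hp hq => rw [map_add]; exact add_mem hp hq
  | monomial n a =>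
    rw [Polynomial.aeval_monomial]
    exact mul_mem (hk a) (pow_mem hz n)

theorem xy_mem (B : Bx k K) {c : k × k} {V : ValuationSubring K}
    (h : Sub k (B.rt (.inl c)) V) : B.x ∈ V ∧ B.y ∈ V := by
  have h1 := h _ (ev_mem_Lo (B.rt (.inl c)) (X 0 + C c.1))
  have h2 := h _ (ev_mem_Lo (B.rt (.inl c)) (X 1 + C c.2))
  simp only [map_add, ev_X0, ev_X1, ev_C, Bx.rt, root, sub_add_cancel] at h1 h2
  exact ⟨h1, h2⟩

theorem val_mul_lt {V : ValuationSubring K} {a b : K} (ha : V.valuation a < 1) (hb : b ∈ V) :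
    V.valuation (a * b) < 1 := by
  rw [map_mul]
  exact (mul_le_of_le_one_right' ((V.valuation_le_one_iff _).2 hb)).trans_lt ha

theorem mem_of_lt {V : ValuationSubring K} {a : K} (ha : V.valuation a < 1) : a ∈ V :=
  (V.valuation_le_one_iff _).1 ha.le

/-- the family times `R` is regular at every point over an affine point -/
theorem lo (hFR : SFR k K) (hTR : STR k K) (hTW : STW k K) (hNM : SNM k K) (hS : SS k K)
    (B : Bx k K) (L : Root k → Set (K × K)) (g : Root k → K × K → K) (R : Polynomial k)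
    (hL : B.Covs L) (hg : Bx.Cp L (fun V u => u ∈ V) g)
    (hR : B.AfIn L (Polynomial.aeval B.x R) g) (c : k × k) (y : K × K) (hy : y ∈ L (.inl c)) :
    Polynomial.aeval B.x R * g (.inl c) y ∈ Lo k y := by
  refine hNM.lo y _ (hTR.down _ _ y (hFR.rt B (.inl c)) (hL _) hy).1 fun V hV => ?_
  have h := hS (B.rt (.inl c)) (L (.inl c)) 1 (Polynomial.aeval B.x R) (g (.inl c))
    (hFR.rt B _) (hL _) (fun y1 h1 y2 h2 V h3 h4 => ?_) (fun y1 h1 V h3 h4 => ?_) y hy V hV
  · rwa [pow_one, mul_comm] at h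
  · have h5 := (hTW.mxl B L _ y1 V hL h1 h3.1).1
    rw [pow_one]
    exact mul_mem (hg _ y1 _ y2 V h1 h2 h3 h4) (aeval_mem h5.hasK (xy_mem B h5).1 R)
  · rw [pow_one, mul_comm]
    exact hR c y1 V h1 h3 h4

theorem step (hFR : SFR k K) (hTR : STR k K) (hTW : STW k K) (hE : SE k K) (hDV : SDV k K)
    (hTH : STH k K) (hNM : SNM k K) (hLN : SLN k K) (hS : SS k K)
    (B : Bx k K) (L : Root k → Set (K × K)) (g : Root k → K × K → K) (c : k) (R : Polynomial k)
    (hL : B.Covs L) (hg : Bx.Cp L (fun V u => u ∈ V) g) (h0 : R ≠ 0)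
    (hR : B.AfIn L (Polynomial.aeval B.x ((Polynomial.X - Polynomial.C c) * R)) g) :
    ∃ G : K, B.AfIn L (Polynomial.aeval B.x R) fun p y => g p y - G := by
  have hlo := lo hFR hTR hTW hNM hS B L g _ hL hg hR
  have hs : Polynomial.aeval B.x ((Polynomial.X - Polynomial.C c) * R) =
      (B.x - algebraMap k K c) * Polynomial.aeval B.x R := by simp
  rw [hs] at hR hlo
  have hfr : IsFr k (B.x - algebraMap k K c, B.y) := by simpa using hFR.tr (B.x, B.y) c 0 B.fr
  have hx0 : B.x - algebraMap k K c ≠ 0 := (hFR.ne _ hfr).1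
  have hR0 : Polynomial.aeval B.x R ≠ 0 := by
    obtain ⟨V, hV⟩ := hE.ex _ (hFR.sw _ B.fr)
    have h1 := hE.pol _ V R hV h0
    intro h2
    simp only [h2, map_zero] at h1
    exact zero_ne_one h1
  obtain ⟨Vc, hVc⟩ := hE.ex _ hfr
  have hth : ∀ b : k, Thru k (B.rt (.inl (c, b))) Vc := fun b =>
    ((hE.thru _ Vc (hFR.rt B (.inl (c, b)))).1 ((hE.tr _ _ b Vc).2 hVc)).1
  have hxc : Vc.valuation (B.x - algebraMap k K c) < 1 := hVc.2.1
  have hRc : Polynomial.aeval B.x R ∈ Vc := aeval_mem hVc.1 (xy_mem B (hth 0).1).1 R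
  obtain ⟨y0, hy0, ht0⟩ := hTH.th _ _ Vc (hFR.rt B (.inl (c, 0))) (hL _) (hth 0)
  have hdiff : ∀ p y, y ∈ L p → Thru k y Vc →
      Vc.valuation ((B.x - algebraMap k K c) * Polynomial.aeval B.x R *
        (g (.inl (c, 0)) y0 - g p y)) < 1 := fun p y h1 h2 =>
    val_mul_lt (val_mul_lt hxc hRc) (hg _ y0 _ y Vc hy0 h1 ht0 h2)
  obtain ⟨r, hr, -⟩ := hLN _ Vc
    ((B.x - algebraMap k K c) * Polynomial.aeval B.x R * g (.inl (c, 0)) y0) hfr hVc
    (hR _ y0 Vc hy0 ht0 (hth 0)) fun W hW hK hyW => by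
      obtain ⟨b, hb⟩ := hK.2 _ hyW
      have hd : Dom k (B.rt (.inl (c, b))) W := hTR.dom _ W hK.1 (val_lt_of_le hW hxc) hb
      obtain ⟨y1, h1, h2, h3⟩ := hTH.lift _ _ Vc W (hFR.rt B (.inl (c, b))) (hL _) hW hK hd
        fun h => (hth b).2 h.2
      have h4 := add_mem (h2.1 _ (hlo _ y1 h1))
        (mem_of_lt (val_lt_of_le hW (hdiff _ y1 h1 h3)))
      rwa [← mul_add, add_sub_cancel] at h4
  refine ⟨Polynomial.aeval B.y r / ((B.x - algebraMap k K c) * Polynomial.aeval B.x R),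
    fun a y V hy ht hr0 => ?_⟩
  have heq : Polynomial.aeval B.x R * (g (.inl a) y -
      Polynomial.aeval B.y r / ((B.x - algebraMap k K c) * Polynomial.aeval B.x R)) =
      ((B.x - algebraMap k K c) * Polynomial.aeval B.x R * g (.inl a) y -
        Polynomial.aeval B.y r) / (B.x - algebraMap k K c) := by
    field_simp
  change Polynomial.aeval B.x R * (g (.inl a) y - _) ∈ V
  rw [heq, ← V.valuation_le_one_iff, map_div₀]
  refine div_le_one_of_le₀ ?_ zero_le
  by_cases hv : V.valuation (B.x - algebraMap k K c) < 1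
  · have hac : a.1 = c := by
      by_contra hne
      have h1 := hTR.unit _ V (X 0 + C (a.1 - c)) (hFR.rt B (.inl a)) hr0.1
        (by simpa using sub_ne_zero.2 hne)
      simp only [map_add, ev_X0, ev_C, Bx.rt, root, map_sub, sub_add_sub_cancel] at h1
      exact hv.ne h1
    have h1 : IsE k (B.rt (.inl a)) V := (hE.thru _ V (hFR.rt B (.inl a))).2 ⟨hr0, by
      simpa only [Bx.rt, root, hac] using hv⟩
    have h2 : IsE k (B.x - algebraMap k K c, B.y) V := by
      refine (hE.tr _ _ a.2 V).1 ?_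
      simpa only [Bx.rt, root, hac] using h1
    obtain rfl := hE.uniq _ V Vc hfr h2 hVc
    refine hDV.le V _ _ (hE.unif _ V hfr hVc) ?_
    have h3 := (V.valuation.map_sub _ _).trans_lt (max_lt hr (hdiff _ y hy ht))
    convert h3 using 2
    ring
  · refine le_trans ((V.valuation_le_one_iff _).2 ?_) (not_lt.1 hv)
    exact sub_mem (hR a y V hy ht hr0) (aeval_mem hr0.1.hasK (xy_mem B hr0.1).2 r)

end KA2X

theorem rowKA2 : OfKA2 := by
  intro k K _ _ _ _ hFR hTR hTW hE hDV hTH hNM hLN hS B L g R hL hg h0 hR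
  induction hn : R.natDegree generalizing g R with
  | zero =>
    obtain ⟨a, rfl⟩ := Polynomial.natDegree_eq_zero.1 hn
    have ha : a ≠ 0 := by simpa using h0
    refine ⟨0, fun c y V h1 h2 h3 => ?_⟩
    have h4 := mul_mem (h3.1.hasK a⁻¹) (hR c y V h1 h2 h3)
    rw [Polynomial.aeval_C, ← mul_assoc, ← map_mul, inv_mul_cancel₀ ha, map_one] at h4
    simpa using h4
  | succ n ih =>
    obtain ⟨c, hc⟩ := IsAlgClosed.exists_root R (by
      rw [Polynomial.degree_eq_natDegree h0, hn]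
      exact_mod_cast n.succ_ne_zero)
    obtain ⟨R', rfl⟩ := Polynomial.dvd_iff_isRoot.2 hc
    have h1 : R' ≠ 0 := right_ne_zero_of_mul h0
    obtain ⟨G, hG⟩ := KA2X.step hFR hTR hTW hE hDV hTH hNM hLN hS B L g c R' hL hg h1 hR
    obtain ⟨G', hG'⟩ := ih (fun p y => g p y - G) R' (fun p y p' y' V h2 h3 h4 h5 => by
      simpa using hg p y p' y' V h2 h3 h4 h5) h1 hG (by
      rw [Polynomial.natDegree_mul (Polynomial.X_sub_C_ne_zero c) h1,
        Polynomial.natDegree_X_sub_C] at hn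
      omega)
    refine ⟨G + G', fun a y V h2 h3 h4 => ?_⟩
    simpa [sub_sub] using hG' a y V h2 h3 h4

end Pool.Agent.MP_5d9b3c_ag.H59
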