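import Pool.Agent.MP_5d9b3c_ag.H59.Spec

/-!
Removal of the poles along the line at infinity.
-/

namespace Pool.Agent.MP_5d9b3c_ag.H59

open MvPolynomial

namespace KA3X

variable {k K : Type} [Field k] [Field K] [Algebra k K]

theorem small {V : ValuationSubring K} {a w : K} (j : ℕ) (ha : a ∈ V)
    (hw : V.valuation w⁻¹ < 1) : V.valuation (a / w ^ (j + 1)) < 1 := by
  rw [div_eq_mul_inv, ← inv_pow, map_mul, map_pow]
  exact (mul_le_of_le_one_left' ((V.valuation_le_one_iff _).2 ha)).trans_lt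
    (pow_lt_one' hw (Nat.succ_ne_zero j))

theorem mem_of_lt {V W : ValuationSubring K} (h : W ≤ V) {a b : K} (hb : b ∈ W)
    (hab : V.valuation (a - b) < 1) : a ∈ W := by
  have h1 := add_mem ((W.valuation_le_one_iff _).1 (val_lt_of_le h hab).le) hb
  rwa [sub_add_cancel] at h1

theorem div_mem {V : ValuationSubring K} {a w : K} (j : ℕ) (ha : a ∈ V) (hw : w⁻¹ ∈ V) :
    a / w ^ j ∈ V := by
  rw [div_eq_mul_inv, ← inv_pow]
  exact mul_mem ha (pow_mem hw j)

theorem swap {V : ValuationSubring K} {a w w' : K} (μ j : ℕ)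
    (h : V.valuation w' = V.valuation w) (ha : a * w ^ μ / w ^ j ∈ V) :
    a * w' ^ μ / w' ^ j ∈ V :=
  mem_of_val_le (by simp only [map_div₀, map_mul, map_pow, h, le_refl]) ha

theorem val_y {B : Bx k K} {V : ValuationSubring K} (h : IsE k (B.x⁻¹, B.y / B.x) V) :
    V.valuation B.y = V.valuation B.x := by
  have h1 := h.2.2 0
  rw [map_zero, sub_zero, map_div₀] at h1
  exact (div_eq_one_iff_eq (by simpa using B.x_ne)).1 h1

theorem val_w {B : Bx k K} {V : ValuationSubring K} (h : IsE k (B.x⁻¹, B.y / B.x) V)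
    (c : Option k) : V.valuation (B.XX (chi (.inr c : Root k))) = V.valuation B.x := by
  cases c
  exacts [val_y h, rfl]

theorem val_w' {B : Bx k K} {V : ValuationSubring K} (h : IsE k (B.x⁻¹, B.y / B.x) V)
    (c : Option k) : V.valuation (B.XX (chi (.inr c : Root k)))⁻¹ < 1 := by
  rw [map_inv₀, val_w h, ← map_inv₀]
  exact h.2.1

theorem cp {B : Bx k K} {L : Root k → Set (K × K)} {g : Root k → K × K → K} {μ : ℕ}
    (h : Bx.Cp L (B.Lg 1 1 μ) g) {p p' : Root k} {y y' : K × K} {V : ValuationSubring K}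
    (hy : y ∈ L p) (hy' : y' ∈ L p') (h1 : Thru k y V) (h2 : Thru k y' V) (i : Fin 3) :
    (g p y - g p' y') * B.XX i ^ μ ∈ V := by
  simpa using h p y p' y' V hy hy' h1 h2 i

/-- the pole order along the line at infinity is at most `j` -/
def Pl (B : Bx k K) (L : Root k → Set (K × K)) (g : Root k → K × K → K) (μ j : ℕ)
    (V : ValuationSubring K) : Prop :=
  ∀ c y, y ∈ L (.inr c) → Thru k y V → g (.inr c) y * B.x ^ μ / B.x ^ j ∈ V

theorem pl_of_one {B : Bx k K} {L : Root k → Set (K × K)} {g : Root k → K × K → K} {μ j : ℕ}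
    {V : ValuationSubring K} (hV : IsE k (B.x⁻¹, B.y / B.x) V) (h : Bx.Cp L (B.Lg 1 1 μ) g)
    {p : Root k} {y : K × K} (hy : y ∈ L p) (h1 : Thru k y V)
    (h2 : g p y * B.x ^ μ / B.x ^ j ∈ V) : Pl B L g μ j V := fun c y' hy' h3 => by
  have h4 := add_mem (div_mem j (cp h hy' hy h3 h1 1)
    ((V.valuation_le_one_iff _).1 hV.2.1.le)) h2
  convert h4 using 1
  rw [Bx.XX1]
  ring

theorem loc (fr : SFR k K) (tw : STW k K) (e : SE k K) (th : STH k K) (ss : SS k K)
    {B : Bx k K} {L : Root k → Set (K × K)} {g : Root k → K × K → K} {μ j : ℕ}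
    {Vi : ValuationSubring K} (hV : IsE k (B.x⁻¹, B.y / B.x) Vi) (hL : B.Covs L)
    (hc : Bx.Cp L (B.Lg 1 1 μ) g) (ha : B.AfIn L 1 g) (hp : Pl B L g μ j Vi) (c : Option k)
    {y : K × K} (hy : y ∈ L (.inr c)) {V : ValuationSubring K} (h : Thru k y V) :
    g (.inr c) y * B.XX (chi (.inr c : Root k)) ^ μ / B.XX (chi (.inr c : Root k)) ^ j ∈ V := by
  have key := ss (B.rt (.inr c)) (L (.inr c)) 1
    (B.XX (chi (.inr c : Root k)) ^ μ / B.XX (chi (.inr c : Root k)) ^ j) (g (.inr c))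
    (fr.rt B _) (hL _) ?_ ?_ y hy V h
  · rwa [pow_one, ← mul_div_assoc] at key
  · intro y hy y' hy' V h1 h2
    rw [pow_one, ← mul_div_assoc]
    exact div_mem j (cp hc hy hy' h1 h2 _) (by simpa using (tw.mxl B L _ y V hL hy h1.1).2 0)
  · intro y hy V h1 h2
    rw [pow_one, ← mul_div_assoc]
    rcases th.af B c V h2 with h3 | ⟨c', h3⟩
    · obtain rfl := e.uniq _ _ _ (fr.inf B) h3 hV
      exact swap μ j (val_w hV c) (hp c y hy h1)
    · obtain ⟨y', hy', h4⟩ := th.th _ _ V (fr.rt B _) (hL _) h3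
      have h5 := add_mem (cp hc hy hy' h1 h4 0) (ha c' y' V hy' h4 h3)
      have h6 := (tw.mxl B L _ y V hL hy h1.1).2.val_eq (tw.mxl B L _ y' V hL hy' h4.1).2
      refine swap (w := 1) μ j (by simpa [chi] using h6) ?_
      simpa using h5

theorem zero (fr : SFR k K) (tw : STW k K) (e : SE k K) (th : STH k K) (ss : SS k K)
    {B : Bx k K} {L : Root k → Set (K × K)} {g : Root k → K × K → K} {μ : ℕ}
    {Vi : ValuationSubring K} (hV : IsE k (B.x⁻¹, B.y / B.x) Vi) (hL : B.Covs L)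
    (hc : Bx.Cp L (B.Lg 1 1 μ) g) (ha : B.AfIn L 1 g) (hp : Pl B L g μ 0 Vi) :
    Bx.Sv L (B.Lg 1 1 μ) g := by
  intro p y V hy h
  rw [(tw.mxl B L _ y V hL hy h.1).2.lg_iff]
  rcases p with c | c
  · have key := ss (B.rt (.inl c)) (L (.inl c)) 1 1 (g (.inl c)) (fr.rt B _) (hL _) ?_ ?_ y hy V h
    · simpa [chi] using key
    · intro y hy y' hy' V h1 h2
      simpa using cp hc hy hy' h1 h2 0
    · intro y hy V h1 h2
      simpa using ha c y V hy h1 h2
  · simpa using loc fr tw e th ss hV hL hc ha hp c hy h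

/-- the normalised function lies in the places centred at a point at infinity -/
theorem place (fr : SFR k K) (tr : STR k K) (tw : STW k K) (e : SE k K) (th : STH k K)
    (nm : SNM k K) (ss : SS k K)
    {B : Bx k K} {L : Root k → Set (K × K)} {g : Root k → K × K → K} {μ j : ℕ}
    {Vi : ValuationSubring K} (hV : IsE k (B.x⁻¹, B.y / B.x) Vi) (hL : B.Covs L)
    (hc : Bx.Cp L (B.Lg 1 1 μ) g) (ha : B.AfIn L 1 g) (hp : Pl B L g μ (j + 1) Vi)
    {p : Root k} {y₀ : K × K} (hy₀ : y₀ ∈ L p) (h₀ : Thru k y₀ Vi) (c : Option k)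
    {W : ValuationSubring K} (hW : W ≤ Vi) (hr : ResK k W) (hd : Dom k (B.rt (.inr c)) W) :
    g p y₀ * B.XX (chi (.inr c : Root k)) ^ μ / B.XX (chi (.inr c : Root k)) ^ (j + 1) ∈ W := by
  obtain ⟨y, hy, h1, h2⟩ := th.lift _ _ Vi W (fr.rt B _) (hL _) hW hr hd
    fun h => (th.inf B c Vi hV).2 h.2
  have h3 := h1.1 _ (nm.lo y _ (tr.down _ _ y (fr.rt B _) (hL _) hy).1 fun V h =>
    loc fr tw e th ss hV hL hc ha hp c hy h)
  refine mem_of_lt hW h3 ?_
  rw [← sub_div, ← sub_mul]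
  exact small j (cp hc hy₀ hy h₀ h2 _) (val_w' hV c)

theorem poly_mem {B : Bx k K} {V : ValuationSubring K} (hk : HasK k V) (hx : B.x ∈ V)
    (hy : B.y ∈ V) {r : Polynomial k} {μ n : ℕ} (h : r = 0 ∨ r.natDegree + μ ≤ n) :
    Polynomial.aeval (B.y / B.x) r * B.x ^ n / B.x ^ μ ∈ V := by
  rcases h with rfl | h
  · simp
  rw [Polynomial.aeval_eq_sum_range, Finset.sum_mul, Finset.sum_div]
  refine sum_mem fun i hi => ?_
  obtain ⟨s, hs⟩ : ∃ s, n = i + μ + s :=
    Nat.exists_eq_add_of_le (by have := Finset.mem_range.1 hi; omega)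
  have h1 := mul_mem (hk (r.coeff i)) (mul_mem (pow_mem hy i) (pow_mem hx s))
  have := B.x_ne
  convert h1 using 1
  rw [hs, Algebra.smul_def, div_pow, pow_add, pow_add]
  field_simp

theorem ind (fr : SFR k K) (tr : STR k K) (tw : STW k K) (e : SE k K) (dv : SDV k K)
    (th : STH k K) (nm : SNM k K) (ln : SLN k K) (ss : SS k K)
    {B : Bx k K} {L : Root k → Set (K × K)} {μ : ℕ}
    {Vi : ValuationSubring K} (hV : IsE k (B.x⁻¹, B.y / B.x) Vi) (hL : B.Covs L) (j : ℕ) :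
    ∀ g : Root k → K × K → K, Bx.Cp L (B.Lg 1 1 μ) g → B.AfIn L 1 g → Pl B L g μ j Vi →
      ∃ G : K, Bx.Sv L (B.Lg 1 1 μ) fun p y => g p y - G := by
  induction j with
  | zero =>
    intro g hc ha hp
    exact ⟨0, by simpa using zero fr tw e th ss hV hL hc ha hp⟩
  | succ j ih =>
    intro g hc ha hp
    have hx := B.x_ne
    have hy := B.y_ne
    obtain ⟨y₀, hy₀, h₀⟩ := th.th _ _ Vi (fr.rt B _) (hL _) (th.inf B none Vi hV)
    obtain ⟨r, hr, hd⟩ := ln _ Vi _ (fr.inf B) hV (hp none y₀ hy₀ h₀) fun W hW hk hv => by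
      obtain ⟨c, h1⟩ := hk.2 _ hv
      exact place fr tr tw e th nm ss hV hL hc ha hp hy₀ h₀ (some c) hW hk
        (tr.dom _ W hk.1 (val_lt_of_le hW hV.2.1) h1)
    have hd' := hd μ (j + 1) fun W hW hk hv => by
      have h1 : W.valuation (B.x / B.y) < 1 := by
        rw [← inv_div, map_inv₀]
        exact inv_lt_one_of_one_lt₀ (not_le.1 fun h => hv ((W.valuation_le_one_iff _).1 h))
      have h2 := place fr tr tw e th nm ss hV hL hc ha hp hy₀ h₀ none hW hk
        (tr.dom _ W hk.1 (val_lt_of_le hW (val_w' hV none)) h1)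
      convert h2 using 1
      simp only [chi, Bx.XX2, div_pow]
      field_simp
    have hc' : Bx.Cp L (B.Lg 1 1 μ) fun p y =>
        g p y - Polynomial.aeval (B.y / B.x) r * B.x ^ (j + 1) / B.x ^ μ := by
      intro p y p' y' V h1 h2 h3 h4
      simpa using hc p y p' y' V h1 h2 h3 h4
    obtain ⟨G, hG⟩ := ih _ hc' (fun c y V h1 h2 h3 => by
      have h4 := (tw.mxl B L _ y V hL h1 h2.1).2
      have h5 := sub_mem (ha c y V h1 h2 h3) (poly_mem h2.1.hasK (by simpa [chi] using h4 1)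
        (by simpa [chi] using h4 2) hd')
      simpa using h5) (pl_of_one hV hc' hy₀ h₀ (by
      have h1 := dv.le Vi _ _ (e.unif _ Vi (fr.inf B) hV) hr
      rw [← Vi.valuation_le_one_iff]
      have h2 : (g (.inr none) y₀ - Polynomial.aeval (B.y / B.x) r * B.x ^ (j + 1) / B.x ^ μ) *
          B.x ^ μ / B.x ^ j = (g (.inr none) y₀ * B.x ^ μ / B.x ^ (j + 1) -
            Polynomial.aeval (B.y / B.x) r) / B.x⁻¹ := by
        field_simp
        ring
      rw [h2, map_div₀]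
      exact div_le_one_of_le₀ h1 zero_le))
    exact ⟨Polynomial.aeval (B.y / B.x) r * B.x ^ (j + 1) / B.x ^ μ + G, by
      simpa only [sub_sub] using hG⟩

theorem start {V : ValuationSubring K} {t : K} (h : Unif V t⁻¹) (a : K) :
    ∃ j : ℕ, a / t ^ j ∈ V := by
  by_cases ha : a = 0
  · exact ⟨0, by simp [ha]⟩
  obtain ⟨n, hn⟩ := h.2.2 a ha
  refine ⟨(-n).toNat, ?_⟩
  have h0 : V.valuation t⁻¹ ≠ 0 := by simpa using h.1
  rw [← V.valuation_le_one_iff, div_eq_mul_inv, ← inv_pow, map_mul, map_pow, hn, ← zpow_natCast,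
    ← zpow_add₀ h0]
  exact zpow_le_one₀ (pos_iff_ne_zero.2 h0) h.2.1.le (by omega)

end KA3X

theorem rowKA3 : OfKA3 := by
  intro k K _ _ _ _ fr tr tw e dv th nm ln ss B L g μ hL hc ha
  obtain ⟨Vi, hV⟩ := e.ex _ (fr.inf B)
  obtain ⟨y₀, hy₀, h₀⟩ := th.th _ _ Vi (fr.rt B _) (hL _) (th.inf B none Vi hV)
  obtain ⟨j, hj⟩ := KA3X.start (e.unif _ Vi (fr.inf B) hV) (g (.inr none) y₀ * B.x ^ μ)
  exact KA3X.ind fr tr tw e dv th nm ln ss hV hL j g hc ha (KA3X.pl_of_one hV hc hy₀ h₀ hj)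

end Pool.Agent.MP_5d9b3c_ag.H59
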