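import Pool.Agent.MP_5d9b3c_ag.H59.Spec

/-!
Vanishing of the first cohomology of the rounded lattices.
-/

namespace Pool.Agent.MP_5d9b3c_ag.H59

open MvPolynomial

namespace KBX

variable {k K : Type} [Field k] [Field K] [Algebra k K]

theorem near {V W : ValuationSubring K} {u u₀ σ : K} {m : ℕ} (h1 : (u - u₀) ^ m * σ ∈ V)
    (h2 : u₀ ^ m * σ ∉ V) (h : W ≤ V) : ∃ c ∈ W, u₀ = c * u := by
  have h3 : V.valuation (u - u₀) < V.valuation u₀ := by
    refine not_le.1 fun h3 => h2 (mem_of_val_le ?_ h1)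
    simp only [map_mul, map_pow]
    gcongr
  have h4 := V.valuation.map_eq_of_sub_lt h3
  have h5 : 0 < V.valuation u := h4 ▸ zero_le.trans_lt h3
  have h6 : u ≠ 0 := by
    rintro rfl
    simp at h5
  have h7 : V.valuation (1 - u₀ / u) < 1 := by
    rwa [one_sub_div h6, map_div₀, div_lt_one₀ h5, h4]
  refine ⟨u₀ / u, ?_, (div_mul_cancel₀ _ h6).symm⟩
  simpa using sub_mem W.one_mem ((W.valuation_le_one_iff _).1 (val_lt_of_le h h7).le)

theorem one (hD : SDV k K) {V : ValuationSubring K} {t Φ x : K} {H a b : ℕ} (ht : Unif V t)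
    (hH : 0 < H) (hb : H ∣ b) (b0 : b ≠ 0) (hx : V.valuation x = V.valuation t ^ H)
    (h1 : Φ ^ b * x ^ (a + 1) ∈ V) (h2 : Φ ^ b * x ^ a ∉ V) :
    V.valuation (Φ ^ b * x ^ (a + 1)) = 1 := by
  obtain ⟨n, hn⟩ := ht.2.2 Φ (by
    rintro rfl
    simp [b0] at h2)
  obtain ⟨c, rfl⟩ := hb
  have t0 : V.valuation t ≠ 0 := by simpa using ht.1
  have e : ∀ j : ℕ, V.valuation (Φ ^ (H * c) * x ^ j) = V.valuation t ^ (H * (n * c + j) : ℤ) :=
    fun j => by
      rw [map_mul, map_pow, map_pow, hn, hx, ← zpow_natCast, ← zpow_mul, ← pow_mul,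
        ← zpow_natCast, ← zpow_add₀ t0]
      congr 1
      push_cast
      ring
  rw [← V.valuation_le_one_iff, e, ← zpow_zero (V.valuation t), hD.zle V t _ _ ht] at h1 h2
  have h0 : (0 : ℤ) < H := by exact_mod_cast hH
  have h3 := nonneg_of_mul_nonneg_right h1 h0
  have h4 : n * c + a < 0 := neg_of_mul_neg_right (not_le.1 h2) h0.le
  rw [e, show n * c + (a + 1 : ℕ) = 0 by push_cast at h3 ⊢; omega, mul_zero, zpow_zero]

end KBX

open KBX

theorem rowKB : OfKB := by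
  intro k K _ _ _ _ hF hR hW hD hT hC hN hS hO hA B L γ κ m q E J hL hγ h0 hm hE hκ g hg hb
  obtain ⟨r, e₀, hr, he₀⟩ : ∃ r e₀, m * r = q + e₀ ∧ e₀ < m := by
    have h1 := Nat.div_add_mod (q + (m - 1)) m
    have h2 := Nat.mod_lt (q + (m - 1)) hm
    exact ⟨(q + (m - 1)) / m, m - 1 - (q + (m - 1)) % m, by omega, by omega⟩
  obtain ⟨μ, hμ⟩ : ∃ μ, J = κ * r + μ :=
    Nat.exists_eq_add_of_le (Nat.le_of_mul_le_mul_left (by nlinarith) hm)
  have hE' : E = m * μ + κ * e₀ := by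
    have : κ * (m * r) = κ * (q + e₀) := by rw [hr]
    nlinarith
  have key : ∀ i u, ((B.hat 0 γ ^ r * u) ^ 1 * 1 * B.XX i ^ μ) ^ m =
      u ^ m * B.hat 0 γ ^ q * B.XX i ^ E * B.hat i γ ^ e₀ := fun i u => by
    calc _ = u ^ m * B.hat 0 γ ^ (m * r) * B.XX i ^ (m * μ) := by ring
      _ = u ^ m * B.hat 0 γ ^ q * B.XX i ^ (m * μ) * B.hat 0 γ ^ e₀ := by rw [hr]; ring
      _ = u ^ m * B.hat 0 γ ^ q * B.XX i ^ (m * μ) * (B.XX i ^ κ * B.hat i γ) ^ e₀ := by
        rw [← B.hat_zero hγ i]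
      _ = _ := by rw [hE']; ring
  have mx : ∀ {p y V}, y ∈ L p → Sub k y V → B.Mx V (chi p) := fun a b =>
    (hW.mxl B L _ _ _ hL a b).2
  obtain ⟨G, hG⟩ := hA B L μ hL (fun p y => B.hat 0 γ ^ r * g p y)
    (fun p y p' y' V a a' b b' => by
      rw [(mx a b.1).lg_iff, ← pow_mem_iff hm.ne', ← mul_sub, key]
      exact mul_mem (hg p y p' y' V a a' b b' _) (pow_mem ((mx a b.1).hat_mem γ) _))
    (by
      obtain ⟨s, s0, hs⟩ := hb
      refine ⟨s, s0, fun c y V a b b' => ?_⟩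
      rw [mul_left_comm]
      exact mul_mem (pow_mem ((mx a b.1).hat_mem γ) _) (hs c y V a b b'))
  refine ⟨G / B.hat 0 γ ^ r, ?_⟩
  obtain ⟨u, hu⟩ : ∃ u : Root k → K × K → K, u = fun p y => g p y - G / B.hat 0 γ ^ r := ⟨_, rfl⟩
  obtain ⟨σ, hσ⟩ : ∃ σ : Fin 3 → K, σ = fun i => B.hat 0 γ ^ q * B.XX i ^ E := ⟨_, rfl⟩
  have cp : ∀ {p y p' y' V}, y ∈ L p → y' ∈ L p' → Thru k y V → Thru k y' V → ∀ i,
      (u p y - u p' y') ^ m * σ i ∈ V := fun a a' b b' i => by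
    simpa only [hu, hσ, sub_sub_sub_cancel_right, mul_assoc] using hg _ _ _ _ _ a a' b b' i
  have b0 := κ.factorial_ne_zero
  let Q : ℕ → Prop := fun a => ∀ p y V, y ∈ L p → Thru k y V → Thru k (B.rt p) V →
    (u p y ^ m * σ (chi p)) ^ κ.factorial * B.hat (chi p) γ ^ a ∈ V
  have all : ∀ a, Q a → ∀ p y V, y ∈ L p → Thru k y V →
      (u p y ^ m * σ (chi p)) ^ κ.factorial * B.hat (chi p) γ ^ a ∈ V := fun a ha p y V c d => by
    have e : ∀ z : K, z ^ (m * κ.factorial) * (σ (chi p) ^ κ.factorial * B.hat (chi p) γ ^ a) =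
        (z ^ m * σ (chi p)) ^ κ.factorial * B.hat (chi p) γ ^ a := fun z => by ring
    rw [← e]
    refine hS (B.rt p) (L p) _ _ (u p) (hF.rt B p) (hL p) (fun y a y' a' V b b' => ?_)
      (fun y a V b b' => ?_) y c V d <;> rw [e]
    · exact mul_mem (pow_mem (cp a a' b b' _) _) (pow_mem ((mx a b.1).hat_mem γ) _)
    · exact ha p y V a b b'
  have start : Q (e₀ * κ.factorial) := fun p y V a b _ => by
    have h1 := pow_mem (hG p y V a b (chi p)) m
    beta_reduce at h1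
    rw [show B.hat 0 γ ^ r * g p y - G = B.hat 0 γ ^ r * u p y by rw [hu]; field_simp, key] at h1
    rw [pow_mul, ← mul_pow]
    exact pow_mem (by simpa only [hσ, mul_assoc] using h1) _
  have down : ∀ a, a + 1 ≤ e₀ * κ.factorial → Q (a + 1) → Q a := fun a ha hQ p₀ y₀ V c d d' => by
    by_contra hn
    have h1 := hQ p₀ y₀ V c d d'
    have m0 := mx c d.1
    have h2 : V.valuation (B.hat (chi p₀) γ) < 1 := by
      refine lt_of_le_of_ne ((V.valuation_le_one_iff _).2 (m0.hat_mem γ)) fun h => hn ?_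
      exact mem_of_val_le (by simp [h]) h1
    obtain ⟨t, H, ht, H0, H1, hH⟩ := hO B γ κ p₀ V hγ h0 d' h2
    have h3 := one hD ht H0 (Nat.dvd_factorial H0 H1) b0 hH h1 hn
    obtain ⟨e₁, he₁⟩ : ∃ e₁, E * κ.factorial = κ * (a + 1) + e₁ + 1 :=
      Nat.exists_eq_add_of_lt (calc
        κ * (a + 1) ≤ κ * (m * κ.factorial) := by gcongr; exact ha.trans (by gcongr)
        _ = m * κ * κ.factorial := by ring
        _ < E * κ.factorial := by gcongr)
    have e : ∀ z i, (z ^ m * σ i) ^ κ.factorial * B.hat i γ ^ (a + 1) =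
        (z ^ m * B.hat 0 γ ^ q) ^ κ.factorial * B.hat 0 γ ^ (a + 1) * B.XX i ^ (e₁ + 1) :=
      fun z i => by
        calc _ = (z ^ m * B.hat 0 γ ^ q) ^ κ.factorial * B.XX i ^ (E * κ.factorial) *
              B.hat i γ ^ (a + 1) := by rw [hσ]; ring
          _ = (z ^ m * B.hat 0 γ ^ q) ^ κ.factorial * (B.XX i ^ κ * B.hat i γ) ^ (a + 1) *
              B.XX i ^ (e₁ + 1) := by rw [he₁]; ring
          _ = _ := by rw [← B.hat_zero hγ i]
    obtain ⟨l, hl⟩ := hW.tau B p₀ V d'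
    refine (hC.cv V _ _ d.1.hasK h1 hl fun W hWV hWr => ?_).ne h3
    obtain ⟨p, y, c', f1, f2, -⟩ := hT.glob B L p₀ V W hL d' hWV hWr
    obtain ⟨w, hw, hw'⟩ := near (cp c' c f2 d (chi p₀))
      (fun h => hn (mul_mem (pow_mem h _) (pow_mem (m0.hat_mem γ) _))) hWV
    have h4 := f1.1 _ (hN.lo y _ (hR.down _ _ y (hF.rt B p) (hL p) c').1
      fun V' => all _ hQ p y V' c')
    have h5 : ∀ i, (u p₀ y₀ ^ m * B.hat 0 γ ^ q) ^ κ.factorial * B.hat 0 γ ^ (a + 1) *
        B.XX i ^ (e₁ + 1) ∈ W := fun i => by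
      have := mul_mem (mul_mem (pow_mem hw (m * κ.factorial)) h4) (pow_mem (mx c' f1.1 i) (e₁ + 1))
      have h6 := B.XX_ne (chi p)
      rw [e, div_pow] at this
      convert this using 1
      rw [hw']
      field_simp
      ring
    rw [e]
    refine ⟨h5 _, fun h => ?_⟩
    have h6 : W.valuation (B.XX (chi p₀) / B.XX l) < 1 := by
      rw [← W.valuation_le_one_iff, not_le, ← inv_div, map_inv₀, one_lt_inv₀ (by
        simpa [pos_iff_ne_zero] using ⟨B.XX_ne _, B.XX_ne _⟩)] at h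
      exact h
    rw [← mul_div_cancel₀ (B.XX (chi p₀)) (B.XX_ne l), mul_pow (B.XX l), ← mul_assoc, map_mul,
      map_pow]
    exact (mul_le_of_le_one_left' ((W.valuation_le_one_iff _).2 (h5 l))).trans_lt
      (pow_lt_one' h6 e₁.succ_ne_zero)
  have fin : Q 0 := Nat.decreasingInduction (motive := fun a _ => Q a)
    (fun a h => down a h) start (Nat.zero_le _)
  intro p y V a b
  have h1 := all 0 fin p y V a b
  rw [pow_zero, mul_one, pow_mem_iff b0] at h1
  rw [(mx a b.1).lg_iff]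
  simpa only [hu, hσ, mul_assoc] using h1

end Pool.Agent.MP_5d9b3c_ag.H59
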