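import Pool.Agent.MP_5d9b3c_ag.H59.Spec

/-!
The function field of the plane with its two derivations.
-/

namespace Pool.Agent.MP_5d9b3c_ag.H59

open MvPolynomial

namespace KexX

/-- a derivation extends to the field of fractions -/
theorem exists_ext {k R K : Type} [CommRing k] [CommRing R] [IsDomain R] [Field K] [Algebra k R]
    [Algebra R K] [Algebra k K] [IsScalarTower k R K] [IsFractionRing R K] (d : Derivation k R R) :
    ∃ D : Derivation k K K, ∀ a, D (algebraMap R K a) = algebraMap R K (d a) := by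
  let θ : R →+* TrivSqZeroExt K K :=
    { toFun := fun a =>
        TrivSqZeroExt.inl (algebraMap R K a) + TrivSqZeroExt.inr (algebraMap R K (d a))
      map_one' := TrivSqZeroExt.ext (by simp) (by simp)
      map_mul' := fun a b => TrivSqZeroExt.ext (by simp)
        (by simp [-DualNumber.inr_eq_smul_eps, mul_comm])
      map_zero' := TrivSqZeroExt.ext (by simp) (by simp)
      map_add' := fun a b => TrivSqZeroExt.ext (by simp)
        (by simp [-DualNumber.inr_eq_smul_eps]) }
  have h0 : ∀ a, (θ a).fst = algebraMap R K a ∧ (θ a).snd = algebraMap R K (d a) := fun a => by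
    simp [θ, -DualNumber.inr_eq_smul_eps]
  have hu : ∀ b : nonZeroDivisors R, IsUnit (θ b) := fun b =>
    TrivSqZeroExt.isUnit_iff_isUnit_fst.2 (by rw [(h0 b).1]; exact IsLocalization.map_units K b)
  obtain ⟨Θ, h1⟩ : ∃ Θ : K →+* TrivSqZeroExt K K, ∀ a, Θ (algebraMap R K a) = θ a :=
    ⟨IsLocalization.lift hu, IsLocalization.lift_eq hu⟩
  have h3 : (TrivSqZeroExt.fstHom K K K).toRingHom.comp Θ = RingHom.id _ :=
    IsLocalization.ringHom_ext (nonZeroDivisors R) (RingHom.ext fun a =>
      (congrArg TrivSqZeroExt.fst (h1 a)).trans (h0 a).1)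
  have h4 : ∀ u, (Θ u).fst = u := fun u => RingHom.congr_fun h3 u
  have h5 : ∀ u v, (Θ (u * v)).snd = u * (Θ v).snd + v * (Θ u).snd := fun u v => by
    simp only [map_mul, TrivSqZeroExt.snd_mul, h4, op_smul_eq_smul, smul_eq_mul]
  have h6 : ∀ a, (Θ (algebraMap R K a)).snd = algebraMap R K (d a) := fun a =>
    (congrArg TrivSqZeroExt.snd (h1 a)).trans (h0 a).2
  refine ⟨Derivation.mk' ⟨⟨fun u => (Θ u).snd, fun u v => by simp⟩, fun c u => ?_⟩ h5, h6⟩
  simp only [Algebra.smul_def, h5, IsScalarTower.algebraMap_apply k R K, h6, d.map_algebraMap,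
    map_zero, mul_zero, add_zero, RingHom.id_apply]

end KexX

theorem rowKex : SKex := by
  intro k _
  obtain ⟨D0, h0⟩ := KexX.exists_ext (K := FractionRing (P2 k)) (pderiv 0 : Derivation k (P2 k) _)
  obtain ⟨D1, h1⟩ := KexX.exists_ext (K := FractionRing (P2 k)) (pderiv 1 : Derivation k (P2 k) _)
  have h2 : ev k (algebraMap (P2 k) (FractionRing (P2 k)) (X 0), algebraMap (P2 k) _ (X 1)) =
      IsScalarTower.toAlgHom k (P2 k) (FractionRing (P2 k)) :=
    MvPolynomial.algHom_ext fun i => by fin_cases i <;> simp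
  refine ⟨⟨algebraMap (P2 k) _ (X 0), algebraMap (P2 k) _ (X 1), D0, D1, ⟨?_, fun z => ?_⟩,
    by simp [h0], by simp [h0], by simp [h1], by simp [h1]⟩⟩
  · rw [h2]
    exact IsFractionRing.injective (P2 k) _
  · obtain ⟨⟨a, b⟩, h⟩ := IsLocalization.surj (nonZeroDivisors (P2 k)) z
    exact ⟨a, b, nonZeroDivisors.ne_zero b.2, by rw [h2]; exact h⟩

end Pool.Agent.MP_5d9b3c_ag.H59
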