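import Pool.Agent.MP_5d9b3c_ag.H59.Spec

/-!
The certificate at a normal crossing.
-/

namespace Pool.Agent.MP_5d9b3c_ag.H59

open MvPolynomial

namespace LCX

theorem one {f h : P3} {m : ℕ} {ψ : Fin 3 → P2 ℂ} (hL : LG f h m) (hψ : ∃ i, ψ i = 1) {z : P2 ℂ}
    (hz : Prime z) {N a : ℕ} (hN : N ≤ a) (hd : z ^ N ∣ e3 ψ f) :
    (z ^ N) ^ m ∣ (jac3 ψ * z ^ min a 1) ^ m * e3 ψ h := by
  rcases Nat.eq_zero_or_pos a with rfl | ha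
  · obtain rfl : N = 0 := by omega
    simp
  · obtain ⟨i, hi⟩ := hψ
    have := hL ψ z (N * m) hz.irreducible ⟨i, hi ▸ hz.not_dvd_one⟩
      (by rw [pow_mul]; exact pow_dvd_pow_of_dvd hd m)
    rwa [min_eq_right ha, pow_one, ← pow_mul, mul_comm _ z, mul_comm _ (e3 ψ h)]

end LCX

theorem rowLC : SLC := by
  intro f h m ψ z0 z1 g a0 a1 hL hψ h0 h1 h01 he
  have hd : e3 ψ f ∣ g * z0 ^ a0 * z1 ^ a1 := ⟨e3 ψ h, by rw [← he, map_mul]⟩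
  obtain ⟨d, d1, hd', hd1, e1⟩ := exists_dvd_and_dvd_of_dvd_mul hd
  obtain ⟨f1, d0, ⟨g', hg⟩, hd0, rfl⟩ := exists_dvd_and_dvd_of_dvd_mul hd'
  obtain ⟨N0, b0, u0, c0⟩ := (dvd_prime_pow h0 a0).1 hd0
  obtain ⟨N1, b1, u1, c1⟩ := (dvd_prime_pow h1 a1).1 hd1
  have t0 := LCX.one hL hψ h0 b0 (c0 ▸ e1 ▸ Units.mul_right_dvd.2 ⟨f1 * d1, by ring⟩)
  have t1 := LCX.one hL hψ h1 b1 (c1 ▸ e1 ▸ Units.mul_right_dvd.2 ⟨f1 * d0, by ring⟩)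
  have s0 : d0 ^ m ∣ (jac3 ψ * z0 ^ min a0 1 * z1 ^ min a1 1) ^ m * e3 ψ h :=
    (pow_dvd_pow_of_dvd (c0 ▸ dvd_mul_right _ _) m).trans
      (t0.trans (mul_dvd_mul_right (pow_dvd_pow_of_dvd (dvd_mul_right _ _) m) _))
  have s1 : d1 ^ m ∣ (jac3 ψ * z0 ^ min a0 1 * z1 ^ min a1 1) ^ m * e3 ψ h :=
    (pow_dvd_pow_of_dvd (c1 ▸ dvd_mul_right _ _) m).trans
      (t1.trans (mul_dvd_mul_right (pow_dvd_pow_of_dvd ⟨z0 ^ min a0 1, by ring⟩ m) _))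
  have hr : IsRelPrime (d0 ^ m) (d1 ^ m) :=
    (((h0.irreducible.isRelPrime_iff_not_dvd.2 h01).pow.of_dvd_left hd0).of_dvd_right hd1).pow
  obtain ⟨q4, hq⟩ := hr.mul_dvd s0 s1
  refine ⟨z0, z1, g, f1 ^ m, q4, (g' * jac2 z0 z1) ^ m, a0, a1, m + 1, le_max_left _ _,
    le_max_right _ _, he, ?_, ?_⟩
  · rw [mul_assoc, hq, e1]
    ring
  · rw [hg]
    ring

end Pool.Agent.MP_5d9b3c_ag.H59
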