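import Pool.Agent.MP_5d9b3c_ag.H59.Spec

/-!
A polynomial certificate gives normal crossings at the origin of a frame.
-/

namespace Pool.Agent.MP_5d9b3c_ag.H59

open MvPolynomial

theorem rowLK : OfLK := by
  intro k K _ _ _ _ hT hD hP B N φ i ψ z0 z1 q2 q3 q4 a0 a1 hφ hψ h0 h1 e1 e2 hc
  have hJ := hD.jfr B φ hφ
  simp only [map_mul, mul_ne_zero_iff] at hc
  obtain ⟨⟨c2, c3⟩, cj⟩ := hc
  have hne : ∀ a : P2 k, constantCoeff a ≠ 0 → ev k φ a ≠ 0 := fun a ha =>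
    hφ.ne fun h => ha (by rw [h, map_zero])
  have d0 : ∀ a, B.dua ![φ.1, φ.2] 0 (ev k φ a) = ev k φ (pderiv 0 a) := fun a => by
    have s0 : B.dua ![φ.1, φ.2] 0 φ.1 = 1 := by simpa using hD.dual B _ 0 0 hJ
    have s1 : B.dua ![φ.1, φ.2] 0 φ.2 = 0 := by simpa using hD.dual B _ 0 1 hJ
    rw [hD.chain, s0, s1, mul_one, mul_zero, add_zero]
  have d1 : ∀ a, B.dua ![φ.1, φ.2] 1 (ev k φ a) = ev k φ (pderiv 1 a) := fun a => by
    have s0 : B.dua ![φ.1, φ.2] 1 φ.1 = 0 := by simpa using hD.dual B _ 1 0 hJ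
    have s1 : B.dua ![φ.1, φ.2] 1 φ.2 = 1 := by simpa using hD.dual B _ 1 1 hJ
    rw [hD.chain, s0, s1, mul_one, mul_zero, zero_add]
  have hj : B.jac ![ev k φ z0, ev k φ z1] = ev k φ (jac2 z0 z1) * B.jac ![φ.1, φ.2] := by
    rw [hD.jmul B _ _ _ hJ, d0, d0, d1, d1, jac2, map_sub, map_mul, map_mul]
  have hz : B.jac ![ev k φ z0, ev k φ z1] ≠ 0 := hj ▸ mul_ne_zero (hne _ cj) hJ
  have hh : ∀ g, ev k φ (e3 ψ g) = B.hat i g := fun g => by
    refine (e3_map (ev k φ).toRingHom _ g).trans ?_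
    rw [Bx.hat]
    congr 2
    funext l
    exact hψ l
  have h3 : ev k φ (jac3 ψ) = (B.XX i ^ 3 * B.jac ![φ.1, φ.2])⁻¹ := by
    rw [jac3, Matrix.det_fin_three, mul_inv, ← hD.om B _ hJ, ← inv_pow]
    simp only [Matrix.of_apply, Matrix.cons_val, map_add, map_sub, map_mul, ← d0, ← d1, hψ,
      div_eq_mul_inv, Derivation.leibniz, smul_eq_mul, Bx.XX0, Bx.XX1, Bx.XX2,
      Derivation.map_one_eq_zero]
    ring
  refine ⟨hφ, fun l => hψ l ▸ ev_mem_Lo φ _, fun j => ?_, hz, fun j => ?_, fun j => ?_,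
    ⟨ev k φ q2, hne _ c2, ev_mem_Lo φ _, hT.inv φ _ hφ c2, ?_⟩, ?_⟩
  · fin_cases j <;> exact ev_mem_Lo φ _
  · have m : ∀ t, B.dua ![ev k φ z0, ev k φ z1] j (![ev k φ z0, ev k φ z1] t) ∈ Lo k φ :=
      fun t => by
        rw [hD.dual B _ j t hz]
        split_ifs
        exacts [one_mem _, zero_mem _]
    have m0 : B.dua ![ev k φ z0, ev k φ z1] j (ev k φ z0) ∈ Lo k φ := m 0
    have m1 : B.dua ![ev k φ z0, ev k φ z1] j (ev k φ z1) ∈ Lo k φ := m 1
    generalize B.dua ![ev k φ z0, ev k φ z1] j = D at m0 m1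
    have hi := hT.inv φ _ hφ cj
    have hn := hne _ cj
    refine hP.lo φ D hφ ?_ ?_
    · have : D φ.1 = (ev k φ (pderiv 1 z1) * D (ev k φ z0) -
          ev k φ (pderiv 1 z0) * D (ev k φ z1)) * (ev k φ (jac2 z0 z1))⁻¹ := by
        rw [eq_mul_inv_iff_mul_eq₀ hn, hD.chain, hD.chain, jac2, map_sub, map_mul, map_mul]
        ring
      rw [this]
      exact mul_mem (sub_mem (mul_mem (ev_mem_Lo φ _) m0) (mul_mem (ev_mem_Lo φ _) m1)) hi
    · have : D φ.2 = (ev k φ (pderiv 0 z0) * D (ev k φ z1) -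
          ev k φ (pderiv 0 z1) * D (ev k φ z0)) * (ev k φ (jac2 z0 z1))⁻¹ := by
        rw [eq_mul_inv_iff_mul_eq₀ hn, hD.chain, hD.chain, jac2, map_sub, map_mul, map_mul]
        ring
      rw [this]
      exact mul_mem (sub_mem (mul_mem (ev_mem_Lo φ _) m1) (mul_mem (ev_mem_Lo φ _) m0)) hi
  · fin_cases j
    exacts [h0, h1]
  · rw [← hh, e1, map_mul, map_mul, map_pow, map_pow]
    rfl
  · have e3' := congrArg (ev k φ) e2
    simp only [map_mul, map_pow, hh, h3] at e3'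
    rw [mul_assoc, Bx.sg_mul, hj]
    simp only [Matrix.cons_val_zero, Matrix.cons_val_one]
    by_cases hf : B.hat i N.f ^ N.m = 0
    · simp only [hf, div_zero, zero_div, mul_zero]
      exact zero_mem _
    · have : (ev k φ z0 ^ min a0 1 * ev k φ z1 ^ min a1 1 /
          (ev k φ (jac2 z0 z1) * B.jac ![φ.1, φ.2])) ^ N.m *
          (B.hat i N.h / B.hat i N.f ^ N.m / (B.XX i ^ 3) ^ N.m) =
          ev k φ q4 * (ev k φ q3)⁻¹ * (ev k φ (jac2 z0 z1))⁻¹ ^ N.m := by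
        have n3 := hne _ c3
        rw [← div_eq_iff hf] at e3'
        rw [← e3']
        simp only [div_eq_mul_inv, mul_inv, mul_pow, inv_pow]
        field_simp
      rw [this]
      exact mul_mem (mul_mem (ev_mem_Lo φ _) (hT.inv φ _ hφ c3)) (pow_mem (hT.inv φ _ hφ cj) _)

end Pool.Agent.MP_5d9b3c_ag.H59
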