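import Pool.Agent.MP_5d9b3c_ag.H59.Spec

/-!
Functions on a line that are regular at all finite points are polynomials.
-/

namespace Pool.Agent.MP_5d9b3c_ag.H59

open MvPolynomial

namespace LNX

variable {k K : Type} [Field k] [Field K] [Algebra k K]

theorem split (a : P2 k) : ∃ (a0 : Polynomial k) (a' : P2 k),
    a = Polynomial.aeval (X 1 : P2 k) a0 + X 0 * a' := by
  induction a using MvPolynomial.induction_on with
  | C c => exact ⟨Polynomial.C c, 0, by simp⟩
  | add p q hp hq =>
    obtain ⟨a, b, rfl⟩ := hp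
    obtain ⟨a', b', rfl⟩ := hq
    exact ⟨a + a', b + b', by rw [map_add]; ring⟩
  | mul_X p i hp =>
    obtain ⟨a, b, e⟩ := hp
    fin_cases i
    · exact ⟨0, p, by simp [mul_comm]⟩
    · exact ⟨a * Polynomial.X, b * X 1, by rw [e, map_mul, Polynomial.aeval_X]; simp; ring⟩

theorem pmem {W : ValuationSubring K} (h : HasK k W) {v : K} (hv : v ∈ W) (q : Polynomial k) :
    Polynomial.aeval v q ∈ W := by
  induction q using Polynomial.induction_on' with
  | add p q hp hq => rw [map_add]; exact add_mem hp hq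
  | monomial n c => rw [Polynomial.aeval_monomial]; exact mul_mem (h c) (pow_mem hv n)

theorem lt_mul {W : ValuationSubring K} {a b : K} (h : W.valuation a < 1) (hb : b ∈ W) :
    W.valuation (a * b) < 1 := by
  rw [map_mul]
  exact (mul_le_of_le_one_right' ((W.valuation_le_one_iff _).2 hb)).trans_lt h

theorem red [IsAlgClosed k] (hE : SE k K) (hC : SCV k K) {u v ψ : K} {V : ValuationSubring K}
    (hV : IsE k (u, v) V) (h : ∀ W, W ≤ V → ResK k W → v ∈ W → ψ ∈ W) (n : ℕ) :
    ∀ a b : Polynomial k, b ≠ 0 → b.natDegree = n →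
      V.valuation (ψ * Polynomial.aeval v b - Polynomial.aeval v a) < 1 →
      ∃ r : Polynomial k, V.valuation (ψ - Polynomial.aeval v r) < 1 := by
  induction n with
  | zero =>
    intro a b b0 bd h1
    obtain ⟨c, rfl⟩ := Polynomial.natDegree_eq_zero.1 bd
    have c0 : algebraMap k K c ≠ 0 := by simpa using b0
    refine ⟨a * Polynomial.C c⁻¹, lt_of_eq_of_lt (congrArg _ ?_) (lt_mul h1 (hV.1 c⁻¹))⟩
    simp only [map_mul, Polynomial.aeval_C, map_inv₀]
    field_simp
  | succ n ih =>
    intro a b b0 bd h1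
    obtain ⟨c, hc⟩ := IsAlgClosed.exists_root b (Polynomial.degree_ne_of_natDegree_ne (n := 0)
      (by omega))
    obtain ⟨b, rfl⟩ := Polynomial.dvd_iff_isRoot.2 hc
    obtain ⟨W, w1, w2, w3⟩ := hC.pl1 V _ hV.1
      (hE.inv u _ u V ((hE.tr u v c V).2 hV) hV.2.1).2.2
    have w4 : W.valuation (v - algebraMap k K c) < 1 := by
      by_contra h2
      rw [← W.valuation_le_one_iff, map_inv₀] at w3
      exact w3 (inv_le_one_of_one_le₀ (not_lt.1 h2))
    have w5 : v ∈ W := by
      simpa using add_mem ((W.valuation_le_one_iff _).1 w4.le) (w2.1 c)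
    have ha : a.IsRoot c := by
      by_contra h2
      have h3 := W.valuation.map_sub_lt (lt_mul w4 (sub_mem (mul_mem (h W w1 w2 w5)
        (pmem w2.1 w5 b)) (pmem w2.1 w5 (a /ₘ (Polynomial.X - Polynomial.C c)))))
        (val_lt_of_le w1 h1)
      refine (lt_of_eq_of_lt (congrArg _ ?_) h3).ne (w2.1.val h2)
      have h4 := congrArg (Polynomial.aeval v) (Polynomial.modByMonic_add_div a
        (Polynomial.X - Polynomial.C c))
      rw [Polynomial.modByMonic_X_sub_C_eq_C_eval] at h4
      simp only [map_add, map_mul, map_sub, Polynomial.aeval_C, Polynomial.aeval_X] at h4 ⊢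
      linear_combination h4
    obtain ⟨a, rfl⟩ := Polynomial.dvd_iff_isRoot.2 ha
    have b1 := right_ne_zero_of_mul b0
    rw [Polynomial.natDegree_mul (Polynomial.X_sub_C_ne_zero c) b1,
      Polynomial.natDegree_X_sub_C] at bd
    refine ih a b b1 (by omega) ?_
    rwa [map_mul, map_mul, mul_left_comm, ← mul_sub, map_mul, map_sub, Polynomial.aeval_X,
      Polynomial.aeval_C, hV.2.2 c, one_mul] at h1

end LNX

open LNX in
theorem rowLN : OfLN := by
  intro k K _ _ _ _ hX hE hC ⟨u, v⟩ V ψ hφ hV hψ h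
  have hI := (hE.isV _ V hφ).1 hV
  obtain ⟨a, b, hb, e⟩ := hX.mem _ _ V hφ X_prime hI ψ hψ
  obtain ⟨a0, a', rfl⟩ := split a
  obtain ⟨b0, b', rfl⟩ := split b
  have e1 : ∀ q : Polynomial k, ev k (u, v) (Polynomial.aeval (X 1 : P2 k) q) =
      Polynomial.aeval v q := fun q => by rw [← Polynomial.aeval_algHom_apply, ev_X1]
  simp only [map_add, map_mul, e1, ev_X0] at e
  obtain ⟨r, hr⟩ := red hE hC hV h _ a0 b0 (by rintro rfl; simp at hb) rfl
    (lt_of_eq_of_lt (congrArg _ (by linear_combination e))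
      (lt_mul hV.2.1 (sub_mem (hI.1 a') (mul_mem hψ (hI.1 b')))))
  refine ⟨r, hr, fun a b h1 => or_iff_not_imp_left.2 fun r0 => ?_⟩
  obtain ⟨W, w1, w2, w3⟩ := hC.pl1 V v hV.1 hV.2.2
  have v1 : V.valuation v = 1 := by simpa using hV.2.2 0
  have w4 : 1 < W.valuation v := by rwa [← W.valuation_le_one_iff, not_le] at w3
  have h2 : V.valuation ((ψ - Polynomial.aeval v r) * (v ^ a / v ^ b)) < 1 :=
    lt_mul hr ((V.valuation_le_one_iff _).1 (by simp [v1]))
  have h3 := (W.valuation_le_one_iff _).2 (sub_mem (h1 W w1 w2 w3)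
    ((W.valuation_le_one_iff _).1 (val_lt_of_le w1 h2).le))
  have : W.valuation.IsTrivialOn k := ⟨fun c hc => w2.1.val hc⟩
  rw [show ψ * v ^ a / v ^ b - (ψ - Polynomial.aeval v r) * (v ^ a / v ^ b) =
      Polynomial.aeval v r * v ^ a / v ^ b by ring, map_div₀, map_mul, map_pow, map_pow,
    Polynomial.valuation_aeval_eq_valuation_X_pow_natDegree_of_one_lt_valuation_X v w4 r0,
    ← pow_add, div_le_one₀ (pow_pos (zero_lt_one.trans w4) _)] at h3
  exact (pow_le_pow_iff_right₀ w4).1 h3

end Pool.Agent.MP_5d9b3c_ag.H59
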