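import Pool.Agent.MP_5d9b3c_ag.H59.Spec

/-!
A certificate of normal crossings gives a lifted leaf.
-/

namespace Pool.Agent.MP_5d9b3c_ag.H59

open MvPolynomial

namespace LRX

variable {O k : Type} [CommRing O] [Field k]

/-- reduction and translation -/
noncomputable def T (r : O →+* k) (c : Fin 2 → k) : P2 O →+* P2 k :=
  eval₂Hom (C.comp r) fun t => X t + C (c t)

variable (r : O →+* k) (c : Fin 2 → k)

theorem T_der (t : Fin 2) (P : P2 O) : pderiv t (T r c P) = T r c (pderiv t P) := by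
  induction P using MvPolynomial.induction_on with
  | C a => simp [T]
  | add p q hp hq => simp [hp, hq]
  | mul_X p s hp =>
    have h : T r c (X s) = X s + C (c s) := by simp [T]
    rw [map_mul, Derivation.leibniz, Derivation.leibniz, hp, h]
    by_cases e : s = t
    · subst e
      simp [h]
    · simp [h, e]

theorem T_const (P : P2 O) : constantCoeff (T r c P) = eval₂ r c P := by
  induction P using MvPolynomial.induction_on with
  | C a => simp [T]
  | add p q hp hq => simp [hp, hq]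
  | mul_X p s hp => rw [map_mul, map_mul, hp]; simp [T]

theorem T_jac2 (a b : P2 O) : jac2 (T r c a) (T r c b) = T r c (jac2 a b) := by
  simp [jac2, T_der]

theorem T_jac3 (ψ : Fin 3 → P2 O) : jac3 (fun l => T r c (ψ l)) = T r c (jac3 ψ) := by
  simp [jac3, T_der, Matrix.det_fin_three]

theorem mem_sub {R : Type} [CommRing R] {j : O →+* R} (hj : ∀ o, ∃ n : ℤ, j o = n)
    {U : Fin 2 → R} (S : Subring R) (hU : ∀ t, U t ∈ S) (P : P2 O) : eval₂Hom j U P ∈ S := by
  induction P using MvPolynomial.induction_on with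
  | C a =>
    obtain ⟨n, hn⟩ := hj a
    simp [hn]
  | add p q hp hq => rw [map_add]; exact add_mem hp hq
  | mul_X p s hp => rw [map_mul, eval₂Hom_X']; exact mul_mem hp (hU s)

end LRX

open LRX in
theorem rowLR : OfLR := by
  intro k K _ _ _ _ R _ l hl hc hTR hP hLf hLK hN hI W B N O _ j r ψ c i Y U φ Q hj hC hCert hQ
  obtain ⟨z0, z1, q2, q3, q4, q5, a0, a1, n, b0, b1, e1, e2, e3'⟩ := hCert
  have hj' : ∀ o, ∃ n : ℤ, j o = n := fun o => (hj o).imp fun _ h => h.1
  have hev : ∀ P, ev k φ (T r c P) = W.rd (eval₂Hom j U P) := fun P => by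
    induction P using MvPolynomial.induction_on with
    | C a =>
      obtain ⟨n, h1, h2⟩ := hj a
      simp [T, h1, h2]
    | add p q hp hq => simp only [map_add, hp, hq]
    | mul_X p s hp =>
      rw [map_mul, map_mul, map_mul, map_mul, hp, eval₂Hom_X']
      congr 1
      rw [hC.eq]
      fin_cases s <;> simp [T]
  have hXT : ∀ t, W.rd (W.XT B t) = B.XX t := fun t => by
    fin_cases t <;> simp [W2.XT, W.rd_te]
  have hY : ∀ t, eval₂Hom j U (ψ t) = Y t := hC.ev
  have hc0 : constantCoeff (T r c q2 * T r c q3 * jac2 (T r c z0) (T r c z1)) ≠ 0 := fun h => by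
    have h1 := congrArg (fun P => constantCoeff (T r c P)) e3'
    simp only [map_mul, map_pow, T_jac2] at h h1
    rw [h, zero_mul, T_const] at h1
    exact pow_ne_zero n hQ h1
  have hleaf := hLK B N φ i (fun t => T r c (ψ t)) (T r c z0) (T r c z1) (T r c q2) (T r c q3)
    (T r c q4) a0 a1 hC.fr (fun t => by
      rw [hev, hY, eq_div_iff (B.XX_ne i), ← hXT, ← hXT, ← map_mul, hC.hY]) b0 b1
    (by rw [← e3_map, e1]; simp only [map_mul, map_pow])
    (by
      have h1 := congrArg (T r c) e2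
      simp only [map_mul, map_pow, e3_map] at h1
      rw [T_jac3]
      exact h1) hc0
  let Z : Fin 2 → R := ![eval₂Hom j U z0, eval₂Hom j U z1]
  have hZ : W.rz Z = ![ev k φ (T r c z0), ev k φ (T r c z1)] := by
    funext t
    fin_cases t <;> simp [W2.rz, Z, hev]
  rw [← hZ] at hleaf
  have hin : ∀ V, Thru k φ V → ∀ P, W.InS B U V (eval₂Hom j U P) := fun V hV P => by
    obtain ⟨S, hS⟩ := hI.ring W B U V
    obtain ⟨c1, c2, -⟩ := hP.crd B φ (W.rz U) (c 0) (c 1) V hC.fr hV hC.eq
    refine (hS _).1 (mem_sub hj' S (fun t => (hS _).2 ⟨c2 t, ?_⟩) P)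
    rw [hI.self W B U t c1]
    exact zero_mem V
  have heq : ∀ V, Thru k φ V → W.Eqv B U Z V := fun V hV =>
    hI.eqv W B U Z V hleaf.jac (fun t => by fin_cases t <;> exact hin V hV _)
      (hLf.pres B N φ i _ _ V hleaf hV)
  refine ⟨{φ}, fun _ => Z, fun _ => ![a0, a1], Cov.leaf φ, ?_, ?_, fun _ _ _ _ _ _ _ _ => Iff.rfl⟩
  · rintro y rfl
    refine ⟨hleaf, fun t => ?_, fun V hV => ⟨eval₂Hom j U q2, (heq V hV _).1 (hin V hV _), ?_, ?_⟩⟩
    · obtain ⟨S, hS⟩ := hN.ring W B
      fin_cases t <;> exact (hS _).1 (mem_sub hj' S (fun t => (hS _).2 (hC.nice t)) _)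
    · rw [← hev]
      refine hTR.unit y V _ hC.fr hV.1 fun h => hc0 ?_
      rw [map_mul, map_mul, h, zero_mul, zero_mul]
    · have h1 := congrArg (eval₂Hom j U) e1
      rw [e3_map] at h1
      simp only [hY] at h1
      rw [h1]
      simp [Z]
  · rintro y rfl V hV -
    exact heq V hV

end Pool.Agent.MP_5d9b3c_ag.H59
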