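import Pool.Agent.MP_5d9b3c_ag.H59.Spec

/-! Valuations through a point with normal crossings. -/

namespace Pool.Agent.MP_5d9b3c_ag.H59

open MvPolynomial

namespace LfX

variable {K : Type} [Field K] {V : ValuationSubring K}

theorem lt_mul {a b : K} (ha : V.valuation a < 1) (hb : b ∈ V) : V.valuation (a * b) < 1 := by
  rw [map_mul]
  exact (mul_le_of_le_one_right' ((V.valuation_le_one_iff _).2 hb)).trans_lt ha

theorem div_mem {a b : K} (h : V.valuation a ≤ V.valuation b) : a / b ∈ V := by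
  rw [← V.valuation_le_one_iff, map_div₀]
  exact div_le_one_of_le₀ h zero_le

theorem val_one {q : K} (h0 : q ≠ 0) (h : q ∈ V) (h' : q⁻¹ ∈ V) : V.valuation q = 1 := by
  refine le_antisymm ((V.valuation_le_one_iff _).2 h) ?_
  have h1 := (V.valuation_le_one_iff _).2 h'
  rwa [map_inv₀, inv_le_one₀ (by simpa [pos_iff_ne_zero] using h0)] at h1

end LfX

open LfX in
theorem rowLf : OfLf := by
  intro k K _ _ _ _ hV hD hP hL
  have ne : ∀ {B : Bx k K} {N y i z a}, B.Leaf N y i z a → ∀ j, z j ≠ 0 :=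
    fun {B _ _ _ z _} h j e => by simpa [e] using hD.dual B z j j h.jac
  have nz : ∀ {B : Bx k K} {N y i z a}, B.Leaf N y i z a → B.Nz N := fun {B N _ i _ _} h => by
    obtain ⟨q, h1, -, -, h2⟩ := h.fac
    have h3 := h2 ▸ mul_ne_zero (mul_ne_zero h1 (pow_ne_zero _ (ne h 0))) (pow_ne_zero _ (ne h 1))
    rw [B.hat_mul] at h3
    exact ⟨B.hat_zero N.hf i ▸ mul_ne_zero (pow_ne_zero _ (B.XX_ne i)) (left_ne_zero_of_mul h3),
      B.hat_zero N.hh i ▸ mul_ne_zero (pow_ne_zero _ (B.XX_ne i)) (right_ne_zero_of_mul h3)⟩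
  have pres : ∀ {B : Bx k K} {N y i z a V}, B.Leaf N y i z a → Thru k y V →
      ∀ j, ∀ u ∈ V, B.dua z j u ∈ V := fun {_ _ y _ _ _ V} h t j =>
    hP.val y V _ h.fr t (t.1 _ (h.pres j _ (ev_X0 (k := k) y ▸ ev_mem_Lo y _)))
      (t.1 _ (h.pres j _ (ev_X1 (k := k) y ▸ ev_mem_Lo y _)))
  have un : ∀ {B : Bx k K} {N y i z a V j}, B.Leaf N y i z a → Thru k y V →
      V.valuation (z j) < 1 → Unif V (z j) := fun {B _ y _ z _ V j} h t h1 =>
    hV.unif V _ (B.dua z j) (hV.dv y V h.fr t) (pres h t j) (by simp [hD.dual B z j j h.jac]) h1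
  have key : ∀ {B : Bx k K} {N y i z a V j}, B.Leaf N y i z a → Thru k y V →
      V.valuation (z j) < 1 → ∀ j' u, V.valuation u < 1 → ∃ e ∈ V, ∃ e' ∈ V,
        B.dua z j' u = z j * e + e' * if j' = j then 1 else 0 :=
    fun {B _ _ _ z _ V j} h t h1 j' u hu => by
    have h2 := div_mem (hV.le V _ u (un h t h1) hu)
    refine ⟨_, pres h t j' _ h2, _, h2, ?_⟩
    rw [← hD.dual B z j' j h.jac, ← smul_eq_mul, ← smul_eq_mul, ← Derivation.leibniz,
      mul_div_cancel₀ _ (ne h j)]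
  have one : ∀ {B : Bx k K} {N y i z a V j}, B.Leaf N y i z a → Thru k y V →
      V.valuation (z j) < 1 → ∀ j', j' ≠ j → V.valuation (z j') = 1 :=
    fun {B _ _ _ z _ V j} h t h1 j' hj => by
    refine (((V.valuation_le_one_iff _).2 (t.1 _ (h.mem j'))).lt_or_eq).resolve_left fun h2 => ?_
    obtain ⟨e, h3, e', -, h4⟩ := key h t h1 j' _ h2
    have h5 := lt_mul h1 h3
    rw [hD.dual B z j' j' h.jac, if_pos rfl, if_neg hj, mul_zero, add_zero] at h4
    simp [← h4] at h5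
  have fac : ∀ {B : Bx k K} {N y i z a V}, B.Leaf N y i z a → Thru k y V →
      V.valuation (B.hat i (N.f * N.h)) = ∏ j, V.valuation (z j) ^ a j := fun h t => by
    obtain ⟨q, h1, h2, h3, h4⟩ := h.fac
    simp [h4, val_one h1 (t.1 _ h2) (t.1 _ h3)]
  have fac' : ∀ {B : Bx k K} {N y i z a V j}, B.Leaf N y i z a → Thru k y V →
      V.valuation (z j) < 1 → V.valuation (B.hat i (N.f * N.h)) = V.valuation (z j) ^ a j :=
    fun {_ _ _ _ _ _ _ j} h t h1 => by
    rw [fac h t, Finset.prod_eq_single j (fun j' _ hj => by rw [one h t h1 j' hj, one_pow])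
      (by simp)]
  have bd : ∀ {B : Bx k K} {N y i z a V}, B.Leaf N y i z a → Thru k y V →
      (B.Bd N V ↔ ∃ j, 0 < a j ∧ V.valuation (z j) < 1) := fun {_ _ _ _ _ a V} h t => by
    rw [(h.mxV t.1).bd_iff]
    refine ⟨fun h1 => by_contra fun h2 => h1.ne ?_, fun ⟨j, h1, h2⟩ => ?_⟩
    · rw [fac h t]
      refine Finset.prod_eq_one fun j _ => (a j).eq_zero_or_pos.elim (fun e => by simp [e])
        fun h3 => ?_
      rw [(((V.valuation_le_one_iff _).2 (t.1 _ (h.mem j))).lt_or_eq).resolve_left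
        fun h4 => h2 ⟨j, h3, h4⟩, one_pow]
    · rw [fac' h t h2]
      exact pow_lt_one₀ zero_le h2 h1.ne'
  refine ⟨fun B N y i z a h => ⟨nz h, ne h⟩, fun B N y i z a V => pres,
    fun B N y i z a V j h t h1 => ⟨un h t h1, one h t h1⟩, fun B N y i z a V => bd,
    fun B N y i z a V j h t => ⟨fun u hu => mul_mem (pow_mem (t.1 _ (h.mem j)) _) (pres h t j u hu),
      fun hb u hu => ?_⟩, fun B N y i z a V D j h t hl => ?_, fun B N y i z a V j h t h1 => ?_,
    fun B N y i z a V h t => ?_, fun B N y i z a u h => hD.comm B z _ _ h.jac (fun j => ?_) u⟩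
  · obtain ⟨j₀, h1, h2⟩ := (bd h t).1 hb
    obtain ⟨e, h3, e', h4, h5⟩ := key h t h2 j u hu
    change V.valuation (z j ^ min (a j) 1 * B.dua z j u) < 1
    by_cases hj : j = j₀
    · rw [hj, min_eq_right h1, pow_one]
      exact lt_mul h2 (pres h t _ _ ((V.valuation_le_one_iff _).1 hu.le))
    · rw [h5, if_neg hj, mul_zero, add_zero, mul_left_comm]
      exact lt_mul h2 (mul_mem (pow_mem (t.1 _ (h.mem j)) _) h3)
  · rcases (a j).eq_zero_or_pos with e | e
    · simpa [e] using hl.1 _ (t.1 _ (h.mem j))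
    · rw [min_eq_right e, pow_one]
      exact hL.st1 B N V D _ (hV.dv y V h.fr t) hl (ne h j)
        ((((V.valuation_le_one_iff _).2 (t.1 _ (h.mem j))).lt_or_eq).imp_left
          fun h1 => (bd h t).2 ⟨j, e, h1⟩)
  · have h2 := un h t h1
    obtain ⟨n, hn⟩ := hV.nat V _ _ h2 ((nz h).f i) ((h.mxV t.1).hat_mem _)
    obtain ⟨H, hH⟩ := hV.nat V _ _ h2 ((nz h).h i) ((h.mxV t.1).hat_mem _)
    have h3 := fac' h t h1
    rw [B.hat_mul, map_mul, hn, hH, ← pow_add, ← zpow_natCast, ← zpow_natCast] at h3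
    exact ⟨n, H, Nat.cast_injective (R := ℤ)
      (le_antisymm ((hV.zle V _ _ _ h2).1 h3.ge) ((hV.zle V _ _ _ h2).1 h3.le)), hn, hH⟩
  · rw [Bx.Lam, (h.mxV t.1).lg_iff, pow_one, one_mul]
    refine (congrArg (fun u => u ^ N.m * B.sg N * B.XX i ^ N.E ∈ V) ?_).mp (t.1 _ h.nu)
    rw [div_eq_mul_inv, ← hD.om B z h.jac]
    simp only [Bx.th, Derivation.smul_apply, smul_eq_mul]
    ring
  · fin_cases j <;> simp [Bx.th, hD.dual B z _ _ h.jac, Derivation.leibniz_pow]

end Pool.Agent.MP_5d9b3c_ag.H59
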