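import Pool.Agent.MP_5d9b3c_ag.H59.Spec

/-!
Local reduction of the form into the lattice.
-/

namespace Pool.Agent.MP_5d9b3c_ag.H59

open Polynomial

namespace LocX

variable {k K : Type} [Field k] [Field K] [Algebra k K] {B : Bx k K} {N : Nm} {lam : k}
  {y : K × K} {i : Fin 3} {z : Fin 2 → K} {a n n' : Fin 2 → ℕ} {u u' : K[X]}

theorem lam_eq {V : ValuationSubring K} {e e' : K} (h : B.Lam N 1 V e) (he : e' = e) :
    B.Lam N 1 V e' := he ▸ h

theorem st_add (h : St B N y z n u) (h' : St B N y z n u') : St B N y z n (u + u') :=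
  fun V hV m => lam_eq (Bx.Lg.add (h V hV m) (h' V hV m)) (by rw [coeff_add, mul_add])

theorem st_neg (h : St B N y z n u) : St B N y z n (-u) := fun V hV m =>
  lam_eq (Bx.Lg.neg (h V hV m)) (by rw [coeff_neg, mul_neg])

theorem st_zero : St B N y z n 0 := fun _ _ m =>
  lam_eq (Bx.Lg.zero N.m0) (by rw [coeff_zero, mul_zero])

theorem st_mono (hL : B.Leaf N y i z a) (hn : ∀ j, n j ≤ n' j) (h : St B N y z n u) :
    St B N y z n' u := fun V hV m => by
  obtain ⟨c, hc⟩ := Nat.exists_eq_add_of_le (hn 0)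
  obtain ⟨d, hd⟩ := Nat.exists_eq_add_of_le (hn 1)
  refine lam_eq (Bx.Lg.mul (h V hV m) (mul_mem (pow_mem (hV.1 _ (hL.mem 0)) c)
    (pow_mem (hV.1 _ (hL.mem 1)) d))) ?_
  rw [hc, hd]
  ring

theorem map_in {V : ValuationSubring K} (h : HasK k V) (P : k[X]) :
    PIn (fun e => e ∈ V) (P.map (algebraMap k K)) := fun m => by
  rw [coeff_map]
  exact h _

theorem st_mul (hC : SCurl k K) (P : k[X]) (h : St B N y z n u) :
    St B N y z n (P.map (algebraMap k K) * u) := fun V hV =>
  hC.pin B N V _ _ _ (map_in hV.1.hasK P) (h V hV)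

theorem nab_add (D : Derivation k K K) (u u' : K[X]) :
    B.nabP N lam i D (u + u') = B.nabP N lam i D u + B.nabP N lam i D u' := by
  simp only [Bx.nabP, map_add]
  ring

theorem nab_zero (D : Derivation k K K) : B.nabP N lam i D 0 = 0 := by simp [Bx.nabP]

theorem red (hF : SLf k K) (hC : SCurl k K) (hL : B.Leaf N y i z a) (S : Fin 2 → Prop)
    (hS : ∀ j, S j → ∀ n : Fin 2 → ℕ, 0 < n j → ∃ P : k[X], P ≠ 0 ∧ P.natDegree ≤ 1 ∧
      ∀ u, St B N y z n u → St B N y z (Function.update n j (n j - 1))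
        (P.map (algebraMap k K) * u - B.nabP N lam i (B.th z a j) u)) (s : ℕ) :
    ∀ n : Fin 2 → ℕ, n 0 + n 1 = s → (∀ j, 0 < n j → S j) → ∀ β : Fin 2 → K[X],
      (∀ j, St B N y z n (β j)) → St B N y z 0
        (B.nabP N lam i (B.th z a 0) (β 1) - B.nabP N lam i (B.th z a 1) (β 0)) →
      ∃ (P : k[X]) (g : K[X]), P ≠ 0 ∧ P.natDegree ≤ s ∧ St B N y z n g ∧ ∀ j, St B N y z 0
        (P.map (algebraMap k K) * β j - B.nabP N lam i (B.th z a j) g) := by
  induction s with
  | zero =>
    intro n hn _ β hβ _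
    refine ⟨1, 0, one_ne_zero, by simp, st_zero, fun j => ?_⟩
    rw [nab_zero, sub_zero]
    exact st_mul hC _ (st_mono hL (Fin.forall_fin_two.2 ⟨by simp; omega, by simp; omega⟩) (hβ j))
  | succ s ih =>
    intro n hn hs β hβ hc
    obtain ⟨j, hj⟩ : ∃ j, 0 < n j := by
      by_contra! h
      have := h 0
      have := h 1
      omega
    obtain ⟨P1, p0, p1, p2⟩ := hS j (hs j hj) n hj
    have le : ∀ t, Function.update n j (n j - 1) t ≤ n t := fun t => by
      rcases eq_or_ne t j with rfl | h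
      · simp
      · rw [Function.update_of_ne h]
    have hc' := st_mono hL (n' := Function.update n j (n j - 1)) (fun _ => Nat.zero_le _) hc
    obtain ⟨P, g, q0, q1, q2, q3⟩ := ih (Function.update n j (n j - 1))
      (by fin_cases j <;> simp at hj ⊢ <;> omega) (fun t ht => hs t (ht.trans_le (le t)))
      (fun t => P1.map (algebraMap k K) * β t - B.nabP N lam i (B.th z a t) (β j))
      (fun t => by
        have e := p2 _ (hβ t)
        fin_cases j <;> fin_cases t
        · exact e
        · convert st_add e hc' using 1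
          simp
        · convert st_add e (st_neg hc') using 1
          simp
        · exact e)
      (by
        convert st_mul hC P1 hc using 1
        rw [hC.sub, hC.sub, hC.smul, hC.smul,
          hC.flat B N lam i _ _ (β j) fun u => hF.thc B N y i z a u hL]
        ring)
    refine ⟨P * P1, P.map (algebraMap k K) * β j + g, mul_ne_zero q0 p0,
      natDegree_mul_le.trans (by omega), st_add (st_mul hC P (hβ j)) (st_mono hL le q2),
      fun t => ?_⟩
    convert q3 t using 1
    rw [nab_add, hC.smul, Polynomial.map_mul]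
    ring

end LocX

open LocX in
theorem rowLoc : OfLoc := by
  intro k K _ _ _ _ hD hG hF hU hC hS B N lam l K0 y i z a A A' ψ hl hM hd hL hW
  obtain ⟨n, n1, n2, n3⟩ := hU.mono B N y i z a hL
  obtain ⟨hN, hz⟩ := hF.nz B N y i z a hL
  have val : ∀ V, Thru k y V → ∀ e : K, V.valuation (z 0 ^ ((K0 + 1) * n 0) *
      z 1 ^ ((K0 + 1) * n 1) * e) = V.valuation (B.hat i N.f ^ (K0 + 1) * e) := fun V hV e => by
    rw [map_mul, map_mul V.valuation _ e, map_pow _ (B.hat i N.f), n2 V hV, ← map_pow, mul_pow,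
      ← pow_mul, ← pow_mul, mul_comm (n 0), mul_comm (n 1)]
  obtain ⟨P, g, p0, p1, p2, p3⟩ := red (lam := lam) hF hC hL (fun j => 0 < n j) (fun j hj m hm => by
      obtain ⟨V, hV, hv⟩ := n3 j hj
      refine hS B N lam y i z a j m V (n j) hd hL hV hv ?_ (fun h => ?_) hm
      · have e := (hF.unif B N y i z a V j hL hV hv).2
        rw [n2 V hV, map_mul, map_pow, map_pow]
        fin_cases j
        · simp [e 1 (by simp)]
        · simp [e 0 (by simp)]
      · have e : ((n j : ℕ) : K) = 0 := by rw [← map_natCast (algebraMap k K), h, map_zero]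
        have := Nat.le_of_dvd hj ((CharP.cast_eq_zero_iff K l _).1 e)
        have := n1 j
        have := hL.le j
        omega) _ (fun j => (K0 + 1) * n j) rfl (fun j hj => Nat.pos_of_mul_pos_left hj)
    (fun j => B.bt A A' (B.th z a j))
    (fun j V hV m => by
      have hm := hL.mxV hV.1
      have e := Bx.Lg.mul (hG.gen B N V i hN hm)
        (hW.pole V _ hV.1.hasK hm (hF.log B N y i z a V j hL hV).1 m)
      refine Bx.Lg.mono e ((val V hV _).le.trans (le_of_eq ?_))
      have := B.XX_ne i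
      congr 1
      field_simp
      ring)
    (fun V hV m => by
      rw [hC.curl B N lam i _ _ A A' fun u => hF.thc B N y i z a u hL, hW.eq, coeff_mul_C]
      exact lam_eq (Bx.Lg.mul (hF.nu B N y i z a V hL hV) (hW.reg V hV.1.hasK (hL.mxV hV.1) m))
        (by simp))
  obtain ⟨P1, q1, q2⟩ := exists_eq_pow_rootMultiplicity_mul_and_not_dvd P p0 0
  rw [map_zero, sub_zero] at q1 q2
  rw [X_dvd_iff] at q2
  have hT : P.rootMultiplicity 0 ≤ 2 * (K0 + 1) * N.M := by
    have h1 : P.rootMultiplicity 0 ≤ P.natDegree := by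
      have := natDegree_le_of_dvd (Dvd.intro _ q1.symm) p0
      rwa [natDegree_X_pow] at this
    have h2 := Nat.mul_le_mul_left (K0 + 1) ((n1 0).trans (hL.le 0))
    have h3 := Nat.mul_le_mul_left (K0 + 1) ((n1 1).trans (hL.le 1))
    rw [mul_assoc]
    omega
  obtain ⟨r, hr⟩ := Nat.exists_eq_add_of_le hT
  refine ⟨C (P1.coeff 0)⁻¹ * P1, (X ^ r * C (P1.coeff 0)⁻¹).map (algebraMap k K) * g,
    by rw [coeff_C_mul, inv_mul_cancel₀ q2], fun V hV => ⟨hC.pin B N V _ _ _
      (map_in hV.1.hasK _) fun m => Bx.Lg.mono (p2 V hV m) (val V hV _).ge, fun D hD' => ?_⟩⟩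
  obtain ⟨e1, e2⟩ := hC.lin B N lam i D (B.th z a 0) (B.th z a 1)
    (D (z 0) / z 0 ^ min (a 0) 1) (D (z 1) / z 1 ^ min (a 1) 1) A A' g fun u => by
      have := hz 0
      have := hz 1
      rw [hD.span B z D u hL.jac, Fin.sum_univ_two]
      simp only [Bx.th, Derivation.smul_apply, smul_eq_mul]
      field_simp
  have key : PIn (fun e => B.Lam N 1 V (1 * e))
      (P.map (algebraMap k K) * B.bt A A' D - B.nabP N lam i D g) := fun m => by
    have f0 := Bx.Lg.mul (p3 0 V hV m) (hF.coef B N y i z a V D 0 hL hV hD')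
    have f1 := Bx.Lg.mul (p3 1 V hV m) (hF.coef B N y i z a V D 1 hL hV hD')
    have e : P.map (algebraMap k K) * B.bt A A' D - B.nabP N lam i D g =
        C (D (z 0) / z 0 ^ min (a 0) 1) * (P.map (algebraMap k K) * B.bt A A' (B.th z a 0) -
          B.nabP N lam i (B.th z a 0) g) + C (D (z 1) / z 1 ^ min (a 1) 1) *
          (P.map (algebraMap k K) * B.bt A A' (B.th z a 1) - B.nabP N lam i (B.th z a 1) g) := by
      rw [e1, e2]
      ring
    rw [e, coeff_add, coeff_C_mul, coeff_C_mul]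
    exact lam_eq (Bx.Lg.add f0 f1) (by simp)
  intro m
  refine lam_eq (hC.pin B N V 1 _ _ (map_in hV.1.hasK (X ^ r * C (P1.coeff 0)⁻¹)) key m) ?_
  rw [one_mul]
  congr 1
  rw [hC.smul, hr]
  conv_rhs => rw [q1]
  simp only [Polynomial.map_mul, Polynomial.map_pow, map_X]
  ring

end Pool.Agent.MP_5d9b3c_ag.H59
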