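import Pool.Agent.MP_5d9b3c_ag.H59.Spec

/-!
Logarithmic derivations preserve the lattices.
-/

namespace Pool.Agent.MP_5d9b3c_ag.H59

open MvPolynomial

namespace LogX

variable {k K : Type} [Field k] [Field K] [Algebra k K] {B : Bx k K} {N : Nm}
  {V : ValuationSubring K} {D : Derivation k K K}

theorem dl_mul (D : Derivation k K K) {a b : K} (ha : a ≠ 0) (hb : b ≠ 0) :
    D (a * b) / (a * b) = D a / a + D b / b := by
  rw [D.leibniz, smul_eq_mul, smul_eq_mul]
  field_simp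
  ring

theorem dl_zpow (D : Derivation k K K) {a : K} (ha : a ≠ 0) (n : ℤ) :
    D (a ^ n) / a ^ n = n * (D a / a) := by
  have := zpow_ne_zero n ha
  rw [D.leibniz_zpow, zpow_sub_one₀ ha, zsmul_eq_mul, smul_eq_mul]
  field_simp

theorem one (h : ∀ u ∈ V, D u ∈ V) {z : K} (hz : V.valuation z = 1) : D z / z ∈ V :=
  mem_of_val_le (by rw [map_div₀, hz, div_one]) (h z ((V.valuation_le_one_iff _).1 hz.le))

theorem st1 (hD : SDV k K) (hV : Dv V) (h : B.Log N V D) {z : K} (hz : z ≠ 0)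
    (h1 : B.Bd N V ∨ V.valuation z = 1) : D z / z ∈ V := by
  rcases h1 with h1 | h1
  · rcases hV with hV | ⟨t, ht⟩
    · exact hV _
    obtain ⟨n, hn⟩ := ht.2.2 z hz
    have h2 := zpow_ne_zero n ht.1
    have h3 : V.valuation t ≠ 0 := by simpa using ht.1
    have h4 : D t / t ∈ V := by
      rw [← V.valuation_le_one_iff, map_div₀]
      exact div_le_one_of_le₀ (hD.le V t _ ht (h.2 h1 t ht.2.1)) zero_le
    rw [← div_mul_cancel₀ z h2, dl_mul D (div_ne_zero hz h2) h2, dl_zpow D ht.1]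
    refine add_mem (one h.1 ?_) (mul_mem (intCast_mem V n) h4)
    rw [map_div₀, map_zpow₀, hn, div_self (zpow_ne_zero n h3)]
  · exact one h.1 h1

theorem vals {i : Fin 3} (h : B.Mx V i) (h1 : ¬ B.Bd N V) :
    V.valuation (B.hat i N.f) = 1 ∧ V.valuation (B.hat i N.h) = 1 := by
  rw [h.bd_iff, B.hat_mul, map_mul, not_lt] at h1
  have h2 := (V.valuation_le_one_iff _).2 (h.hat_mem N.f)
  have h3 := (V.valuation_le_one_iff _).2 (h.hat_mem N.h)
  exact ⟨le_antisymm h2 (h1.trans (mul_le_of_le_one_right' h3)),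
    le_antisymm h3 (h1.trans (mul_le_of_le_one_left' h2))⟩

theorem unit {i : Fin 3} (h : B.Mx V i) (h1 : ¬ B.Bd N V) (q : ℕ) (u : K) :
    B.Lam N q V u ↔ u / B.XX i ^ (3 * q) ∈ V := by
  obtain ⟨h2, h3⟩ := vals h h1
  rw [h.lam_iff, ← pow_mem_iff N.m0.ne' (z := u / B.XX i ^ (3 * q)), ← V.valuation_le_one_iff,
    ← V.valuation_le_one_iff, map_mul, map_pow _ (_ / _) q, map_div₀ _ (B.hat i N.h), map_pow _ _ N.m,
    map_pow _ (B.hat i N.f), h2, h3, one_pow, div_one, one_pow, mul_one]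

theorem dlf (hD : SDV k K) {i : Fin 3} (hN : B.Nz N) (hV : Dv V) (h : B.Log N V D)
    (hi : B.Mx V i) : D (B.hat i N.f) / B.hat i N.f ∈ V :=
  st1 hD hV h (hN.f i) ((em _).imp_right fun h1 => (vals hi h1).1)

theorem nabw {lam : k} (D : Derivation k K K) (i : Fin 3) (u : K) (hN : B.Nz N)
    (hl : (N.d : k) * lam = 3) : B.nab N lam D u = B.XX i ^ 3 * D (u / B.XX i ^ 3) -
      algebraMap k K lam * (D (B.hat i N.f) / B.hat i N.f) * u := by
  have h1 := B.XX_ne i
  have h2 : (N.d : K) * algebraMap k K lam = 3 := by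
    simpa [map_ofNat] using congrArg (algebraMap k K) hl
  have h3 := dl_zpow D h1 N.d
  rw [zpow_natCast, Int.cast_natCast] at h3
  have h4 : B.XX i ^ 3 * D (u / B.XX i ^ 3) = D u - 3 * (D (B.XX i) / B.XX i) * u := by
    rw [D.leibniz_div, D.leibniz_pow]
    simp only [smul_eq_mul, nsmul_eq_mul]
    field_simp
    push_cast
    ring
  rw [Bx.nab, B.hat_zero N.hf i, dl_mul D (pow_ne_zero _ h1) (hN.f i), h3, h4, ← h2]
  ring

end LogX

open LogX in
theorem rowLog : OfLog := by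
  intro k K _ _ _ _ hD
  refine ⟨fun B N V D z hV h hz h1 => st1 hD hV h hz h1, fun B N V i q u h h1 => unit h h1 q u,
    fun B N V D l u hl hV h hu => ?_, fun B N V D i hN hV h hi => dlf hD hN hV h hi,
    fun B N lam D i u hN hl => nabw D i u hN hl, fun B N lam V D u hN hl hK hV h hu => ?_,
    fun B N V i hN hi => ?_⟩
  · by_cases h1 : B.Bd N V
    · by_cases h0 : u = 0
      · rwa [h0, map_zero, ← h0]
      · rw [← div_mul_cancel₀ (D u) h0]
        exact Bx.Lg.mul hu (st1 hD hV h h0 (.inl h1))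
    · obtain ⟨i, hi⟩ := B.exists_mx V
      rw [unit hi h1] at hu ⊢
      have h2 : D (B.XX i ^ (3 * l)) = 0 := by
        rw [D.leibniz_pow, nsmul_eq_mul, Nat.cast_mul, CharP.cast_eq_zero K l, mul_zero, zero_mul]
      have h3 := h.1 _ hu
      rwa [D.leibniz_div_const _ _ h2, smul_eq_mul, ← div_eq_inv_mul] at h3
  · obtain ⟨i, hi⟩ := B.exists_mx V
    have h2 := pow_ne_zero 3 (B.XX_ne i)
    rw [nabw D i u hN hl]
    refine Bx.Lg.sub ?_ (Bx.Lg.mul hu (mul_mem (hK lam) (dlf hD hN hV h hi)))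
    by_cases h1 : B.Bd N V
    · by_cases h0 : u = 0
      · rw [h0, zero_div, map_zero, mul_zero]
        exact Bx.Lg.zero N.m0
      · rw [show B.XX i ^ 3 * D (u / B.XX i ^ 3) =
          D (u / B.XX i ^ 3) / (u / B.XX i ^ 3) * u by field_simp]
        exact Bx.Lg.mul hu (st1 hD hV h (div_ne_zero h0 h2) (.inl h1))
    · rw [unit hi h1, mul_one] at hu
      refine (unit hi h1 1 _).2 ?_
      rw [mul_one, mul_div_cancel_left₀ _ h2]
      exact h.1 _ hu
  · rw [hi.lam_iff, mul_one, mul_div_cancel_right₀ _ (pow_ne_zero 3 (B.XX_ne i)), pow_one,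
      mul_div_cancel₀ _ (pow_ne_zero _ (hN.f i))]
    exact hi.hat_mem _

end Pool.Agent.MP_5d9b3c_ag.H59
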