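import Pool.Agent.MP_5d9b3c_ag.H59.Spec

/-!
Row NM: normality of the plane, in terms of the rings of curves.
-/

namespace Pool.Agent.MP_5d9b3c_ag.H59

open MvPolynomial

namespace NMX

variable {k K : Type} [Field k] [Field K] [Algebra k K]

/-- a nonzero polynomial vanishing at the origin has a prime factor vanishing there -/
theorem prime_fac (b : P2 k) : b ≠ 0 → constantCoeff b = 0 →
    ∃ π : P2 k, Prime π ∧ constantCoeff π = 0 ∧ π ∣ b := by
  refine UniqueFactorizationMonoid.induction_on_prime b (fun h => absurd rfl h) ?_ ?_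
  · intro u hu _ h
    exact absurd h (hu.map (constantCoeff : P2 k →+* k)).ne_zero
  · intro a p ha hp ih _ h
    rw [map_mul] at h
    rcases mul_eq_zero.1 h with h1 | h1
    · exact ⟨p, hp, h1, dvd_mul_right _ _⟩
    · obtain ⟨π, h2, h3, h4⟩ := ih ha h1
      exact ⟨π, h2, h3, h4.mul_left _⟩

theorem lo (hEX : SEX k K) (φ : K × K) (z : K) (hφ : IsFr k φ)
    (h : ∀ V, Thru k φ V → z ∈ V) : z ∈ Lo k φ := by
  obtain ⟨a, b, hb, hz⟩ := hφ.2 z
  obtain ⟨a', b', c, hr, rfl, rfl⟩ := UniqueFactorizationMonoid.exists_reduced_factors' a b hb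
  have hc : c ≠ 0 := left_ne_zero_of_mul hb
  have hb' : b' ≠ 0 := right_ne_zero_of_mul hb
  have hz' : z * ev k φ b' = ev k φ a' := by
    refine mul_left_cancel₀ (hφ.ne hc) ?_
    rw [← map_mul, ← hz, map_mul]
    ring
  refine ⟨a', b', fun h0 => ?_, hz'⟩
  obtain ⟨π, hp, h1, d, rfl⟩ := prime_fac b' hb' h0
  obtain ⟨V, hV⟩ := hEX.ex φ π hφ hp
  have hzV := (V.valuation_le_one_iff _).2 (h V (hEX.thru φ π V hφ hp h1 hV))
  have hd := (V.valuation_le_one_iff _).2 (hV.1 d)
  have ha : ¬ π ∣ a' := fun h2 => hp.not_isUnit (hr h2 (dvd_mul_right _ _))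
  have h3 := hV.2.2 a' ha
  rw [← hz', map_mul, map_mul, map_mul] at h3
  have h4 : V.valuation z * (V.valuation (ev k φ π) * V.valuation (ev k φ d)) < 1 :=
    (mul_le_of_le_one_left' hzV).trans_lt ((mul_le_of_le_one_right' hd).trans_lt hV.2.1)
  exact h4.ne h3

/-- the denominators of `z` -/
def den (φ : K × K) (z : K) : Ideal (P2 k) where
  carrier := {b | ∃ a, z * ev k φ b = ev k φ a}
  add_mem' := by
    rintro b b' ⟨a, h⟩ ⟨a', h'⟩
    exact ⟨a + a', by rw [map_add, map_add, mul_add, h, h']⟩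
  zero_mem' := ⟨0, by simp⟩
  smul_mem' := by
    rintro c b ⟨a, h⟩
    exact ⟨c * a, by rw [smul_eq_mul, map_mul, map_mul, ← h]; ring⟩

/-- translation of the variables -/
noncomputable def sh (c : Fin 2 → k) : P2 k →ₐ[k] P2 k := aeval fun i => X i - C (c i)

theorem ev_sh (x y : K) (c : Fin 2 → k) (a : P2 k) :
    ev k (x, y) (sh c a) = ev k (x - algebraMap k K (c 0), y - algebraMap k K (c 1)) a := by
  have h : (ev k (x, y)).comp (sh c) =
      ev k (x - algebraMap k K (c 0), y - algebraMap k K (c 1)) := by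
    ext i
    fin_cases i <;> simp [sh]
  exact DFunLike.congr_fun h a

theorem aeval_sh (c : Fin 2 → k) (a : P2 k) : aeval c (sh c a) = constantCoeff a := by
  induction a using MvPolynomial.induction_on with
  | C r => simp [sh]
  | add p q hp hq => rw [map_add, map_add, hp, hq, map_add]
  | mul_X p i hp => rw [map_mul, map_mul, hp, map_mul]; simp [sh]

theorem poly [IsAlgClosed k] (hFR : SFR k K) (hEX : SEX k K) (B : Bx k K) (z : K)
    (h : ∀ c V, Thru k (B.rt (.inl c)) V → z ∈ V) : ∃ P, z = ev k (B.x, B.y) P := by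
  by_cases h1 : den (k := k) (B.x, B.y) z = ⊤
  · obtain ⟨a, ha⟩ := (Ideal.eq_top_iff_one _).1 h1
    exact ⟨a, by simpa using ha⟩
  obtain ⟨M, hM, hle⟩ := Ideal.exists_le_maximal _ h1
  obtain ⟨c, rfl⟩ := isMaximal_iff_eq_vanishingIdeal_singleton.1 hM
  obtain ⟨a, b, hb, hz⟩ := lo hEX _ z (hFR.rt B (.inl (c 0, c 1))) (h (c 0, c 1))
  have h2 : sh c b ∈ den (k := k) (B.x, B.y) z := ⟨sh c a, by rw [ev_sh, ev_sh]; exact hz⟩
  have h3 := (mem_vanishingIdeal_singleton_iff c _).1 (hle h2)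
  rw [aeval_sh] at h3
  exact absurd h3 hb

end NMX

theorem rowNM : OfNM := by
  intro k K _ _ _ _ hFR hEX
  exact ⟨NMX.lo hEX, NMX.poly hFR hEX⟩

end Pool.Agent.MP_5d9b3c_ag.H59
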