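import Pool.Agent.MP_5d9b3c_ag.H59.Spec

/-! Nice elements form a subring that is closed under inverses. -/

namespace Pool.Agent.MP_5d9b3c_ag.H59

namespace NiceX

variable {k K R : Type} [Field k] [Field K] [Algebra k K] [CommRing R] {l : ℕ}
  (W : W2 k K R l) (B : Bx k K) (D : Derivation k K K)

/-- the defect -/
noncomputable def E (a : R) : K :=
  D (W.dl a) - (B.Dx (W.rd a) ^ l * B.x ^ (l - 1) * D B.x +
    B.Dy (W.rd a) ^ l * B.y ^ (l - 1) * D B.y - W.rd a ^ (l - 1) * D (W.rd a))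

theorem nice_iff (a : R) : W.Nice B a ↔ ∀ D, E W B D a = 0 :=
  forall_congr' fun _ => sub_eq_zero.symm

variable [Fact l.Prime] [CharP K l]

theorem E_add (a b : R) : E W B D (a + b) = E W B D a + E W B D b := by
  simp only [E, W.dl_add, map_add W.rd, map_add D (W.dl a + W.dl b), map_add D (W.dl a), W.cc_der,
    map_add B.Dx, map_add B.Dy, add_pow_char]
  ring

theorem E_mul (a b : R) :
    E W B D (a * b) = W.rd a ^ l * E W B D b + W.rd b ^ l * E W B D a := by
  have h0 : ∀ u : K, D (u ^ l) = 0 := fun u => by simp [Derivation.leibniz_pow]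
  have h1 : ∀ u : K, u ^ l = u ^ (l - 1) * u := fun u =>
    (pow_sub_one_mul (Fact.out : l.Prime).ne_zero u).symm
  simp only [E, W.dl_mul, map_mul, map_add, Derivation.leibniz, h0, smul_eq_mul, add_pow_char,
    mul_pow]
  generalize B.Dx (W.rd a) ^ l = p₁, B.Dx (W.rd b) ^ l = p₂, B.Dy (W.rd a) ^ l = p₃,
    B.Dy (W.rd b) ^ l = p₄
  rw [h1 (W.rd a), h1 (W.rd b)]
  ring

theorem E_zero : E W B D 0 = 0 := by simpa using E_add W B D 0 0

theorem E_one : E W B D 1 = 0 := by simpa using E_mul W B D 1 1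

end NiceX

open NiceX

theorem rowNice : OfNice := by
  intro k K _ _ _ _ R _ l hl hc
  have := Fact.mk hl
  refine ⟨fun W B => ⟨⟨⟨⟨⟨{a | ∀ D, E W B D a = 0}, fun {a b} ha hb D => ?_⟩,
    fun D => E_one W B D⟩, fun {a b} ha hb D => ?_, fun D => E_zero W B D⟩,
    fun {a} ha D => ?_⟩, fun a => (nice_iff W B a).symm⟩, fun W B a b hab ha => ?_,
    fun W B t => ?_⟩
  · rw [E_mul, ha D, hb D, mul_zero, mul_zero, add_zero]
  · rw [E_add, ha D, hb D, add_zero]
  · have h := E_add W B D a (-a)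
    rwa [add_neg_cancel, E_zero, ha D, zero_add, eq_comm] at h
  · rw [nice_iff] at ha ⊢
    intro D
    have h := E_mul W B D a b
    rw [hab, E_one, ha D, mul_zero, add_zero, eq_comm] at h
    refine (mul_eq_zero.1 h).resolve_left (pow_ne_zero _ (left_ne_zero_of_mul_eq_one (b := W.rd b) ?_))
    rw [← map_mul, hab, map_one]
  · fin_cases t
    · exact (nice_iff W B 1).2 fun D => E_one W B D
    · intro D
      simp [W2.XT, W.dl_te, W.rd_te, B.xx, B.yx, hl.ne_zero]
    · intro D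
      simp [W2.XT, W.dl_te, W.rd_te, B.xy, B.yy, hl.ne_zero]

end Pool.Agent.MP_5d9b3c_ag.H59
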