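import Pool.Agent.MP_5d9b3c_ag.H59.Spec

/-!
The lifted tree over a point which is resolved by blowing up.
-/

namespace Pool.Agent.MP_5d9b3c_ag.H59

open MvPolynomial

namespace NodeX

theorem eval_aeval {O R : Type} [CommRing O] [CommRing R] (j : O →+* R) (U : Fin 2 → R)
    (g : Fin 2 → P2 O) (p : P2 O) :
    eval₂ j U (aeval g p) = eval₂ j (fun s => eval₂ j U (g s)) p := by
  induction p using MvPolynomial.induction_on with
  | C a => simp
  | add p q hp hq => simp only [map_add, eval₂_add, hp, hq]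
  | mul_X p s hp => simp only [map_mul, eval₂_mul, hp, aeval_X, eval₂_X]

variable {k K R O : Type} [Field k] [Field K] [Algebra k K] [CommRing R] [CommRing O] {l : ℕ}
  {W : W2 k K R l} {B : Bx k K} {j : O →+* R} {ψ : Fin 3 → P2 O} {i : Fin 3} {Y : Fin 3 → R}
  {U : Fin 2 → R} {φ : K × K} {V : ValuationSubring K}

theorem crd (hP : SPres k K) (hI : SIn k K R l) {c : Fin 2 → k} (h : W.Cht B j ψ c i Y U φ)
    (hV : Thru k φ V) : (∀ t, W.InS B U V (U t)) ∧
      ∀ Z, (∀ t, W.InS B Z V (U t)) → W.Eqv B Z U V := by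
  obtain ⟨h1, h2, h3⟩ := hP.crd B φ (W.rz U) (c 0) (c 1) V h.fr hV h.eq
  refine ⟨fun t => ⟨h2 t, ?_⟩, fun Z hZ => hI.eqv W B Z U V h1 hZ h3⟩
  rw [hI.self W B U t h1]
  exact zero_mem _

theorem val_one {u w : K} (hu : u ≠ 0) (h1 : u ∈ V) (h2 : w / u ∈ V)
    (h : ¬ (V.valuation u < 1 ∧ V.valuation w < 1)) : V.valuation u = 1 := by
  refine le_antisymm ((V.valuation_le_one_iff _).2 h1) (not_lt.1 fun h3 => h ⟨h3, ?_⟩)
  rw [← div_mul_cancel₀ w hu, map_mul]
  exact (mul_le_of_le_one_left' ((V.valuation_le_one_iff _).2 h2)).trans_lt h3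

theorem sub_fst (h : Sub k φ V) : φ.1 ∈ V := by simpa using h _ (ev_mem_Lo φ (X 0))

theorem sub_snd (h : Sub k φ V) : φ.2 ∈ V := by simpa using h _ (ev_mem_Lo φ (X 1))

theorem sub_some {t : k} (h : Sub k (child k φ (some t)) V) : φ.2 / φ.1 ∈ V := by
  simpa [child] using add_mem (sub_snd h) (h.hasK t)

theorem sub_none (h : Sub k (child k φ none) V) : φ.1 / φ.2 ∈ V := sub_snd h

/-- Gluing the trees over the points of the exceptional line. -/
theorem glue (hF : SFR k K) (hR : STR k K) (hW : STW k K) {N : Nm} (hφ : IsFr k φ)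
    (Uc : Option k → Fin 2 → R)
    (hT : ∀ o, ∃ L Z a, W.Tree B N i Y (Uc o) (child k φ o) L Z a)
    (h1 : ∀ o V, Thru k (child k φ o) V → Thru k φ V → W.Eqv B U (Uc o) V)
    (h2 : ∀ o o' V, Thru k (child k φ o) V → Thru k (child k φ o') V →
      W.Eqv B (Uc o) (Uc o') V) : ∃ L Z a, W.Tree B N i Y U φ L Z a := by
  classical
  choose L Z a hT using hT
  have hσ : ∀ y, ∃ o, y ∈ ⋃ o, L o → y ∈ L o := fun y => by
    by_cases h : y ∈ ⋃ o, L o
    · obtain ⟨o, ho⟩ := Set.mem_iUnion.1 h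
      exact ⟨o, fun _ => ho⟩
    · exact ⟨none, fun h' => (h h').elim⟩
  choose σ hσ using hσ
  have hS : ∀ o, ∀ y ∈ L o, ∀ V, Thru k y V → Sub k (child k φ o) V := fun o y hy V hV z hz =>
    hV.1 z ((hR.down _ _ y (hF.child φ o hφ) (hT o).cov hy).2.1 hz)
  refine ⟨⋃ o, L o, fun y => Z (σ y) y, fun y => a (σ y) y, .node φ L fun o => (hT o).cov,
    fun y hy => (hT _).leaf y (hσ y hy), fun y hy V hV hV' => ?_, fun y hy y' hy' V hV hV' => ?_⟩
  · have h3 : Thru k (child k φ (σ y)) V := ⟨hS _ y (hσ y hy) V hV, fun h =>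
      hV'.2 ((hR.child φ (σ y) hφ).2 V ⟨hS _ y (hσ y hy) V hV, h⟩).2⟩
    exact fun b => (h1 _ V h3 hV' b).trans ((hT _).up y (hσ y hy) V hV h3 b)
  · have h3 := hσ y hy
    have h4 := hσ y' hy'
    generalize σ y = o at h3 ⊢
    generalize σ y' = o' at h4 ⊢
    by_cases e : o = o'
    · subst e
      exact (hT o).pair y h3 y' h4 V hV hV'
    · have h5 := hW.two φ o o' V hφ e (hS o y h3 V hV) (hS o' y' h4 V hV')
      have h6 := hW.two φ o' o V hφ (Ne.symm e) (hS o' y' h4 V hV') (hS o y h3 V hV)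
      exact fun b => ((hT o).up y h3 V hV h5 b).symm.trans
        ((h2 o o' V h5 h6 b).trans ((hT o').up y' h4 V hV' h6 b))

end NodeX

open NodeX in
theorem rowNode : OfNode := by
  intro k K _ _ _ _ R _ l _ _ hF hR hW hP hN hI hL W B N O _ j r i Y hj ψ c h
  induction h with
  | leaf ψ c Q h1 h2 => exact fun U φ hU => hL W B N O j r ψ c i Y U φ Q hj hU h1 h2
  | node ψ c _ _ ih1 ih2 =>
    intro U φ hU
    have hrd : ∀ o, W.rd (j o) = algebraMap k K (r o) := fun o => by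
      obtain ⟨n, h1, h2⟩ := hj o
      rw [h1, h2, map_intCast, map_intCast]
    have hmem : ∀ (S : Subring R) o, j o ∈ S := fun S o => by
      obtain ⟨n, h1, -⟩ := hj o
      rw [h1]
      exact intCast_mem S n
    have e0 : W.rd (U 0 - j (c 0)) = φ.1 := by rw [map_sub, hrd, hU.eq]
    have e1 : W.rd (U 1 - j (c 1)) = φ.2 := by rw [map_sub, hrd, hU.eq]
    obtain ⟨n0, n1⟩ := hF.ne φ hU.fr
    obtain ⟨I0, hI0⟩ := (W.unit _ (e0 ▸ n0)).exists_right_inv
    obtain ⟨I1, hI1⟩ := (W.unit _ (e1 ▸ n1)).exists_right_inv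
    have e2 : W.rd I0 = φ.1⁻¹ := eq_inv_of_mul_eq_one_right (by rw [← e0, ← map_mul, hI0, map_one])
    have e3 : W.rd I1 = φ.2⁻¹ := eq_inv_of_mul_eq_one_right (by rw [← e1, ← map_mul, hI1, map_one])
    obtain ⟨S, hS⟩ := hN.ring W B
    have s0 : U 0 - j (c 0) ∈ S := sub_mem ((hS _).2 (hU.nice 0)) (hmem S _)
    have s1 : U 1 - j (c 1) ∈ S := sub_mem ((hS _).2 (hU.nice 1)) (hmem S _)
    have s2 : I0 ∈ S := (hS _).2 (hN.inv W B _ _ hI0 ((hS _).1 s0))
    have s3 : I1 ∈ S := (hS _).2 (hN.inv W B _ _ hI1 ((hS _).1 s1))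
    have u0 : U 0 - j (c 0) + j (c 0) = U 0 := sub_add_cancel _ _
    have u1 : U 1 - j (c 1) + j (c 1) = U 1 := sub_add_cancel _ _
    have hA : ∀ V, Thru k φ V →
        W.InS B U V (U 0 - j (c 0)) ∧ W.InS B U V (U 1 - j (c 1)) := fun V hV => by
      obtain ⟨T, hT⟩ := hI.ring W B U V
      have h1 := (crd hP hI hU hV).1
      exact ⟨(hT _).1 (sub_mem ((hT _).2 (h1 0)) (hmem T _)),
        (hT _).1 (sub_mem ((hT _).2 (h1 1)) (hmem T _))⟩
    generalize U 0 - j (c 0) = A0 at *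
    generalize U 1 - j (c 1) = A1 at *
    have c1 : ∀ t, W.Cht B j (finc c ψ) ![0, t] i Y ![A0, A1 * I0] (child k φ (some t)) := by
      refine fun t => ⟨by simp [child, e0, e1, e2, div_eq_mul_inv], hF.child φ _ hU.fr,
        Fin.forall_fin_two.2 ⟨(hS _).1 s0, (hS _).1 (mul_mem s1 s2)⟩, fun s => ?_, hU.hY⟩
      rw [finc, eval_aeval, ← hU.ev s]
      congr 1
      funext p
      fin_cases p
      · simpa using u0
      · simpa [mul_left_comm A0, hI0] using u1
    have c2 : W.Cht B j (infc c ψ) ![0, 0] i Y ![A1, A0 * I1] (child k φ none) := by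
      refine ⟨by simp [child, e0, e1, e3, div_eq_mul_inv], hF.child φ _ hU.fr,
        Fin.forall_fin_two.2 ⟨(hS _).1 s1, (hS _).1 (mul_mem s0 s3)⟩, fun s => ?_, hU.hY⟩
      rw [infc, eval_aeval, ← hU.ev s]
      congr 1
      funext p
      fin_cases p
      · simpa [mul_left_comm A1, hI1] using u0
      · simpa using u1
    have hE : ∀ t V, Thru k (child k φ (some t)) V → Thru k (child k φ none) V →
        W.Eqv B ![A0, A1 * I0] ![A1, A0 * I1] V := fun t V hV hV' => by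
      obtain ⟨T, hT⟩ := hI.ring W B ![A0, A1 * I0] V
      have h1 := (crd hP hI (c1 t) hV).1
      refine (crd hP hI c2 hV').2 _ (Fin.forall_fin_two.2 ⟨(hT _).1 ?_, ?_⟩)
      · have h2 : A0 * (A1 * I0) ∈ T := mul_mem ((hT _).2 (h1 0)) ((hT _).2 (h1 1))
        rwa [mul_left_comm, hI0, mul_one] at h2
      · refine hI.inv W B _ V (A1 * I0) (A0 * I1) ?_ ?_ (h1 1)
        · linear_combination (A1 * I1) * hI0 + hI1
        · rw [map_mul, e1, e2, ← div_eq_mul_inv]
          refine le_antisymm ((V.valuation_le_one_iff _).2 (sub_some hV.1)) ?_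
          have h2 := (V.valuation_le_one_iff _).2 (sub_none hV'.1)
          rwa [← inv_div, map_inv₀, inv_le_one₀ (by simpa [pos_iff_ne_zero] using ⟨n1, n0⟩)] at h2
    refine glue hF hR hW hU.fr (fun o => o.elim ![A1, A0 * I1] fun _ => ![A0, A1 * I0])
      (fun o => ?_) (fun o V hV hV' => ?_) fun o o' V hV hV' => ?_
    · cases o with
      | none => exact ih2 _ _ c2
      | some t => exact ih1 t _ _ (c1 t)
    · obtain ⟨T, hT⟩ := hI.ring W B U V
      obtain ⟨h1, h2⟩ := hA V hV'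
      cases o with
      | none =>
        refine (crd hP hI c2 hV).2 _ (Fin.forall_fin_two.2 ⟨h2, (hT _).1
          (mul_mem ((hT _).2 h1) ((hT _).2 (hI.inv W B U V A1 I1 hI1 ?_ h2)))⟩)
        rw [e1]
        exact val_one n1 (sub_snd hV'.1) (sub_none hV.1) fun h => hV'.2 h.symm
      | some t =>
        refine (crd hP hI (c1 t) hV).2 _ (Fin.forall_fin_two.2 ⟨h1, (hT _).1
          (mul_mem ((hT _).2 h2) ((hT _).2 (hI.inv W B U V A0 I0 hI0 ?_ h1)))⟩)
        rw [e0]
        exact val_one n0 (sub_fst hV'.1) (sub_some hV.1) hV'.2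
    · cases o with
      | none =>
        cases o' with
        | none => exact fun _ => Iff.rfl
        | some t => exact fun b => (hE t V hV' hV b).symm
      | some t =>
        cases o' with
        | none => exact hE t V hV hV'
        | some t' => exact fun _ => Iff.rfl

end Pool.Agent.MP_5d9b3c_ag.H59
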