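import Pool.Agent.MP_5d9b3c_ag.H59.Spec

/-!
The order of vanishing of a form along a plane curve is at most its degree.
-/

namespace Pool.Agent.MP_5d9b3c_ag.H59

open MvPolynomial

namespace ORDX

variable {k K : Type} [Field k] [Field K] [Algebra k K]

theorem deg {g : P3} {κ : ℕ} (hg : g.IsHomogeneous κ) {ψ : Fin 3 → P2 k}
    (h : ∀ l, (ψ l).totalDegree ≤ 1) : (e3 ψ g).totalDegree ≤ κ := by
  simp only [e3, coe_eval₂Hom, eval₂_eq']
  refine totalDegree_finsetSum_le fun s hs => (totalDegree_mul _ _).trans ?_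
  have h1 := hg (mem_support_iff.1 hs)
  rw [Finsupp.weight_apply, Finsupp.sum_fintype _ _ (by simp)] at h1
  simp only [Pi.one_apply, smul_eq_mul, mul_one] at h1
  rw [eq_intCast, ← map_intCast (C : k →+* P2 k), totalDegree_C, zero_add, ← h1]
  exact (totalDegree_finsetProd _ _).trans (Finset.sum_le_sum fun l _ =>
    (totalDegree_pow _ _).trans (mul_le_of_le_one_right' (h l)))

theorem lin (i : Fin 2) (c : k) : (X i + C c : P2 k).totalDegree ≤ 1 :=
  (totalDegree_add _ _).trans (by simp)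

theorem chart (B : Bx k K) (p : Root k) : ∃ ψ : Fin 3 → P2 k, (∀ l, (ψ l).totalDegree ≤ 1) ∧
    ∀ l, ev k (B.rt p) (ψ l) = B.XX l / B.XX (chi p) := by
  rcases p with c | _ | c
  · exact ⟨![1, X 0 + C c.1, X 1 + C c.2], fun l => by fin_cases l <;> simp [lin],
      fun l => by fin_cases l <;> simp [Bx.rt, root, chi]⟩
  · exact ⟨![X 0, X 1, 1], fun l => by fin_cases l <;> simp,
      fun l => by fin_cases l <;> simp [Bx.rt, root, chi, B.y_ne]⟩
  · exact ⟨![X 0, 1, X 1 + C c], fun l => by fin_cases l <;> simp [lin],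
      fun l => by fin_cases l <;> simp [Bx.rt, root, chi, B.x_ne]⟩

end ORDX

open ORDX

theorem rowORD : OfORD := by
  intro k K _ _ _ _ hF hS hE _ B g κ p V hg h0 hV h1
  obtain ⟨ψ, d1, hψ⟩ := chart B p
  have e : B.hat (chi p) g = ev k (B.rt p) (e3 ψ g) :=
    ((e3_map (ev k (B.rt p)).toRingHom ψ g).trans (congrArg (e3 · g) (funext hψ))).symm
  have h2 : B.hat (chi p) g ≠ 0 := fun h => h0 (by rw [B.hat_zero hg (chi p), h, mul_zero])
  rcases hS.st _ V (hF.rt B p) hV with h | ⟨π, hπ, c0, hv⟩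
  · have h3 := (V.valuation_le_one_iff _).2 (h (B.hat (chi p) g)⁻¹)
    rw [map_inv₀, inv_le_one₀ (by simpa [pos_iff_ne_zero] using h2)] at h3
    exact absurd h1 (not_lt.2 h3)
  have a0 : e3 ψ g ≠ 0 := fun h => h2 (by rw [e, h, map_zero])
  obtain ⟨H, a, ha, hH⟩ := WfDvdMonoid.max_power_factor a0 hπ.irreducible
  have h3 : V.valuation (B.hat (chi p) g) = V.valuation (ev k (B.rt p) π) ^ H := by
    rw [e, hH, map_mul, map_mul, hv.2.2 a ha, mul_one, map_pow, map_pow]
  refine ⟨_, H, hE.unif _ π V (hF.rt B p) hπ hv, Nat.pos_of_ne_zero ?_, ?_, h3⟩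
  · rintro rfl
    simp [h3] at h1
  · have h4 : π.totalDegree ≠ 0 := fun h => hπ.ne_zero (by
      rw [totalDegree_eq_zero_iff_eq_C.1 h, ← constantCoeff_eq, c0, map_zero])
    have h5 : ∀ n : ℕ, n ≤ (π ^ n).totalDegree := fun n => by
      induction n with
      | zero => exact Nat.zero_le _
      | succ n ih =>
        rw [pow_succ, totalDegree_mul_of_isDomain (pow_ne_zero _ hπ.ne_zero) hπ.ne_zero]
        omega
    exact (h5 H).trans ((totalDegree_le_of_dvd_of_isDomain ⟨a, hH⟩ a0).trans (deg hg d1))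

end Pool.Agent.MP_5d9b3c_ag.H59
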