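import Pool.Agent.MP_5d9b3c_ag.H59.Spec

/-!
Row PL: extension of a `k`-point to a place with residue field `k` (`k` algebraically closed).
Zorn's lemma on `k`-subspaces of `K` closed under products and missing `1`.
-/

namespace Pool.Agent.MP_5d9b3c_ag.H59

namespace PLX

variable {k K : Type} [Field k] [Field K] [Algebra k K]

/-- a `k`-subspace closed under products and missing `1` -/
def Good (N : Submodule k K) : Prop := (∀ x ∈ N, ∀ y ∈ N, x * y ∈ N) ∧ (1 : K) ∉ N

theorem mul_lt {V : ValuationSubring K} {x y : K} (hx : x ∈ V) (hy : V.valuation y < 1) :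
    V.valuation (x * y) < 1 := by
  rw [map_mul]
  exact mul_lt_one_of_nonneg_of_lt_one_right ((V.valuation_le_one_iff _).2 hx) zero_le hy

theorem add_lt {V : ValuationSubring K} {x y : K} (hx : V.valuation x < 1)
    (hy : V.valuation y < 1) : V.valuation (x + y) < 1 :=
  (V.valuation.map_add _ _).trans_lt (max_lt hx hy)

theorem start {P : Type} [CommRing P] [Algebra k P] (e : P →ₐ[k] K) (χ : P →ₐ[k] k)
    (V : ValuationSubring K) (he : ∀ a, e a ∈ V) (hχ : ∀ a, V.valuation (e a) < 1 → χ a = 0) :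
    ∃ N : Submodule k K, Good N ∧ (∀ z, V.valuation z < 1 → z ∈ N) ∧ ∀ a, χ a = 0 → e a ∈ N := by
  let N : Submodule k K :=
    { carrier := {z | ∃ a, χ a = 0 ∧ V.valuation (z - e a) < 1}
      add_mem' := by
        rintro x y ⟨a, ha, hx⟩ ⟨b, hb, hy⟩
        refine ⟨a + b, by rw [map_add, ha, hb, add_zero], ?_⟩
        rw [map_add, show x + y - (e a + e b) = (x - e a) + (y - e b) by ring]
        exact add_lt hx hy
      zero_mem' := ⟨0, map_zero _, by simp⟩
      smul_mem' := by
        rintro c x ⟨a, ha, hx⟩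
        refine ⟨algebraMap k P c * a, by rw [map_mul, ha, mul_zero], ?_⟩
        rw [map_mul, Algebra.smul_def, ← e.commutes c, ← mul_sub]
        exact mul_lt (he _) hx }
  refine ⟨N, ⟨?_, ?_⟩, fun z hz => ⟨0, map_zero _, by simpa using hz⟩,
    fun a ha => ⟨a, ha, by simp⟩⟩
  · rintro x ⟨a, ha, hx⟩ y ⟨b, -, hy⟩
    have hxV : x ∈ V := by
      rw [show x = (x - e a) + e a by ring]
      exact add_mem ((V.valuation_le_one_iff _).1 hx.le) (he a)
    refine ⟨a * b, by rw [map_mul, ha, zero_mul], ?_⟩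
    rw [map_mul, show x * y - e a * e b = x * (y - e b) + e b * (x - e a) by ring]
    exact add_lt (mul_lt hxV hy) (mul_lt (he b) hx)
  · rintro ⟨a, ha, h⟩
    have h1 := hχ (1 - a) (by rwa [map_sub, map_one])
    rw [map_sub, map_one, ha, sub_zero] at h1
    exact one_ne_zero h1

theorem zorn {N0 : Submodule k K} (h0 : Good N0) :
    ∃ N, N0 ≤ N ∧ Maximal Good N := by
  refine zorn_le_nonempty₀ {N : Submodule k K | Good N} (fun c hc hch y hy => ?_) N0 h0
  have key : ∀ z, z ∈ sSup c ↔ ∃ N ∈ c, z ∈ N := fun z =>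
    Submodule.mem_sSup_of_directed ⟨y, hy⟩ hch.directedOn
  refine ⟨sSup c, ⟨fun x hx z hz => ?_, fun h => ?_⟩, fun z hz => le_sSup hz⟩
  · obtain ⟨A, hA, hx⟩ := (key x).1 hx
    obtain ⟨B, hB, hz⟩ := (key z).1 hz
    rcases hch.total hA hB with h | h
    · exact (key _).2 ⟨B, hB, (hc hB).1 _ (h hx) _ hz⟩
    · exact (key _).2 ⟨A, hA, (hc hA).1 _ hx _ (h hz)⟩
  · obtain ⟨A, hA, h⟩ := (key 1).1 h
    exact (hc hA).2 h

theorem dom {N : Submodule k K} (h : Good N) :
    ∃ B : ValuationSubring K, HasK k B ∧ ∀ z ∈ N, B.valuation z < 1 := by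
  let S : Subring K :=
    { carrier := {z | ∃ c : k, z - algebraMap k K c ∈ N}
      mul_mem' := by
        rintro x y ⟨a, hx⟩ ⟨b, hy⟩
        refine ⟨a * b, ?_⟩
        have h1 : x * y - algebraMap k K (a * b) = (x - algebraMap k K a) * (y - algebraMap k K b)
            + a • (y - algebraMap k K b) + b • (x - algebraMap k K a) := by
          simp only [Algebra.smul_def, map_mul]
          ring
        rw [h1]
        exact add_mem (add_mem (h.1 _ hx _ hy) (N.smul_mem _ hy)) (N.smul_mem _ hx)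
      one_mem' := ⟨1, by simp⟩
      add_mem' := by
        rintro x y ⟨a, hx⟩ ⟨b, hy⟩
        refine ⟨a + b, ?_⟩
        rw [map_add, show x + y - (algebraMap k K a + algebraMap k K b) =
          (x - algebraMap k K a) + (y - algebraMap k K b) by ring]
        exact add_mem hx hy
      zero_mem' := ⟨0, by simp⟩
      neg_mem' := by
        rintro x ⟨a, hx⟩
        refine ⟨-a, ?_⟩
        rw [map_neg, show -x - -algebraMap k K a = -(x - algebraMap k K a) by ring]
        exact neg_mem hx }
  let I : Ideal S :=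
    { carrier := {s | (s : K) ∈ N}
      add_mem' := fun hx hy => N.add_mem hx hy
      zero_mem' := N.zero_mem
      smul_mem' := by
        rintro ⟨x, a, hx⟩ y hy
        have h1 : x * (y : K) = (x - algebraMap k K a) * y + a • (y : K) := by
          simp only [Algebra.smul_def]
          ring
        show x * (y : K) ∈ N
        rw [h1]
        exact add_mem (h.1 _ hx _ hy) (N.smul_mem _ hy) }
  obtain ⟨B, hS, hI⟩ := Ideal.image_subset_nonunits_valuationSubring I
    ((Ideal.ne_top_iff_one I).2 h.2)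
  exact ⟨B, fun c => hS ⟨c, by simp⟩,
    fun z hz => hI ⟨⟨z, 0, by simpa using hz⟩, hz, rfl⟩⟩

theorem pol [IsAlgClosed k] {B : ValuationSubring K} (hB : HasK k B) {z : K}
    (hz : ∀ c : k, B.valuation (z - algebraMap k K c) = 1) {q : Polynomial k} (hq : q ≠ 0) :
    B.valuation (Polynomial.aeval z q) = 1 := by
  rw [(IsAlgClosed.splits q).eq_prod_roots, map_mul, map_mul, Polynomial.aeval_C,
    hB.val (Polynomial.leadingCoeff_ne_zero.2 hq), one_mul, map_multiset_prod, map_multiset_prod]
  refine Multiset.prod_eq_one fun x hx => ?_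
  simp only [Multiset.map_map, Multiset.mem_map, Function.comp] at hx
  obtain ⟨c, -, rfl⟩ := hx
  rw [map_sub, Polynomial.aeval_X, Polynomial.aeval_C]
  exact hz c

end PLX

theorem rowPL : OfPL := by
  intro k K _ _ _ _ P _ _ e χ V he hχ
  obtain ⟨N0, h0, hV, hP⟩ := PLX.start e χ V he hχ
  obtain ⟨N, hN0, hN⟩ := PLX.zorn h0
  obtain ⟨B, hB, hNB⟩ := PLX.dom hN.1
  refine ⟨B, ValuationSubring.nonunits_le_nonunits.1 fun z hz => hNB z (hN0 (hV z hz)),
    ⟨hB, fun z hz => ?_⟩, fun a => ?_⟩
  · by_contra hc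
    have h1 : ∀ c : k, B.valuation (z - algebraMap k K c) = 1 := fun c =>
      le_antisymm ((B.valuation_le_one_iff _).2 (sub_mem hz (hB c)))
        (not_lt.1 fun h => hc ⟨c, h⟩)
    obtain ⟨N1, g1, g2, g3⟩ := PLX.start (Polynomial.aeval z) (Polynomial.aeval (0 : k)) B
      (fun q => by
        by_cases hq : q = 0
        · rw [hq, map_zero]; exact zero_mem B
        · exact (B.valuation_le_one_iff _).1 (PLX.pol hB h1 hq).le)
      (fun q h => by
        by_cases hq : q = 0
        · rw [hq, map_zero]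
        · exact absurd (PLX.pol hB h1 hq) h.ne)
    have h2 := hNB _ (hN.2 g1 (fun x hx => g2 x (hNB x hx)) (g3 Polynomial.X (by simp)))
    rw [Polynomial.aeval_X] at h2
    exact hc ⟨0, by simpa using h2⟩
  · have h1 := hNB _ (hN0 (hP (a - algebraMap k P (χ a)) (by simp)))
    rwa [map_sub, e.commutes] at h1

end Pool.Agent.MP_5d9b3c_ag.H59
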