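import Pool.Agent.MP_5d9b3c_ag.H59.Spec

/-!
Row PW: constants of the derivations in positive characteristic.
-/

namespace Pool.Agent.MP_5d9b3c_ag.H59

open MvPolynomial

namespace PWX

variable {k K : Type} [Field k] [Field K] [Algebra k K]

theorem expo {c : P2 k} {i : Fin 2} (h : pderiv i c = 0) {m : Fin 2 →₀ ℕ} (hm : coeff m c ≠ 0) :
    (m i : k) = 0 := by
  by_cases h0 : m i = 0
  · simp [h0]
  have h1 : Finsupp.single i 1 ≤ m := Finsupp.single_le_iff.2 (by omega)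
  have h2 := coeff_pderiv (i := i) c (m - Finsupp.single i 1)
  rw [h, coeff_zero, tsub_add_cancel_of_le h1] at h2
  have h3 := (mul_eq_zero.1 h2.symm).resolve_left hm
  have h4 : (m - Finsupp.single i 1 : Fin 2 →₀ ℕ) i + 1 = m i := by
    simp only [Finsupp.coe_tsub, Pi.sub_apply, Finsupp.single_eq_same]
    omega
  rw [← h4]
  push_cast
  exact h3

theorem root [IsAlgClosed k] {l : ℕ} (hl : l.Prime) [CharP k l] {c : P2 k}
    (h : ∀ i, pderiv i c = 0) : ∃ c0, c = c0 ^ l := by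
  have := Fact.mk hl
  have h1 : c ∈ (frobenius (P2 k) l).range := by
    rw [c.as_sum]
    refine sum_mem fun m hm => ?_
    obtain ⟨r, hr⟩ := IsAlgClosed.exists_pow_nat_eq (coeff m c) hl.pos
    refine ⟨monomial (m.mapRange (· / l) (by simp)) r, ?_⟩
    rw [frobenius_def, monomial_pow, hr]
    congr 2
    ext i
    have := (CharP.cast_eq_zero_iff k l _).1 (expo (h i) (mem_support_iff.1 hm))
    simpa using Nat.mul_div_cancel' this
  obtain ⟨c0, h0⟩ := h1
  exact ⟨c0, h0.symm⟩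

theorem key {l : ℕ} (hl : l.Prime) [CharP k l] (i : Fin 2) (q c : P2 k)
    (h : q ^ l * X i ^ (l - 1) = pderiv i c) : q = 0 := by
  by_contra hq
  obtain ⟨m, hm⟩ := ne_zero_iff.1 (pow_ne_zero l hq)
  have h0 : pderiv i (q ^ l) = 0 := by
    rw [pderiv_pow, CharP.cast_eq_zero, zero_mul, zero_mul]
  have h1 := expo h0 hm
  have h2 := congrArg (coeff (m + Finsupp.single i (l - 1))) h
  rw [X_pow_eq_monomial, coeff_mul_monomial, coeff_pderiv, mul_one] at h2
  have h3 : (((m + Finsupp.single i (l - 1) : Fin 2 →₀ ℕ) i : ℕ) : k) + 1 = 0 := by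
    have h4 : (m + Finsupp.single i (l - 1) : Fin 2 →₀ ℕ) i + 1 = m i + l := by
      have := hl.pos
      simp only [Finsupp.coe_add, Pi.add_apply, Finsupp.single_eq_same]
      omega
    have h5 := congrArg (Nat.cast : ℕ → k) h4
    push_cast at h5 ⊢
    rw [h5, h1, CharP.cast_eq_zero, add_zero]
  rw [h3, mul_zero] at h2
  exact hm h2

theorem frac {φ : K × K} (h : IsFr k φ) {l : ℕ} (hl : 0 < l) (z : K) :
    ∃ b c : P2 k, b ≠ 0 ∧ z * ev k φ b ^ l = ev k φ c := by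
  obtain ⟨a, b, hb, e⟩ := h.2 z
  refine ⟨b, a * b ^ (l - 1), hb, ?_⟩
  rw [map_mul, map_pow, ← e, mul_assoc, ← pow_succ', Nat.sub_add_cancel hl]

theorem der {l : ℕ} [CharP K l] (D : Derivation k K K) {z w u : K} (e : z * w ^ l = u) :
    D u = D z * w ^ l := by
  rw [← e, Derivation.leibniz, Derivation.leibniz_pow, nsmul_eq_mul, CharP.cast_eq_zero]
  simp [mul_comm]

theorem cc {φ : K × K} (h : IsFr k φ) {l : ℕ} (hl : l.Prime) [CharP K l] (i : Fin 2)
    (D : Derivation k K K) (hD : ∀ c, D (ev k φ c) = ev k φ (pderiv i c)) (a H : K)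
    (e : a ^ l * ev k φ (X i) ^ (l - 1) = D H) : a = 0 := by
  have : CharP k l := RingHom.charP (algebraMap k K) (algebraMap k K).injective l
  obtain ⟨a1, b1, hb1, e1⟩ := h.2 a
  obtain ⟨b, c, hb, e2⟩ := frac h hl.pos H
  have e3 : H * (ev k φ b * ev k φ b1) ^ l = ev k φ (c * b1 ^ l) := by
    rw [map_mul, map_pow, ← e2]
    ring
  have e4 := der D e3
  rw [hD, ← e] at e4
  have e5 : (a1 * b) ^ l * X i ^ (l - 1) = pderiv i (c * b1 ^ l) := h.1 (by
    rw [e4, map_mul, map_pow, map_pow, map_mul, ← e1]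
    ring)
  have e6 := (mul_eq_zero.1 (key hl i _ _ e5)).resolve_right hb
  rw [e6, map_zero] at e1
  exact (mul_eq_zero.1 e1).resolve_right (h.ne hb1)

end PWX

theorem rowPW : OfPW := by
  intro k K _ _ _ _ hD
  have hx : ∀ (B : Bx k K) c, B.Dx (ev k (B.x, B.y) c) = ev k (B.x, B.y) (pderiv 0 c) := by
    intro B c
    rw [hD.chain]
    simp [B.xx, B.xy]
  have hy : ∀ (B : Bx k K) c, B.Dy (ev k (B.x, B.y) c) = ev k (B.x, B.y) (pderiv 1 c) := by
    intro B c
    rw [hD.chain]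
    simp [B.yx, B.yy]
  refine ⟨fun B l G hl hc h1 h2 => ?_, fun B l a H hl hc e => ?_, fun B l a H hl hc e => ?_⟩
  · have : CharP k l := RingHom.charP (algebraMap k K) (algebraMap k K).injective l
    obtain ⟨b, c, hb, e⟩ := PWX.frac B.fr hl.pos G
    have e1 := PWX.der B.Dx e
    have e2 := PWX.der B.Dy e
    rw [hx, h1, zero_mul, map_eq_zero_iff _ B.fr.1] at e1
    rw [hy, h2, zero_mul, map_eq_zero_iff _ B.fr.1] at e2
    obtain ⟨c0, rfl⟩ := PWX.root hl (c := c) (Fin.forall_fin_two.2 ⟨e1, e2⟩)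
    refine ⟨ev k (B.x, B.y) c0 / ev k (B.x, B.y) b, ?_⟩
    rw [div_pow, eq_div_iff (pow_ne_zero _ (B.fr.ne hb)), e, map_pow]
  · exact PWX.cc B.fr hl 0 B.Dx (hx B) a H (by simpa using e)
  · exact PWX.cc B.fr hl 1 B.Dy (hy B) a H (by simpa using e)

end Pool.Agent.MP_5d9b3c_ag.H59
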