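import Pool.Agent.MP_5d9b3c_ag.H59.Spec

/-!
Derivations which preserve the local rings of a frame.
-/

namespace Pool.Agent.MP_5d9b3c_ag.H59

open MvPolynomial

namespace PresX

variable {k K : Type} [Field k] [Field K] [Algebra k K]

theorem quot (hD : SDer k K) {T : Type} [SetLike T K] [SubringClass T K] (A : T) {φ : K × K}
    (D : Derivation k K K) (h0 : ∀ a, ev k φ a ∈ A) (h1 : D φ.1 ∈ A) (h2 : D φ.2 ∈ A)
    {u : K} (hu : u ∈ A) {a b : P2 k} (hb : ev k φ b ≠ 0) (hb' : (ev k φ b)⁻¹ ∈ A)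
    (e : u * ev k φ b = ev k φ a) : D u ∈ A := by
  have h3 : ∀ a, D (ev k φ a) ∈ A := fun a => by
    rw [hD.chain]
    exact add_mem (mul_mem (h0 _) h1) (mul_mem (h0 _) h2)
  have h4 : D u = (D (ev k φ a) - u * D (ev k φ b)) * (ev k φ b)⁻¹ := by
    rw [← e, Derivation.leibniz, smul_eq_mul, smul_eq_mul]
    field_simp
    ring
  rw [h4]
  exact mul_mem (sub_mem (h3 a) (mul_mem hu (h3 b))) hb'

theorem val (hS : SST k K) (hE : SEX k K) (hD : SDer k K) (φ : K × K) (V : ValuationSubring K)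
    (D : Derivation k K K) (hφ : IsFr k φ) (hV : Thru k φ V) (h1 : D φ.1 ∈ V) (h2 : D φ.2 ∈ V) :
    ∀ u ∈ V, D u ∈ V := fun u hu => by
  rcases hS.st φ V hφ hV with h | ⟨π, p1, -, p3⟩
  · exact h _
  obtain ⟨a, b, hb, e⟩ := hE.mem φ π V hφ p1 p3 u hu
  have h3 := p3.2.2 b hb
  refine quot hD V D p3.1 h1 h2 hu (fun h => by simp [h] at h3) ?_ e
  rw [← V.valuation_le_one_iff, map_inv₀, h3, inv_one]

theorem crd (hS : SST k K) (hE : SEX k K) (hD : SDer k K) (B : Bx k K) (φ : K × K)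
    (z : Fin 2 → K) (a b : k) (V : ValuationSubring K) (hφ : IsFr k φ) (hV : Thru k φ V)
    (e : φ = (z 0 - algebraMap k K a, z 1 - algebraMap k K b)) :
    B.jac z ≠ 0 ∧ (∀ j, z j ∈ V) ∧ ∀ j, ∀ u ∈ V, B.dua z j u ∈ V := by
  have h1 : B.jac z ≠ 0 := by simpa [e, Bx.jac] using hD.jfr B φ hφ
  have h2 := hV.1 _ (ev_mem_Lo φ (X 0))
  have h3 := hV.1 _ (ev_mem_Lo φ (X 1))
  rw [ev_X0] at h2
  rw [ev_X1] at h3
  refine ⟨h1, fun j => ?_, fun j => val hS hE hD φ V _ hφ hV ?_ ?_⟩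
  · fin_cases j
    · simpa [e] using add_mem h2 (hV.1.hasK a)
    · simpa [e] using add_mem h3 (hV.1.hasK b)
  all_goals
    simp only [e, map_sub, Derivation.map_algebraMap, sub_zero, hD.dual B z j _ h1]
    split_ifs
    exacts [one_mem V, zero_mem V]

end PresX

open PresX in
theorem rowPres : OfPres := by
  intro k K _ _ _ _ hF hT hS hE hD
  refine ⟨fun φ D hφ h1 h2 u hu => ?_, val hS hE hD, crd hS hE hD, fun B p V a b hV ha hb => ?_⟩
  · obtain ⟨a, b, hb, e⟩ := id hu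
    exact quot hD (Lo k φ) D (ev_mem_Lo φ) h1 h2 hu (hφ.ne fun h => hb (by simp [h]))
      (hT.inv φ b hφ hb) e
  obtain ⟨h1, -, h3⟩ := crd hS hE hD B (B.rt p) ![(B.rt p).1, (B.rt p).2] 0 0 V (hF.rt B p) hV
    (by simp)
  have h4 : B.XX (chi p) ^ 3 * B.jac ![(B.rt p).1, (B.rt p).2] ∈ V := by
    have hx := B.x_ne
    have hy := B.y_ne
    rcases p with c | _ | c
    · simp [chi, Bx.jac, Bx.rt, root, B.xx, B.xy, B.yx, B.yy]
    · have : B.XX (chi (.inr none : Root k)) ^ 3 *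
          B.jac ![(B.rt (.inr none)).1, (B.rt (.inr none)).2] = 1 := by
        simp [chi, Bx.jac, Bx.rt, root, B.xx, B.xy, B.yx, B.yy, Derivation.leibniz_div,
          Derivation.leibniz_inv]
        field_simp
      rw [this]
      exact one_mem V
    · have : B.XX (chi (.inr (some c) : Root k)) ^ 3 *
          B.jac ![(B.rt (.inr (some c))).1, (B.rt (.inr (some c))).2] = -1 := by
        simp [chi, Bx.jac, Bx.rt, root, B.xx, B.xy, B.yx, B.yy, Derivation.leibniz_div,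
          Derivation.leibniz_inv]
        field_simp
      rw [this]
      exact neg_mem (one_mem V)
  rw [hD.jmul B _ a b h1, mul_left_comm]
  exact mul_mem (sub_mem (mul_mem (h3 0 a ha) (h3 1 b hb)) (mul_mem (h3 1 a ha) (h3 0 b hb))) h4

end Pool.Agent.MP_5d9b3c_ag.H59
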