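import Pool.Agent.MP_5d9b3c_ag.H59.Spec

/-!
Elimination of one variable.
-/

namespace Pool.Agent.MP_5d9b3c_ag.H59

open MvPolynomial

theorem rowRL : OfRL := by
  intro k _ π b hπ hb i
  obtain ⟨j, hj, hij⟩ : ∃ j : Fin 2, j ≠ i ∧ ∀ l, l = i ∨ l = j := by
    revert i
    decide
  have hp : (Ideal.span {π}).IsPrime := (Ideal.span_singleton_prime hπ.ne_zero).2 hπ
  let mk := Ideal.Quotient.mk (Ideal.span {π})
  let ι : Polynomial k →+* P2 k := (Polynomial.aeval (X i : P2 k) : Polynomial k →ₐ[k] P2 k)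
  let _ : Algebra (Polynomial k) (P2 k ⧸ Ideal.span {π}) := (mk.comp ι).toAlgebra
  have ha : ∀ r, algebraMap (Polynomial k) (P2 k ⧸ Ideal.span {π}) r = mk (ι r) := fun _ => rfl
  let Φ : P2 k →+* Polynomial (Polynomial k) := eval₂Hom (Polynomial.C.comp Polynomial.C)
    fun l => if l = i then Polynomial.C Polynomial.X else Polynomial.X
  let Ψ : Polynomial (Polynomial k) →+* P2 k := Polynomial.eval₂RingHom ι (X j)
  have h1 : Ψ.comp Φ = RingHom.id _ := ringHom_ext (fun c => by simp [Φ, Ψ, ι]) fun l => by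
    rcases hij l with rfl | rfl <;> simp [Φ, Ψ, ι, hj]
  have h2 : ∀ q, Ψ (Φ q) = q := RingHom.congr_fun h1
  have h3 : IsAlgebraic (Polynomial k) (mk (X j)) := by
    refine ⟨Φ π, fun e => hπ.ne_zero (by rw [← h2 π, e, map_zero]), ?_⟩
    have := Polynomial.hom_eval₂ (Φ π) ι mk (X j)
    exact this.symm.trans ((congrArg mk (h2 π)).trans
      (Ideal.Quotient.eq_zero_iff_mem.2 (Ideal.mem_span_singleton_self π)))
  have h4 : ∀ q, IsAlgebraic (Polynomial k) (mk q) := fun q => by
    induction q using MvPolynomial.induction_on with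
    | C a =>
      have := isAlgebraic_algebraMap (A := P2 k ⧸ Ideal.span {π}) (Polynomial.C a)
      simpa [ha, ι] using this
    | add p q hp hq => rw [map_add]; exact hp.add hq
    | mul_X p l hp =>
      rw [map_mul]
      refine hp.mul ?_
      rcases hij l with rfl | rfl
      · have := isAlgebraic_algebraMap (A := P2 k ⧸ Ideal.span {π}) (Polynomial.X : Polynomial k)
        simpa [ha, ι] using this
      · exact h3
  obtain ⟨r, r0, β, hβ⟩ := (h4 b).exists_nonzero_dvd (mem_nonZeroDivisors_of_ne_zero fun e =>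
    hb (Ideal.mem_span_singleton.1 (Ideal.Quotient.eq_zero_iff_mem.1 e)))
  obtain ⟨β, rfl⟩ := Ideal.Quotient.mk_surjective β
  obtain ⟨α, hα⟩ := Ideal.mem_span_singleton.1
    (Ideal.Quotient.eq.1 ((ha r).symm.trans (hβ.trans (map_mul mk b β).symm)))
  refine ⟨r * Polynomial.C r.leadingCoeff⁻¹, α * C r.leadingCoeff⁻¹, β * C r.leadingCoeff⁻¹,
    Polynomial.monic_mul_leadingCoeff_inv r0, ?_⟩
  rw [map_mul, Polynomial.aeval_C, algebraMap_eq]
  change ι r * _ = _
  linear_combination C r.leadingCoeff⁻¹ * hα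

end Pool.Agent.MP_5d9b3c_ag.H59
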