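import Pool.Agent.MP_5d9b3c_ag.H59.Spec

/-!
Descent of the functional equation to integer coefficients.
-/

namespace Pool.Agent.MP_5d9b3c_ag.H59

open MvPolynomial

namespace RatX

theorem act_map {S S' : Type} [CommRing S] [CommRing S'] (φ : S →+* S') (w : Word)
    (u : MvPolynomial (Fin 3) S) : act w (map φ u) = map φ (act w u) := by
  induction w with
  | nil => rfl
  | cons a w ih =>
    rcases a with j | j
    · rw [act, act, ih, map_mul, map_X]
    · rw [act, act, ih, pderiv_map]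

theorem mul_cast (Φ : ℂ →ₗ[ℚ] ℚ) (z : ℂ) (r : ℚ) : Φ (z * r) = Φ z * r := by
  rw [mul_comm, ← Rat.smul_def, map_smul, smul_eq_mul, mul_comm]

theorem exists_phi (Z : Finset ℂ) {z : ℂ} (hz : z ≠ 0) :
    ∃ Φ : ℂ →ₗ[ℚ] ℚ, Φ z ≠ 0 ∧ ∀ x ∈ Z, ((Φ x).num : ℚ) = Φ x := by
  classical
  obtain ⟨Φ, hΦ⟩ := not_forall.1 fun h => hz ((Module.forall_dual_apply_eq_zero_iff ℚ z).1 h)
  obtain ⟨D, hD⟩ := IsLocalization.exist_integer_multiples_of_finset (nonZeroDivisors ℤ) (Z.image Φ)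
  refine ⟨(D : ℤ) • Φ, smul_ne_zero (nonZeroDivisors.coe_ne_zero D) hΦ, fun x hx => ?_⟩
  obtain ⟨m, hm⟩ := hD _ (Finset.mem_image_of_mem Φ hx)
  rw [LinearMap.smul_apply, ← hm, eq_intCast, Rat.num_intCast]

theorem sum_eq (Φ : ℂ →ₗ[ℚ] ℚ) (g : P3) (n : ℕ) (m : Fin 3 →₀ ℕ) (L : List (ℂ × ℕ × Word))
    (h : ∀ e ∈ L, ((Φ e.1).num : ℚ) = Φ e.1) :
    ((coeff m ((L.map fun e => ((Φ e.1).num, e.2)).map fun e : ℤ × ℕ × Word =>
      C (e.1 * (n : ℤ) ^ e.2.1) * act e.2.2 g).sum : ℤ) : ℚ) =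
    Φ (coeff m (L.map fun e => C (e.1 * (n : ℂ) ^ e.2.1) *
      act e.2.2 (map (Int.castRingHom ℂ) g)).sum) := by
  induction L with
  | nil => simp
  | cons e L ih =>
    simp only [List.map_cons, List.sum_cons, coeff_add, map_add, Int.cast_add]
    rw [ih fun x hx => h x (List.mem_cons_of_mem _ hx), coeff_C_mul, coeff_C_mul, act_map,
      coeff_map, Int.cast_mul, Int.cast_mul, h e List.mem_cons_self, mul_assoc, ← mul_cast,
      mul_assoc]
    simp

end RatX

open RatX in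
theorem rowRat : SRat := by
  classical
  intro f d b ws q h hq
  obtain ⟨Φ, h0, hΦ⟩ := exists_phi ((ws.map Prod.fst).toFinset ∪ b.support.image b.coeff) hq
  let b1 : Polynomial ℤ := ∑ i ∈ b.support, Polynomial.monomial i (Φ (b.coeff i)).num
  have key : ∀ x : ℚ, Polynomial.aeval x b1 = Φ (b.eval (x : ℂ)) := fun x => by
    rw [Polynomial.eval_eq_sum, Polynomial.sum_def, map_sum, map_sum]
    refine Finset.sum_congr rfl fun i hi => ?_
    rw [Polynomial.aeval_monomial, eq_intCast, hΦ _ (Finset.mem_union_right _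
      (Finset.mem_image_of_mem _ hi)), ← mul_cast, Rat.cast_pow]
  refine ⟨b1, ws.map fun e => ((Φ e.1).num, e.2), ⟨fun e he => ?_, fun n => ?_⟩, key q ▸ h0⟩
  · obtain ⟨e', he', rfl⟩ := List.mem_map.1 he
    exact h.1 e' he'
  · refine MvPolynomial.ext _ _ fun m => Int.cast_injective (α := ℚ) ?_
    have h1 := h.2 n
    rw [← map_pow, ← map_pow] at h1
    have h2 : ((b1.eval (n : ℤ) : ℤ) : ℚ) = Φ (b.eval (n : ℂ)) := by
      have h3 := key n
      rw [Rat.cast_natCast, ← Int.cast_natCast, ← eq_intCast (algebraMap ℤ ℚ),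
        Polynomial.aeval_algebraMap_apply, Polynomial.coe_aeval_eq_eval, eq_intCast] at h3
      exact h3
    rw [sum_eq Φ _ n m ws fun e he => hΦ _ (Finset.mem_union_left _
      (List.mem_toFinset.2 (List.mem_map_of_mem he))), h1, coeff_C_mul, coeff_C_mul, coeff_map,
      Int.cast_mul, h2, ← mul_cast]
    simp

end Pool.Agent.MP_5d9b3c_ag.H59
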