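import Pool.Agent.MP_5d9b3c_ag.H59.Spec

/-!
Regularity of the coefficients of words applied to powers of a form.
-/

namespace Pool.Agent.MP_5d9b3c_ag.H59

open Polynomial

namespace RegX

variable {k K : Type} [Field k] [Field K] [Algebra k K]

/-- the coefficients times `r` lie in `T` -/
def In (T : Subalgebra k K) (r : K) (v : K[X]) : Prop := ∀ m, r * v.coeff m ∈ T

variable {T : Subalgebra k K} {r r' : K} {u v : K[X]}

theorem In.mul (h : In T r u) (h' : In T r' v) : In T (r * r') (u * v) := fun m => by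
  rw [coeff_mul, Finset.mul_sum]
  refine sum_mem fun c _ => ?_
  rw [mul_mul_mul_comm]
  exact mul_mem (h _) (h' _)

theorem In.add (h : In T r u) (h' : In T r v) : In T r (u + v) := fun m => by
  rw [coeff_add, mul_add]
  exact add_mem (h m) (h' m)

theorem In.neg (h : In T r u) : In T r (-u) := fun m => by
  rw [coeff_neg, mul_neg]
  exact neg_mem (h m)

theorem In.of (h : In T r u) {a : K} (ha : a ∈ T) (e : r' = a * r) : In T r' u := fun m => by
  rw [e, mul_assoc]
  exact mul_mem ha (h m)

theorem in_C {a : K} (h : r * a ∈ T) : In T r (C a) := fun m => by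
  rw [coeff_C]
  split_ifs
  exacts [h, by simp]

theorem in_X : In T 1 X := fun m => by
  rw [coeff_X]
  split_ifs <;> simp

theorem in_iff {g w : K} : PIn (fun c => g * c / w ∈ T) v ↔ In T (g / w) v := by
  simp only [PIn, In, div_mul_eq_mul_div]

theorem in_iff' {w : K} : PIn (fun c => c / w ∈ T) v ↔ In T (1 / w) v := by
  simp only [PIn, In, div_mul_eq_mul_div, one_mul]

variable (B : Bx k K)

theorem xx_eq (j : Fin 3) : B.drP.XX j = C (B.XX j) := by
  fin_cases j <;> simp [DR.XX, Bx.drP]

theorem gen (i j : Fin 3) : B.XX j / B.XX i ∈ B.Tc i := Algebra.subset_adjoin ⟨j, rfl⟩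

theorem hat_mem (i : Fin 3) (f : P3) : B.hat i f ∈ B.Tc i := e3_mem _ (gen B i) f

theorem der_eq (σ v : K[X]) {F : K} (hF : F ≠ 0) (d e : ℤ) (j : Fin 3) :
    B.drP.der (σ * C (B.Dx F / F)) (σ * C (B.Dy F / F)) (d * σ + e) j v =
      B.drP.der 0 0 e j v + σ * (C (B.dr.der 0 0 d j F / F) * v) := by
  have h : (d * F - B.x * B.Dx F - B.y * B.Dy F) / F =
      d - B.x * (B.Dx F / F) - B.y * (B.Dy F / F) := by field_simp
  fin_cases j
  · simp only [DR.der, Bx.drP, Bx.dr, Fin.zero_eta, Matrix.cons_val_zero, zero_mul, add_zero, h,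
      map_sub, map_mul, map_intCast]
    ring
  all_goals simp [DR.der, Bx.drP, Bx.dr, mul_assoc]

theorem coeff_der (v : K[X]) (e : ℤ) (j : Fin 3) (m : ℕ) :
    (B.drP.der 0 0 e j v).coeff m = B.dr.der 0 0 e j (v.coeff m) := by
  fin_cases j <;> simp [DR.der, Bx.drP, Bx.dr]

variable {B}

theorem der_in (h0 : SReg0 k K) {i : Fin 3} (j : Fin 3) {σ : K[X]} {F g : K} (hF : F ≠ 0)
    {d e : ℤ} {n : ℕ} (hg : F = g * B.XX i ^ d) (hg' : g ∈ B.Tc i) (hσ : In (B.Tc i) 1 σ)
    (hv : In (B.Tc i) (g ^ n / B.XX i ^ e) v) : In (B.Tc i) (g ^ (n + 1) / B.XX i ^ (e - 1))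
      (B.drP.der (σ * C (B.Dx F / F)) (σ * C (B.Dy F / F)) (d * σ + e) j v) := by
  have hw := B.XX_ne i
  have hd := zpow_ne_zero d hw
  have he := zpow_ne_zero e hw
  have g0 : g ≠ 0 := left_ne_zero_of_mul (hg ▸ hF)
  rw [der_eq B σ v hF]
  refine In.add (fun m => ?_) ?_
  · rw [coeff_der, div_mul_eq_mul_div]
    exact h0 B i j e n g _ hg' (by rw [← div_mul_eq_mul_div]; exact hv m)
  have h1 := h0 B i j d 0 1 F (one_mem _)
    (by rwa [pow_zero, one_mul, hg, mul_div_cancel_right₀ _ hd])
  refine (hσ.mul ((in_C (r := g * B.XX i) ?_).mul hv)).of (one_mem _) ?_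
  · convert h1 using 1
    generalize B.dr.der 0 0 d j F = a
    rw [hg, zpow_sub_one₀ hw, one_pow]
    field_simp
  · rw [zpow_sub_one₀ hw, pow_succ]
    field_simp

theorem xx_in {i : Fin 3} (j : Fin 3) {g : K} {e : ℤ} (hv : In (B.Tc i) (g / B.XX i ^ e) v) :
    In (B.Tc i) (g / B.XX i ^ (e + 1)) (B.drP.XX j * v) := by
  have hw := B.XX_ne i
  have he := zpow_ne_zero e hw
  rw [xx_eq]
  refine ((in_C (r := 1 / B.XX i) ?_).mul hv).of (one_mem _) ?_
  · rw [one_div_mul_eq_div]
    exact gen B i j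
  · rw [zpow_add_one₀ hw]
    field_simp

theorem test_in (h0 : SReg0 k K) {i : Fin 3} (j : Fin 3) (d : ℕ) {e : ℤ}
    (hv : In (B.Tc i) (1 / B.XX i ^ e) v) : In (B.Tc i) (1 / B.XX i ^ (e - 1))
      (-B.drP.der (aP B d i B.Dx) (aP B d i B.Dy) (-((d : K[X]) * X) + (e : K[X])) j v) := by
  have h1 : In (B.Tc i) 1 (-((d : K[X]) * X)) :=
    (((in_C (r := 1) (a := (d : K)) (by simp)).mul in_X).of (one_mem _) (by simp)).neg
  simpa [aP] using (der_in h0 j (B.XX_ne i) (d := 1) (n := 0) (g := 1) (by simp) (one_mem _) h1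
    (by simpa using hv)).neg

theorem vl_in (h0 : SReg0 k K) {f : P3} {d : ℕ} (lam : k) (i : Fin 3) (w : Word)
    (hf : f.IsHomogeneous d) (hn : B.hat 0 f ≠ 0) :
    In (B.Tc i) (B.hat i f ^ w.length / B.XX i ^ ((d : ℤ) + wgt w)) (vP B f d lam w) := by
  have hg : B.hat 0 f = B.hat i f * B.XX i ^ (d : ℤ) := by
    rw [B.hat_zero hf i, zpow_natCast, mul_comm]
  induction w with
  | nil =>
    refine in_C ?_
    rw [hg, wgt, add_zero, List.length_nil, pow_zero, one_div_mul_eq_div,
      mul_div_cancel_right₀ _ (zpow_ne_zero _ (B.XX_ne i))]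
    exact hat_mem B i f
  | cons a w ih =>
    rcases a with j | j
    · refine (xx_in j ih).of (hat_mem B i f) ?_
      rw [wgt, List.length_cons, pow_succ', add_assoc, mul_div_assoc]
    · have h1 : In (B.Tc i) 1 (X - C (algebraMap k K lam)) := by
        rw [sub_eq_add_neg]
        exact in_X.add (in_C (by simp)).neg
      have h2 := der_in h0 j hn hg (hat_mem B i f) h1 ih
      rw [wgt, ← add_sub_assoc]
      convert h2 using 1
      · rw [List.length_cons, add_sub_assoc]
      simp only [vP, DR.vl]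
      congr 1
      push_cast
      ring

end RegX

open RegX in
theorem rowReg : OfReg := by
  intro k K _ _ _ _ h0
  refine ⟨fun B f d lam i w hf hn => in_iff.2 (vl_in h0 lam i w hf hn), fun B d i w => ?_,
    fun B f d lam i w e τ j hf hn => ?_⟩
  · induction w with
    | nil => exact fun e τ h => by simpa [wgt, DR.ad] using h
    | cons a w ih =>
      intro e τ h
      rcases a with j | j
      · have h1 := ih (e + 1) _ (in_iff'.2 (xx_in j (in_iff'.1 h)))
        rw [wgt, DR.ad, add_assoc (-_), add_comm (wgt w), ← add_assoc e]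
        exact_mod_cast h1
      · have h1 := ih (e - 1) _ (in_iff'.2 (test_in h0 j d (in_iff'.1 h)))
        rw [wgt, DR.ad, add_sub_assoc (-_), ← add_sub_assoc e, ← sub_add_eq_add_sub]
        exact_mod_cast h1
  · simp only [in_iff, in_iff']
    induction w generalizing e τ with
    | nil => exact fun _ _ m => by simp [DR.xi]
    | cons a w ih =>
      intro he h
      have e1 : B.hat i f ^ (a :: w).length / B.XX i =
          B.hat i f * (B.hat i f ^ w.length / B.XX i) := by
        rw [List.length_cons, pow_succ', mul_div_assoc]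
      rcases a with l | l
      · rw [wgt] at he
        have h1 := ih (e + 1) _ (by omega) (xx_in l h)
        rw [DR.xi, add_assoc (-_)]
        exact In.of (by exact_mod_cast h1) (hat_mem B i f) e1
      · rw [wgt] at he
        have h1 := ih (e - 1) _ (by omega) (test_in h0 l d h)
        rw [DR.xi, add_sub_assoc (-_), Pi.add_apply]
        refine In.of (In.add ?_ (by exact_mod_cast h1)) (hat_mem B i f) e1
        rw [Pi.single_apply]
        split_ifs
        · refine (h.mul (vl_in h0 lam i w hf hn)).of (one_mem _) ?_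
          rw [one_mul, div_mul_div_comm, one_mul, ← zpow_add₀ (B.XX_ne i),
            show e + (d + wgt w) = 1 by omega, zpow_one]
        · exact fun m => by simp

end Pool.Agent.MP_5d9b3c_ag.H59
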