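import Pool.Agent.MP_5d9b3c_ag.H59.Spec

/-!
The derivatives of a section keep the order of the pole under control.
-/

namespace Pool.Agent.MP_5d9b3c_ag.H59

open MvPolynomial

namespace Reg0X

variable {k K : Type} [Field k] [Field K] [Algebra k K] (B : Bx k K)

/-- the three derivations in weight zero -/
noncomputable def DD (j : Fin 3) : Derivation k K K :=
  ![-(B.x • B.Dx) - B.y • B.Dy, B.Dx, B.Dy] j

theorem der_eq (γ : K) (j : Fin 3) (u : K) :
    B.dr.der 0 0 γ j u = DD B j u + (if j = 0 then 1 else 0) * γ * u := by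
  fin_cases j
  · simp [DR.der, Bx.dr, DD]
    ring
  · simp [DR.der, Bx.dr, DD]
  · simp [DR.der, Bx.dr, DD]

theorem DD_XX (j l : Fin 3) :
    DD B j (B.XX l) = (if j = l then 1 else 0) - (if j = 0 then 1 else 0) * B.XX l := by
  fin_cases j <;> fin_cases l <;> simp [DD, B.xx, B.xy, B.yx, B.yy]

theorem ite_mem' (T : Subalgebra k K) (p : Prop) [Decidable p] : (if p then 1 else 0 : K) ∈ T := by
  split_ifs
  exacts [one_mem _, zero_mem _]

theorem pres (i j : Fin 3) {t : K} (ht : t ∈ B.Tc i) : B.XX i * DD B j t ∈ B.Tc i := by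
  have hw := B.XX_ne i
  induction ht using Algebra.adjoin_induction with
  | mem x hx =>
    obtain ⟨l, rfl⟩ := hx
    have e : B.XX i * DD B j (B.XX l / B.XX i) =
        (if j = l then 1 else 0) - (if j = i then 1 else 0) * (B.XX l / B.XX i) := by
      rw [Derivation.leibniz_div, DD_XX, DD_XX]
      simp only [smul_eq_mul]
      field_simp
      ring
    simp only
    rw [e]
    exact sub_mem (ite_mem' _ _) (mul_mem (ite_mem' _ _) (Algebra.subset_adjoin ⟨l, rfl⟩))
  | algebraMap r => rw [Derivation.map_algebraMap, mul_zero]; exact zero_mem _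
  | add x y _ _ hx hy => rw [map_add, mul_add]; exact add_mem hx hy
  | mul x y h1 h2 hx hy =>
    have e : B.XX i * DD B j (x * y) = x * (B.XX i * DD B j y) + y * (B.XX i * DD B j x) := by
      rw [Derivation.leibniz, smul_eq_mul, smul_eq_mul]
      ring
    rw [e]
    exact add_mem (mul_mem h1 hy) (mul_mem h2 hx)

end Reg0X

open Reg0X in
theorem rowReg0 : OfReg0 := by
  intro k K _ _ _ _ B i j e n g c hg hc
  have hw := B.XX_ne i
  have hz : B.XX i ^ e ≠ 0 := zpow_ne_zero _ hw
  obtain ⟨ρ, rfl⟩ : ∃ ρ, c = ρ * B.XX i ^ e := ⟨c / B.XX i ^ e, by field_simp⟩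
  have e1 : g ^ n * (ρ * B.XX i ^ e) / B.XX i ^ e = g ^ n * ρ := by field_simp
  rw [e1] at hc
  have e2 : g * DD B j (g ^ n) = n * DD B j g * g ^ n := by
    rw [Derivation.leibniz_pow, nsmul_eq_mul, smul_eq_mul]
    rcases n with _ | n
    · simp
    · rw [Nat.add_sub_cancel]
      ring
  have e3 : g ^ (n + 1) * B.dr.der 0 0 e j (ρ * B.XX i ^ e) / B.XX i ^ (e - 1) =
      g * (B.XX i * DD B j (g ^ n * ρ)) - n * (B.XX i * DD B j g) * (g ^ n * ρ) +
        e * (if j = i then 1 else 0) * g * (g ^ n * ρ) := by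
    rw [der_eq, Derivation.leibniz, Derivation.leibniz, Derivation.leibniz_zpow, DD_XX,
      zpow_sub_one₀ hw]
    simp only [smul_eq_mul, zsmul_eq_mul]
    field_simp
    linear_combination (-(B.XX i * ρ)) * e2
  rw [e3]
  exact add_mem (sub_mem (mul_mem hg (pres B i j hc))
    (mul_mem (mul_mem (natCast_mem _ n) (pres B i j hg)) hc))
    (mul_mem (mul_mem (mul_mem (intCast_mem _ e) (ite_mem' _ _)) hg) hc)

end Pool.Agent.MP_5d9b3c_ag.H59
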