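import Pool.Agent.MP_5d9b3c_ag.H59.Spec

/-!
Residues and the shape of the lattice at a discrete valuation ring.
-/

namespace Pool.Agent.MP_5d9b3c_ag.H59

theorem rowRes : OfRes := by
  intro k K _ _ _ _ hV
  refine ⟨fun V D t z n hD h1 ht hz => ?_, fun B N V i t n H hi ht hf hh => ?_⟩
  · have t0 : t ≠ 0 := by
      rintro rfl
      simp at h1
    have tn := zpow_ne_zero n t0
    have v0 : V.valuation t ^ n ≠ 0 := zpow_ne_zero n (by simpa using t0)
    obtain ⟨e, rfl⟩ : ∃ e, z = e * t ^ n := ⟨z / t ^ n, by field_simp⟩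
    rw [map_mul, map_zpow₀, mul_eq_right₀ v0] at hz
    have e0 : e ≠ 0 := by
      rintro rfl
      simp at hz
    have : t * D (e * t ^ n) / (e * t ^ n) - n = t * D e / e := by
      rw [Derivation.leibniz, Derivation.leibniz_zpow, h1, zpow_sub_one₀ t0]
      simp only [smul_eq_mul, zsmul_eq_mul]
      field_simp
      ring
    rw [this, map_div₀, hz, div_one, map_mul]
    exact (mul_le_of_le_one_right' ((V.valuation_le_one_iff _).2
      (hD e ((V.valuation_le_one_iff e).1 hz.le)))).trans_lt ht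
  · have m0 : (0 : ℤ) < N.m := by exact_mod_cast N.m0
    have v0 : V.valuation t ≠ 0 := by simpa using ht.1
    refine ⟨n - (H : ℤ) / N.m, ?_, fun u => ?_⟩
    · have := Int.ediv_le_self (N.m : ℤ) (Int.natCast_nonneg H)
      omega
    rw [hi.lam_iff, mul_one, pow_one]
    rcases eq_or_ne (u / B.XX i ^ 3) 0 with h | h
    · simp [h, N.m0.ne']
    obtain ⟨ν, hν⟩ := ht.2.2 _ h
    rw [← V.valuation_le_one_iff, map_mul, map_pow, map_div₀ V.valuation (B.hat i N.h), map_pow,
      hν, hf, hh, hV.zle V t _ _ ht, ← zpow_natCast, ← zpow_natCast, ← zpow_natCast,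
      ← zpow_natCast, ← zpow_mul, ← zpow_mul, ← zpow_sub₀ v0, ← zpow_add₀ v0,
      ← zpow_zero (V.valuation t), hV.zle V t _ _ ht, sub_le_comm, Int.le_ediv_iff_mul_le m0,
      sub_mul]
    omega

end Pool.Agent.MP_5d9b3c_ag.H59
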