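import Pool.Agent.MP_5d9b3c_ag.H59.Spec

/-!
Regularity along the exceptional curves of a tower of blow-ups.
-/

namespace Pool.Agent.MP_5d9b3c_ag.H59

open MvPolynomial

namespace SX

variable {k K : Type} [Field k] [Field K] [Algebra k K]

theorem fst_mem (φ : K × K) : φ.1 ∈ Lo k φ := by simpa using ev_mem_Lo (k := k) φ (X 0)

theorem snd_mem (φ : K × K) : φ.2 ∈ Lo k φ := by simpa using ev_mem_Lo (k := k) φ (X 1)

theorem mem_of_lt {V : ValuationSubring K} {z : K} (h : V.valuation z < 1) : z ∈ V :=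
  (V.valuation_le_one_iff _).1 h.le

theorem est (E : ValuationSubring K) {a b σ w : K} {m : ℕ} (h1 : (a - b) ^ m * σ ∈ E)
    (h2 : b ^ m * σ ∉ E) (h3 : E.valuation (b ^ m * σ * w) = 1) :
    E.valuation (a ^ m * σ * w - b ^ m * σ * w) < 1 := by
  have h4 : E.valuation (a - b) < E.valuation b := by
    by_contra h
    refine h2 (mem_of_val_le ?_ h1)
    simp only [map_mul, map_pow]
    gcongr
    exact not_lt.1 h
  have hb : b ≠ 0 := by
    rintro rfl
    simp at h4
  have h5 : E.valuation (a / b - 1) < 1 := by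
    rw [div_sub_one hb, map_div₀]
    exact (div_lt_one₀ (zero_le.trans_lt h4)).2 h4
  have h6 : a / b ∈ E := by simpa using add_mem (mem_of_lt h5) (one_mem E)
  have h7 : ∑ i ∈ Finset.range m, (a / b) ^ i ∈ E := sum_mem fun i _ => pow_mem h6 i
  have h8 : a ^ m * σ * w - b ^ m * σ * w =
      b ^ m * σ * w * ((a / b - 1) * ∑ i ∈ Finset.range m, (a / b) ^ i) := by
    rw [mul_geom_sum, div_pow]
    field_simp
  rw [h8, map_mul, h3, one_mul, map_mul]
  exact (mul_le_of_le_one_right' ((E.valuation_le_one_iff _).2 h7)).trans_lt h5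

section

variable (hF : SFR k K) (hT : STR k K) (hE : SE k K) {φ : K × K} (hφ : IsFr k φ)
  {E : ValuationSubring K} (h : IsE k (φ.1, φ.2 / φ.1) E)

include hF hφ h

theorem val_snd : E.valuation φ.2 < 1 := by
  have h1 := h.2.2 0
  rw [map_zero, sub_zero, map_div₀, div_eq_one_iff_eq (by simpa using (hF.ne φ hφ).1)] at h1
  exact h1 ▸ h.2.1

include hE

theorem thru_child (c : Option k) : Thru k (child k φ c) E := by
  refine ((hE.thru _ E (hF.child φ c hφ)).1 ?_).1
  cases c with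
  | some a => exact (hE.tr _ _ a E).2 h
  | none =>
    have := hE.inv _ _ φ.2 E h (val_snd hF hφ h)
    rwa [inv_div] at this

include hT

theorem thru_or (c : Option k) {V : ValuationSubring K} (hV : Thru k (child k φ c) V) :
    Thru k φ V ∨ V = E := by
  refine or_iff_not_imp_left.2 fun h1 => hE.uniq _ V E (hF.div φ hφ) ?_ h
  have h2 : V.valuation φ.1 < 1 ∧ V.valuation φ.2 < 1 := by_contra fun h2 =>
    h1 ⟨fun z hz => hV.1 z ((hT.child φ c hφ).1 hz), h2⟩
  have h3 := (hE.thru _ V (hF.child φ c hφ)).2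
  cases c with
  | some a => exact (hE.tr _ _ a V).1 (h3 ⟨hV, h2.1⟩)
  | none =>
    have := hE.inv _ _ φ.1 V (h3 ⟨hV, h2.2⟩) h2.1
    rwa [inv_div] at this

end

end SX

open SX in
theorem rowS : OfS := by
  intro k K _ _ _ _ hF hT hE hH hC hN φ L m σ g hφ hL
  induction hL generalizing σ with
  | leaf φ =>
    rintro - h2 y rfl V hV
    exact h2 _ rfl V hV hV
  | node φ L hL ih =>
    intro h1 h2
    obtain ⟨E, h⟩ := hE.ex _ (hF.div φ hφ)
    have hm : ∀ c, ∀ y ∈ L c, y ∈ ⋃ c, L c := fun c y hy => Set.mem_iUnion.2 ⟨c, hy⟩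
    have step : ∀ c, ∀ w ∈ Lo k φ, (∀ y ∈ L c, Thru k y E → g y ^ m * (σ * w) ∈ E) →
        ∀ y ∈ L c, ∀ V, Thru k y V → g y ^ m * (σ * w) ∈ V := fun c w hw h3 => by
      have h4 : ∀ y ∈ L c, ∀ V, Thru k y V → w ∈ V := fun y hy V hV =>
        hV.1 _ ((hT.down _ _ y (hF.child φ c hφ) (hL c) hy).2.1 ((hT.child φ c hφ).1 hw))
      refine ih c (σ * w) (hF.child φ c hφ) (fun y hy y' hy' V hV hV' => ?_) fun y hy V hV hV' => ?_
      · rw [← mul_assoc]
        exact mul_mem (h1 y (hm c y hy) y' (hm c y' hy') V hV hV') (h4 y hy V hV)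
      · rcases thru_or hF hT hE hφ h c hV' with h5 | rfl
        · rw [← mul_assoc]
          exact mul_mem (h2 y (hm c y hy) V hV h5) (h4 y hy V hV)
        · exact h3 y hy hV
    have star : ∀ y ∈ ⋃ c, L c, Thru k y E → g y ^ m * σ ∈ E := fun y₀ hy₀ t₀ => by
      by_contra h3
      have hu := (hF.ne φ hφ).1
      have hv := (hF.ne φ hφ).2
      obtain ⟨-, u1, u2⟩ := hE.unif _ E (hF.div φ hφ) h
      obtain ⟨n, hn⟩ := u2 (g y₀ ^ m * σ) fun e => h3 (e ▸ zero_mem E)
      have u0 : 0 < E.valuation φ.1 := by simpa [pos_iff_ne_zero] using hu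
      have hn0 : n < 0 := by
        by_contra h4
        refine h3 ((E.valuation_le_one_iff _).1 (hn ▸ ?_))
        exact zpow_le_one₀ u0 u1.le (not_lt.1 h4)
      obtain ⟨e, he⟩ := Int.eq_ofNat_of_zero_le (a := -n) (by omega)
      have e0 : e ≠ 0 := by omega
      have h4 : E.valuation (g y₀ ^ m * σ * φ.1 ^ e) = 1 := by
        rw [map_mul, hn, map_pow, ← zpow_natCast, ← he, ← zpow_add₀ u0.ne', add_neg_cancel,
          zpow_zero]
      have h5 : ∀ c, ∀ y ∈ L c, Thru k y E →
          E.valuation (g y ^ m * σ * φ.1 ^ e - g y₀ ^ m * σ * φ.1 ^ e) < 1 := fun c y hy ty =>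
        est E (h1 y (hm c y hy) y₀ hy₀ E ty t₀) h3 h4
      have h6 : g y₀ ^ m * σ * φ.1 ^ e ∈ E := (E.valuation_le_one_iff _).1 h4.le
      have h7 : ∀ c, ∀ y ∈ L c, Thru k y E → g y ^ m * σ * φ.1 ^ e ∈ E := fun c y hy ty => by
        simpa using add_mem (mem_of_lt (h5 c y hy ty)) h6
      have ht : φ.2 / φ.1 ∈ E := (E.valuation_le_one_iff _).1 (by simpa using (h.2.2 0).le)
      refine (hC.cv E (φ.2 / φ.1) _ h.1 h6 h.2.2 fun W hW hR => ?_).ne h4
      obtain ⟨c, hc⟩ := hT.prc φ W hφ hR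
        (hT.dom φ W hR.1 (val_lt_of_le hW u1) (val_lt_of_le hW (val_snd hF hφ h)))
      obtain ⟨y, hy, dy, ty⟩ := hH.lift _ _ E W (hF.child φ c hφ) (hL c) hW hR hc
        fun h8 => (thru_child hF hE hφ h c).2 h8.2
      have fy := (hT.down _ _ y (hF.child φ c hφ) (hL c) hy).1
      have h8 := val_lt_of_le hW (h5 c y hy ty)
      cases c with
      | some a =>
        have h9 := dy.1 _ (hN.lo y _ fy (step _ (φ.1 ^ e) (pow_mem (fst_mem φ) e)
          (fun y hy ty => mul_assoc (g y ^ m) σ _ ▸ h7 _ y hy ty) y hy))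
        rw [← mul_assoc] at h9
        refine ⟨by simpa using sub_mem h9 (mem_of_lt h8), fun h10 => absurd ?_ h10⟩
        simpa [child] using add_mem (mem_of_lt hc.2.2) (hR.1 a)
      | none =>
        have h9 := dy.1 _ (hN.lo y _ fy (step _ (φ.2 ^ e) (pow_mem (snd_mem φ) e)
          (fun y hy ty => by
            convert mul_mem (h7 _ y hy ty) (pow_mem ht e) using 1
            rw [div_pow]
            field_simp) y hy))
        have h10 : W.valuation (g y ^ m * σ * φ.1 ^ e) < 1 := by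
          rw [show g y ^ m * σ * φ.1 ^ e = g y ^ m * (σ * φ.2 ^ e) * (φ.1 / φ.2) ^ e by
            rw [div_pow]; field_simp, map_mul, map_pow]
          exact (mul_le_of_le_one_left' ((W.valuation_le_one_iff _).2 h9)).trans_lt
            (pow_lt_one₀ zero_le hc.2.2 e0)
        have h11 := W.valuation.map_sub_lt h10 h8
        rw [sub_sub_cancel] at h11
        exact ⟨mem_of_lt h11, fun _ => h11⟩
    intro y hy V hV
    obtain ⟨c, hc⟩ := Set.mem_iUnion.1 hy
    simpa using step c 1 (one_mem _)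
      (fun y hy ty => by simpa using star y (hm c y hy) ty) y hc V hV

end Pool.Agent.MP_5d9b3c_ag.H59
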