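import Pool.Agent.MP_5d9b3c_ag.H59.Spec

/-!
Valuation rings through the origin of a frame are rings of curves.
-/

namespace Pool.Agent.MP_5d9b3c_ag.H59

open MvPolynomial

namespace STX

variable {k K : Type} [Field k] [Field K] [Algebra k K]

theorem root [IsAlgClosed k] (V : ValuationSubring K) (x : K) {R : Polynomial k} (hR : R.Monic)
    (h : V.valuation (Polynomial.aeval x R) < 1) :
    ∃ c : k, V.valuation (x - algebraMap k K c) < 1 := by
  by_contra hn
  push Not at hn
  refine absurd h (not_lt.2 ?_)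
  rw [(IsAlgClosed.splits R).eq_prod_roots_of_monic hR, map_multiset_prod, map_multiset_prod,
    Multiset.map_map, Multiset.map_map]
  refine Multiset.one_le_prod_of_one_le fun y hy => ?_
  obtain ⟨c, -, rfl⟩ := Multiset.mem_map.1 hy
  simpa using hn c

theorem ev_mem {φ : K × K} {V : ValuationSubring K} (hk : HasK k V) (h1 : φ.1 ∈ V) (h2 : φ.2 ∈ V)
    (a : P2 k) : ev k φ a ∈ V := by
  induction a using MvPolynomial.induction_on with
  | C c => rw [ev_C]; exact hk c
  | add p q hp hq => rw [map_add]; exact add_mem hp hq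
  | mul_X p i hp =>
    rw [map_mul]
    refine mul_mem hp ?_
    fin_cases i
    · simpa using h1
    · simpa using h2

theorem main [IsAlgClosed k] (hRL : SRL k) {φ : K × K} {V : ValuationSubring K}
    (hm : ∀ a, ev k φ a ∈ V)
    (nc : ∀ a b : k, ¬ (V.valuation (φ.1 - algebraMap k K a) < 1 ∧
      V.valuation (φ.2 - algebraMap k K b) < 1)) {π : P2 k} (hπ : Prime π)
    (h : V.valuation (ev k φ π) < 1) : IsV k φ π V := by
  have hle : ∀ a, V.valuation (ev k φ a) ≤ 1 := fun a => (V.valuation_le_one_iff _).2 (hm a)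
  refine ⟨hm, h, fun b hb => le_antisymm (hle b) (not_lt.1 fun h1 => ?_)⟩
  have key : ∀ i : Fin 2, ∃ c : k, V.valuation (ev k φ (X i) - algebraMap k K c) < 1 := by
    intro i
    obtain ⟨R, α, β, hR, e⟩ := hRL π b hπ hb i
    refine root V _ hR ?_
    rw [Polynomial.aeval_algHom_apply, e, map_add, map_mul, map_mul]
    refine V.valuation.map_add_lt ?_ ?_
    · rw [map_mul]
      exact (mul_le_of_le_one_left' (hle α)).trans_lt h
    · rw [map_mul]
      exact (mul_le_of_le_one_left' (hle β)).trans_lt h1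
  obtain ⟨c, hc⟩ := key 0
  obtain ⟨d, hd⟩ := key 1
  rw [ev_X0] at hc
  rw [ev_X1] at hd
  exact nc c d ⟨hc, hd⟩

end STX

open STX in
theorem rowST : OfST := by
  intro k K _ _ _ _ hRL hFR hTR
  constructor
  · intro φ V hφ hV
    have hm : ∀ a, ev k φ a ∈ V := fun a => hV.1 _ (ev_mem_Lo φ a)
    by_cases h : ∃ a : P2 k, a ≠ 0 ∧ V.valuation (ev k φ a) < 1
    · obtain ⟨a, h0, h1⟩ := h
      have h2 : ∃ π : P2 k, Prime π ∧ V.valuation (ev k φ π) < 1 := by
        induction a using UniqueFactorizationMonoid.induction_on_prime with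
        | h₁ => exact absurd rfl h0
        | h₂ x hx => exact absurd h1 (hTR.unit φ V x hφ hV.1 (hx.map _).ne_zero).not_lt
        | h₃ a p ha hp ih =>
          by_cases h3 : V.valuation (ev k φ p) < 1
          · exact ⟨p, hp, h3⟩
          · refine ih ha (lt_of_le_of_lt ?_ h1)
            rw [map_mul, map_mul]
            exact le_mul_of_one_le_left' (not_lt.1 h3)
      obtain ⟨π, hπ, h3⟩ := h2
      exact Or.inr ⟨π, hπ, by_contra fun h4 => (hTR.unit φ V π hφ hV.1 h4).not_lt h3,
        main hRL hm (fun a b => hTR.nc φ V a b hφ hV) hπ h3⟩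
    · refine Or.inl fun z => ?_
      obtain ⟨a, b, h0, e⟩ := hφ.2 z
      refine mem_of_val_le ?_ (hm a)
      rw [← e, map_mul]
      exact le_mul_of_one_le_right' (not_lt.1 fun h1 => h ⟨b, h0, h1⟩)
  · intro φ a b V π hφ hV hπ h
    have hk := hV.1.hasK
    have h1 := hV.1 _ (ev_mem_Lo _ (X 0))
    have h2 := hV.1 _ (ev_mem_Lo _ (X 1))
    rw [ev_X0] at h1
    rw [ev_X1] at h2
    refine main hRL (ev_mem hk (by simpa using add_mem h1 (hk a))
      (by simpa using add_mem h2 (hk b))) (fun c d => ?_) hπ h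
    have h3 := hTR.nc _ V (c - a) (d - b) (hFR.tr φ a b hφ) hV
    simpa only [map_sub, sub_sub_sub_cancel_right] using h3

end Pool.Agent.MP_5d9b3c_ag.H59
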