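import Pool.Agent.MP_5d9b3c_ag.H59.Spec

/-!
A separable integer polynomial has a root modulo the square of arbitrarily large primes.
-/

namespace Pool.Agent.MP_5d9b3c_ag.H59

namespace SchX

open Polynomial

theorem bez {P : ℤ[X]} (h : (P.map (Int.castRingHom ℚ)).Separable) :
    ∃ (Δ : ℤ) (u v : ℤ[X]), Δ ≠ 0 ∧ u * P + v * derivative P = C Δ := by
  obtain ⟨a, b, hab⟩ := h
  obtain ⟨s, hs, ha⟩ := IsLocalization.integerNormalization_spec (nonZeroDivisors ℤ) a
  obtain ⟨t, ht, hb⟩ := IsLocalization.integerNormalization_spec (nonZeroDivisors ℤ) b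
  refine ⟨s * t, C t * IsLocalization.integerNormalization (nonZeroDivisors ℤ) a,
    C s * IsLocalization.integerNormalization (nonZeroDivisors ℤ) b,
    mul_ne_zero (nonZeroDivisors.ne_zero hs) (nonZeroDivisors.ne_zero ht),
    map_injective (algebraMap ℤ ℚ) (algebraMap ℤ ℚ).injective_int ?_⟩
  rw [derivative_map] at hab
  simp only [Polynomial.map_add, Polynomial.map_mul, ha, hb]
  simp only [zsmul_eq_mul, map_mul, Polynomial.map_mul, algebraMap_int_eq, eq_intCast,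
    Polynomial.map_intCast]
  linear_combination ((s : ℚ[X]) * t) * hab

theorem schur {P : ℤ[X]} (h : 0 < P.natDegree) (N : ℕ) :
    ∃ l : ℕ, N < l ∧ l.Prime ∧ ∃ a : ℤ, (l : ℤ) ∣ P.eval a := by
  by_cases hc : P.eval 0 = 0
  · obtain ⟨l, h1, h2⟩ := Nat.exists_infinite_primes (N + 1)
    exact ⟨l, h1, h2, 0, by simp [hc]⟩
  set c := P.eval 0 with hc'
  have h1 : ∀ e : ℤ, P - C e ≠ 0 := fun e he => by
    rw [sub_eq_zero.1 he, natDegree_C] at h
    exact lt_irrefl _ h
  have hM : c * N.factorial ≠ 0 := mul_ne_zero hc (by exact_mod_cast N.factorial_ne_zero)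
  obtain ⟨t, ht⟩ := ((finite_setOf_isRoot (mul_ne_zero (h1 c) (h1 (-c)))).preimage
    (f := fun t => c * N.factorial * t) (mul_right_injective₀ hM).injOn).exists_notMem
  simp only [Set.mem_preimage, Set.mem_setOf_eq, IsRoot.def, eval_mul, eval_sub, eval_C,
    mul_eq_zero, not_or] at ht
  obtain ⟨s, hs⟩ := sub_dvd_eval_sub (c * N.factorial * t) 0 P
  have e : P.eval (c * N.factorial * t) = c * (1 + N.factorial * (t * s)) := by
    rw [← hc'] at hs
    linear_combination hs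
  obtain ⟨l, h2, h3⟩ := Nat.exists_prime_and_dvd (n := (1 + N.factorial * (t * s) : ℤ).natAbs) (by
    intro h2
    rcases Int.natAbs_eq_iff.1 h2 with h3 | h3
    · exact ht.1 (by rw [e, h3]; simp)
    · exact ht.2 (by rw [e, h3]; simp))
  rw [← Int.natCast_dvd] at h3
  refine ⟨l, ?_, h2, _, e ▸ h3.mul_left c⟩
  by_contra h4
  have h5 : (l : ℤ) ∣ N.factorial * (t * s) :=
    Dvd.dvd.mul_right (by exact_mod_cast h2.dvd_factorial.2 (not_lt.1 h4)) _
  exact (Nat.prime_iff_prime_int.1 h2).not_dvd_one ((dvd_add_left h5).1 h3)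

end SchX

open Polynomial in
theorem rowSch : SSch := by
  intro P n h1 h2
  obtain ⟨Δ, u, v, h0, huv⟩ := SchX.bez h2
  obtain ⟨l, h3, h4, a, e, he⟩ := SchX.schur h1 (max n Δ.natAbs)
  refine ⟨l, (le_max_left _ _).trans_lt h3, h4, ?_⟩
  have h5 : IsUnit (Δ : ZMod (l ^ 2)) := by
    rw [ZMod.coe_int_isUnit_iff_isCoprime, Nat.cast_pow]
    refine ((Nat.prime_iff_prime_int.1 h4).irreducible.coprime_iff_not_dvd.2 fun h => ?_).pow_left
    exact absurd (Nat.le_of_dvd (Int.natAbs_pos.2 h0) (Int.natCast_dvd.1 h))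
      (not_le.2 ((le_max_right _ _).trans_lt h3))
  obtain ⟨δ, hδ⟩ := h5.exists_right_inv
  have h6 : aeval (a : ZMod (l ^ 2)) P ^ 2 = 0 := by
    have : aeval (a : ZMod (l ^ 2)) P = ((P.eval a : ℤ) : ZMod (l ^ 2)) := by
      simpa using aeval_algebraMap_apply (ZMod (l ^ 2)) a P
    rw [this, he, Int.cast_mul, mul_pow, Int.cast_natCast, ← Nat.cast_pow, ZMod.natCast_self,
      zero_mul]
  have h7 := congrArg (aeval (a : ZMod (l ^ 2))) huv
  rw [map_add, map_mul, map_mul, aeval_C, algebraMap_int_eq, eq_intCast] at h7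
  obtain ⟨κ, hκ⟩ := binomExpansion (P.map (algebraMap ℤ (ZMod (l ^ 2)))) a
    (-(aeval (a : ZMod (l ^ 2)) P * aeval (a : ZMod (l ^ 2)) v * δ))
  rw [derivative_map, eval_map_algebraMap, eval_map_algebraMap, eval_map_algebraMap] at hκ
  refine ⟨_, hκ.trans ?_⟩
  linear_combination (aeval (a : ZMod (l ^ 2)) u * δ + κ * aeval (a : ZMod (l ^ 2)) v ^ 2 * δ ^ 2) *
    h6 - aeval (a : ZMod (l ^ 2)) P * δ * h7 - aeval (a : ZMod (l ^ 2)) P * hδ

end Pool.Agent.MP_5d9b3c_ag.H59
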