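import Pool.Agent.MP_5d9b3c_ag.H59.Spec

/-! Spreading out over large subrings of the complex numbers. -/

namespace Pool.Agent.MP_5d9b3c_ag.H59

open MvPolynomial Filter

namespace SpX

theorem el (c : ℂ) : ∀ᶠ A : Subring ℂ in FF, c ∈ A :=
  mem_iInf_of_mem c (mem_principal_self _)

theorem poly (P : P2 ℂ) : ∀ᶠ A : Subring ℂ in FF, ∃ PA : P2 A, map A.subtype PA = P := by
  induction P using MvPolynomial.induction_on with
  | C a =>
    filter_upwards [el a] with A h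
    exact ⟨C ⟨a, h⟩, by simp⟩
  | add p q hp hq =>
    filter_upwards [hp, hq] with A ⟨p', h1⟩ ⟨q', h2⟩
    exact ⟨p' + q', by rw [map_add, h1, h2]⟩
  | mul_X p l hp =>
    filter_upwards [hp] with A ⟨p', h1⟩
    exact ⟨p' * X l, by rw [map_mul, h1, map_X]⟩

theorem map_jac2 {O O' : Type} [CommRing O] [CommRing O'] (φ : O →+* O') (z0 z1 : P2 O) :
    map φ (jac2 z0 z1) = jac2 (map φ z0) (map φ z1) := by
  simp only [jac2, map_sub, map_mul, pderiv_map]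

theorem map_jac3 {O O' : Type} [CommRing O] [CommRing O'] (φ : O →+* O') (ψ : Fin 3 → P2 O) :
    map φ (jac3 ψ) = jac3 fun l => map φ (ψ l) := by
  unfold jac3
  rw [RingHom.map_det]
  congr 1
  ext i j : 2
  fin_cases i <;> simp [pderiv_map]

theorem cert {f h : P3} {m M : ℕ} {ψ : Fin 3 → P2 ℂ} {Q : P2 ℂ} (hc : Cert f h m M ψ Q) :
    ∀ᶠ A : Subring ℂ in FF, ∀ (ψA : Fin 3 → P2 A) (QA : P2 A),
      (∀ l, map A.subtype (ψA l) = ψ l) → map A.subtype QA = Q → Cert f h m M ψA QA := by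
  obtain ⟨z0, z1, q2, q3, q4, q5, a0, a1, n, h0, h1, h2, h3, h4⟩ := hc
  filter_upwards [poly z0, poly z1, poly q2, poly q3, poly q4, poly q5] with A ⟨z0', e0⟩ ⟨z1', e1⟩
    ⟨q2', e2⟩ ⟨q3', e3'⟩ ⟨q4', e4⟩ ⟨q5', e5⟩ ψA QA hψ hQ
  have inj := map_injective (σ := Fin 2) A.subtype A.subtype_injective
  obtain rfl : ψ = fun l => map A.subtype (ψA l) := funext fun l => (hψ l).symm
  subst e0 e1 e2 e3' e4 e5 hQ
  refine ⟨z0', z1', q2', q3', q4', q5', a0, a1, n, h0, h1, inj ?_, inj ?_, inj ?_⟩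
  · rw [e3_map, h2]
    simp only [map_mul, map_pow]
  · simpa only [map_mul, map_pow, e3_map, map_jac3] using h3
  · simpa only [map_mul, map_pow, map_jac2] using h4

theorem pt {f h : P3} {m M : ℕ} {ψ : Fin 3 → P2 ℂ} {Q : P2 ℂ} {c : Fin 2 → ℂ}
    (hc : Cert f h m M ψ Q) (h0 : eval c Q ≠ 0) : Pt f h m M ψ c := by
  filter_upwards [cert hc, poly Q, el (eval c Q)⁻¹] with A h1 ⟨QA, hQ⟩ h2 ψA cA hψ hcA k _ r
  refine PT.leaf _ _ QA (h1 ψA QA hψ hQ) ?_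
  have h3 : ((eval cA QA : A) : ℂ) = eval c Q := by
    rw [← hQ, eval_map, ← show (A.subtype ∘ cA) = c from funext hcA, ← eval₂_comp]
    rfl
  have h4 : eval cA QA * ⟨_, h2⟩ = 1 := Subtype.ext (by
    rw [Subring.coe_mul, h3]
    exact mul_inv_cancel₀ h0)
  have h5 := congrArg r h4
  rw [map_mul, map_one, eval₂_comp] at h5
  exact left_ne_zero_of_mul_eq_one h5

theorem mono {f h : P3} {m M M' : ℕ} {O k : Type} [CommRing O] [Field k] {r : O →+* k}
    {ψ : Fin 3 → P2 O} {c : Fin 2 → k} (hM : M ≤ M') (hp : PT f h m M r ψ c) :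
    PT f h m M' r ψ c := by
  induction hp with
  | leaf ψ c Q h1 h2 =>
    obtain ⟨z0, z1, q2, q3, q4, q5, a0, a1, n, h3, h4, h5⟩ := h1
    exact PT.leaf ψ c Q ⟨z0, z1, q2, q3, q4, q5, a0, a1, n, h3.trans hM, h4.trans hM, h5⟩ h2
  | node ψ c _ _ i1 i2 => exact PT.node ψ c i1 i2

theorem fin (p : Subring ℂ → Prop) (h : ∀ᶠ A in FF, p A) :
    ∃ S : Finset ℂ, p (Subring.closure S) := by
  obtain ⟨I, hI, V, hV, he⟩ := mem_iInf.1 h
  refine ⟨hI.toFinset, ?_⟩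
  have : Subring.closure (hI.toFinset : Set ℂ) ∈ ⋂ i, V i :=
    Set.mem_iInter.2 fun i => hV i (Subring.subset_closure (by simp))
  rw [← he] at this
  exact this

end SpX

theorem rowSp : SSp where
  el := SpX.el
  poly := SpX.poly
  cert _ _ _ _ _ _ := SpX.cert
  pt _ _ _ _ _ _ _ := SpX.pt
  mono _ _ _ _ _ _ _ _ _ _ _ _ := SpX.mono
  fin := SpX.fin

end Pool.Agent.MP_5d9b3c_ag.H59
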