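import Pool.Agent.MP_5d9b3c_ag.H59.Spec

/-!
Row `Spl`: a finitely generated subring of `ℂ` maps to `ZMod (l ^ 2)` for arbitrarily large
primes `l`.
-/

namespace Pool.Agent.MP_5d9b3c_ag.H59

namespace SplX

open Polynomial

/-- A subring of `L × R` that is the graph of a partial map gives a ring homomorphism. -/
lemma graph {A L R : Type*} [CommRing A] [CommRing L] [CommRing R] (G : Subring (L × R))
    (h0 : ∀ w, ((0 : L), w) ∈ G → w = 0) (ψ : A →+* L) (hψ : ∀ x, ∃ w, (ψ x, w) ∈ G) :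
    Nonempty (A →+* R) := by
  choose f hf using hψ
  have uniq : ∀ x w, (ψ x, w) ∈ G → f x = w := by
    intro x w hw
    have h := G.sub_mem (hf x) hw
    rw [Prod.mk_sub_mk, sub_self] at h
    exact sub_eq_zero.mp (h0 _ h)
  refine ⟨{ toFun := f, map_one' := ?_, map_mul' := ?_, map_zero' := ?_, map_add' := ?_ }⟩
  · apply uniq
    rw [map_one]
    exact G.one_mem
  · intro x y
    apply uniq
    rw [map_mul]
    exact G.mul_mem (hf x) (hf y)
  · apply uniq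
    rw [map_zero]
    exact G.zero_mem
  · intro x y
    apply uniq
    rw [map_add]
    exact G.add_mem (hf x) (hf y)

/-- The graph of `q(β) / D ↦ q(a) / D`. -/
def gr {L R : Type*} [CommRing L] [CommRing R] (β : L) (a : R) : Subring (L × R) where
  carrier := {x | ∃ (D : ℕ) (q : ℤ[X]), IsUnit (D : R) ∧ (D : L) * x.1 = aeval β q ∧
    (D : R) * x.2 = aeval a q}
  mul_mem' := by
    rintro x y ⟨D, q, hD, h1, h2⟩ ⟨E, r, hE, h3, h4⟩
    refine ⟨D * E, q * r, ?_, ?_, ?_⟩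
    · rw [Nat.cast_mul]; exact hD.mul hE
    · rw [map_mul, ← h1, ← h3, Prod.fst_mul, Nat.cast_mul]; ring
    · rw [map_mul, ← h2, ← h4, Prod.snd_mul, Nat.cast_mul]; ring
  one_mem' := ⟨1, 1, by simp, by simp, by simp⟩
  add_mem' := by
    rintro x y ⟨D, q, hD, h1, h2⟩ ⟨E, r, hE, h3, h4⟩
    refine ⟨D * E, (E : ℤ[X]) * q + (D : ℤ[X]) * r, ?_, ?_, ?_⟩
    · rw [Nat.cast_mul]; exact hD.mul hE
    · rw [map_add, map_mul, map_mul, map_natCast, map_natCast, ← h1, ← h3, Prod.fst_add,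
        Nat.cast_mul]
      ring
    · rw [map_add, map_mul, map_mul, map_natCast, map_natCast, ← h2, ← h4, Prod.snd_add,
        Nat.cast_mul]
      ring
  zero_mem' := ⟨1, 0, by simp, by simp, by simp⟩
  neg_mem' := by
    rintro x ⟨D, q, hD, h1, h2⟩
    refine ⟨D, -q, hD, ?_, ?_⟩
    · rw [map_neg, ← h1, Prod.fst_neg]; ring
    · rw [map_neg, ← h2, Prod.snd_neg]; ring

lemma den {L : Type*} [Field L] [Algebra ℚ L] (β : L) (p : ℚ[X]) :
    ∃ (D : ℕ) (q : ℤ[X]), D ≠ 0 ∧ (D : L) * aeval β p = aeval β q := by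
  induction p using Polynomial.induction_on' with
  | add p p' hp hp' =>
    obtain ⟨D, q, hD, h1⟩ := hp
    obtain ⟨E, r, hE, h3⟩ := hp'
    refine ⟨D * E, (E : ℤ[X]) * q + (D : ℤ[X]) * r, Nat.mul_ne_zero hD hE, ?_⟩
    rw [map_add, map_add, map_mul, map_mul, map_natCast, map_natCast, ← h1, ← h3, Nat.cast_mul]
    ring
  | monomial n c =>
    refine ⟨c.den, monomial n c.num, c.den_nz, ?_⟩
    rw [aeval_monomial, aeval_monomial, ← mul_assoc]
    congr 1
    have h : ((c.den : ℚ) * c) = c.num := Rat.den_mul_eq_num c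
    have h2 := congrArg (algebraMap ℚ L) h
    rw [map_mul, map_natCast, map_intCast] at h2
    rw [h2]
    simp

/-- A number field is generated by an algebraic integer. -/
lemma prim (L : Type*) [Field L] [Algebra ℚ L] [FiniteDimensional ℚ L] :
    ∃ β : L, IsIntegral ℤ β ∧ ∀ z : L, ∃ p : ℚ[X], aeval β p = z := by
  have : CharZero L := algebraRat.charZero L
  obtain ⟨α, hα⟩ := Field.exists_primitive_element ℚ L
  have ha : IsAlgebraic ℚ α := Algebra.IsAlgebraic.isAlgebraic α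
  have ha' : IsAlgebraic ℤ α := (IsFractionRing.isAlgebraic_iff ℤ ℚ L).mpr ha
  obtain ⟨m, hm, hi⟩ := ha'.exists_integral_multiple
  refine ⟨m • α, hi, fun z => ?_⟩
  have hz : z ∈ Algebra.adjoin ℚ {α} := by
    rw [← IntermediateField.adjoin_simple_toSubalgebra_of_isAlgebraic ha, hα]
    trivial
  rw [Algebra.adjoin_singleton_eq_range_aeval] at hz
  obtain ⟨p, hp⟩ := hz
  refine ⟨p.comp (C (m : ℚ)⁻¹ * X), ?_⟩
  have hm' : (m : L) ≠ 0 := Int.cast_ne_zero.mpr hm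
  have : aeval (m • α) (C (m : ℚ)⁻¹ * X : ℚ[X]) = α := by
    rw [map_mul, aeval_C, aeval_X, map_inv₀, map_intCast, zsmul_eq_mul, inv_mul_cancel_left₀ hm']
  rw [aeval_comp, this]
  exact hp

lemma main (h : SSch) (L : Type) [Field L] [Algebra ℚ L] [FiniteDimensional ℚ L]
    {ι : Type} [Finite ι] (z : ι → L) (n : ℕ) :
    ∃ l, n < l ∧ l.Prime ∧ ∃ G : Subring (L × ZMod (l ^ 2)),
      (∀ w, ((0 : L), w) ∈ G → w = 0) ∧ ∀ i, ∃ w, (z i, w) ∈ G := by
  have : CharZero L := algebraRat.charZero L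
  obtain ⟨β, hβ, hgen⟩ := prim L
  have hd : ∀ i, ∃ (D : ℕ) (q : ℤ[X]), D ≠ 0 ∧ (D : L) * z i = aeval β q := by
    intro i
    obtain ⟨p, hp⟩ := hgen (z i)
    rw [← hp]
    exact den β p
  choose D q hD hq using hd
  obtain ⟨N, hN⟩ := (Set.finite_range D).bddAbove
  have hsep : ((minpoly ℤ β).map (Int.castRingHom ℚ)).Separable := by
    have e : minpoly ℚ β = (minpoly ℤ β).map (algebraMap ℤ ℚ) :=
      minpoly.isIntegrallyClosed_eq_field_fractions' ℚ hβ
    have hi : Irreducible (minpoly ℚ β) := minpoly.irreducible (Algebra.IsIntegral.isIntegral β)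
    have hs := hi.separable
    rw [e] at hs
    exact hs
  obtain ⟨l, hl, hp, a, ha⟩ := h (minpoly ℤ β) (max n N) (minpoly.natDegree_pos hβ) hsep
  refine ⟨l, lt_of_le_of_lt (le_max_left _ _) hl, hp, gr β a, ?_, fun i => ?_⟩
  · rintro w ⟨E, r, hE, h1, h2⟩
    have h3 : aeval β r = 0 := by rw [← h1]; simp
    obtain ⟨s, hs⟩ := minpoly.isIntegrallyClosed_dvd hβ h3
    rw [hs, map_mul, ha, zero_mul] at h2
    exact (hE.mul_right_eq_zero).mp h2
  · have hlt : D i < l :=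
      lt_of_le_of_lt ((hN (Set.mem_range_self i)).trans (le_max_right _ _)) hl
    have hu : IsUnit ((D i : ℕ) : ZMod (l ^ 2)) := by
      rw [ZMod.isUnit_iff_coprime]
      apply Nat.Coprime.pow_right
      exact (Nat.coprime_of_lt_prime (hD i) hlt hp).symm
    obtain ⟨u, hu'⟩ := hu.exists_right_inv
    refine ⟨u * aeval a (q i), D i, q i, hu, hq i, ?_⟩
    show ((D i : ℕ) : ZMod (l ^ 2)) * (u * aeval a (q i)) = _
    rw [← mul_assoc, hu', one_mul]

end SplX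

theorem rowSpl : OfSpl := by
  intro h S n
  let B : Subalgebra ℚ ℂ := Algebra.adjoin ℚ (S : Set ℂ)
  have : Algebra.FiniteType ℚ B := Algebra.FiniteType.adjoin_of_finite S.finite_toSet
  obtain ⟨𝔪, h𝔪⟩ := Ideal.exists_maximal B
  let _ : Field (B ⧸ 𝔪) := Ideal.Quotient.field 𝔪
  have : Module.Finite ℚ (B ⧸ 𝔪) := finite_of_finite_type_of_isJacobsonRing ℚ (B ⧸ 𝔪)
  have hle : Subring.closure (S : Set ℂ) ≤ B.toSubring :=
    Subring.closure_le.mpr Algebra.subset_adjoin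
  let ψ : Subring.closure (S : Set ℂ) →+* B ⧸ 𝔪 :=
    (Ideal.Quotient.mk 𝔪).comp (Subring.inclusion hle)
  obtain ⟨l, hl, hp, G, h0, hG⟩ := SplX.main h (B ⧸ 𝔪)
    (fun s : S => ψ ⟨s, Subring.subset_closure s.2⟩) n
  refine ⟨l, hl, hp, SplX.graph G h0 ψ ?_⟩
  rintro ⟨x, hx⟩
  induction hx using Subring.closure_induction with
  | mem x hx => exact hG ⟨x, hx⟩
  | zero => exact ⟨0, by rw [show (⟨0, _⟩ : Subring.closure (S : Set ℂ)) = 0 from rfl, map_zero]; exact G.zero_mem⟩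
  | one => exact ⟨1, by rw [show (⟨1, _⟩ : Subring.closure (S : Set ℂ)) = 1 from rfl, map_one]; exact G.one_mem⟩
  | add x y hx hy ihx ihy =>
    obtain ⟨v, hv⟩ := ihx
    obtain ⟨w, hw⟩ := ihy
    refine ⟨v + w, ?_⟩
    rw [show (⟨x + y, _⟩ : Subring.closure (S : Set ℂ)) = ⟨x, hx⟩ + ⟨y, hy⟩ from rfl, map_add]
    exact G.add_mem hv hw
  | neg x hx ihx =>
    obtain ⟨v, hv⟩ := ihx
    refine ⟨-v, ?_⟩
    rw [show (⟨-x, _⟩ : Subring.closure (S : Set ℂ)) = -⟨x, hx⟩ from rfl, map_neg]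
    exact G.neg_mem hv
  | mul x y hx hy ihx ihy =>
    obtain ⟨v, hv⟩ := ihx
    obtain ⟨w, hw⟩ := ihy
    refine ⟨v * w, ?_⟩
    rw [show (⟨x * y, _⟩ : Subring.closure (S : Set ℂ)) = ⟨x, hx⟩ * ⟨y, hy⟩ from rfl, map_mul]
    exact G.mul_mem hv hw

end Pool.Agent.MP_5d9b3c_ag.H59
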