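import Pool.Agent.MP_5d9b3c_ag.H59.Spec

/-!
Lowering the order of the pole by one.
-/

namespace Pool.Agent.MP_5d9b3c_ag.H59

namespace StepX

variable {k K : Type} [Field k] [Field K] [Algebra k K]

theorem coeff_lin (α β : k) (u : Polynomial K) (m : ℕ) :
    ((Polynomial.C β * Polynomial.X + Polynomial.C α).map (algebraMap k K) * u).coeff m =
      algebraMap k K α * u.coeff m + algebraMap k K β * (Polynomial.X * u).coeff m := by
  simp [add_mul, mul_assoc, add_comm]

theorem coeff_nabP (B : Bx k K) (N : Nm) (lam : k) (i : Fin 3) (D : Derivation k K K)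
    (u : Polynomial K) (m : ℕ) : (B.nabP N lam i D u).coeff m =
      B.nab N lam D (u.coeff m) + D (B.hat i N.f) / B.hat i N.f * (Polynomial.X * u).coeff m := by
  cases m with
  | zero => simp [Bx.coeff_nabP_zero]
  | succ m => rw [Bx.coeff_nabP_succ, Polynomial.coeff_X_mul]

theorem th_mon (h2 : SDer k K) {B : Bx k K} {z : Fin 2 → K} {a : Fin 2 → ℕ} {j : Fin 2}
    (hz : B.jac z ≠ 0) (a0 : 0 < a j) (n : Fin 2 → ℕ) :
    B.th z a j (z 0 ^ n 0 * z 1 ^ n 1) = n j * (z 0 ^ n 0 * z 1 ^ n 1) := by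
  have h : ∀ (x : K) (r : ℕ), x * (r * x ^ (r - 1)) = r * x ^ r := fun x r => by
    cases r with
    | zero => simp
    | succ r => rw [Nat.add_sub_cancel, pow_succ]; ring
  rw [Bx.th, min_eq_right a0, pow_one, Derivation.smul_apply, Derivation.leibniz,
    Derivation.leibniz_pow, Derivation.leibniz_pow, h2.dual B z j 0 hz, h2.dual B z j 1 hz]
  obtain rfl | rfl : j = 0 ∨ j = 1 := by omega
  · simp only [smul_eq_mul, nsmul_eq_mul, if_true, zero_ne_one, if_false, mul_zero, mul_one]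
    linear_combination z 1 ^ n 1 * h (z 0) (n 0)
  · simp only [smul_eq_mul, nsmul_eq_mul, if_true, one_ne_zero, if_false, mul_zero, mul_one]
    linear_combination z 0 ^ n 0 * h (z 1) (n 1)

theorem mon_update (z : Fin 2 → K) {n : Fin 2 → ℕ} {j : Fin 2} (h : 0 < n j) :
    z 0 ^ n 0 * z 1 ^ n 1 = z j * (z 0 ^ Function.update n j (n j - 1) 0 *
      z 1 ^ Function.update n j (n j - 1) 1) := by
  obtain ⟨r, hr⟩ := Nat.exists_eq_succ_of_ne_zero h.ne'
  obtain rfl | rfl : j = 0 ∨ j = 1 := by omega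
  all_goals
    simp only [Function.update_self, ne_eq, zero_ne_one, one_ne_zero, not_false_eq_true,
      Function.update_of_ne, hr, Nat.succ_sub_one, pow_succ]
    ring

end StepX

open StepX in
theorem rowStep : OfStep := by
  intro k K _ _ _ _ h1 h2 h4 h5 hq h6 B N lam y i z a j n V e hd hL hV hj he e0 n0
  obtain ⟨n', H, e1, e2, e3⟩ := h5.ord B N y i z a V j hL hV hj
  obtain ⟨hU, -⟩ := h5.unif B N y _ z a V j hL hV hj
  obtain ⟨hN, z0⟩ := h5.nz B N y _ z a hL
  have a0 : 0 < a j := by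
    refine Nat.pos_of_ne_zero fun h => ?_
    rw [show n' = 0 by omega, pow_zero, he] at e2
    exact (pow_lt_one' hj fun h => e0 (by rw [h, Nat.cast_zero])).ne e2
  have hm := hL.mxV hV.1
  have hw := B.XX_ne i
  obtain ⟨c, -, hc⟩ := h6.lat B N V _ (z j) e H hm hU he e3
  refine ⟨Polynomial.C (e : k) * Polynomial.X + Polynomial.C (c - n j - lam * e), fun h => e0 ?_,
    Polynomial.natDegree_linear_le, fun u hu V' hV' m => ?_⟩
  · simpa only [Polynomial.coeff_add, Polynomial.coeff_C_mul, Polynomial.coeff_X_one, mul_one,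
      Polynomial.coeff_C_of_ne_zero one_ne_zero, add_zero, Polynomial.coeff_zero]
      using congrArg (Polynomial.coeff · 1) h
  have b0 := hu V' hV' m
  have b1 : B.Lam N 1 V' (z 0 ^ n 0 * z 1 ^ n 1 * (Polynomial.X * u).coeff m) := by
    cases m with
    | zero =>
      rw [Polynomial.mul_coeff_zero, Polynomial.coeff_X_zero, zero_mul, mul_zero]
      exact Bx.Lg.zero N.m0
    | succ m => exact Polynomial.coeff_X_mul u m ▸ hu V' hV' m
  have b2 := th_mon h2 hL.jac a0 n
  have b3 := mon_update z n0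
  rw [Polynomial.coeff_sub, coeff_lin, coeff_nabP]
  beta_reduce
  generalize z 0 ^ Function.update n j (n j - 1) 0 * z 1 ^ Function.update n j (n j - 1) 1 = Z'
    at b3
  generalize z 0 ^ n 0 * z 1 ^ n 1 = Z at b0 b1 b2 b3
  generalize (Polynomial.X * u).coeff m = u1 at b1
  generalize u.coeff m = u0 at b0
  have hlog := h5.log B N y i z a V' j hL hV'
  set θ := B.th z a j with hθ
  set δ := θ (B.hat i N.f) / B.hat i N.f with hδ
  have key : z j * (Z' * (algebraMap k K (c - n j - lam * e) * u0 + algebraMap k K e * u1 -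
      (B.nab N lam θ u0 + δ * u1))) = algebraMap k K (c - lam * e) * (Z * u0) -
        B.nab N lam θ (Z * u0) + (algebraMap k K e - δ) * (Z * u1) := by
    rw [← mul_assoc, ← b3]
    simp only [Bx.nab, Derivation.leibniz, smul_eq_mul, b2, map_sub, map_natCast]
    ring
  generalize Z' * (algebraMap k K (c - n j - lam * e) * u0 + algebraMap k K e * u1 -
      (B.nab N lam θ u0 + δ * u1)) = R at key ⊢
  by_cases hj' : V'.valuation (z j) < 1
  swap
  · have dv := h1.dv y V' hL.fr hV'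
    have b4 : B.Lam N 1 V' (z j * R) := key ▸ Bx.Lg.add ((Bx.Lg.mul b0 (hV'.1.hasK _)).sub
      (h4.stn B N lam V' θ _ hN hd hV'.1.hasK dv hlog b0)) (Bx.Lg.mul b1 (sub_mem (hV'.1.hasK _)
        (h4.dlf B N V' θ i hN dv hlog (hL.mxV hV'.1))))
    refine b4.mono ?_
    rw [map_mul, le_antisymm ((V'.valuation_le_one_iff _).2 (hV'.1 _ (hL.mem j))) (not_lt.1 hj'),
      one_mul]
  obtain rfl := hq.uq B N y i z a V V' j hL hV hV' hj hj'
  have t0 : V.valuation (z j) ≠ 0 := by simpa using z0 j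
  have hr : ∀ x (ν : ℤ), V.valuation x = V.valuation (z j) ^ ν →
      V.valuation (ν - θ x / x) ≤ V.valuation (z j) := fun x ν hx => by
    have := h6.res V _ (z j) x ν (h5.pres B N y i z a V hL hV j)
      (by rw [h2.dual B z j j hL.jac, if_pos rfl]) hj hx
    rw [Valuation.map_sub_swap, hθ, Bx.th, min_eq_right a0, pow_one, Derivation.smul_apply,
      smul_eq_mul]
    exact h1.le V _ _ hU this
  have v1 := hr _ e (by rw [he, zpow_natCast])
  rw [hc] at b0 b1 ⊢
  rw [h4.nabw B N lam θ i _ hN hd, ← hδ] at key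
  have k2 : z j * (R / B.XX i ^ 3) = (c * (Z * u0 / B.XX i ^ 3) - θ (Z * u0 / B.XX i ^ 3)) -
      algebraMap k K lam * (((e : ℤ) - δ) * (Z * u0 / B.XX i ^ 3)) +
      ((e : ℤ) - δ) * (Z * u1 / B.XX i ^ 3) := by
    rw [← mul_div_assoc, key]
    simp only [map_sub, map_mul, map_intCast, map_natCast, Int.cast_natCast]
    field_simp
    ring
  generalize Z * u0 / B.XX i ^ 3 = x0 at b0 k2
  generalize Z * u1 / B.XX i ^ 3 = x1 at b1 k2
  have m1 : ∀ {p q : K}, V.valuation p ≤ V.valuation (z j) →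
      V.valuation q ≤ V.valuation (z j) ^ c →
      V.valuation (p * q) ≤ V.valuation (z j) * V.valuation (z j) ^ c := fun hp hq => by
    rw [map_mul]
    exact mul_le_mul' hp hq
  have m2 : ∀ {p q : K} {g}, p ∈ V → V.valuation q ≤ g → V.valuation (p * q) ≤ g :=
    fun hp hq => by
      rw [map_mul]
      exact (mul_le_of_le_one_left' ((V.valuation_le_one_iff _).2 hp)).trans hq
  rw [← mul_le_mul_iff_right₀ (zero_lt_iff.2 t0), ← map_mul, k2]
  refine V.valuation.map_add_le (V.valuation.map_sub_le ?_ (m2 (hV.1.hasK _) (m1 v1 b0)))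
    (m1 v1 b1)
  by_cases x00 : x0 = 0
  · simp [x00]
  obtain ⟨ν, hν⟩ := hU.2.2 _ x00
  rw [show c * x0 - θ x0 = (c - ν : ℤ) * x0 + (ν - θ x0 / x0) * x0 by push_cast; field_simp; ring]
  refine V.valuation.map_add_le ?_ (m1 (hr _ ν hν) b0)
  rcases ((h1.zle V _ _ _ hU).1 (hν ▸ b0)).eq_or_lt with h | h
  · simp [h]
  · refine m2 (intCast_mem V _) ?_
    rw [hν, ← zpow_one_add₀ t0, h1.zle V _ _ _ hU]
    omega

end Pool.Agent.MP_5d9b3c_ag.H59
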