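import Pool.Agent.MP_5d9b3c_ag.H59.Spec

/-! The functional equation as an identity of polynomials in the parameter. -/

namespace Pool.Agent.MP_5d9b3c_ag.H59

open Polynomial

namespace SumX

variable {k K : Type} [Field k] [Field K] [Algebra k K]

theorem deg_pD (D : Derivation k K K) {u : K[X]} {n : ℕ} (h : u.natDegree ≤ n) :
    (pD D u).natDegree ≤ n :=
  natDegree_le_iff_coeff_eq_zero.2 fun m hm => by
    rw [coeff_pD, coeff_eq_zero_of_natDegree_lt (h.trans_lt hm), map_zero]

theorem eval_pD (D : Derivation k K K) {c : K} (hc : D c = 0) (u : K[X]) :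
    eval c (pD D u) = D (eval c u) := by
  rw [eval_eq_sum_range' (Nat.lt_succ_of_le (deg_pD D le_rfl)), eval_eq_sum_range, map_sum]
  refine Finset.sum_congr rfl fun i _ => ?_
  simp [Derivation.leibniz_pow, hc, mul_comm]

theorem deg_mul {a u : K[X]} {m n : ℕ} (ha : a.natDegree ≤ m) (hu : u.natDegree ≤ n) :
    (a * u).natDegree ≤ n + m := natDegree_mul_le.trans (by omega)

theorem deg_vl (B : Bx k K) {a0 a1 γ u : K[X]} (h0 : a0.natDegree ≤ 1) (h1 : a1.natDegree ≤ 1)
    (h2 : γ.natDegree ≤ 1) (h3 : u.natDegree ≤ 0) (w : Word) :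
    (B.drP.vl a0 a1 γ u w).natDegree ≤ w.length := by
  induction w with
  | nil => exact h3
  | cons c w ih =>
    rcases c with j | j
    · refine (deg_mul (m := 0) ?_ ih).trans (Nat.le_succ _)
      fin_cases j <;> simp [DR.XX, Bx.drP]
    · have e0 := natDegree_add_le_of_degree_le (deg_pD B.Dx (ih.trans (Nat.le_succ _)))
        (deg_mul h0 ih)
      have e1 := natDegree_add_le_of_degree_le (deg_pD B.Dy (ih.trans (Nat.le_succ _)))
        (deg_mul h1 ih)
      have e2 := deg_mul (natDegree_add_le_of_degree_le h2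
        ((natDegree_intCast (R := K) (wgt w)).trans_le zero_le_one)) ih
      fin_cases j
      · exact (natDegree_sub_le_of_le (natDegree_sub_le_of_le e2
          ((natDegree_C_mul_le B.x _).trans e0)) ((natDegree_C_mul_le B.y _).trans e1)).trans
          (by simp)
      · exact e0
      · exact e1

theorem deg_list {α : Type} (L : List α) (g : α → K[X]) {n : ℕ} (h : ∀ e ∈ L, (g e).natDegree ≤ n) :
    (L.map g).sum.natDegree ≤ n := by
  induction L with
  | nil => simp
  | cons a L ih =>
    rw [List.map_cons, List.sum_cons]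
    exact natDegree_add_le_of_degree_le (h a (by simp)) (ih fun e he => h e (by simp [he]))

end SumX

open SumX in
theorem rowSum : OfSum := by
  intro k K _ _ _ _ hA hV B f d lam l K0 b ws hc hK hf h0 hW hb hw
  have hs : (X - C (algebraMap k K lam) : K[X]).natDegree ≤ 1 := natDegree_X_sub_C_le _
  have hv : ∀ w, (vP B f d lam w).natDegree ≤ w.length := fun w =>
    deg_vl B ((natDegree_mul_C_le _ _).trans hs) ((natDegree_mul_C_le _ _).trans hs)
      (deg_mul (natDegree_natCast d).le (natDegree_add_le_of_degree_le hs (by simp)))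
      (natDegree_C _).le w
  refine eq_of_natDegree_lt_card_of_eval_eq _ _
    (f := fun n : Fin l => (n : ℕ) + algebraMap k K lam)
    (fun a b h => Fin.ext (CharP.natCast_injOn_Iio K l a.2 b.2 (add_right_cancel h))) (fun n => ?_)
    ?_
  · have hD : ∀ D : Derivation k K K, D ((n : ℕ) + algebraMap k K lam) = 0 := fun D => by simp
    have h1 : ∀ w, eval ((n : ℕ) + algebraMap k K lam) (vP B f d lam w) * B.hat 0 f ^ (n : ℕ) =
        B.hat 0 (act w (f ^ ((n : ℕ) + 1))) := fun w => by
      rw [← hV.val B f d n w hf h0]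
      congr 1
      refine ((hA.map k K[X] K B.drP B.dr (evalRingHom _) (eval_pD _ (hD _)) (eval_pD _ (hD _))
        eval_C eval_C).1 _ _ _ _ w).trans ?_
      simp
    have h2 := congrArg (e3 fun l => B.XX l / B.XX 0) (hW.2 n)
    have h3 : ∀ c : ℤ, (e3 fun l => B.XX l / B.XX 0) (MvPolynomial.C c) = c := fun c => by
      simp [e3]
    rw [map_list_sum, List.map_map, map_mul, map_pow, h3] at h2
    refine mul_right_cancel₀ (pow_ne_zero (n : ℕ) h0) ?_
    have h4 : eval ((n : ℕ) + algebraMap k K lam)
        (aeval (X - C (algebraMap k K lam) : K[X]) b) = ((b.eval ((n : ℕ) : ℤ) : ℤ) : K) := by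
      rw [← coe_evalRingHom, map_aeval_eq_aeval_map (ψ := evalRingHom _) (φ := RingHom.id ℤ)
        (RingHom.ext_int _ _), map_id]
      simpa using aeval_algebraMap_apply K ((n : ℕ) : ℤ) b
    rw [h4, ← coe_evalRingHom, map_list_sum, List.map_map, ← List.sum_map_mul_right]
    refine Eq.trans ?_ h2
    refine congrArg List.sum (List.map_congr_left fun e _ => ?_)
    simp only [Function.comp, map_mul, map_pow, h3, coe_evalRingHom, mul_assoc, h1]
    simp [Bx.hat]
  · rw [Fintype.card_fin]
    refine (max_le (deg_list _ _ fun e he => ?_) ?_).trans_lt hK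
    · refine le_trans (deg_mul (deg_mul (natDegree_intCast _).le
        (natDegree_pow_le_of_le e.2.1 hs)) (hv _)) ?_
      have := hw e he
      omega
    · rw [aeval_def, RingHom.ext_int (algebraMap ℤ K[X]) (C.comp (Int.castRingHom K)), ← eval₂_map]
      exact natDegree_comp_le.trans
        ((Nat.mul_le_mul (natDegree_map_le.trans hb) hs).trans_eq (mul_one _))

end Pool.Agent.MP_5d9b3c_ag.H59
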