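import Pool.Agent.MP_5d9b3c_ag.H59.Spec

/-!
Removal of the pole in the parameter along a tree.
-/

namespace Pool.Agent.MP_5d9b3c_ag.H59

namespace TCX

variable {k K : Type} [Field k] [Field K] [Algebra k K] {B : Bx k K} {N : Nm}

theorem map_in {V : ValuationSubring K} (h : HasK k V) (P : Polynomial k) :
    PIn (fun e => e ∈ V) (P.map (algebraMap k K)) := fun n => by
  rw [Polynomial.coeff_map]
  exact h _

theorem pin1 (hC : SCurl k K) {V : ValuationSubring K} (h : HasK k V) (P : Polynomial k)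
    {u : Polynomial K} (hu : PIn (B.Lam N 1 V) u) :
    PIn (B.Lam N 1 V) (P.map (algebraMap k K) * u) := fun n => by
  have := hC.pin B N V 1 _ u (map_in h P) (fun n => by simpa only [one_mul] using hu n) n
  simpa only [one_mul] using this

/-- two reductions agree up to the lattice -/
theorem compat (hU : SU k K) (hC : SCurl k K) {lam : k} {l K0 T : ℕ} {i : Fin 3}
    {A A' : Polynomial K} {y y' : K × K} {z : Fin 2 → K} {a : Fin 2 → ℕ} {P P' : Polynomial k}
    {g g' : Polynomial K} (hc : CharP K l) (hM : N.M < l) (hl : (N.d : k) * lam = 3)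
    (hy : B.Leaf N y i z a) (h : B.Red N lam K0 i A A' y T P g)
    (h' : B.Red N lam K0 i A A' y' T P' g') {V : ValuationSubring K} (hV : Thru k y V)
    (hV' : Thru k y' V) : B.Lam N 1 V (g.coeff 0 - g'.coeff 0) := by
  have hK := hV.1.hasK
  have key : PIn (B.Lam N 1 V) (P'.map (algebraMap k K) * g - P.map (algebraMap k K) * g') := by
    rcases ((V.valuation_le_one_iff _).2 ((hy.mxV hV.1).hat_mem N.f)).eq_or_lt with h1 | h1
    · intro n
      have h2 := Bx.Lg.sub (hC.pin B N V _ _ g (map_in hK P') (h.2 V hV).1 n)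
        (hC.pin B N V _ _ g' (map_in hK P) (h'.2 V hV').1 n)
      refine Bx.Lg.mono h2 (le_of_eq ?_)
      rw [← mul_sub, map_mul, map_pow, h1, one_pow, one_mul, Polynomial.coeff_sub]
    · refine hU.u1 B N lam l y i z a V _ hc hM hl hy hV h1 fun D hD n => ?_
      have h2 := Bx.Lg.sub (pin1 hC hK P ((h'.2 V hV').2 D hD) n)
        (pin1 hC hK P' ((h.2 V hV).2 D hD) n)
      rw [← Polynomial.coeff_sub] at h2
      rw [hC.sub, hC.smul, hC.smul]
      refine Bx.Lg.mono h2 (le_of_eq ?_)
      congr 2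
      ring
  have := key 0
  simpa [Polynomial.mul_coeff_zero, h.1, h'.1] using this

/-- one step down -/
theorem down {lam : k} {K0 T : ℕ} {i : Fin 3} {A A' : Polynomial K} {y : K × K}
    {P : Polynomial k} {g : Polynomial K} (h : B.Red N lam K0 i A A' y (T + 1) P g)
    (h0 : ∀ V, Thru k y V → B.Lam N 1 V (g.coeff 0))
    (h1 : ∀ V D, Thru k y V → B.Log N V D → D (B.hat i N.f) / B.hat i N.f ∈ V) :
    B.Red N lam K0 i A A' y T P g.divX := by
  refine ⟨h.1, fun V hV => ⟨fun n => ?_, fun D hD n => ?_⟩⟩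
  · rw [Polynomial.coeff_divX]
    exact (h.2 V hV).1 (n + 1)
  · have h2 := (h.2 V hV).2 D hD (n + 1)
    rw [Polynomial.coeff_sub, pow_succ', mul_assoc, mul_assoc, Polynomial.coeff_X_mul,
      Bx.coeff_nabP_succ, ← mul_assoc] at h2
    rw [Polynomial.coeff_sub]
    cases n with
    | zero =>
      have h3 := Bx.Lg.add h2 (Bx.Lg.mul (h0 V hV) (h1 V D hV hD))
      rw [Bx.coeff_nabP_zero, Polynomial.coeff_divX]
      refine Bx.Lg.mono h3 (le_of_eq ?_)
      congr 1
      ring
    | succ n =>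
      rw [Bx.coeff_nabP_succ, Polynomial.coeff_divX, Polynomial.coeff_divX]
      exact h2

end TCX

open TCX

theorem rowTC : OfTC := by
  intro k K _ _ _ _ hF hD hS hLog hL hU hC B N lam l K0 T p L z a A A' hc hM hl hcov hleaf
  have hM' : N.M < l := lt_of_le_of_lt (Nat.le_mul_of_pos_left _ (by omega)) hM
  induction T with
  | zero =>
    intro h
    choose! P g hg using h
    refine ⟨fun y => (g y).coeff 0, fun y hy V hV => ⟨((hg y hy).2 V hV).1 0, fun D hD' => ?_⟩,
      fun y hy y' hy' V hV hV' => compat hU hC hc hM' hl (hleaf y hy) (hg y hy) (hg y' hy') hV hV'⟩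
    have h1 := ((hg y hy).2 V hV).2 D hD' 0
    rw [Polynomial.coeff_sub, pow_zero, one_mul, Polynomial.mul_coeff_zero, Polynomial.coeff_map,
      (hg y hy).1, map_one, one_mul, Bx.coeff_bt, Bx.coeff_nabP_zero] at h1
    exact h1
  | succ T ih =>
    intro h
    choose! P g hg using h
    have h1 := hS (B.rt p) L N.m (B.sg N ^ 1 * B.XX (chi p) ^ (1 * N.E)) (fun y => (g y).coeff 0)
      (hF.rt B p) hcov (fun y hy y' hy' V hV hV' => by
        rw [← mul_assoc]
        exact compat hU hC hc hM' hl (hleaf y hy) (hg y hy) (hg y' hy') hV hV' (chi p))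
      (fun y hy V hV hV' => by
        rw [← mul_assoc]
        refine hU.u2 B N lam l (K0 + 1) p y _ _ V _ hc hM hl (hleaf y hy) hV hV'
          (((hg y hy).2 V hV).1 0) (fun D hD' => ?_) (chi p)
        have h2 := Bx.Lg.neg (((hg y hy).2 V hV).2 D hD' 0)
        rw [Polynomial.coeff_sub, pow_succ' _ T, mul_assoc, mul_assoc, Polynomial.mul_coeff_zero,
          Polynomial.coeff_X_zero, zero_mul, zero_sub, neg_neg, Bx.coeff_nabP_zero] at h2
        exact h2)
    refine ih fun y hy => ⟨P y, (g y).divX, down (hg y hy) (fun V hV => ?_) fun V D hV hD' => ?_⟩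
    · have h2 := h1 y hy V hV
      rw [← mul_assoc] at h2
      exact ((hleaf y hy).mxV hV.1).lg_iff.2 h2
    · exact hLog.dlf B N V D _ (hL.nz B N y _ _ _ (hleaf y hy)).1
        (hD.dv y V (hleaf y hy).fr hV) hD' ((hleaf y hy).mxV hV.1)

end Pool.Agent.MP_5d9b3c_ag.H59
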