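import Pool.Agent.MP_5d9b3c_ag.H59.Spec

/-! Curves through a point pass through a point of every tower of blow-ups. -/

namespace Pool.Agent.MP_5d9b3c_ag.H59

open MvPolynomial

namespace THX

variable {k K : Type} [Field k] [Field K] [Algebra k K]

theorem ev_mem {φ : K × K} {V : ValuationSubring K} (h : HasK k V) (h1 : φ.1 ∈ V) (h2 : φ.2 ∈ V)
    (a : P2 k) : ev k φ a ∈ V := by
  induction a using MvPolynomial.induction_on with
  | C a => simpa using h a
  | add p q hp hq => rw [map_add]; exact add_mem hp hq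
  | mul_X p l hp =>
    rw [map_mul]
    refine mul_mem hp ?_
    fin_cases l
    · simpa using h1
    · simpa using h2

/-- a place over the point `c` -/
theorem place (PL : SPL k K) (TR : STR k K) {φ : K × K} {V : ValuationSubring K}
    (h : ∀ a, ev k φ a ∈ V) (c : Fin 2 → k)
    (hc : ∀ a, V.valuation (ev k φ a) < 1 → aeval c a = 0) :
    ∃ W, W ≤ V ∧ ResK k W ∧
      Dom k (φ.1 - algebraMap k K (c 0), φ.2 - algebraMap k K (c 1)) W := by
  obtain ⟨W, a, b, d⟩ := PL (P2 k) (ev k φ) (aeval c) V h hc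
  exact ⟨W, a, b, TR.dom _ W b.1 (by simpa using d (X 0)) (by simpa using d (X 1))⟩

theorem point [IsAlgClosed k] {φ : K × K} {V : ValuationSubring K} (h : ∀ a, ev k φ a ∈ V) :
    ∃ c : Fin 2 → k, ∀ a, V.valuation (ev k φ a) < 1 → aeval c a = 0 := by
  let f : P2 k →+* V := (ev k φ).toRingHom.codRestrict V h
  obtain ⟨M, hM, le⟩ := ((IsLocalRing.maximalIdeal V).comap f).exists_le_maximal
    (Ideal.comap_ne_top f (IsLocalRing.maximalIdeal.isMaximal V).ne_top)
  obtain ⟨c, rfl⟩ := isMaximal_iff_eq_vanishingIdeal_singleton.1 hM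
  exact ⟨c, fun a ha => (mem_vanishingIdeal_singleton_iff c a).1
    (le ((V.valuation_lt_one_iff (f a)).2 ha))⟩

theorem lt_mul {V : ValuationSubring K} {u v : K} (h : V.valuation u < 1)
    (h' : V.valuation (v - algebraMap k K 0) = 1) : V.valuation (u * v⁻¹) < 1 := by
  rw [map_zero, sub_zero] at h'
  rwa [map_mul, map_inv₀, h', inv_one, mul_one]

end THX

open THX in
theorem rowTH : OfTH := by
  intro k K _ _ _ _ PL FR TR TW E
  have plt : ∀ (φ : K × K) V, IsFr k φ → Thru k φ V → ∃ W, W ≤ V ∧ ResK k W ∧ Dom k φ W :=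
    fun φ V hφ hV => by
      simpa using place PL TR (fun a => hV.1 _ (ev_mem_Lo φ a)) 0 fun a ha => by
        by_contra h
        exact ha.ne (TR.unit φ V a hφ hV.1 fun e => h (by rw [aeval_zero, e, map_zero]))
  have lift : ∀ (φ : K × K) L V W, IsFr k φ → Cov k φ L → W ≤ V → ResK k W → Dom k φ W →
      ¬ Dom k φ V → ∃ y ∈ L, Dom k y W ∧ Thru k y V := fun φ L V W hφ hL le hW d nd => by
    obtain ⟨y, hy, a⟩ := TR.pr1 φ L W hφ hL hW d
    have s : Sub k y V := fun z hz => le (a.1 z hz)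
    exact ⟨y, hy, a, s, fun b => nd ((TR.down φ L y hφ hL hy).2.2 V ⟨s, b⟩)⟩
  refine ⟨plt, lift, fun φ L V hφ hL hV => ?_, fun B L p0 V W hL hV le hW => ?_,
    fun B c V hV => ?_, fun B c V hV => ?_⟩
  · obtain ⟨W, a, b, d⟩ := plt φ V hφ hV
    obtain ⟨y, hy, -, e⟩ := lift φ L V W hφ hL a b d fun h => hV.2 h.2
    exact ⟨y, hy, e⟩
  · obtain ⟨p, d⟩ := TR.pr0 B W hW
    have t : Thru k (B.rt p) V := by
      by_cases h : p = p0
      · exact h ▸ hV
      · exact TW.twor B p p0 V h (fun z hz => le (d.1 z hz)) hV.1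
    obtain ⟨y, hy, a, b⟩ := lift _ _ V W (FR.rt B p) (hL p) le hW d fun h => t.2 h.2
    exact ⟨p, y, hy, a, b, t⟩
  · by_cases h : V.valuation (B.rt (.inr c)).1 < 1
    · have e := (E.thru _ V (FR.rt B _)).2 ⟨hV, h⟩
      refine Or.inl ?_
      cases c with
      | some c => exact (E.tr _ _ c V).1 e
      | none =>
        have := E.inv B.y⁻¹ (B.x / B.y) B.x⁻¹ V e (by
          have a := lt_mul (u := B.y⁻¹) (v := B.x / B.y) e.2.1 (e.2.2 0)
          rwa [show B.y⁻¹ * (B.x / B.y)⁻¹ = B.x⁻¹ by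
            have := B.y_ne
            field_simp] at a)
        rwa [inv_div] at this
    · have h0 : (B.rt (.inr c)).1 = (B.XX (chi (.inr c : Root k)))⁻¹ := by cases c <;> rfl
      have h1 : B.XX (chi (.inr c : Root k)) ∈ V := by
        rw [← V.valuation_le_one_iff]
        rwa [h0, map_inv₀, not_lt, one_le_inv₀ (by simpa [pos_iff_ne_zero] using B.XX_ne _)] at h
      have h2 : ∀ l, B.XX l ∈ V := fun l => by
        simpa [div_mul_cancel₀ _ (B.XX_ne _)] using mul_mem (hV.1 _ (TW.mx B (.inr c) l)) h1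
      have h3 := ev_mem (φ := (B.x, B.y)) hV.1.hasK (h2 1) (h2 2)
      obtain ⟨c', hc⟩ := point h3
      obtain ⟨W, a, -, d⟩ := place PL TR h3 c' hc
      exact Or.inr ⟨(c' 0, c' 1), TW.twor B _ (.inr c) V (by simp) (fun z hz => a (d.1 z hz)) hV.1⟩
  · refine ((E.thru _ V (FR.rt B _)).1 ?_).1
    cases c with
    | some c => exact (E.tr _ _ c V).2 hV
    | none =>
      have := E.inv _ _ B.y⁻¹ V hV (by
        have a := lt_mul hV.2.1 (hV.2.2 0)
        rwa [show B.x⁻¹ * (B.y / B.x)⁻¹ = B.y⁻¹ by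
          have := B.x_ne
          field_simp] at a)
      rwa [inv_div] at this

end Pool.Agent.MP_5d9b3c_ag.H59
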