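import Pool.Agent.MP_5d9b3c_ag.H59.Spec

/-!
Local rings of frames and trees of blow-ups.
-/

namespace Pool.Agent.MP_5d9b3c_ag.H59

open MvPolynomial

namespace TRX

variable {k K : Type} [Field k] [Field K] [Algebra k K] {φ ψ : K × K} {W : ValuationSubring K}

theorem mem (h : HasK k W) {z : K} {c : k} (e : W.valuation (z - algebraMap k K c) < 1) :
    z ∈ W := by
  simpa using add_mem ((W.valuation_le_one_iff _).1 e.le) (h c)

theorem res (h : HasK k W) (h1 : W.valuation φ.1 < 1) (h2 : W.valuation φ.2 < 1) (a : P2 k) :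
    W.valuation (ev k φ a - algebraMap k K (constantCoeff a)) < 1 := by
  induction a using MvPolynomial.induction_on with
  | C c => simp
  | add p q hp hq =>
    rw [map_add, map_add, map_add, add_sub_add_comm]
    exact W.valuation.map_add_lt hp hq
  | mul_X p i hp =>
    have : W.valuation (ev k φ (X i)) < 1 := by fin_cases i <;> simpa
    rw [map_mul, map_mul, constantCoeff_X, mul_zero, map_zero, sub_zero, map_mul]
    exact (mul_le_of_le_one_left' ((W.valuation_le_one_iff _).2 (mem h hp))).trans_lt this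

theorem dom (h : HasK k W) (h1 : W.valuation φ.1 < 1) (h2 : W.valuation φ.2 < 1) :
    Dom k φ W := by
  refine ⟨?_, h1, h2⟩
  rintro z ⟨a, b, hb, e⟩
  have e1 := h.val hb
  have e2 := W.valuation.map_eq_of_sub_lt (e1.symm ▸ res h h1 h2 b)
  refine mem_of_val_le ?_ (mem h (res h h1 h2 a))
  rw [← e, map_mul, e2, e1, mul_one]

theorem inv (h : IsFr k φ) {a : P2 k} (ha : constantCoeff a ≠ 0) : (ev k φ a)⁻¹ ∈ Lo k φ :=
  ⟨1, a, ha, by rw [map_one, inv_mul_cancel₀ (h.ne fun e => ha (by simp [e]))]⟩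

theorem unit (h : IsFr k φ) (s : Sub k φ W) {a : P2 k} (ha : constantCoeff a ≠ 0) :
    W.valuation (ev k φ a) = 1 := by
  refine le_antisymm ((W.valuation_le_one_iff _).2 (s _ (ev_mem_Lo φ a))) ?_
  have h1 := (W.valuation_le_one_iff _).2 (s _ (inv h ha))
  rwa [map_inv₀, inv_le_one₀ (by
    simpa [pos_iff_ne_zero] using h.ne fun e => ha (by simp [e]))] at h1

theorem sub (s : Fin 2 → P2 k) (h0 : ∀ i, constantCoeff (s i) = 0) (h1 : ev k ψ (s 0) = φ.1)
    (h2 : ev k ψ (s 1) = φ.2) : Lo k φ ≤ Lo k ψ ∧ ∀ V, Dom k ψ V → Dom k φ V := by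
  have e : (ev k ψ).comp (aeval s) = ev k φ := algHom_ext fun i => by fin_cases i <;> simpa
  have c : ∀ b : P2 k, constantCoeff (aeval s b) = constantCoeff b := fun b => by
    induction b using MvPolynomial.induction_on with
    | C => simp
    | add p q hp hq => simp only [map_add, hp, hq]
    | mul_X p i hp => rw [map_mul, map_mul, map_mul, aeval_X, h0, hp, constantCoeff_X]
  refine ⟨?_, fun V ⟨a, b, c⟩ => dom a.hasK ?_ ?_⟩
  · rintro z ⟨a, b, hb, h⟩
    exact ⟨aeval s a, aeval s b, (c b).symm ▸ hb, by rwa [← e] at h⟩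
  · simpa [h0, h1] using res a.hasK b c (s 0)
  · simpa [h0, h2] using res a.hasK b c (s 1)

theorem chd (h : IsFr k φ) (c : Option k) :
    Lo k φ ≤ Lo k (child k φ c) ∧ ∀ V, Dom k (child k φ c) V → Dom k φ V := by
  have h1 : φ.1 ≠ 0 := by simpa using h.ne (X_ne_zero 0)
  have h2 : φ.2 ≠ 0 := by simpa using h.ne (X_ne_zero 1)
  rcases c with _ | c
  · exact sub ![X 0 * X 1, X 0] (fun i => by fin_cases i <;> simp)
      (by simp [child, mul_div_cancel₀ _ h2]) (by simp [child])
  · exact sub ![X 0, X 0 * (X 1 + C c)] (fun i => by fin_cases i <;> simp) (by simp [child])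
      (by simp [child, mul_div_cancel₀ _ h1])

theorem dle {u v : K} (h : W.valuation v ≤ W.valuation u) : v / u ∈ W := by
  rw [← W.valuation_le_one_iff, map_div₀]
  exact div_le_one_of_le₀ h zero_le

theorem dlt {u v : K} (h : ¬W.valuation v ≤ W.valuation u) : W.valuation (u / v) < 1 := by
  rw [map_div₀, div_lt_one₀ (zero_le.trans_lt (not_le.1 h))]
  exact not_le.1 h

theorem ilt {u : K} (h : u ∉ W) : W.valuation u⁻¹ < 1 := by
  rw [← one_div]
  exact dlt (by simpa using h)

theorem prc (r : ResK k W) (d : Dom k φ W) : ∃ c, Dom k (child k φ c) W := by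
  by_cases h : W.valuation φ.2 ≤ W.valuation φ.1
  · obtain ⟨c, e⟩ := r.2 _ (dle h)
    exact ⟨some c, dom r.1 d.2.1 e⟩
  · exact ⟨none, dom r.1 d.2.2 (dlt h)⟩

end TRX

open TRX in
theorem rowTR : OfTR := by
  intro k K _ _ _ _ F
  refine ⟨fun _ _ => dom, fun _ _ a d => res d.1.hasK d.2.1 d.2.2 a, fun _ _ h => inv h,
    fun _ _ _ h s => unit h s, fun φ V a b h t ⟨h1, h2⟩ => ?_, fun _ c h => chd h c,
    fun φ L y h c hy => ?_, fun _ _ _ => prc, fun φ L W h c r d => ?_, fun B W r => ?_⟩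
  · obtain rfl : a = 0 := by
      by_contra n
      have := unit h t.1 (a := X 0 - C a) (by simpa)
      rw [map_sub (ev k φ), ev_X0, ev_C] at this
      exact h1.ne this
    obtain rfl : b = 0 := by
      by_contra n
      have := unit h t.1 (a := X 1 - C b) (by simpa)
      rw [map_sub (ev k φ), ev_X1, ev_C] at this
      exact h2.ne this
    exact t.2 ⟨by simpa using h1, by simpa using h2⟩
  · induction c with
    | leaf φ =>
      obtain rfl : y = φ := hy
      exact ⟨h, le_rfl, fun _ => id⟩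
    | node φ L _ ih =>
      obtain ⟨c, hc⟩ := Set.mem_iUnion.1 hy
      obtain ⟨a, b, e⟩ := ih c (F.child φ c h) hc
      exact ⟨a, (chd h c).1.trans b, fun V d => (chd h c).2 V (e V d)⟩
  · induction c with
    | leaf φ => exact ⟨φ, rfl, d⟩
    | node φ L _ ih =>
      obtain ⟨c, e⟩ := prc r d
      obtain ⟨y, a, b⟩ := ih c (F.child φ c h) e
      exact ⟨y, Set.mem_iUnion.2 ⟨c, a⟩, b⟩
  · by_cases h : B.x ∈ W ∧ B.y ∈ W
    · obtain ⟨a, e⟩ := r.2 _ h.1
      obtain ⟨b, e'⟩ := r.2 _ h.2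
      exact ⟨.inl (a, b), dom r.1 e e'⟩
    by_cases e : W.valuation B.y ≤ W.valuation B.x
    · obtain ⟨c, e'⟩ := r.2 _ (dle e)
      exact ⟨.inr (some c), dom r.1 (ilt fun a => h ⟨a, mem_of_val_le e a⟩) e'⟩
    · exact ⟨.inr none, dom r.1 (ilt fun a => h ⟨mem_of_val_le (not_le.1 e).le a, a⟩) (dlt e)⟩

end Pool.Agent.MP_5d9b3c_ag.H59
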