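import Pool.Agent.MP_5d9b3c_ag.H59.Spec

/-!
At a leaf there is at most one branch of each coordinate curve.
-/

namespace Pool.Agent.MP_5d9b3c_ag.H59

open MvPolynomial

namespace UqX

variable {k K : Type} [Field k] [Field K] [Algebra k K]

theorem ne_top {V : ValuationSubring K} {z : K} (h0 : z ≠ 0) (h : V.valuation z < 1) :
    ¬ ∀ u, u ∈ V := fun h1 => by
  have h3 := (V.valuation_le_one_iff _).2 (h1 z⁻¹)
  rw [map_inv₀, inv_le_one₀ (by simpa [pos_iff_ne_zero] using h0)] at h3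
  exact not_lt.2 h3 h

theorem mul_lt {V : ValuationSubring K} {u v : K} (h : V.valuation u < 1) (hv : v ∈ V) :
    V.valuation (u * v) < 1 := by
  rw [map_mul]
  exact mul_lt_one_of_lt_of_le h ((V.valuation_le_one_iff _).2 hv)

theorem uq (tr : STR k K) (st : SST k K) (ex : SEX k K) (th : STH k K) (der : SDer k K)
    (lf : SLf k K) (B : Bx k K) (N : Nm) (y : K × K) (i : Fin 3) (z : Fin 2 → K) (a : Fin 2 → ℕ)
    (V V' : ValuationSubring K) (j : Fin 2) (h : B.Leaf N y i z a) (hV : Thru k y V)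
    (hV' : Thru k y V') (h1 : V.valuation (z j) < 1) (h2 : V'.valuation (z j) < 1) : V = V' := by
  have h0 := (lf.nz B N y i z a h).2 j
  obtain ⟨π, p1, p2, p3⟩ := (st.st y V h.fr hV).resolve_left (ne_top h0 h1)
  obtain ⟨π', q1, q2, q3⟩ := (st.st y V' h.fr hV').resolve_left (ne_top h0 h2)
  obtain ⟨c, b, hb, e⟩ := h.mem j
  have d1 : π ∣ c := by
    by_contra hn
    exact (mul_lt h1 (p3.1 b)).ne (e ▸ p3.2.2 c hn)
  have d2 : π' ∣ c := by
    by_contra hn
    exact (mul_lt h2 (q3.1 b)).ne (e ▸ q3.2.2 c hn)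
  by_cases hd : π ∣ π'
  · refine ex.uniq y π V V' h.fr p1 p3 ⟨q3.1, ?_, fun u hu => q3.2.2 u fun h => hu (hd.trans h)⟩
    obtain ⟨u, rfl⟩ := ((p1.dvd_prime_iff_associated q1).1 hd).symm.dvd
    rw [map_mul]
    exact mul_lt q3.2.1 (q3.1 u)
  obtain ⟨c₁, rfl⟩ := d2
  obtain ⟨c₂, rfl⟩ := (p1.dvd_or_dvd d1).resolve_left hd
  obtain ⟨W, w1, -, w2⟩ := th.plt y V h.fr hV
  have v1 : W.valuation (ev k y π) < 1 := by simpa [p2] using tr.res y W π w2
  have v2 : W.valuation (ev k y π') < 1 := by simpa [q2] using tr.res y W π' w2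
  have m1 : ∀ u, B.dua z j (ev k y u) ∈ W := fun u => w2.1 _ (h.pres j _ (ev_mem_Lo y u))
  have e1 := congrArg (B.dua z j) e
  rw [map_mul (ev k y), Derivation.leibniz, Derivation.leibniz, der.dual B z j j h.jac, if_pos rfl,
    smul_eq_mul, smul_eq_mul, smul_eq_mul, smul_eq_mul, mul_one, ← eq_sub_iff_add_eq'] at e1
  refine absurd (tr.unit y W b h.fr w2.1 hb) (ne_of_lt ?_)
  rw [e1]
  refine W.valuation.map_sub_lt (W.valuation.map_add_lt (mul_lt v2 (m1 _)) ?_)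
    (mul_lt (val_lt_of_le w1 h1) (m1 _))
  rw [map_mul (ev k y), mul_assoc]
  exact mul_lt v1 (mul_mem (w2.1 _ (ev_mem_Lo y _)) (m1 _))

end UqX

open UqX in
theorem rowUq : OfUq := by
  intro k K _ _ _ _ tr st ex th der lf
  refine ⟨uq tr st ex th der lf, fun B N y i z a h => ?_⟩
  have key : ∀ j, ∃ n, n ≤ a j ∧ (∀ V, Thru k y V → V.valuation (z j) < 1 →
      V.valuation (B.hat i N.f) = V.valuation (z j) ^ n) ∧
      (0 < n → ∃ V, Thru k y V ∧ V.valuation (z j) < 1) := by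
    intro j
    by_cases hj : ∃ V, Thru k y V ∧ V.valuation (z j) < 1
    · obtain ⟨V, hV, h1⟩ := hj
      obtain ⟨n, H, e1, e2, -⟩ := lf.ord B N y i z a V j h hV h1
      refine ⟨n, by omega, fun V' hV' h2 => ?_, fun _ => ⟨V, hV, h1⟩⟩
      obtain rfl := uq tr st ex th der lf B N y i z a V V' j h hV hV' h1 h2
      exact e2
    · exact ⟨0, zero_le, fun V hV h1 => absurd ⟨V, hV, h1⟩ hj, fun h => absurd h (lt_irrefl 0)⟩
  choose n n1 n2 n3 using key
  refine ⟨n, n1, fun V hV => ?_, n3⟩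
  rw [map_mul, map_pow, map_pow]
  by_cases h0 : V.valuation (z 0) < 1
  · rw [(lf.unif B N y i z a V 0 h hV h0).2 1 one_ne_zero, one_pow, mul_one, n2 0 V hV h0]
  by_cases h1 : V.valuation (z 1) < 1
  · rw [(lf.unif B N y i z a V 1 h hV h1).2 0 zero_ne_one, one_pow, one_mul, n2 1 V hV h1]
  have e : ∀ u ∈ V, ¬ V.valuation u < 1 → V.valuation u = 1 := fun u hu hn =>
    le_antisymm ((V.valuation_le_one_iff _).2 hu) (not_lt.1 hn)
  have hm := h.mxV hV.1
  rw [e _ (hV.1 _ (h.mem 0)) h0, e _ (hV.1 _ (h.mem 1)) h1, one_pow, one_pow, one_mul]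
  refine e _ (hm.hat_mem _) fun hf => ?_
  obtain ⟨j, -, hj⟩ := (lf.bd B N y i z a V h hV).1
    (hm.bd_iff.2 (by rw [B.hat_mul]; exact mul_lt hf (hm.hat_mem _)))
  fin_cases j
  exacts [h0 hj, h1 hj]

end Pool.Agent.MP_5d9b3c_ag.H59
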