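import Pool.Agent.MP_5d9b3c_ag.H59.Spec

/-!
Vanishing of global logarithmic forms with values in a negative lattice.
-/

namespace Pool.Agent.MP_5d9b3c_ag.H59

open MvPolynomial

namespace VANX

theorem deg_le {k : Type} [Field k] {g : P3} {n : ℕ} (hg : g.IsHomogeneous n)
    (v : Fin 3 → P2 k) (hv : ∀ l, (v l).totalDegree ≤ 1) : (e3 v g).totalDegree ≤ n := by
  simp only [e3, coe_eval₂Hom, eval₂_eq']
  refine totalDegree_finsetSum_le fun s hs => (totalDegree_mul _ _).trans ?_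
  have h := hg (mem_support_iff.1 hs)
  rw [Finsupp.weight_apply, Finsupp.sum_fintype _ _ (by simp)] at h
  simp only [Pi.one_apply, smul_eq_mul, mul_one] at h
  rw [eq_intCast, ← map_intCast (C : k →+* P2 k), totalDegree_C, zero_add, ← h]
  refine (totalDegree_finsetProd _ _).trans (Finset.sum_le_sum fun l _ => ?_)
  exact (totalDegree_pow _ _).trans (mul_le_of_le_one_right' (hv l))

variable {k K : Type} [Field k] [Field K] [Algebra k K]

theorem van (h1 : SFR k K) (h2 : STW k K) (h3 : SE k K) (h4 : SDV k K) (h5 : STH k K)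
    (h6 : SPres k K) (h7 : SDEG k K) (B : Bx k K) (N : Nm) (L : Root k → Set (K × K)) (q : ℕ)
    (ζ : K × K) (hL : B.Covs L) (hN : B.Nz N) (hq : N.m * (N.d + N.κ) < q * N.E)
    (hζ : B.Fm N L q ζ) (D : Derivation k K K) (a b : ℕ) (hx : D B.x = a * B.x)
    (hy : D B.y = b * B.y) : ζ.1 * D B.x + ζ.2 * D B.y = 0 := by
  have hF : B.hat 0 (N.f * N.h) ≠ 0 := by
    rw [B.hat_mul]
    exact mul_ne_zero hN.1 hN.2
  have x0 := B.x_ne
  refine h7 B (e3 ![1, X 0, X 1] (N.f * N.h)) (B.sg N ^ q) _ N.m (q * N.E) (fun h => hF ?_)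
    (pow_ne_zero _ (div_ne_zero hN.2 (pow_ne_zero _ hN.1))) N.m0 ?_ (fun c V hV => ?_)
    fun V hE => ?_
  · rw [← B.ev_cht, h, map_zero]
  · refine (Nat.mul_le_mul_left _ (deg_le (N.hf.mul N.hh) _ fun l => ?_)).trans_lt hq
    fin_cases l <;> simp
  · obtain ⟨y, hy1, hy2⟩ := h5.th _ _ V (h1.rt B _) (hL _) hV
    have mx : B.Mx V 0 := fun l => hV.1 _ (h2.mx B (.inl c) l)
    have pr := h6.val _ V D (h1.rt B _) hV
      (by simpa [Bx.rt, root, hx] using mul_mem (natCast_mem V a) (mx 1))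
      (by simpa [Bx.rt, root, hy] using mul_mem (natCast_mem V b) (mx 2))
    have lg : B.Log N V (B.hat 0 (N.f * N.h) • D) :=
      ⟨fun u hu => mul_mem (mx.hat_mem _) (pr u hu), fun hb u hu => by
        rw [Derivation.smul_apply, smul_eq_mul, map_mul]
        exact (mul_le_of_le_one_right' ((V.valuation_le_one_iff _).2
          (pr u ((V.valuation_le_one_iff _).1 hu.le)))).trans_lt (mx.bd_iff.1 hb)⟩
    have h := hζ _ y V _ hy1 hy2 lg 0
    rw [B.XX0, one_pow, mul_one, Derivation.smul_apply, Derivation.smul_apply, smul_eq_mul,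
      smul_eq_mul, mul_left_comm, mul_left_comm ζ.2, ← mul_add] at h
    rwa [B.ev_cht]
  · have hV := h5.inf B (some 0) V hE
    obtain ⟨y, hy1, hy2⟩ := h5.th _ _ V (h1.rt B _) (hL _) hV
    have mx : B.Mx V 1 := fun l => hV.1 _ (h2.mx B (.inr (some 0)) l)
    have m0 : B.x⁻¹ ∈ V := by simpa using mx 0
    have e1 : D B.x⁻¹ = -(a * B.x⁻¹) := by
      rw [Derivation.leibniz_inv, hx, smul_eq_mul]
      field_simp
    have e2 : D (B.y / B.x) = b * (B.y / B.x) - a * (B.y / B.x) := by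
      rw [div_eq_mul_inv, Derivation.leibniz, e1, hy, smul_eq_mul, smul_eq_mul]
      ring
    have pr := h6.val _ V D (h1.rt B _) hV
      (by simpa [Bx.rt, root, e1] using mul_mem (natCast_mem V a) m0)
      (by simpa [Bx.rt, root, e2] using
        sub_mem (mul_mem (natCast_mem V b) (mx 2)) (mul_mem (natCast_mem V a) (mx 2)))
    refine hζ _ y V D hy1 hy2 ⟨pr, fun _ u hu => ?_⟩ 1
    have hu1 := h4.le V _ u (h3.unif _ V (h1.inf B) hE) hu
    have hu2 : u * B.x ∈ V := by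
      rw [← V.valuation_le_one_iff, map_mul]
      refine (mul_le_mul_left hu1 _).trans ?_
      rw [← map_mul, inv_mul_cancel₀ x0, map_one]
    have e3 : D u = B.x⁻¹ * (D (u * B.x) - a * (u * B.x)) := by
      rw [Derivation.leibniz, hx, smul_eq_mul, smul_eq_mul]
      field_simp
      ring
    rw [e3, map_mul]
    exact (mul_le_of_le_one_right' ((V.valuation_le_one_iff _).2
      (sub_mem (pr _ hu2) (mul_mem (natCast_mem V a) hu2)))).trans_lt hE.2.1

end VANX

theorem rowVAN : OfVAN := by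
  intro k K _ _ _ _ h1 h2 h3 h4 h5 h6 h7 B N L q ζ hL hN hq hζ
  have a := VANX.van h1 h2 h3 h4 h5 h6 h7 B N L q ζ hL hN hq hζ (B.x • B.Dx) 1 0
    (by simp [B.xx]) (by simp [B.xy])
  have b := VANX.van h1 h2 h3 h4 h5 h6 h7 B N L q ζ hL hN hq hζ (B.y • B.Dy) 0 1
    (by simp [B.yx]) (by simp [B.yy])
  exact Prod.ext (by simpa [B.xx, B.xy, B.x_ne] using a) (by simpa [B.yx, B.yy, B.y_ne] using b)

end Pool.Agent.MP_5d9b3c_ag.H59
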