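import Pool.Agent.MP_5d9b3c_ag.H59.Spec

/-!
Row `Val`: words applied to powers of a form, read in the affine chart.
-/

namespace Pool.Agent.MP_5d9b3c_ag.H59

open MvPolynomial

namespace ValX

/-- homogeneous of integer degree -/
def Hz (q : P3) (e : ℤ) : Prop := q = 0 ∨ ∃ n : ℕ, e = n ∧ q.IsHomogeneous n

theorem Hz.mulX {q : P3} {e : ℤ} (h : Hz q e) (j : Fin 3) : Hz (X j * q) (e + 1) := by
  rcases h with rfl | ⟨n, rfl, h⟩
  · exact .inl (mul_zero _)
  · exact .inr ⟨1 + n, by push_cast; ring, (isHomogeneous_X ℤ j).mul h⟩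

theorem Hz.neg {q : P3} {e : ℤ} (h : Hz q e) : Hz (-q) e := by
  rcases h with rfl | ⟨n, rfl, h⟩
  · exact .inl neg_zero
  · exact .inr ⟨n, rfl, h.neg⟩

theorem Hz.pd {q : P3} {e : ℤ} (h : Hz q e) (j : Fin 3) : Hz (pderiv j q) (e - 1) := by
  rcases h with rfl | ⟨n, rfl, h⟩
  · exact .inl (map_zero _)
  · rcases n with _ | n
    · left
      rw [totalDegree_eq_zero_iff_eq_C.1 ((totalDegree_zero_iff_isHomogeneous _).2 h)]
      exact pderiv_C
    · exact .inr ⟨n, by push_cast; ring, h.pderiv⟩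

theorem Hz.word {q : P3} {e : ℤ} (h : Hz q e) : ∀ w : Word, Hz (act w q) (e + wgt w)
  | [] => by simpa [act, wgt] using h
  | .inl j :: w => by simpa [act, wgt, add_assoc] using (h.word w).mulX j
  | .inr j :: w => by simpa [act, wgt, add_sub_assoc] using (h.word w).pd j

variable {k K : Type} [Field k] [Field K] [Algebra k K] (B : Bx k K)

theorem hat_X (j : Fin 3) (q : P3) : B.hat 0 (X j * q) = B.dr.XX j * B.hat 0 q := by
  rw [B.hat_zero_eq, B.hat_zero_eq, map_mul, e3_X]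
  rfl

theorem hd {q : P3} {e : ℤ} (h : Hz q e) (j : Fin 3) :
    B.dr.der 0 0 (e : K) j (B.hat 0 q) = B.hat 0 (pderiv j q) := by
  have hx : B.Dx (e3 B.XX q) = e3 B.XX (pderiv 1 q) := by
    simp [der_e3, Fin.sum_univ_three, B.xx, B.xy]
  have hy : B.Dy (e3 B.XX q) = e3 B.XX (pderiv 2 q) := by
    simp [der_e3, Fin.sum_univ_three, B.yx, B.yy]
  have he : (e : K) * e3 B.XX q = e3 B.XX (pderiv 0 q) + B.x * e3 B.XX (pderiv 1 q) +
      B.y * e3 B.XX (pderiv 2 q) := by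
    rcases h with rfl | ⟨n, rfl, h⟩
    · simp
    · have h1 := congrArg (e3 B.XX) h.sum_X_mul_pderiv
      simpa [Fin.sum_univ_three] using h1.symm
  simp only [B.hat_zero_eq]
  fin_cases j
  · simp only [DR.der, Bx.dr, hx, hy, he]
    simp
    ring
  · simp [DR.der, Bx.dr, hx]
  · simp [DR.der, Bx.dr, hy]

theorem der_mul {F : K} (hF : F ≠ 0) (n : ℕ) (γ v : K) (j : Fin 3) :
    B.dr.der (n * (B.Dx F / F)) (n * (B.Dy F / F)) γ j v * F ^ n =
      B.dr.der 0 0 γ j (v * F ^ n) := by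
  have h : ∀ D : Derivation k K K, D (v * F ^ n) = (D v + n * (D F / F) * v) * F ^ n := by
    intro D
    rcases n with _ | n
    · simp
    · rw [Derivation.leibniz, Derivation.leibniz_pow]
      simp only [smul_eq_mul, nsmul_eq_mul, Nat.add_sub_cancel, pow_succ]
      field_simp
      ring
  fin_cases j
  · simp only [DR.der, Bx.dr, h]
    simp
    ring
  · simp [DR.der, Bx.dr, h]
  · simp [DR.der, Bx.dr, h]

theorem ad_eq : ∀ (w : Word) (e : ℤ) (q : P3), Hz q e →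
    ∃ q', Hz q' (e + wgt w) ∧ B.dr.ad 0 0 w (e : K) (B.hat 0 q) = B.hat 0 q'
  | [], e, q, h => ⟨q, by simpa [wgt] using h, rfl⟩
  | .inl j :: w, e, q, h => by
    obtain ⟨q', h1, h2⟩ := ad_eq w (e + 1) _ (h.mulX j)
    refine ⟨q', by simpa [wgt, add_assoc, add_comm] using h1, ?_⟩
    rw [← h2, hat_X, Int.cast_add, Int.cast_one]
    rfl
  | .inr j :: w, e, q, h => by
    obtain ⟨q', h1, h2⟩ := ad_eq w (e - 1) _ (h.pd j).neg
    refine ⟨q', by rwa [wgt, show e + (wgt w - 1) = e - 1 + wgt w by ring], ?_⟩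
    rw [← h2, DR.ad, hd B h, Int.cast_sub, Int.cast_one, Bx.hat, Bx.hat, map_neg]

end ValX

theorem rowVal : OfVal := by
  intro k K _ _ _ _
  refine ⟨fun B f d n w hf h0 => ?_, fun B w hw => ?_⟩
  · have hz : ValX.Hz (f ^ (n + 1)) ((d * (n + 1) : ℕ) : ℤ) := .inr ⟨_, rfl, hf.pow _⟩
    induction w with
    | nil => rw [DR.vl, act, Bx.hat, Bx.hat, map_pow, pow_succ']
    | cons a w ih =>
      rcases a with j | j
      · rw [DR.vl, act, ValX.hat_X, mul_assoc, ih]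
      · rw [DR.vl, act, ValX.der_mul B h0, ih, ← ValX.hd B (hz.word w) j]
        push_cast
        rfl
  · obtain ⟨q, h1, h2⟩ := ValX.ad_eq B w 0 1 (.inr ⟨0, rfl, isHomogeneous_one _ _⟩)
    rcases h1 with rfl | ⟨n, h1, -⟩
    · simpa [Bx.hat] using h2
    · omega

end Pool.Agent.MP_5d9b3c_ag.H59
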