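import Pool.Agent.MP_5d9b3c_ag.H59.Spec

/-!
Row WC: a functional equation for a form can be written with words of weight `-d`.
-/

namespace Pool.Agent.MP_5d9b3c_ag.H59

open MvPolynomial

namespace WCX

abbrev PC : Type := MvPolynomial (Fin 3) ℂ

abbrev Hz (u : PC) (e : ℤ) : Prop := IsWeightedHomogeneous (fun _ => (1 : ℤ)) u e

theorem hz_of {u : PC} {n : ℕ} (h : u.IsHomogeneous n) : Hz u n := fun s hs => by
  rw [← h hs]
  simp [Finsupp.weight_apply, Finsupp.sum]

theorem hz_act {u : PC} {e : ℤ} (h : Hz u e) : ∀ w : Word, Hz (act w u) (e + wgt w)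
  | [] => by simpa [act, wgt] using h
  | .inl j :: w => by
    rw [wgt, ← add_assoc, add_comm]
    exact (isWeightedHomogeneous_X ℂ _ j).mul (hz_act h w)
  | .inr j :: w => (hz_act h w).pderiv (by rw [wgt]; ring)

/-- the component of weight `δ` of a family of operators is a combination of words -/
def Gd (δ : ℤ) (Φ : ℕ → PC → PC) : Prop :=
  ∃ ws : List (ℂ × ℕ × Word), (∀ e ∈ ws, wgt e.2.2 = δ) ∧ ∀ (n : ℕ) u e, Hz u e →
    weightedHomogeneousComponent (fun _ => (1 : ℤ)) (e + δ) (Φ n u) =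
      (ws.map fun e => C (e.1 * (n : ℂ) ^ e.2.1) * act e.2.2 u).sum

variable {δ : ℤ} {Φ Ψ : ℕ → PC → PC}

theorem Gd.zero : Gd δ fun _ _ => 0 := ⟨[], by simp, by simp⟩

theorem Gd.add (h : Gd δ Φ) (h' : Gd δ Ψ) : Gd δ fun n u => Φ n u + Ψ n u := by
  obtain ⟨a, a1, a2⟩ := h
  obtain ⟨b, b1, b2⟩ := h'
  refine ⟨a ++ b, fun e he => (List.mem_append.1 he).elim (a1 e) (b1 e), fun n u e hu => ?_⟩
  rw [map_add, a2 n u e hu, b2 n u e hu, List.map_append, List.sum_append]

theorem Gd.word (c : ℂ) (t : ℕ) (w : Word) : Gd δ fun n u => (n : ℂ) ^ t • c • act w u := by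
  by_cases h : wgt w = δ
  · refine ⟨[(c, t, w)], by simpa using h, fun n u e hu => ?_⟩
    rw [map_smul, map_smul, ← h, (hz_act hu w).weightedHomogeneousComponent_same, smul_smul,
      smul_eq_C_mul, mul_comm _ c]
    simp
  · refine ⟨[], by simp, fun n u e hu => ?_⟩
    rw [map_smul, map_smul, (hz_act hu w).weightedHomogeneousComponent_ne _ (by omega)]
    simp

theorem gd_weyl {P : Module.End ℂ PC} (hP : P ∈ H72.weyl (Fin 3)) (t : ℕ) (c : ℂ) :
    Gd δ fun n u => (n : ℂ) ^ t • c • P u := by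
  rw [H72.weyl, ← Subalgebra.mem_toSubmodule, Algebra.adjoin_eq_span] at hP
  induction hP using Submodule.span_induction generalizing c with
  | mem P hP =>
    obtain ⟨w, hw⟩ : ∃ w : Word, ∀ u, P u = act w u := by
      replace hP := SetLike.mem_coe.1 hP
      induction hP using Submonoid.closure_induction_left with
      | one => exact ⟨[], fun _ => rfl⟩
      | mul_left x hx y _ ih =>
        obtain ⟨w, hw⟩ := ih
        rcases hx with ⟨j, rfl⟩ | ⟨j, rfl⟩
        · exact ⟨.inl j :: w, fun u => by simp [act, hw]⟩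
        · exact ⟨.inr j :: w, fun u => by simp [act, hw]⟩
    simpa only [hw] using Gd.word c t w
  | zero => simpa using Gd.zero
  | add P Q _ _ h1 h2 => simpa only [LinearMap.add_apply, smul_add] using (h1 c).add (h2 c)
  | smul a P _ h => simpa only [LinearMap.smul_apply, mul_smul] using h (c * a)

end WCX

open WCX in
theorem rowWC : SWC := by
  rintro F d b hF ⟨D, P, hP, h⟩
  have key : ∀ D, Gd (-d) fun n u => ∑ t ∈ Finset.range D, (n : ℂ) ^ t • P t u := fun D => by
    induction D with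
    | zero => simpa using Gd.zero
    | succ D ih => simpa only [Finset.sum_range_succ, one_smul] using ih.add (gd_weyl (hP D) D 1)
  obtain ⟨ws, h1, h2⟩ := key D
  refine ⟨ws, h1, fun n => ?_⟩
  rw [← h2 n _ _ (hz_of (hF.pow (n + 1)))]
  beta_reduce
  rw [h n, map_smul, smul_eq_C_mul,
    show ((d * (n + 1) : ℕ) : ℤ) + -d = (d * n : ℕ) by push_cast; ring,
    (hz_of (hF.pow n)).weightedHomogeneousComponent_same]

end Pool.Agent.MP_5d9b3c_ag.H59
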