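import Pool.Agent.MP_5d9b3c_ag.H59.Spec

/-!
Row WO: the functional equation in the three charts.
-/

namespace Pool.Agent.MP_5d9b3c_ag.H59

namespace WOX

open Polynomial

variable {k K : Type} [Field k] [Field K] [Algebra k K]

/-- polynomials with coefficients in `V` -/
def PV (V : ValuationSubring K) : Subring (Polynomial K) where
  carrier := {P | ∀ n, P.coeff n ∈ V}
  mul_mem' := by
    intro a b ha hb n
    rw [coeff_mul]
    exact sum_mem fun c _ => mul_mem (ha _) (hb _)
  one_mem' := by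
    intro n
    rw [coeff_one]
    split_ifs
    exacts [one_mem _, zero_mem _]
  add_mem' := by
    intro a b ha hb n
    rw [coeff_add]
    exact add_mem (ha _) (hb _)
  zero_mem' := by
    intro n
    rw [coeff_zero]
    exact zero_mem _
  neg_mem' := by
    intro a ha n
    rw [coeff_neg]
    exact neg_mem (ha _)

theorem mem_PV {V : ValuationSubring K} {P : Polynomial K} : P ∈ PV V ↔ ∀ n, P.coeff n ∈ V :=
  Iff.rfl

theorem C_mem {V : ValuationSubring K} {a : K} (h : a ∈ V) : C a ∈ PV V := by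
  intro n
  rw [coeff_C]
  split_ifs
  exacts [h, zero_mem _]

theorem X_mem (V : ValuationSubring K) : (X : Polynomial K) ∈ PV V := by
  intro n
  rw [coeff_X]
  split_ifs
  exacts [one_mem _, zero_mem _]

theorem Tc_le {B : Bx k K} {V : ValuationSubring K} {i : Fin 3} (h1 : HasK k V) (h2 : B.Mx V i)
    {u : K} (hu : u ∈ B.Tc i) : u ∈ V := by
  induction hu using Algebra.adjoin_induction with
  | mem x hx =>
    obtain ⟨l, rfl⟩ := hx
    exact h2 l
  | algebraMap r => exact h1 r
  | add x y _ _ hx hy => exact add_mem hx hy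
  | mul x y _ _ hx hy => exact mul_mem hx hy

/-- the shifted parameter -/
noncomputable def sP (K : Type) [Field K] [Algebra k K] (lam : k) : Polynomial K :=
  X - C (algebraMap k K lam)

theorem sP_mem {V : ValuationSubring K} (h : HasK k V) (lam : k) : sP K lam ∈ PV V :=
  sub_mem (X_mem V) (C_mem (h lam))

theorem pD_sP (D : Derivation k K K) (lam : k) : pD D (sP K lam) = 0 := by
  simp [sP]

/-- the coefficient of a word -/
noncomputable def cW (K : Type) [Field K] [Algebra k K] (lam : k) (e : ℤ × ℕ × Word) :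
    Polynomial K :=
  (e.1 : Polynomial K) * sP K lam ^ e.2.1

theorem cW_mem {V : ValuationSubring K} (h : HasK k V) (lam : k) (e : ℤ × ℕ × Word) :
    cW K lam e ∈ PV V :=
  mul_mem (intCast_mem _ _) (pow_mem (sP_mem h lam) _)

theorem pD_cW (D : Derivation k K K) (lam : k) (e : ℤ × ℕ × Word) : pD D (cW K lam e) = 0 := by
  simp [cW, Derivation.leibniz, Derivation.leibniz_pow, pD_sP]

variable (B : Bx k K) (N : Nm) (lam : k)

noncomputable def xiW (i : Fin 3) (w : Word) (j : Fin 3) : Polynomial K :=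
  B.drP.xi (aP B N.d i B.Dx) (aP B N.d i B.Dy) (vP B N.f N.d lam) w
    (-((N.d : Polynomial K) * X) + ((0 : ℤ) : Polynomial K)) 1 j

noncomputable def adW (i : Fin 3) (w : Word) : Polynomial K :=
  B.drP.ad (aP B N.d i B.Dx) (aP B N.d i B.Dy) w
    (-((N.d : Polynomial K) * X) + ((0 : ℤ) : Polynomial K)) 1

noncomputable def aW (i : Fin 3) (w : Word) : Polynomial K :=
  xiW B N lam i w 1 - C B.x * xiW B N lam i w 0

noncomputable def bW (i : Fin 3) (w : Word) : Polynomial K :=
  xiW B N lam i w 2 - C B.y * xiW B N lam i w 0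

theorem nab_add (i : Fin 3) (D : Derivation k K K) (u v : Polynomial K) :
    B.nabP N lam i D (u + v) = B.nabP N lam i D u + B.nabP N lam i D v := by
  simp only [Bx.nabP, map_add]
  ring

theorem nab_zero (i : Fin 3) (D : Derivation k K K) : B.nabP N lam i D 0 = 0 := by
  simp [Bx.nabP]

theorem nab_mul (i : Fin 3) (D : Derivation k K K) (c u : Polynomial K) (hc : pD D c = 0) :
    B.nabP N lam i D (c * u) = c * B.nabP N lam i D u := by
  simp only [Bx.nabP, Derivation.leibniz, hc, smul_eq_mul]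
  ring

theorem nab_sum (i : Fin 3) (D : Derivation k K K) (ws : List (ℤ × ℕ × Word))
    (g : Word → Polynomial K) :
    B.nabP N lam i D (ws.map fun e => cW K lam e * g e.2.2).sum =
      (ws.map fun e => cW K lam e * B.nabP N lam i D (g e.2.2)).sum := by
  induction ws with
  | nil => simp [nab_zero]
  | cons e ws ih =>
    simp only [List.map_cons, List.sum_cons, nab_add, ih, nab_mul B N lam i D _ _ (pD_cW D lam e)]

variable {B N}

theorem dlog (hN : B.Nz N) (i : Fin 3) (D : Derivation k K K) :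
    D (B.hat 0 N.f) / B.hat 0 N.f =
      N.d * (D (B.XX i) / B.XX i) + D (B.hat i N.f) / B.hat i N.f := by
  have h1 := hN.f i
  have h2 := B.XX_ne i
  have hd : N.d ≠ 0 := by
    intro h
    have := N.hE
    have := N.E0
    rw [h] at *
    omega
  obtain ⟨d, hd'⟩ := Nat.exists_eq_succ_of_ne_zero hd
  rw [B.hat_zero N.hf i, Derivation.leibniz, Derivation.leibniz_pow, hd']
  simp only [smul_eq_mul, nsmul_eq_mul, Nat.succ_sub_one, pow_succ]
  field_simp
  ring

theorem conn (hN : B.Nz N) (i : Fin 3) (D : Derivation k K K) (u : Polynomial K) :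
    pD D u + (aP B N.d i D + (X - C (algebraMap k K lam)) *
      C (D (B.hat 0 N.f) / B.hat 0 N.f)) * u = B.nabP N lam i D u := by
  have h := congrArg C (dlog hN i D)
  rw [map_add, map_mul, map_natCast] at h
  simp only [Bx.nabP, aP, map_mul]
  linear_combination (X * u) * h

theorem word (hA : SAdj) (hN : B.Nz N) (hl : (N.d : k) * lam = 3) (i : Fin 3) (w : Word)
    (hw : wgt w = -(N.d : ℤ)) :
    vP B N.f N.d lam w = B.nabP N lam i B.Dx (aW B N lam i w) +
      B.nabP N lam i B.Dy (bW B N lam i w) + adW B N i w * C (B.hat 0 N.f) := by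
  have h := hA.adj k (Polynomial K) B.drP
    ((X - C (algebraMap k K lam)) * C (B.Dx (B.hat 0 N.f) / B.hat 0 N.f))
    ((X - C (algebraMap k K lam)) * C (B.Dy (B.hat 0 N.f) / B.hat 0 N.f))
    ((N.d : Polynomial K) * (X - C (algebraMap k K lam) + 1)) (C (B.hat 0 N.f))
    (aP B N.d i B.Dx) (aP B N.d i B.Dy) w
    (-((N.d : Polynomial K) * X) + ((0 : ℤ) : Polynomial K)) 1
  have h3 : (N.d : Polynomial K) * C (algebraMap k K lam) = 3 := by
    have h4 := congrArg (fun c => (C (algebraMap k K c) : Polynomial K)) hl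
    simpa [map_ofNat] using h4
  have h5 : -((N.d : Polynomial K) * X) + ((0 : ℤ) : Polynomial K) +
      (N.d : Polynomial K) * (X - C (algebraMap k K lam) + 1) + ((wgt w : ℤ) : Polynomial K) + 1 =
      -2 := by
    rw [hw]
    push_cast
    linear_combination -h3
  rw [h5, one_mul, Fin.sum_univ_three] at h
  change vP B N.f N.d lam w = B.drP.der _ _ _ 0 (xiW B N lam i w 0) +
    B.drP.der _ _ _ 1 (xiW B N lam i w 1) + B.drP.der _ _ _ 2 (xiW B N lam i w 2) +
    adW B N i w * _ at h
  rw [h]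
  congr 1
  simp only [DR.der, Bx.drP, Matrix.cons_val_zero, Matrix.cons_val_one, Matrix.cons_val,
    conn lam hN]
  rw [← conn lam hN, ← conn lam hN, ← conn lam hN, ← conn lam hN, ← conn lam hN, ← conn lam hN]
  simp only [aW, bW, map_sub, Derivation.leibniz, pD_C, B.xx, B.yy, smul_eq_mul, map_one]
  ring

theorem one_pin (i : Fin 3) :
    PIn (fun c => c / B.XX i ^ (0 : ℤ) ∈ B.Tc i) (1 : Polynomial K) := by
  intro n
  rw [coeff_one]
  split_ifs
  · simp
  · simp

theorem ad_mem (hR : SReg k K) {V : ValuationSubring K} {i : Fin 3} (h1 : HasK k V)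
    (h2 : B.Mx V i) (w : Word) (hw : wgt w = -(N.d : ℤ)) :
    adW B N i w * C (B.hat 0 N.f) ∈ PV V := by
  intro n
  have h := Tc_le h1 h2 (hR.ad B N.d i w 0 1 (one_pin i) n)
  rw [hw, zero_add, zpow_neg, div_inv_eq_mul, zpow_natCast] at h
  rw [coeff_mul_C, B.hat_zero N.hf i, ← mul_assoc]
  exact mul_mem h (h2.hat_mem _)

theorem xi_mem (hR : SReg k K) (hN : B.Nz N) {V : ValuationSubring K} {i : Fin 3}
    (h1 : HasK k V) (h2 : B.Mx V i) (w : Word) (hw : wgt w = -(N.d : ℤ)) {K0 : ℕ}
    (hK : w.length ≤ K0) (j : Fin 3) :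
    C (B.hat i N.f ^ K0 / B.XX i) * xiW B N lam i w j ∈ PV V := by
  intro n
  have h := Tc_le h1 h2 (hR.xi B N.f N.d lam i w 0 1 j N.hf hN.1 (by rw [hw]; ring) (one_pin i) n)
  obtain ⟨r, rfl⟩ := Nat.exists_eq_add_of_le hK
  have h3 := mul_mem (pow_mem (h2.hat_mem N.f) r) h
  rw [coeff_C_mul]
  convert h3 using 1
  unfold xiW
  ring

theorem wedge {V : ValuationSubring K} {i : Fin 3} (h2 : B.Mx V i) {D : Derivation k K K}
    (hD : ∀ u ∈ V, D u ∈ V) (a b : Fin 3) :
    (B.XX a * D (B.XX b) - B.XX b * D (B.XX a)) / B.XX i ^ 2 ∈ V := by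
  have h := sub_mem (mul_mem (h2 a) (hD _ (h2 b))) (mul_mem (h2 b) (hD _ (h2 a)))
  have h0 := B.XX_ne i
  convert h using 1
  simp only [Derivation.leibniz_div, smul_eq_mul]
  field_simp
  ring

theorem bt_mem (hR : SReg k K) (hN : B.Nz N) {V : ValuationSubring K} {i : Fin 3}
    (h1 : HasK k V) (h2 : B.Mx V i) {D : Derivation k K K} (hD : ∀ u ∈ V, D u ∈ V) (w : Word)
    (hw : wgt w = -(N.d : ℤ)) {K0 : ℕ} (hK : w.length ≤ K0) :
    C (B.hat i N.f ^ K0 / B.XX i ^ 3) * B.bt (aW B N lam i w) (bW B N lam i w) D ∈ PV V := by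
  have h0 := B.XX_ne i
  have e0 := mul_mem (xi_mem lam hR hN h1 h2 w hw hK 0) (C_mem (wedge h2 hD 1 2))
  have e1 := mul_mem (xi_mem lam hR hN h1 h2 w hw hK 1) (C_mem (wedge h2 hD 0 2))
  have e2 := mul_mem (xi_mem lam hR hN h1 h2 w hw hK 2) (C_mem (wedge h2 hD 0 1))
  have h3 : B.hat i N.f ^ K0 / B.XX i ^ 3 = B.hat i N.f ^ K0 / B.XX i * (B.XX i ^ 2)⁻¹ := by
    field_simp
  convert sub_mem (sub_mem e1 e0) e2 using 1
  simp only [Bx.bt, aW, bW, h3, Bx.XX0, Bx.XX1, Bx.XX2, Derivation.map_one_eq_zero, div_eq_mul_inv,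
    map_mul, map_sub, map_one, map_zero]
  ring

theorem xi_zero (hA : SAdj) (i : Fin 3) (w : Word) (j : Fin 3) :
    (xiW B N lam i w j).coeff 0 =
      B.dr.xi 0 0 (fun w => (vP B N.f N.d lam w).coeff 0) w 0 1 j := by
  have h := (hA.map k (Polynomial K) K B.drP B.dr constantCoeff (fun _ => rfl) (fun _ => rfl)
    (by simp [Bx.drP, Bx.dr]) (by simp [Bx.drP, Bx.dr])).2.2 (aP B N.d i B.Dx) (aP B N.d i B.Dy)
    (vP B N.f N.d lam) w (-((N.d : Polynomial K) * X) + ((0 : ℤ) : Polynomial K)) 1 j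
  simpa [aP, xiW] using h

theorem ad_zero (hA : SAdj) (hV : SVal k K) (i : Fin 3) (w : Word) (hw : wgt w = -(N.d : ℤ)) :
    (adW B N i w).coeff 0 = 0 := by
  have h := (hA.map k (Polynomial K) K B.drP B.dr constantCoeff (fun _ => rfl) (fun _ => rfl)
    (by simp [Bx.drP, Bx.dr]) (by simp [Bx.drP, Bx.dr])).2.1 (aP B N.d i B.Dx) (aP B N.d i B.Dy)
    w (-((N.d : Polynomial K) * X) + ((0 : ℤ) : Polynomial K)) 1
  have hd : N.d ≠ 0 := by
    intro h
    have := N.hE
    have := N.E0
    rw [h] at *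
    omega
  have h2 := hV.ad0 B w (by omega)
  have h3 : (adW B N i w).coeff 0 = B.dr.ad 0 0 w 0 1 := by simpa [aP, adW] using h
  rw [h3, h2]

theorem coeff_sum_congr (ws : List (ℤ × ℕ × Word)) (g g' : Word → Polynomial K)
    (h : ∀ e ∈ ws, (g e.2.2).coeff 0 = (g' e.2.2).coeff 0) :
    (ws.map fun e => cW K lam e * g e.2.2).sum.coeff 0 =
      (ws.map fun e => cW K lam e * g' e.2.2).sum.coeff 0 := by
  induction ws with
  | nil => rfl
  | cons e ws ih =>
    simp only [List.map_cons, List.sum_cons, coeff_add, mul_coeff_zero]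
    rw [h e List.mem_cons_self, ih fun e' he' => h e' (List.mem_cons_of_mem _ he')]

theorem aeval_mem {V : ValuationSubring K} (h : HasK k V) (b : Polynomial ℤ) :
    aeval (sP K lam) b ∈ PV V := by
  induction b using Polynomial.induction_on' with
  | add p q hp hq => rw [map_add]; exact add_mem hp hq
  | monomial n a =>
    rw [aeval_monomial]
    exact mul_mem (by simp) (pow_mem (sP_mem h lam) _)

theorem aev_zero (b : Polynomial ℤ) :
    (aeval (sP K lam) b).coeff 0 = algebraMap k K (aeval (-lam) b) := by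
  induction b using Polynomial.induction_on' with
  | add p q hp hq => simp only [map_add, coeff_add, hp, hq]
  | monomial n a =>
    rw [aeval_monomial, aeval_monomial, ← constantCoeff_apply, map_mul, map_pow]
    simp [sP]

theorem list_add (ws : List (ℤ × ℕ × Word)) (g1 g2 g3 g : Word → Polynomial K)
    (h : ∀ e ∈ ws, g e.2.2 = g1 e.2.2 + g2 e.2.2 + g3 e.2.2) :
    (ws.map fun e => cW K lam e * g1 e.2.2).sum + (ws.map fun e => cW K lam e * g2 e.2.2).sum =
      (ws.map fun e => cW K lam e * g e.2.2).sum - (ws.map fun e => cW K lam e * g3 e.2.2).sum := by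
  induction ws with
  | nil => simp
  | cons e ws ih =>
    simp only [List.map_cons, List.sum_cons]
    rw [h e List.mem_cons_self]
    linear_combination ih fun e' he' => h e' (List.mem_cons_of_mem _ he')

theorem bt_sum (ws : List (ℤ × ℕ × Word)) (g g' : Word → Polynomial K) (D : Derivation k K K)
    (c : Polynomial K) :
    c * B.bt (ws.map fun e => cW K lam e * g e.2.2).sum
      (ws.map fun e => cW K lam e * g' e.2.2).sum D =
      (ws.map fun e => cW K lam e * (c * B.bt (g e.2.2) (g' e.2.2) D)).sum := by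
  induction ws with
  | nil => simp [Bx.bt]
  | cons e ws ih =>
    simp only [List.map_cons, List.sum_cons]
    rw [← ih]
    simp only [Bx.bt]
    ring

end WOX

open WOX Polynomial in
theorem rowWO : OfWO := by
  intro k K _ _ _ _ hA hV hR hS B N lam l K0 b ws hl hK hlam hN hW hb hws hb0
  have hsum := hS B N.f N.d lam l K0 b ws hl hK N.hf hN.1 hW hb hws
  change (ws.map fun e => cW K lam e * vP B N.f N.d lam e.2.2).sum = aeval (sP K lam) b at hsum
  refine ⟨fun i => (ws.map fun e => cW K lam e * aW B N lam i e.2.2).sum,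
    fun i => (ws.map fun e => cW K lam e * bW B N lam i e.2.2).sum,
    fun i => aeval (sP K lam) b -
      (ws.map fun e => cW K lam e * (adW B N i e.2.2 * C (B.hat 0 N.f))).sum,
    (ws.map fun e => cW K lam e * aW B N lam 0 e.2.2).sum.coeff 0,
    (ws.map fun e => cW K lam e * bW B N lam 0 e.2.2).sum.coeff 0,
    aeval (-lam) b, hb0, fun i => ⟨⟨?_, ?_, ?_⟩, ?_, ?_, ?_⟩⟩
  · rw [nab_sum B N lam i B.Dx ws (aW B N lam i), nab_sum B N lam i B.Dy ws (bW B N lam i), ← hsum]
    exact list_add lam ws (fun w => B.nabP N lam i B.Dx (aW B N lam i w))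
      (fun w => B.nabP N lam i B.Dy (bW B N lam i w))
      (fun w => adW B N i w * C (B.hat 0 N.f)) (vP B N.f N.d lam)
      fun e he => word lam hA hN hlam i e.2.2 (hW.1 e he)
  · intro V h1 h2
    refine mem_PV.1 (sub_mem (aeval_mem lam h1 b) (list_sum_mem ?_))
    intro u hu
    obtain ⟨e, he, rfl⟩ := List.mem_map.1 hu
    exact mul_mem (cW_mem h1 lam e) (ad_mem hR h1 h2 _ (hW.1 e he))
  · intro V D h1 h2 hD n
    have h3 : C (B.hat i N.f ^ K0 / B.XX i ^ 3) *
        B.bt (ws.map fun e => cW K lam e * aW B N lam i e.2.2).sum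
          (ws.map fun e => cW K lam e * bW B N lam i e.2.2).sum D ∈ PV V := by
      rw [bt_sum lam ws (aW B N lam i) (bW B N lam i)]
      refine list_sum_mem ?_
      intro u hu
      obtain ⟨e, he, rfl⟩ := List.mem_map.1 hu
      exact mul_mem (cW_mem h1 lam e)
        (bt_mem lam hR hN h1 h2 hD _ (hW.1 e he) (le_trans (Nat.le_add_left _ _) (hws e he)))
    have h4 := h3 n
    rw [coeff_C_mul] at h4
    convert h4 using 1
    ring
  · refine coeff_sum_congr lam ws (aW B N lam i) (aW B N lam 0) fun e _ => ?_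
    simp only [aW, coeff_sub, coeff_C_mul, xi_zero lam hA]
  · refine coeff_sum_congr lam ws (bW B N lam i) (bW B N lam 0) fun e _ => ?_
    simp only [bW, coeff_sub, coeff_C_mul, xi_zero lam hA]
  · rw [coeff_sub, aev_zero, coeff_sum_congr lam ws (fun w => adW B N i w * C (B.hat 0 N.f))
      (fun _ => 0) fun e he => by
        simp only [coeff_mul_C, ad_zero hA hV i _ (hW.1 e he), zero_mul, coeff_zero]]
    simp

end Pool.Agent.MP_5d9b3c_ag.H59
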