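import Pool.Agent.MP_5d9b3c_ag.H59.Asm
import Pool.Agent.MP_5d9b3c_ag.H59.RRL
import Pool.Agent.MP_5d9b3c_ag.H59.RPL
import Pool.Agent.MP_5d9b3c_ag.H59.RFR
import Pool.Agent.MP_5d9b3c_ag.H59.RST
import Pool.Agent.MP_5d9b3c_ag.H59.REX
import Pool.Agent.MP_5d9b3c_ag.H59.RDV
import Pool.Agent.MP_5d9b3c_ag.H59.RNM
import Pool.Agent.MP_5d9b3c_ag.H59.RE
import Pool.Agent.MP_5d9b3c_ag.H59.RTR
import Pool.Agent.MP_5d9b3c_ag.H59.RTW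
import Pool.Agent.MP_5d9b3c_ag.H59.RTH
import Pool.Agent.MP_5d9b3c_ag.H59.RCV
import Pool.Agent.MP_5d9b3c_ag.H59.RLN
import Pool.Agent.MP_5d9b3c_ag.H59.RS
import Pool.Agent.MP_5d9b3c_ag.H59.RKA1
import Pool.Agent.MP_5d9b3c_ag.H59.RKA2
import Pool.Agent.MP_5d9b3c_ag.H59.RKA3
import Pool.Agent.MP_5d9b3c_ag.H59.RORD
import Pool.Agent.MP_5d9b3c_ag.H59.RKB
import Pool.Agent.MP_5d9b3c_ag.H59.RH1
import Pool.Agent.MP_5d9b3c_ag.H59.RDEG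
import Pool.Agent.MP_5d9b3c_ag.H59.RDer
import Pool.Agent.MP_5d9b3c_ag.H59.RPres
import Pool.Agent.MP_5d9b3c_ag.H59.RPW
import Pool.Agent.MP_5d9b3c_ag.H59.RLog
import Pool.Agent.MP_5d9b3c_ag.H59.RLf
import Pool.Agent.MP_5d9b3c_ag.H59.RUq
import Pool.Agent.MP_5d9b3c_ag.H59.RVAN
import Pool.Agent.MP_5d9b3c_ag.H59.RFI
import Pool.Agent.MP_5d9b3c_ag.H59.RBS
import Pool.Agent.MP_5d9b3c_ag.H59.RRes
import Pool.Agent.MP_5d9b3c_ag.H59.RU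
import Pool.Agent.MP_5d9b3c_ag.H59.RCurl
import Pool.Agent.MP_5d9b3c_ag.H59.RStep
import Pool.Agent.MP_5d9b3c_ag.H59.RLoc
import Pool.Agent.MP_5d9b3c_ag.H59.RTC
import Pool.Agent.MP_5d9b3c_ag.H59.RCore
import Pool.Agent.MP_5d9b3c_ag.H59.RVal
import Pool.Agent.MP_5d9b3c_ag.H59.RReg0
import Pool.Agent.MP_5d9b3c_ag.H59.RReg
import Pool.Agent.MP_5d9b3c_ag.H59.RSum
import Pool.Agent.MP_5d9b3c_ag.H59.RWO
import Pool.Agent.MP_5d9b3c_ag.H59.RW2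
import Pool.Agent.MP_5d9b3c_ag.H59.RLK
import Pool.Agent.MP_5d9b3c_ag.H59.RNice
import Pool.Agent.MP_5d9b3c_ag.H59.RIn
import Pool.Agent.MP_5d9b3c_ag.H59.RLR
import Pool.Agent.MP_5d9b3c_ag.H59.RNode
import Pool.Agent.MP_5d9b3c_ag.H59.RFor
import Pool.Agent.MP_5d9b3c_ag.H59.RCmp
import Pool.Agent.MP_5d9b3c_ag.H59.RGen
import Pool.Agent.MP_5d9b3c_ag.H59.RBl
import Pool.Agent.MP_5d9b3c_ag.H59.RInd
import Pool.Agent.MP_5d9b3c_ag.H59.RTop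
import Pool.Agent.MP_5d9b3c_ag.H59.RSpl
import Pool.Agent.MP_5d9b3c_ag.H59.RCC
import Pool.Agent.MP_5d9b3c_ag.H59.RWC
import Pool.Agent.MP_5d9b3c_ag.H59.RRat
import Pool.Agent.MP_5d9b3c_ag.H59.RDeh
import Pool.Agent.MP_5d9b3c_ag.H59.RAdj
import Pool.Agent.MP_5d9b3c_ag.H59.RLC
import Pool.Agent.MP_5d9b3c_ag.H59.RSp
import Pool.Agent.MP_5d9b3c_ag.H59.RSch
import Pool.Agent.MP_5d9b3c_ag.H59.RKex
import Pool.Agent.MP_5d9b3c_ag.H59.RCA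
import Pool.Agent.MP_5d9b3c_ag.H59.RCB

/-!
All tasks are done.
-/

namespace Pool.Agent.MP_5d9b3c_ag.H59

theorem rows : Rows where
  RL := rowRL
  PL := rowPL
  FR := rowFR
  ST := rowST
  EX := rowEX
  DV := rowDV
  NM := rowNM
  E := rowE
  TR := rowTR
  TW := rowTW
  TH := rowTH
  CV := rowCV
  LN := rowLN
  S := rowS
  KA1 := rowKA1
  KA2 := rowKA2
  KA3 := rowKA3
  ORD := rowORD
  KB := rowKB
  H1 := rowH1
  DEG := rowDEG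
  Der := rowDer
  Pres := rowPres
  PW := rowPW
  Log := rowLog
  Lf := rowLf
  Uq := rowUq
  VAN := rowVAN
  FI := rowFI
  BS := rowBS
  Res := rowRes
  U := rowU
  Curl := rowCurl
  Step := rowStep
  Loc := rowLoc
  TC := rowTC
  Core := rowCore
  Val := rowVal
  Reg0 := rowReg0
  Reg := rowReg
  Sum := rowSum
  WO := rowWO
  W2 := rowW2
  LK := rowLK
  Nice := rowNice
  In := rowIn
  LR := rowLR
  Node := rowNode
  For := rowFor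
  Cmp := rowCmp
  Gen := rowGen
  Bl := rowBl
  Ind := rowInd
  Top := rowTop
  Spl := rowSpl
  CC := rowCC
  WC := rowWC
  Rat := rowRat
  Deh := rowDeh
  Adj := rowAdj
  LC := rowLC
  Sp := rowSp
  Sch := rowSch
  Kex := rowKex
  CA := rowCA
  CB := rowCB

end Pool.Agent.MP_5d9b3c_ag.H59
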