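import Pool.Agent.MP_5d9b3c_ag.H59.Defs

/-!
Small lemmas about the definitions.
-/

namespace Pool.Agent.MP_5d9b3c_ag.H59

open MvPolynomial

theorem e3_map {S S' : Type} [CommRing S] [CommRing S'] (φ : S →+* S') (v : Fin 3 → S) (g : P3) :
    φ (e3 v g) = e3 (fun l => φ (v l)) g := by
  induction g using MvPolynomial.induction_on <;> simp_all [e3]

@[simp] theorem e3_X {S : Type} [CommRing S] (v : Fin 3 → S) (l : Fin 3) : e3 v (X l) = v l := by
  simp [e3]

theorem aeval_eq_e3 {S : Type} [CommRing S] [Algebra ℤ S] (v : Fin 3 → S) (g : P3) :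
    aeval v g = e3 v g := by
  rw [aeval_def, RingHom.ext_int (algebraMap ℤ S) (Int.castRingHom S)]
  rfl

theorem e3_hom {S : Type} [CommRing S] {g : P3} {n : ℕ} (hg : g.IsHomogeneous n) (c : S)
    (v : Fin 3 → S) : e3 (fun l => c * v l) g = c ^ n * e3 v g := by
  simp only [e3, coe_eval₂Hom, eval₂_eq', Finset.mul_sum]
  refine Finset.sum_congr rfl fun s hs => ?_
  have h := hg (mem_support_iff.1 hs)
  rw [Finsupp.weight_apply, Finsupp.sum_fintype _ _ (by simp)] at h
  simp only [Pi.one_apply, smul_eq_mul, mul_one] at h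
  simp only [mul_pow, Finset.prod_mul_distrib, Finset.prod_pow_eq_pow_sum, h]
  ring

theorem e3_mem {S T : Type} [CommRing S] [SetLike T S] [SubringClass T S] (A : T) {v : Fin 3 → S}
    (hv : ∀ l, v l ∈ A) (g : P3) : e3 v g ∈ A := by
  induction g using MvPolynomial.induction_on with
  | C a => simp [e3]
  | add p q hp hq => rw [map_add]; exact add_mem hp hq
  | mul_X p l hp => rw [map_mul, e3_X]; exact mul_mem hp (hv l)

/-- a nonzero form stays nonzero in a chart that covers `x i = 1` -/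
theorem e3_ne {g : P3} {n : ℕ} (hg : g.IsHomogeneous n) (h0 : g ≠ 0) {ψ : Fin 3 → P2 ℂ}
    (i : Fin 3) (h : ∀ x : Fin 3 → ℂ, x i = 1 → ∃ c : Fin 2 → ℂ, ∀ l, eval c (ψ l) = x l) :
    e3 ψ g ≠ 0 := fun h1 => by
  have h2 : X i * map (Int.castRingHom ℂ) g = 0 := MvPolynomial.funext fun x => by
    rw [map_mul, eval_X, eval_map, map_zero]
    by_cases hx : x i = 0
    · rw [hx, zero_mul]
    · obtain ⟨c, hc⟩ := h (fun l => (x i)⁻¹ * x l) (inv_mul_cancel₀ hx)
      have h3 := e3_map (eval c) ψ g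
      simp only [h1, map_zero, hc, e3_hom hg] at h3
      have h4 : e3 x g = 0 := (mul_eq_zero.1 h3.symm).resolve_left (pow_ne_zero _ (inv_ne_zero hx))
      exact mul_eq_zero_of_right _ h4
  exact h0 ((map_eq_zero_iff _ (map_injective _ (RingHom.injective_int _))).1
    ((mul_eq_zero.1 h2).resolve_left (X_ne_zero i)))

/-- chain rule for integer ternary polynomials -/
theorem der_e3 {k S : Type} [CommRing k] [CommRing S] [Algebra k S] (D : Derivation k S S)
    (v : Fin 3 → S) (g : P3) : D (e3 v g) = ∑ l, e3 v (pderiv l g) * D (v l) := by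
  induction g using MvPolynomial.induction_on with
  | C a => simp [e3]
  | add p q hp hq => simp [hp, hq, add_mul, Finset.sum_add_distrib]
  | mul_X p l hp =>
    simp only [map_mul, e3_X, Derivation.leibniz, hp, smul_eq_mul, map_add, pderiv_X, add_mul,
      Finset.sum_add_distrib, Finset.mul_sum, mul_assoc]
    congr 1
    rw [Finset.sum_eq_single l (fun b _ hb => by simp [Pi.single_eq_of_ne' hb]) (by simp)]
    simp

section

variable {k K : Type} [Field k] [Field K] [Algebra k K]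

@[simp] theorem coeff_pD (D : Derivation k K K) (u : Polynomial K) (n : ℕ) :
    (pD D u).coeff n = D (u.coeff n) := rfl

@[simp] theorem pD_C (D : Derivation k K K) (a : K) :
    pD D (Polynomial.C a) = Polynomial.C (D a) := by
  ext n
  by_cases h : n = 0 <;> simp [Polynomial.coeff_C, h]

@[simp] theorem pD_X (D : Derivation k K K) : pD D Polynomial.X = 0 := by
  ext n
  by_cases h : 1 = n <;> simp [Polynomial.coeff_X, h]

@[simp] theorem ev_X0 (φ : K × K) : ev k φ (X 0) = φ.1 := by simp [ev]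

@[simp] theorem ev_X1 (φ : K × K) : ev k φ (X 1) = φ.2 := by simp [ev]

@[simp] theorem ev_C (φ : K × K) (c : k) : ev k φ (C c) = algebraMap k K c := by simp [ev]

theorem mem_Lo {φ : K × K} {z : K} :
    z ∈ Lo k φ ↔ ∃ a b : P2 k, constantCoeff b ≠ 0 ∧ z * ev k φ b = ev k φ a := Iff.rfl

theorem ev_mem_Lo (φ : K × K) (a : P2 k) : ev k φ a ∈ Lo k φ := ⟨a, 1, by simp, by simp⟩

theorem Sub.hasK {φ : K × K} {V : ValuationSubring K} (h : Sub k φ V) : HasK k V :=
  fun c => h _ (Subalgebra.algebraMap_mem _ c)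

theorem IsFr.ne {φ : K × K} (h : IsFr k φ) {a : P2 k} (ha : a ≠ 0) : ev k φ a ≠ 0 :=
  (map_ne_zero_iff _ h.1).2 ha

theorem HasK.val {V : ValuationSubring K} (h : HasK k V) {c : k} (hc : c ≠ 0) :
    V.valuation (algebraMap k K c) = 1 := by
  refine le_antisymm ((V.valuation_le_one_iff _).2 (h c)) ?_
  have h1 := (V.valuation_le_one_iff _).2 (h c⁻¹)
  rwa [map_inv₀, map_inv₀, inv_le_one₀ (by simpa [pos_iff_ne_zero] using hc)] at h1

theorem mem_of_val_le {V : ValuationSubring K} {a b : K} (h : V.valuation a ≤ V.valuation b)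
    (hb : b ∈ V) : a ∈ V :=
  (V.valuation_le_one_iff _).1 (h.trans ((V.valuation_le_one_iff _).2 hb))

/-- the maximal ideal of a larger valuation ring is smaller -/
theorem val_lt_of_le {V W : ValuationSubring K} (h : W ≤ V) {z : K} (hz : V.valuation z < 1) :
    W.valuation z < 1 := by
  by_contra h1
  have h0 : z ≠ 0 := by
    rintro rfl
    simp at h1
  have h2 : z⁻¹ ∈ W := by
    rw [← W.valuation_le_one_iff, map_inv₀]
    exact inv_le_one_of_one_le₀ (not_lt.1 h1)
  have h3 := (V.valuation_le_one_iff _).2 (h h2)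
  rw [map_inv₀, inv_le_one₀ (by simpa [pos_iff_ne_zero] using h0)] at h3
  exact not_lt.2 h3 hz

theorem pow_mem_iff {V : ValuationSubring K} {z : K} {n : ℕ} (hn : n ≠ 0) :
    z ^ n ∈ V ↔ z ∈ V := by
  rw [← V.valuation_le_one_iff, ← V.valuation_le_one_iff, map_pow, pow_le_one_iff hn]

namespace Bx

variable (B : Bx k K)

@[simp] theorem XX0 : B.XX 0 = 1 := rfl

@[simp] theorem XX1 : B.XX 1 = B.x := rfl

@[simp] theorem XX2 : B.XX 2 = B.y := rfl

theorem x_ne : B.x ≠ 0 := by simpa using B.fr.ne (X_ne_zero 0)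

theorem y_ne : B.y ≠ 0 := by simpa using B.fr.ne (X_ne_zero 1)

theorem XX_ne (i : Fin 3) : B.XX i ≠ 0 := by
  fin_cases i
  exacts [one_ne_zero, B.x_ne, B.y_ne]

theorem exists_mx (V : ValuationSubring K) : ∃ i, B.Mx V i := by
  obtain ⟨i, hi⟩ := Finite.exists_max fun i => V.valuation (B.XX i)
  refine ⟨i, fun l => ?_⟩
  rw [← V.valuation_le_one_iff, map_div₀]
  exact div_le_one_of_le₀ (hi l) zero_le

theorem hat_eq {g : P3} {n : ℕ} (hg : g.IsHomogeneous n) (i i' : Fin 3) :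
    B.hat i' g = (B.XX i / B.XX i') ^ n * B.hat i g := by
  rw [hat, hat, ← e3_hom hg]
  congr 2
  funext l
  have := B.XX_ne i
  field_simp

theorem hat_zero {g : P3} {n : ℕ} (hg : g.IsHomogeneous n) (i : Fin 3) :
    B.hat 0 g = B.XX i ^ n * B.hat i g := by simpa using B.hat_eq hg i 0

theorem hat_mul (i : Fin 3) (g g' : P3) : B.hat i (g * g') = B.hat i g * B.hat i g' :=
  map_mul _ _ _

theorem hat_zero_eq (g : P3) : B.hat 0 g = e3 B.XX g := by simp [hat]

/-- the dehomogenisation is a polynomial in `x` and `y` -/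
theorem ev_cht (g : P3) : ev k (B.x, B.y) (e3 ![1, X 0, X 1] g) = B.hat 0 g := by
  rw [hat_zero_eq]
  refine (e3_map (ev k (B.x, B.y)).toRingHom _ g).trans ?_
  congr 2
  funext l
  fin_cases l <;> simp

variable {B}

theorem Mx.hat_mem {V : ValuationSubring K} {i : Fin 3} (h : B.Mx V i) (g : P3) :
    B.hat i g ∈ V := e3_mem V h g

theorem Mx.val_eq {V : ValuationSubring K} {i i' : Fin 3} (h : B.Mx V i) (h' : B.Mx V i') :
    V.valuation (B.XX i / B.XX i') = 1 := by
  refine le_antisymm ((V.valuation_le_one_iff _).2 (h' i)) ?_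
  have h1 := (V.valuation_le_one_iff _).2 (h i')
  rwa [← inv_div, map_inv₀, inv_le_one₀ (by
    simpa [pos_iff_ne_zero] using ⟨B.XX_ne i, B.XX_ne i'⟩)] at h1

variable {m E : ℕ} {σ : K} {V : ValuationSubring K}

theorem Lg.mono {u u' : K} (h : B.Lg m σ E V u) (h' : V.valuation u' ≤ V.valuation u) :
    B.Lg m σ E V u' := fun i => by
  refine mem_of_val_le ?_ (h i)
  simp only [map_mul, map_pow]
  gcongr

theorem Lg.add {u u' : K} (h : B.Lg m σ E V u) (h' : B.Lg m σ E V u') :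
    B.Lg m σ E V (u + u') := by
  rcases le_max_iff.1 (V.valuation.map_add u u') with h1 | h1
  exacts [h.mono h1, h'.mono h1]

theorem Lg.neg {u : K} (h : B.Lg m σ E V u) : B.Lg m σ E V (-u) := h.mono (by simp)

theorem Lg.sub {u u' : K} (h : B.Lg m σ E V u) (h' : B.Lg m σ E V u') :
    B.Lg m σ E V (u - u') := by simpa [sub_eq_add_neg] using h.add h'.neg

theorem Lg.mul {u a : K} (h : B.Lg m σ E V u) (ha : a ∈ V) : B.Lg m σ E V (a * u) :=
  h.mono (by
    rw [map_mul]
    exact mul_le_of_le_one_left' ((V.valuation_le_one_iff _).2 ha))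

theorem Lg.zero (hm : 0 < m) : B.Lg m σ E V 0 := fun i => by simp [hm.ne']

theorem Lg.sum {ι : Type} (hm : 0 < m) (s : Finset ι) {u : ι → K}
    (h : ∀ i ∈ s, B.Lg m σ E V (u i)) : B.Lg m σ E V (∑ i ∈ s, u i) :=
  Finset.sum_induction _ _ (fun _ _ => Lg.add) (Lg.zero hm) h

theorem Mx.lg_iff {i : Fin 3} (h : B.Mx V i) {u : K} :
    B.Lg m σ E V u ↔ u ^ m * σ * B.XX i ^ E ∈ V := by
  refine ⟨fun h1 => h1 i, fun h1 l => ?_⟩
  have h2 := mul_mem h1 (pow_mem (h l) E)
  have := B.XX_ne i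
  convert h2 using 1
  rw [div_pow]
  field_simp

variable {N : Nm}

theorem Nz.f (h : B.Nz N) (i : Fin 3) : B.hat i N.f ≠ 0 := fun h1 =>
  h.1 (by rw [B.hat_zero N.hf i, h1, mul_zero])

theorem Nz.h (h : B.Nz N) (i : Fin 3) : B.hat i N.h ≠ 0 := fun h1 =>
  h.2 (by rw [B.hat_zero N.hh i, h1, mul_zero])

theorem sg_mul (i : Fin 3) : B.sg N * B.XX i ^ N.E =
    B.hat i N.h / B.hat i N.f ^ N.m / (B.XX i ^ 3) ^ N.m := by
  have := B.XX_ne i
  rw [sg, B.hat_zero N.hf i, B.hat_zero N.hh i, mul_pow, ← pow_mul, ← pow_mul, mul_comm N.d,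
    ← N.hE, pow_add, pow_add]
  by_cases h : B.hat i N.f ^ N.m = 0
  · simp [h]
  · field_simp

theorem Mx.lam_iff {i : Fin 3} (h : B.Mx V i) {q : ℕ} {u : K} : B.Lam N q V u ↔
    (u / B.XX i ^ (3 * q)) ^ N.m * (B.hat i N.h / B.hat i N.f ^ N.m) ^ q ∈ V := by
  rw [Lam, h.lg_iff, mul_comm q, pow_mul, mul_assoc, ← mul_pow, sg_mul]
  have := B.XX_ne i
  congr! 1
  simp only [div_pow, ← pow_mul]
  rw [show 3 * q * N.m = 3 * N.m * q by ring]
  field_simp

theorem Mx.bd_iff {i : Fin 3} (h : B.Mx V i) :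
    B.Bd N V ↔ V.valuation (B.hat i (N.f * N.h)) < 1 := by
  refine ⟨fun ⟨l, hl⟩ => ?_, fun h1 => ⟨i, h1⟩⟩
  rw [B.hat_eq (N.hf.mul N.hh) l i, map_mul]
  exact (mul_le_of_le_one_left' ((V.valuation_le_one_iff _).2 (pow_mem (h l) _))).trans_lt hl

theorem lam_pow {l : ℕ} (hl : l ≠ 0) {u : K} : B.Lam N l V (u ^ l) ↔ B.Lam N 1 V u := by
  refine forall_congr' fun i => ?_
  rw [← pow_mem_iff hl (z := u ^ N.m * B.sg N ^ 1 * B.XX i ^ (1 * N.E))]
  congr! 1
  ring

theorem Leaf.mxV {y : K × K} {i : Fin 3} {z : Fin 2 → K} {a : Fin 2 → ℕ}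
    (h : B.Leaf N y i z a) (hV : Sub k y V) : B.Mx V i := fun l => hV _ (h.mx l)

theorem coeff_nabP_zero (lam : k) (i : Fin 3) (D : Derivation k K K) (u : Polynomial K) :
    (B.nabP N lam i D u).coeff 0 = B.nab N lam D (u.coeff 0) := by
  simp [nabP, nab, mul_assoc]

theorem coeff_nabP_succ (lam : k) (i : Fin 3) (D : Derivation k K K) (u : Polynomial K) (n : ℕ) :
    (B.nabP N lam i D u).coeff (n + 1) =
      B.nab N lam D (u.coeff (n + 1)) + D (B.hat i N.f) / B.hat i N.f * u.coeff n := by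
  simp only [nabP, nab, Polynomial.coeff_add, Polynomial.coeff_sub, coeff_pD,
    Polynomial.coeff_C_mul, mul_assoc, Polynomial.coeff_X_mul]

theorem coeff_bt (A A' : Polynomial K) (D : Derivation k K K) (n : ℕ) :
    (B.bt A A' D).coeff n = A.coeff n * D B.y - A'.coeff n * D B.x := by
  simp [bt]

end Bx

end

end Pool.Agent.MP_5d9b3c_ag.H59
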