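import Pool.Agent.MP_5d9b3c_ag.H59.Spec

/-!
The primitive zeros modulo a prime power are counted in three charts.
-/

namespace Pool.Agent.MP_5d9b3c_ag.H59

open MvPolynomial

namespace CAX

open Finset

variable {R : Type} [CommRing R] [Fintype R] [DecidableEq R] [DecidablePred (IsUnit : R → Prop)]

omit [DecidableEq R] in
theorem sc (ψ : R → R → R → ℚ) (h : ∀ u a b, IsUnit u → ψ u (u * a) (u * b) = ψ 1 a b) :
    ∑ u, ∑ a, ∑ b, (if IsUnit u then ψ u a b else 0) =
      (∑ u : R, if IsUnit u then 1 else 0) * ∑ a, ∑ b, ψ 1 a b := by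
  rw [sum_mul]
  refine sum_congr rfl fun u _ => ?_
  split_ifs with hu
  · rw [one_mul, ← Equiv.sum_comp hu.unit.mulLeft]
    refine sum_congr rfl fun a _ => ?_
    rw [← Equiv.sum_comp hu.unit.mulLeft]
    exact sum_congr rfl fun b _ => h u a b hu
  · simp

theorem fib {π : R} (h : ∀ z, ¬IsUnit z ↔ ∃ y, π * y = z) :
    ∃ c : ℚ, ∀ g : R → ℚ, ∑ y, g (π * y) = c * ∑ z, if IsUnit z then 0 else g z := by
  refine ⟨#{y | π * y = 0}, fun g => ?_⟩
  rw [← sum_fiberwise univ (π * ·), mul_sum]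
  refine sum_congr rfl fun z _ => ?_
  rw [sum_congr rfl fun y hy => congrArg g (mem_filter.1 hy).2, sum_const, nsmul_eq_mul]
  split_ifs with hz
  · rw [filter_false_of_mem fun y _ e => (h z).2 ⟨y, e⟩ hz]
    simp
  · congr 2
    exact AddMonoidHom.card_fiber_eq_of_mem_range (AddMonoidHom.mulLeft π) ((h z).1 hz)
      ⟨0, map_zero _⟩

theorem card3 {R : Type} [Fintype R] (P : (Fin 3 → R) → Prop) [DecidablePred P] :
    (Nat.card {x // P x} : ℚ) = ∑ a, ∑ b, ∑ c, if P ![a, b, c] then 1 else 0 := by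
  rw [Nat.card_eq_fintype_card, Fintype.card_subtype, natCast_card_filter,
    ← (⟨fun t => ![t.1, t.2.1, t.2.2], fun x => (x 0, x 1, x 2), fun _ => rfl,
      fun x => funext fun i => by fin_cases i <;> rfl⟩ : R × R × R ≃ (Fin 3 → R)).sum_comp]
  simp only [Fintype.sum_prod_type]
  rfl

omit [DecidablePred (IsUnit : R → Prop)] in
theorem card2 (f : P3) (v : Fin 3 → P2 ℤ) (w : R → R → Fin 3 → R)
    (h : ∀ a b l, aeval ![a, b] (v l) = w a b l) :
    (Nat.card {x : Fin 2 → R // aeval x (aeval v f) = 0} : ℚ) =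
      ∑ a, ∑ b, if e3 (w a b) f = 0 then 1 else 0 := by
  rw [Nat.card_eq_fintype_card, Fintype.card_subtype, natCast_card_filter,
    ← (finTwoArrowEquiv R).symm.sum_comp, Fintype.sum_prod_type]
  refine sum_congr rfl fun a _ => sum_congr rfl fun b _ => ?_
  rw [aeval_eq_e3 v, show w a b = _ from (funext (h a b)).symm]
  exact if_congr (Eq.congr_left (e3_map (aeval ![a, b] : P2 ℤ →ₐ[ℤ] R).toRingHom v f)) rfl rfl

theorem main {f : P3} {d : ℕ} (hf : f.IsHomogeneous d) {π : R} {c : ℚ}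
    (hc : ∀ g : R → ℚ, ∑ y, g (π * y) = c * ∑ z, if IsUnit z then 0 else g z) :
    c ^ 2 * Nat.card {x : Fin 3 → R // aeval x f = 0 ∧ ∃ i, IsUnit (x i)} =
      (∑ u : R, if IsUnit u then 1 else 0) *
        (c ^ 2 * (∑ a : R, ∑ b, if e3 ![a, b, 1] f = 0 then 1 else 0) +
          c * (∑ a : R, ∑ b, if e3 ![a, 1, π * b] f = 0 then 1 else 0) +
          ∑ a : R, ∑ b, if e3 ![1, π * a, π * b] f = 0 then 1 else 0) := by
  obtain ⟨φ, hφ⟩ : ∃ φ : R → R → R → ℚ, ∀ a b e, (if e3 ![a, b, e] f = 0 then 1 else 0) =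
    φ a b e := ⟨_, fun _ _ _ => rfl⟩
  have h : ∀ u a b e, IsUnit u → φ (u * a) (u * b) (u * e) = φ a b e := fun u a b e hu => by
    rw [← hφ, ← hφ, show ![u * a, u * b, u * e] = fun l => u * ![a, b, e] l from
      funext fun i => by fin_cases i <;> rfl, e3_hom hf]
    exact if_congr (hu.pow d).mul_right_eq_zero rfl rfl
  have h1 := sc (fun u a b => φ a b u) fun u a b hu => by simpa using h u a b 1 hu
  have h2 := sc (fun u a b => if IsUnit b then 0 else φ a u b) fun u a b hu => by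
    simpa [hu] using congrArg (ite (IsUnit b) 0) (h u a 1 b hu)
  have h3 := sc (fun u a b => if IsUnit a then 0 else if IsUnit b then 0 else φ u a b)
    fun u a b hu => by
      simpa [hu] using congrArg (fun t => ite (IsUnit a) 0 (ite (IsUnit b) 0 t)) (h u 1 a b hu)
  have e2 : ∑ a, ∑ b, φ a 1 (π * b) = c * ∑ a, ∑ b, if IsUnit b then 0 else φ a 1 b := by
    rw [mul_sum]
    exact sum_congr rfl fun a _ => hc _
  have e3' : ∑ a, ∑ b, φ 1 (π * a) (π * b) =
      c ^ 2 * ∑ a, ∑ b, if IsUnit a then 0 else if IsUnit b then 0 else φ 1 a b := by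
    rw [hc fun a => ∑ b, φ 1 a (π * b), pow_two, mul_assoc]
    congr 1
    rw [mul_sum]
    refine sum_congr rfl fun a _ => ?_
    split_ifs
    · simp
    · exact hc _
  rw [sum_comm] at h2
  replace h1 := (sum_comm.trans (sum_congr rfl fun _ _ => sum_comm)).symm.trans h1
  simp only [hφ]
  rw [e2, e3', card3]
  refine (congrArg _ (Eq.trans ?_ (congrArg₂ (· + ·) (congrArg₂ (· + ·) h1 h2) h3))).trans (by ring)
  simp only [← sum_add_distrib]
  refine sum_congr rfl fun a _ => sum_congr rfl fun b _ => sum_congr rfl fun e _ => ?_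
  rw [← hφ, aeval_eq_e3]
  by_cases a1 : IsUnit a <;> by_cases a2 : IsUnit b <;> by_cases a3 : IsUnit e <;>
    simp [Fin.exists_fin_succ, a1, a2, a3]

end CAX

open CAX Finset Classical in
theorem rowCA : SCA := by
  intro f d p m hp hf
  have : NeZero (p ^ (m + 1)) := ⟨pow_ne_zero _ hp.ne_zero⟩
  have hu : ∀ n : ℕ, ¬IsUnit (n : ZMod (p ^ (m + 1))) ↔ p ∣ n := fun n => by
    rw [ZMod.isUnit_iff_coprime, Nat.coprime_pow_right_iff m.succ_pos, Nat.coprime_comm,
      hp.coprime_iff_not_dvd, not_not]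
  obtain ⟨c, hc⟩ := fib (π := (p : ZMod (p ^ (m + 1)))) fun z => ⟨fun h => by
      obtain ⟨y, hy⟩ := (hu z.val).1 (by simpa using h)
      exact ⟨y, by rw [← Nat.cast_mul, ← hy, ZMod.natCast_zmod_val]⟩,
    fun ⟨y, hy⟩ h => (hu p).2 dvd_rfl (isUnit_of_mul_isUnit_left (hy ▸ h))⟩
  have h1 : (∑ u : ZMod (p ^ (m + 1)), if IsUnit u then 1 else 0 : ℚ) = p ^ (m + 1) - p ^ m := by
    have e := ZMod.card_units_eq_totient (p ^ (m + 1))
    rw [Nat.totient_prime_pow_succ hp, Fintype.card_congr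
      (⟨fun u => ⟨u, u.isUnit⟩, fun u => u.2.unit, fun u => u.isUnit.unit_of_val_units,
        fun _ => rfl⟩ : (ZMod (p ^ (m + 1)))ˣ ≃ {u : ZMod (p ^ (m + 1)) // IsUnit u}), Fintype.card_subtype] at e
    rw [← natCast_card_filter, e, Nat.cast_mul, Nat.cast_pred hp.pos, Nat.cast_pow]
    ring
  have h2 : (∑ u : ZMod (p ^ (m + 1)), if IsUnit u then 0 else 1 : ℚ) = p ^ m := by
    have : (∑ u : ZMod (p ^ (m + 1)), if IsUnit u then 1 else 0 : ℚ) +
        ∑ u : ZMod (p ^ (m + 1)), (if IsUnit u then 0 else 1 : ℚ) = p ^ (m + 1) := by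
      rw [← sum_add_distrib]
      simp [ite_add_ite]
    linarith
  obtain rfl : (p : ℚ) = c := by
    have := hc fun _ => 1
    rw [h2, sum_const, card_univ, ZMod.card, nsmul_one, Nat.cast_pow, pow_succ'] at this
    exact mul_right_cancel₀ (pow_ne_zero _ (Nat.cast_ne_zero.2 hp.ne_zero)) this
  rw [main hf hc, h1]
  congr 3
  · exact congrArg _ (card2 f _ _ fun a b l => by fin_cases l <;> simp).symm
  · exact congrArg _ (card2 f _ _ fun a b l => by fin_cases l <;> simp).symm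
  · exact (card2 f _ _ fun a b l => by fin_cases l <;> simp).symm

end Pool.Agent.MP_5d9b3c_ag.H59
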