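import Pool.Agent.MP_5d9b3c_ag.H59.Spec

/-!
A degree count at the line at infinity.
-/

set_option autoImplicit false

namespace Pool.Agent.MP_5d9b3c_ag.H59

open MvPolynomial

namespace DEGX

variable {k K : Type} [Field k] [Field K] [Algebra k K]

theorem ev_hom {x : K} (hx : x ≠ 0) (y : K) {Q : P2 k} {n : ℕ} (hQ : Q.IsHomogeneous n) :
    ev k (x, y) Q =
      x ^ n * Polynomial.aeval (y / x) (aeval (![1, Polynomial.X] : Fin 2 → Polynomial k) Q) := by
  rw [← AlgHom.comp_apply, comp_aeval, ev, aeval_def, aeval_def, eval₂_eq', eval₂_eq',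
    Finset.mul_sum]
  refine Finset.sum_congr rfl fun s hs => ?_
  have h := hQ (mem_support_iff.1 hs)
  rw [Finsupp.weight_apply, Finsupp.sum_fintype _ _ (by simp)] at h
  simp only [Pi.one_apply, smul_eq_mul, mul_one, Fin.sum_univ_two] at h
  simp [← h, pow_add, div_pow]
  field_simp

theorem val_ev (hE : SE k K) (B : Bx k K) {V : ValuationSubring K}
    (hV : IsE k (B.x⁻¹, B.y / B.x) V) (hx : 1 < V.valuation B.x) {P : P2 k} (hP : P ≠ 0) :
    ∃ e ≤ P.totalDegree, V.valuation (ev k (B.x, B.y) P) = V.valuation B.x ^ e := by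
  have key : ∀ n, ∑ i ∈ Finset.range n, homogeneousComponent i P = 0 ∨ ∃ e < n,
      V.valuation (ev k (B.x, B.y) (∑ i ∈ Finset.range n, homogeneousComponent i P)) =
        V.valuation B.x ^ e := fun n => by
    induction n with
    | zero => simp
    | succ n ih =>
      rw [Finset.sum_range_succ]
      by_cases h0 : homogeneousComponent n P = 0
      · rw [h0, add_zero]
        exact ih.imp_right fun ⟨e, h1, h2⟩ => ⟨e, h1.trans n.lt_succ_self, h2⟩
      have h1 := ev_hom B.x_ne B.y (homogeneousComponent_isHomogeneous n P)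
      have h2 : V.valuation (ev k (B.x, B.y) (homogeneousComponent n P)) =
          V.valuation B.x ^ n := by
        rw [h1, map_mul, map_pow, hE.pol _ V _ hV fun h => B.fr.ne h0 (by simp [h1, h]), mul_one]
      refine Or.inr ⟨n, n.lt_succ_self, ?_⟩
      rw [map_add, Valuation.map_add_eq_of_lt_right, h2]
      rw [h2]
      rcases ih with h | ⟨e, h3, h4⟩
      · simpa [h] using pow_pos (zero_lt_one.trans hx) n
      · exact h4 ▸ pow_lt_pow_right₀ hx h3
  have := key (P.totalDegree + 1)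
  rw [sum_homogeneousComponent] at this
  obtain ⟨e, h1, h2⟩ := this.resolve_left hP
  exact ⟨e, by omega, h2⟩

end DEGX

theorem rowDEG : OfDEG := by
  intro k K _ _ _ _ hN hE hF B s σ A m E hs hσ hm hlt h1 h2
  by_contra hA
  obtain ⟨P, hP⟩ := hN.poly B _ h1
  obtain ⟨V, hV⟩ := hE.ex _ (hF.inf B)
  have hx : 1 < V.valuation B.x := by
    have h := hV.2.1
    rwa [map_inv₀, inv_lt_one₀ (by simpa [pos_iff_ne_zero] using B.x_ne)] at h
  obtain ⟨e, -, he⟩ := DEGX.val_ev hE B hV hx (P := P) (by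
    rintro rfl
    exact mul_ne_zero (pow_ne_zero _ (mul_ne_zero (B.fr.ne hs) hA)) hσ (hP.trans (map_zero _)))
  obtain ⟨e', h3, he'⟩ := DEGX.val_ev hE B hV hx hs
  have h4 : ev k (B.x, B.y) P * B.x ^ E = ev k (B.x, B.y) s ^ m * (A ^ m * σ * B.x ^ E) := by
    rw [← hP]
    ring
  have h5 := congrArg V.valuation h4
  rw [map_mul, map_mul, map_pow, map_pow, he, he', ← pow_add, ← pow_mul] at h5
  have h6 := (pow_le_pow_iff_right₀ hx).1
    (h5.trans_le (mul_le_of_le_one_right' ((V.valuation_le_one_iff _).2 (h2 V hV))))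
  nlinarith

end Pool.Agent.MP_5d9b3c_ag.H59
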