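import Pool.Agent.MP_5d9b3c_ag.H59.Spec

/-!
Two different points of a blown-up plane are not both dominated by the same valuation ring.
-/

namespace Pool.Agent.MP_5d9b3c_ag.H59

open MvPolynomial

namespace TWX

variable {k K : Type} [Field k] [Field K] [Algebra k K]

theorem mem1 {φ : K × K} {V : ValuationSubring K} (h : Sub k φ V) : φ.1 ∈ V := by
  simpa using h _ (ev_mem_Lo φ (X 0))

theorem mem2 {φ : K × K} {V : ValuationSubring K} (h : Sub k φ V) : φ.2 ∈ V := by
  simpa using h _ (ev_mem_Lo φ (X 1))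

theorem lt_mul {V : ValuationSubring K} {w z : K} (hw : V.valuation w < 1) (hz : z ∈ V) :
    V.valuation (w * z) < 1 := by
  rw [map_mul]
  exact (mul_le_of_le_one_right' ((V.valuation_le_one_iff _).2 hz)).trans_lt hw

/-- a polynomial with nonzero constant term is a unit -/
theorem key (T : STR k K) {ψ : K × K} {V : ValuationSubring K} (hψ : IsFr k ψ) (h : Sub k ψ V)
    (a : P2 k) (ha : constantCoeff a ≠ 0) {w z : K} (hw : V.valuation w < 1) (hz : z ∈ V)
    (e : ev k ψ a = w * z) : False := by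
  have h1 := T.unit ψ V a hψ h ha
  rw [e] at h1
  exact (lt_mul hw hz).ne h1

/-- two different translates -/
theorem shift (T : STR k K) {ψ : K × K} {V : ValuationSubring K} (hψ : IsFr k ψ) (h : Sub k ψ V)
    (i : Fin 2) {t : K} {a b : k} (hab : a ≠ b) (e : ev k ψ (X i) = t - algebraMap k K b)
    (hw : V.valuation (t - algebraMap k K a) < 1) : False := by
  refine key T hψ h (X i + C (b - a)) (by simpa [sub_eq_zero] using hab.symm) hw V.one_mem ?_
  rw [map_add, e, ev_C, map_sub]
  ring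

/-- a translate and the inverse -/
theorem flip (T : STR k K) {ψ : K × K} {V : ValuationSubring K} (hψ : IsFr k ψ) (h : Sub k ψ V)
    (i : Fin 2) {t : K} (ht : t ≠ 0) {a : k} (e : ev k ψ (X i) = t⁻¹)
    (hw : V.valuation (t - algebraMap k K a) < 1) : False := by
  refine key T hψ h (1 - C a * X i) (by simp) hw (e ▸ h _ (ev_mem_Lo ψ (X i))) ?_
  rw [map_sub, map_mul, e, ev_C, map_one]
  field_simp

/-- the inverse and a translate -/
theorem flop {V : ValuationSubring K} (hk : HasK k V) {t : K} (ht : t ≠ 0) {a : k}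
    (h : t - algebraMap k K a ∈ V) (hw : V.valuation t⁻¹ < 1) : False := by
  have h1 : t ∈ V := by simpa using add_mem h (hk a)
  have h2 := lt_mul hw h1
  rw [inv_mul_cancel₀ ht, map_one] at h2
  exact lt_irrefl _ h2

theorem two (F : SFR k K) (T : STR k K) (φ : K × K) (c c' : Option k) (V : ValuationSubring K)
    (hφ : IsFr k φ) (hc : c ≠ c') (h : Sub k (child k φ c) V) (h' : Sub k (child k φ c') V) :
    Thru k (child k φ c) V := by
  refine ⟨h, fun ⟨_, h2⟩ => ?_⟩
  have hf := F.child φ c' hφ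
  have ht : φ.2 / φ.1 ≠ 0 := div_ne_zero (F.ne φ hφ).2 (F.ne φ hφ).1
  rcases c with _ | a <;> rcases c' with _ | b
  · exact hc rfl
  · exact flop h.hasK ht (mem2 h') (by simpa [child] using h2)
  · exact flip T hf h' 1 ht (by simp [child]) h2
  · exact shift T hf h' 1 (fun e => hc (congrArg some e)) (by simp [child]) h2

theorem twor (F : SFR k K) (T : STR k K) (B : Bx k K) (p p' : Root k) (V : ValuationSubring K)
    (hp : p ≠ p') (h : Sub k (B.rt p) V) (h' : Sub k (B.rt p') V) : Thru k (B.rt p) V := by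
  refine ⟨h, fun ⟨h1, h2⟩ => ?_⟩
  have hf := F.rt B p'
  have ht : B.y / B.x ≠ 0 := div_ne_zero B.y_ne B.x_ne
  rcases p with c | _ | a <;> rcases p' with c' | _ | b
  · by_cases e : c.1 = c'.1
    · exact shift T hf h' 1 (fun e' => hp (congrArg Sum.inl (Prod.ext e e')))
        (by simp [Bx.rt, root]) h2
    · exact shift T hf h' 0 e (by simp [Bx.rt, root]) h1
  · exact flip T hf h' 0 B.y_ne (by simp [Bx.rt, root]) h2
  · exact flip T hf h' 0 B.x_ne (by simp [Bx.rt, root]) h1
  · exact flop h.hasK B.y_ne (mem2 h') h1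
  · exact hp rfl
  · exact flop h.hasK ht (mem2 h') (by simpa [Bx.rt, root] using h2)
  · exact flop h.hasK B.x_ne (mem1 h') h1
  · exact flip T hf h' 1 ht (by simp [Bx.rt, root]) h2
  · exact shift T hf h' 1 (fun e => hp (congrArg (fun c => Sum.inr (some c)) e))
      (by simp [Bx.rt, root]) h2

theorem mx (B : Bx k K) (p : Root k) (l : Fin 3) :
    B.XX l / B.XX (chi p) ∈ Lo k (B.rt p) := by
  have h0 : (B.rt p).1 ∈ Lo k (B.rt p) := by simpa using ev_mem_Lo (B.rt p) (X 0 : P2 k)
  have h1 : (B.rt p).2 ∈ Lo k (B.rt p) := by simpa using ev_mem_Lo (B.rt p) (X 1 : P2 k)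
  have h2 : ∀ (t : K) (c : k), t - algebraMap k K c ∈ Lo k (B.rt p) → t ∈ Lo k (B.rt p) :=
    fun t c h => by simpa using add_mem h (Subalgebra.algebraMap_mem _ c)
  by_cases hl : l = chi p
  · rw [hl, div_self (B.XX_ne _)]
    exact one_mem _
  rcases p with c | _ | a <;> fin_cases l
  · exact absurd rfl hl
  · simpa [chi] using h2 _ _ h0
  · simpa [chi] using h2 _ _ h1
  · simpa [chi, Bx.rt, root] using h0
  · simpa [chi, Bx.rt, root] using h1
  · exact absurd rfl hl
  · simpa [chi, Bx.rt, root] using h0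
  · exact absurd rfl hl
  · simpa [chi] using h2 _ _ h1

theorem tau (F : SFR k K) (T : STR k K) (B : Bx k K) (p : Root k) (V : ValuationSubring K)
    (h : Thru k (B.rt p) V) :
    ∃ l, ∀ c : k, V.valuation (B.XX l / B.XX (chi p) - algebraMap k K c) = 1 := by
  have h1 : ∀ z ∈ V, ∀ c : k, ¬ V.valuation (z - algebraMap k K c) < 1 →
      V.valuation (z - algebraMap k K c) = 1 := fun z hz c hc =>
    le_antisymm ((V.valuation_le_one_iff _).2 (sub_mem hz (h.1.hasK c))) (not_lt.1 hc)
  have h2 : (∀ c : k, V.valuation ((B.rt p).1 - algebraMap k K c) = 1) ∨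
      ∀ c : k, V.valuation ((B.rt p).2 - algebraMap k K c) = 1 := by
    by_cases h3 : ∃ a : k, V.valuation ((B.rt p).1 - algebraMap k K a) < 1
    · obtain ⟨a, ha⟩ := h3
      exact Or.inr fun b => h1 _ (mem2 h.1) b fun hb => T.nc _ V a b (F.rt B p) h ⟨ha, hb⟩
    · exact Or.inl fun a => h1 _ (mem1 h.1) a fun ha => h3 ⟨a, ha⟩
  have h4 : ∀ (t : K) (a : k), (∀ c : k, V.valuation (t - algebraMap k K a - algebraMap k K c) = 1) →
      ∀ c : k, V.valuation (t - algebraMap k K c) = 1 := fun t a ht c => by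
    simpa using ht (c - a)
  rcases p with c | _ | a <;> rcases h2 with h2 | h2
  · exact ⟨1, by simpa [chi] using h4 _ _ h2⟩
  · exact ⟨2, by simpa [chi] using h4 _ _ h2⟩
  · exact ⟨0, by simpa [chi, Bx.rt, root] using h2⟩
  · exact ⟨1, by simpa [chi, Bx.rt, root] using h2⟩
  · exact ⟨0, by simpa [chi, Bx.rt, root] using h2⟩
  · exact ⟨2, by simpa [chi] using h4 _ _ h2⟩

end TWX

theorem rowTW : OfTW := by
  intro k K _ _ _ _ F T
  refine ⟨TWX.two F T, TWX.twor F T, TWX.mx, fun B L p y V hL hy hV => ?_, TWX.tau F T⟩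
  have h : Sub k (B.rt p) V := fun z hz => hV z ((T.down _ _ y (F.rt B p) (hL p) hy).2.1 hz)
  exact ⟨h, fun l => h _ (TWX.mx B p l)⟩

end Pool.Agent.MP_5d9b3c_ag.H59
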