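import Pool.Agent.MP_5d9b3c_ag.H59.Spec

/-!
All points of the three charts are resolved over one finitely generated ring.
-/

namespace Pool.Agent.MP_5d9b3c_ag.H59

open MvPolynomial

theorem rowTop : OfTop := by
  intro hS hG hI f h m n hL hn h0
  have one : ∀ i, ∃ j, cht ℂ i j = 1 := fun i => ⟨i, by fin_cases i <;> rfl⟩
  have ne : ∀ i, e3 (cht ℂ i) (f * h) ≠ 0 := fun i => e3_ne hn h0 i fun x hx => by
    fin_cases i
    · exact ⟨![x 1, x 2], fun l => by fin_cases l <;> simp_all [cht]⟩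
    · exact ⟨![x 0, x 2], fun l => by fin_cases l <;> simp_all [cht]⟩
    · exact ⟨![x 0, x 1], fun l => by fin_cases l <;> simp_all [cht]⟩
  have mp : ∀ (A : Subring ℂ) i l, map A.subtype (cht A i l) = cht ℂ i l := fun A i l => by
    fin_cases i <;> fin_cases l <;> simp [cht]
  have key : ∀ i, ∃ M, ∀ᶠ A : Subring ℂ in FF, ∀ (k : Type) [Field k] (r : A →+* k) c,
      PT f h m M r (cht A i) c := fun i => by
    obtain ⟨M, S, h1⟩ := hG f h m _ hL (one i) (ne i)
    choose N hN using fun c => hI f h m _ c hL (one i) (ne i)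
    refine ⟨max M ((Fintype.piFinset fun _ => S).sup N), ?_⟩
    filter_upwards [h1, (Filter.eventually_all_finset (Fintype.piFinset fun _ => S)).2
      fun c _ => hN c] with A a b k _ r c
    obtain e | ⟨cA, e, rfl⟩ := a _ (mp A i) k r c
    · exact hS.mono _ _ _ _ _ _ _ _ _ _ (le_max_left _ _) e
    · have := Fintype.mem_piFinset.2 e
      exact hS.mono _ _ _ _ _ _ _ _ _ _ (le_max_of_le_right (Finset.le_sup this))
        (b _ this _ cA (mp A i) (fun _ => rfl) k r)
  choose M hM using key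
  obtain ⟨S, h1⟩ := hS.fin _ (Filter.eventually_all.2 hM)
  exact ⟨Finset.univ.sup M, S, fun k _ r i c =>
    hS.mono _ _ _ _ _ _ _ _ _ _ (Finset.le_sup (Finset.mem_univ i)) (h1 i k r c)⟩

end Pool.Agent.MP_5d9b3c_ag.H59
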