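import Pool.Agent.MP_5d9b3c_ag.H59.Spec

/-!
Sections whose covariant derivatives lie in the lattice lie in the lattice.
-/

namespace Pool.Agent.MP_5d9b3c_ag.H59

namespace UX

variable {k K : Type} [Field k] [Field K] [Algebra k K] {V : ValuationSubring K}

theorem val_one {a b : K} (h : V.valuation (a - b) < 1) (hb : V.valuation b = 1) :
    V.valuation a = 1 := by
  rw [← sub_add_cancel a b, Valuation.map_add_eq_of_lt_right _ (hb ▸ h), hb]

/-- the logarithmic derivation along a component of the curve -/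
theorem setup (h2 : SDer k K) (h5 : SLf k K) (h6 : SRes k K) {B : Bx k K} {N : Nm} {y : K × K}
    {i : Fin 3} {z : Fin 2 → K} {a : Fin 2 → ℕ} (hL : B.Leaf N y i z a) (hV : Thru k y V)
    (hf : V.valuation (B.hat i N.f) < 1) : ∃ (j : Fin 2) (n H : ℕ), 0 < a j ∧
      V.valuation (z j) < 1 ∧ 0 < n ∧ n + H ≤ N.M ∧
      V.valuation (B.hat i N.f) = V.valuation (z j) ^ n ∧
      V.valuation (B.hat i N.h) = V.valuation (z j) ^ H ∧ ∀ x (ν : ℤ),
        V.valuation x = V.valuation (z j) ^ ν → V.valuation (B.th z a j x / x - ν) < 1 := by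
  have hm := hL.mxV hV.1
  obtain ⟨j, a0, hj⟩ := (h5.bd B N y i z a V hL hV).1 (hm.bd_iff.2 (by
    rw [B.hat_mul, map_mul]
    exact (mul_le_of_le_one_right' ((V.valuation_le_one_iff _).2 (hm.hat_mem _))).trans_lt hf))
  obtain ⟨n, H, e1, e2, e3⟩ := h5.ord B N y i z a V j hL hV hj
  refine ⟨j, n, H, a0, hj, Nat.pos_of_ne_zero fun h => ?_, e1 ▸ hL.le j, e2, e3, fun x ν hx => ?_⟩
  · rw [e2, h, pow_zero] at hf
    exact lt_irrefl _ hf
  · have := h6.res V _ (z j) x ν (h5.pres B N y i z a V hL hV j)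
      (by rw [h2.dual B z j j hL.jac, if_pos rfl]) hj hx
    rwa [Bx.th, min_eq_right a0, pow_one, Derivation.smul_apply, smul_eq_mul]

theorem int_ne {l : ℕ} (hl : CharP K l) {c : ℤ} (h0 : 0 < c) (h : c < l) : (c : k) ≠ 0 :=
  fun e => by
    have h1 : (c : K) = 0 := by rw [← map_intCast (algebraMap k K), e, map_zero]
    exact absurd (Int.le_of_dvd h0 ((CharP.intCast_eq_zero_iff K l c).1 h1)) (not_le.2 h)

end UX

open UX in
theorem rowU : OfU := by
  intro k K _ _ _ _ h1 h2 h3 h4 h5 h6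
  refine ⟨fun B N lam l y i z a V u hl hM hd hL hV hf hu => ?_,
    fun B N lam l K1 p y z a V u hl hM hd hL hV hp hu hD => ?_⟩
  · obtain ⟨j, n, H, a0, hj, n0, hn, e1, -, hr⟩ := setup h2 h5 h6 hL hV hf
    have hlog := h5.log B N y i z a V j hL hV
    have v1 : V.valuation (B.th z a j (B.hat i N.f) / B.hat i N.f) = 1 := by
      refine val_one (hr _ n (by rw [e1, zpow_natCast])) ?_
      rw [← map_intCast (algebraMap k K)]
      exact hV.1.hasK.val (int_ne hl (by omega) (by omega))
    have key : ∀ r m, u.natDegree < m + r → B.Lam N 1 V (u.coeff m) := fun r => by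
      induction r with
      | zero =>
        intro m hm
        rw [Polynomial.coeff_eq_zero_of_natDegree_lt (by omega)]
        exact Bx.Lg.zero N.m0
      | succ r ih =>
        intro m hm
        have b1 := h4.stn B N lam V _ _ (h5.nz B N y i z a hL).1 hd hV.1.hasK
          (h1.dv y V hL.fr hV) hlog (ih (m + 1) (by omega))
        have b2 := Bx.Lg.sub (hu _ hlog (m + 1)) b1
        rw [Bx.coeff_nabP_succ, add_sub_cancel_left] at b2
        exact b2.mono (by rw [map_mul, v1, one_mul])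
    exact fun m => key (u.natDegree + 1) m (by omega)
  have hm := hL.mxV hV.1
  have hw := B.XX_ne (chi p)
  have div : ∀ {u u' : K}, V.valuation (u' / B.XX (chi p) ^ 3) =
      V.valuation (u / B.XX (chi p) ^ 3) → B.Lam N 1 V u' → B.Lam N 1 V u := fun h h' => h'.mono (by
    rw [map_div₀, map_div₀, div_left_inj' (by simpa using hw)] at h
    exact h.ge)
  by_cases hf : V.valuation (B.hat (chi p) N.f) < 1
  swap
  · refine hu.mono ?_
    rw [map_mul, map_pow, le_antisymm ((V.valuation_le_one_iff _).2 (hm.hat_mem _)) (not_lt.1 hf),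
      one_pow, one_mul]
  obtain ⟨j, n, H, a0, hj, n0, hn, e1, e2, hr⟩ := setup h2 h5 h6 hL hV hf
  obtain ⟨hU, hj'⟩ := h5.unif B N y _ z a V j hL hV hj
  obtain ⟨hN, z0⟩ := h5.nz B N y _ z a hL
  obtain ⟨c, c0, hc⟩ := h6.lat B N V _ (z j) n H hm hU e1 e2
  have t0 : V.valuation (z j) ≠ 0 := by simpa using z0 j
  have c1 : c ≤ 1 := by
    have b1 := (hc _).1 (h5.nu B N y _ z a V hL hV)
    have b2 := (V.valuation_le_one_iff _).2
      (h3.rt B p V (z 0) (z 1) hp (hV.1 _ (hL.mem 0)) (hV.1 _ (hL.mem 1)))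
    have b3 : V.valuation (z 0 ^ min (a 0) 1 * z 1 ^ min (a 1) 1) = V.valuation (z j) := by
      rw [map_mul, map_pow, map_pow]
      obtain rfl | rfl : j = 0 ∨ j = 1 := by omega
      · rw [hj' 1 (by decide), min_eq_right a0]
        simp
      · rw [hj' 0 (by decide), min_eq_right (a := a 1) a0]
        simp
    have b4 : (B.th z a 0 B.x * B.th z a 1 B.y - B.th z a 1 B.x * B.th z a 0 B.y) /
        B.XX (chi p) ^ 3 * (B.XX (chi p) ^ 3 * B.jac ![z 0, z 1]) =
        z 0 ^ min (a 0) 1 * z 1 ^ min (a 1) 1 := by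
      have b5 := h2.om B z hL.jac
      have b6 := hL.jac
      simp only [Bx.th, Derivation.smul_apply, smul_eq_mul]
      rw [show B.jac ![z 0, z 1] = B.jac z from rfl]
      field_simp at b5 ⊢
      linear_combination z 0 ^ min (a 0) 1 * z 1 ^ min (a 1) 1 * b5
    rw [← h1.zle V (z j) 1 c hU, zpow_one]
    refine (b3.symm.trans ((congrArg _ b4.symm).trans (map_mul _ _ _))).le.trans ?_
    exact (mul_le_of_le_one_right' b2).trans b1
  by_contra hu0
  have u0 : u / B.XX (chi p) ^ 3 ≠ 0 :=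
    div_ne_zero (fun h => hu0 (h ▸ Bx.Lg.zero N.m0)) (pow_ne_zero _ hw)
  obtain ⟨ν, hν⟩ := hU.2.2 _ u0
  have v1 : ν < c := by rwa [hc, hν, h1.zle V _ _ _ hU, not_le] at hu0
  have v2 : c ≤ n * K1 + ν := by
    rw [← h1.zle V _ _ _ hU, zpow_add₀ t0, ← hν, zpow_mul, zpow_natCast, zpow_natCast, ← e1,
      ← map_pow, ← map_mul, ← mul_div_assoc]
    exact (hc _).1 hu
  have v3 : (ν : k) - lam * n ≠ 0 := fun h => by
    refine int_ne (k := k) hl (c := 3 * n - N.d * ν) (by nlinarith) ?_ ?_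
    · have b1 : (n : ℤ) + H ≤ N.M := by exact_mod_cast hn
      have b2 : ((N.d : ℤ) * (K1 + 1) + 3) * N.M < l := by exact_mod_cast hM
      have b3 : -ν ≤ (K1 + 1) * N.M := by nlinarith
      nlinarith [mul_le_mul_of_nonneg_left b3 (Int.natCast_nonneg N.d)]
    · push_cast
      linear_combination -(N.d : k) * h - n * hd
  refine hu0 (div ?_ (hD _ (h5.log B N y _ z a V j hL hV)))
  have v4 := hr _ ν hν
  have v5 := hr _ n (by rw [e1, zpow_natCast])
  rw [h4.nabw B N lam _ (chi p) u hN hd]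
  generalize B.th z a j (B.hat (chi p) N.f) / B.hat (chi p) N.f = δ at v5
  have v6 : V.valuation (B.th z a j (u / B.XX (chi p) ^ 3) / (u / B.XX (chi p) ^ 3) -
      algebraMap k K lam * δ) = 1 := by
    refine val_one ?_ (hV.1.hasK.val v3)
    have b1 : V.valuation (algebraMap k K lam * (δ - (n : ℤ))) < 1 := by
      rw [map_mul]
      exact (mul_le_of_le_one_left' ((V.valuation_le_one_iff _).2 (hV.1.hasK lam))).trans_lt v5
    convert V.valuation.map_sub_lt v4 b1 using 2
    simp only [map_sub, map_mul, map_intCast, map_natCast, Int.cast_natCast]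
    ring
  rw [← mul_one (V.valuation (u / _)), ← v6, ← map_mul]
  have u1 := (div_ne_zero_iff.1 u0).1
  congr 1
  field_simp

end Pool.Agent.MP_5d9b3c_ag.H59
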