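import Pool.Agent.MP_5d9b3c_ag.H59.Spec

/-!
Witt vectors of length two.
-/

namespace Pool.Agent.MP_5d9b3c_ag.H59

open MvPolynomial

namespace W2X

variable {l : ℕ} [hl : Fact l.Prime]

theorem gh {A : Type} [CommRing A] (x : WittVector l A) :
    WittVector.ghostComponent 1 x = l * x.coeff 1 + x.coeff 0 ^ l := by
  simp [WittVector.ghostComponent_apply, wittPolynomial_one]

theorem lift {A : Type} [CommRing A] (x y : WittVector l A) :
    ∃ (f : MvPolynomial A ℤ →+* A) (x' y' : WittVector l (MvPolynomial A ℤ)),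
      WittVector.map f x' = x ∧ WittVector.map f y' = y := by
  have h := WittVector.map_surjective (p := l) (eval₂Hom (Int.castRingHom A) id)
    fun a => ⟨X a, by simp⟩
  obtain ⟨x', hx⟩ := h x
  obtain ⟨y', hy⟩ := h y
  exact ⟨_, x', y', hx, hy⟩

theorem mul1 {A : Type} [CommRing A] (x y : WittVector l A) : (x * y).coeff 1 =
    x.coeff 0 ^ l * y.coeff 1 + y.coeff 0 ^ l * x.coeff 1 + l * (x.coeff 1 * y.coeff 1) := by
  obtain ⟨f, x, y, rfl, rfl⟩ := lift x y
  have h := (WittVector.ghostComponent 1).map_mul x y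
  rw [gh, gh, gh, WittVector.mul_coeff_zero, mul_pow] at h
  have : (x * y).coeff 1 =
      x.coeff 0 ^ l * y.coeff 1 + y.coeff 0 ^ l * x.coeff 1 + l * (x.coeff 1 * y.coeff 1) :=
    mul_left_cancel₀ (Nat.cast_ne_zero.2 hl.out.ne_zero) (by linear_combination h)
  simp only [← map_mul, WittVector.map_coeff, this, map_add, ← map_pow]
  simp

theorem add1 {c : P3} (hc : (l : P3) * c = X 0 ^ l + X 1 ^ l - (X 0 + X 1) ^ l) {A : Type} [CommRing A]
    (x y : WittVector l A) :
    (x + y).coeff 1 = x.coeff 1 + y.coeff 1 + e3 ![x.coeff 0, y.coeff 0, 0] c := by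
  obtain ⟨f, x, y, rfl, rfl⟩ := lift x y
  have h := (WittVector.ghostComponent 1).map_add x y
  rw [gh, gh, gh, WittVector.add_coeff_zero] at h
  have h' := congrArg (e3 ![x.coeff 0, y.coeff 0, 0]) hc
  simp only [map_mul, map_natCast, map_sub, map_add, map_pow, e3_X, Matrix.cons_val] at h'
  have : (x + y).coeff 1 = x.coeff 1 + y.coeff 1 + e3 ![x.coeff 0, y.coeff 0, 0] c :=
    mul_left_cancel₀ (Nat.cast_ne_zero.2 hl.out.ne_zero) (by linear_combination h - h')
  rw [← map_add, WittVector.map_coeff, this, map_add, map_add, e3_map]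
  simp only [WittVector.map_coeff]
  congr 3
  funext i
  fin_cases i <;> simp

theorem der {c : P3} (hc : (l : P3) * c = X 0 ^ l + X 1 ^ l - (X 0 + X 1) ^ l) (i : Fin 3) :
    pderiv i c = X 0 ^ (l - 1) * pderiv i (X 0) + X 1 ^ (l - 1) * pderiv i (X 1) -
      (X 0 + X 1) ^ (l - 1) * (pderiv i (X 0) + pderiv i (X 1)) := by
  have h := congrArg (pderiv i) hc
  simp only [Derivation.leibniz, Derivation.map_natCast, map_sub, map_add, Derivation.leibniz_pow,
    smul_eq_mul, nsmul_eq_mul] at h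
  exact mul_left_cancel₀ (Nat.cast_ne_zero.2 hl.out.ne_zero) (by linear_combination h)

end W2X

open W2X in
theorem rowW2 : OfW2 := by
  intro k K _ _ _ _ l hl hK
  have := Fact.mk hl
  obtain ⟨r, hr⟩ := exists_add_pow_prime_eq hl (X 0 : P3) (X 1)
  obtain ⟨c, hc⟩ : ∃ c : P3, (l : P3) * c = X 0 ^ l + X 1 ^ l - (X 0 + X 1) ^ l :=
    ⟨-(X 0 * X 1 * r), by linear_combination hr⟩
  have sj := WittVector.truncate_surjective l 2 K
  let rd : TruncatedWittVector l 2 K →+* K := RingHom.liftOfSurjective _ sj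
    ⟨WittVector.constantCoeff, fun x hx => (WittVector.mem_ker_truncate 2 x).1 hx 0 two_pos⟩
  have h0 : ∀ x, rd (WittVector.truncate 2 x) = x.coeff 0 := fun x =>
    RingHom.liftOfRightInverse_comp_apply _ _ _ _ x
  have h1 : ∀ x : WittVector l K, (WittVector.truncate 2 x).coeff 1 = x.coeff 1 := fun x =>
    WittVector.coeff_truncate x 1
  refine ⟨TruncatedWittVector l 2 K, inferInstance, ⟨⟨rd, fun a => a.coeff 1,
    fun a b => e3 ![a, b, 0] c, fun a => WittVector.truncate 2 (WittVector.teichmuller l a),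
    fun a b => ?_, fun a b => ?_, fun S a b ha hb => e3_mem S (fun i => ?_) c, fun D a b => ?_,
    fun a => h0 _, fun a => (h1 _).trans (WittVector.teichmuller_coeff_pos l a 1 one_pos),
    fun a ha => ?_, ?_⟩⟩⟩
  · obtain ⟨x, rfl⟩ := sj a
    obtain ⟨y, rfl⟩ := sj b
    simp only [← map_mul, h0, h1, mul1, CharP.cast_eq_zero, zero_mul, add_zero]
  · obtain ⟨x, rfl⟩ := sj a
    obtain ⟨y, rfl⟩ := sj b
    simp only [← map_add, h0, h1, add1 hc]
  · fin_cases i
    exacts [ha, hb, zero_mem S]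
  · simp [der_e3, Fin.sum_univ_three, der hc, pderiv_X]
    ring
  · obtain ⟨x, rfl⟩ := sj a
    exact (WittVector.isUnit_of_coeff_zero_ne_zero x (h0 x ▸ ha)).map _
  · rw [← map_natCast (WittVector.truncate 2), ← map_pow]
    exact (WittVector.mem_ker_truncate 2 _).2 fun i hi => WittVector.coeff_p_pow_eq_zero l K hi.ne

end Pool.Agent.MP_5d9b3c_ag.H59
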