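import Pool.Agent.MP_5d9b3c_ag.H59.Kit

/-!
Interface statements. Every `OfX` is one task.
-/

namespace Pool.Agent.MP_5d9b3c_ag.H59

open MvPolynomial

/-! ### A. Frames and valuation rings -/

def SRL (k : Type) [Field k] : Prop :=
  ∀ π b : P2 k, Prime π → ¬ π ∣ b → ∀ i : Fin 2, ∃ (R : Polynomial k) (α β : P2 k),
    R.Monic ∧ Polynomial.aeval (X i : P2 k) R = α * π + β * b

section

variable (k K : Type) [Field k] [Field K] [Algebra k K]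

def SPL : Prop :=
  ∀ (P : Type) [CommRing P] [Algebra k P] (e : P →ₐ[k] K) (χ : P →ₐ[k] k)
    (V : ValuationSubring K), (∀ a, e a ∈ V) → (∀ a, V.valuation (e a) < 1 → χ a = 0) →
    ∃ W, W ≤ V ∧ ResK k W ∧ ∀ a, W.valuation (e a - algebraMap k K (χ a)) < 1

structure SFR : Prop where
  ne : ∀ φ : K × K, IsFr k φ → φ.1 ≠ 0 ∧ φ.2 ≠ 0
  tr : ∀ (φ : K × K) (a b : k), IsFr k φ →
    IsFr k (φ.1 - algebraMap k K a, φ.2 - algebraMap k K b)
  sw : ∀ φ : K × K, IsFr k φ → IsFr k (φ.2, φ.1)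
  div : ∀ φ : K × K, IsFr k φ → IsFr k (φ.1, φ.2 / φ.1)
  inv : ∀ φ : K × K, IsFr k φ → IsFr k (φ.1⁻¹, φ.2)
  child : ∀ (φ : K × K) (c : Option k), IsFr k φ → IsFr k (child k φ c)
  rt : ∀ (B : Bx k K) (p : Root k), IsFr k (B.rt p)
  inf : ∀ B : Bx k K, IsFr k (B.x⁻¹, B.y / B.x)

structure SST : Prop where
  st : ∀ (φ : K × K) V, IsFr k φ → Thru k φ V →
    (∀ z, z ∈ V) ∨ ∃ π, Prime π ∧ constantCoeff π = 0 ∧ IsV k φ π V
  tr : ∀ (φ : K × K) (a b : k) V π, IsFr k φ →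
    Thru k (φ.1 - algebraMap k K a, φ.2 - algebraMap k K b) V → Prime π →
    V.valuation (ev k φ π) < 1 → IsV k φ π V

structure SEX : Prop where
  ex : ∀ (φ : K × K) π, IsFr k φ → Prime π → ∃ V, IsV k φ π V
  thru : ∀ (φ : K × K) π V, IsFr k φ → Prime π → constantCoeff π = 0 → IsV k φ π V →
    Thru k φ V
  unif : ∀ (φ : K × K) π V, IsFr k φ → Prime π → IsV k φ π V → Unif V (ev k φ π)
  mem : ∀ (φ : K × K) π V, IsFr k φ → Prime π → IsV k φ π V →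
    ∀ z ∈ V, ∃ a b, ¬ π ∣ b ∧ z * ev k φ b = ev k φ a
  uniq : ∀ (φ : K × K) π V V', IsFr k φ → Prime π → IsV k φ π V → IsV k φ π V' → V = V'

structure SDV : Prop where
  dv : ∀ (φ : K × K) V, IsFr k φ → Thru k φ V → Dv V
  le : ∀ (V : ValuationSubring K) t z, Unif V t → V.valuation z < 1 →
    V.valuation z ≤ V.valuation t
  nat : ∀ (V : ValuationSubring K) t z, Unif V t → z ≠ 0 → z ∈ V →
    ∃ n : ℕ, V.valuation z = V.valuation t ^ n
  zle : ∀ (V : ValuationSubring K) t (a b : ℤ), Unif V t →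
    (V.valuation t ^ a ≤ V.valuation t ^ b ↔ b ≤ a)
  unif : ∀ (V : ValuationSubring K) z (D : Derivation k K K), Dv V → (∀ u ∈ V, D u ∈ V) →
    D z = 1 → V.valuation z < 1 → Unif V z

structure SNM : Prop where
  lo : ∀ (φ : K × K) z, IsFr k φ → (∀ V, Thru k φ V → z ∈ V) → z ∈ Lo k φ
  poly : ∀ (B : Bx k K) z, (∀ c V, Thru k (B.rt (.inl c)) V → z ∈ V) →
    ∃ P, z = ev k (B.x, B.y) P

structure SE : Prop where
  isV : ∀ (φ : K × K) V, IsFr k φ → (IsE k φ V ↔ IsV k φ (X 0) V)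
  thru : ∀ (φ : K × K) V, IsFr k φ → (IsE k φ V ↔ Thru k φ V ∧ V.valuation φ.1 < 1)
  ex : ∀ φ : K × K, IsFr k φ → ∃ V, IsE k φ V
  uniq : ∀ (φ : K × K) V V', IsFr k φ → IsE k φ V → IsE k φ V' → V = V'
  unif : ∀ (φ : K × K) V, IsFr k φ → IsE k φ V → Unif V φ.1
  tr : ∀ (u v : K) (c : k) V, IsE k (u, v - algebraMap k K c) V ↔ IsE k (u, v) V
  inv : ∀ (u v u' : K) V, IsE k (u, v) V → V.valuation u' < 1 → IsE k (u', v⁻¹) V
  pol : ∀ (φ : K × K) V (q : Polynomial k), IsE k φ V → q ≠ 0 →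
    V.valuation (Polynomial.aeval φ.2 q) = 1

structure STR : Prop where
  dom : ∀ (φ : K × K) W, HasK k W → W.valuation φ.1 < 1 → W.valuation φ.2 < 1 → Dom k φ W
  res : ∀ (φ : K × K) V a, Dom k φ V →
    V.valuation (ev k φ a - algebraMap k K (constantCoeff a)) < 1
  inv : ∀ (φ : K × K) a, IsFr k φ → constantCoeff a ≠ 0 → (ev k φ a)⁻¹ ∈ Lo k φ
  unit : ∀ (φ : K × K) V a, IsFr k φ → Sub k φ V → constantCoeff a ≠ 0 →
    V.valuation (ev k φ a) = 1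
  nc : ∀ (φ : K × K) V (a b : k), IsFr k φ → Thru k φ V →
    ¬ (V.valuation (φ.1 - algebraMap k K a) < 1 ∧ V.valuation (φ.2 - algebraMap k K b) < 1)
  child : ∀ (φ : K × K) c, IsFr k φ →
    Lo k φ ≤ Lo k (child k φ c) ∧ ∀ V, Dom k (child k φ c) V → Dom k φ V
  down : ∀ (φ : K × K) L y, IsFr k φ → Cov k φ L → y ∈ L →
    IsFr k y ∧ Lo k φ ≤ Lo k y ∧ ∀ V, Dom k y V → Dom k φ V
  prc : ∀ (φ : K × K) W, IsFr k φ → ResK k W → Dom k φ W → ∃ c, Dom k (H59.child k φ c) W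
  pr1 : ∀ (φ : K × K) L W, IsFr k φ → Cov k φ L → ResK k W → Dom k φ W → ∃ y ∈ L, Dom k y W
  pr0 : ∀ (B : Bx k K) W, ResK k W → ∃ p, Dom k (B.rt p) W

structure STW : Prop where
  two : ∀ (φ : K × K) c c' V, IsFr k φ → c ≠ c' → Sub k (child k φ c) V →
    Sub k (child k φ c') V → Thru k (child k φ c) V
  twor : ∀ (B : Bx k K) p p' V, p ≠ p' → Sub k (B.rt p) V → Sub k (B.rt p') V →
    Thru k (B.rt p) V
  mx : ∀ (B : Bx k K) p l, B.XX l / B.XX (chi p) ∈ Lo k (B.rt p)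
  mxl : ∀ (B : Bx k K) L p y V, B.Covs L → y ∈ L p → Sub k y V →
    Sub k (B.rt p) V ∧ B.Mx V (chi p)
  tau : ∀ (B : Bx k K) p V, Thru k (B.rt p) V →
    ∃ l, ∀ c : k, V.valuation (B.XX l / B.XX (chi p) - algebraMap k K c) = 1

structure STH : Prop where
  plt : ∀ (φ : K × K) V, IsFr k φ → Thru k φ V → ∃ W, W ≤ V ∧ ResK k W ∧ Dom k φ W
  lift : ∀ (φ : K × K) L V W, IsFr k φ → Cov k φ L → W ≤ V → ResK k W → Dom k φ W →
    ¬ Dom k φ V → ∃ y ∈ L, Dom k y W ∧ Thru k y V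
  th : ∀ (φ : K × K) L V, IsFr k φ → Cov k φ L → Thru k φ V → ∃ y ∈ L, Thru k y V
  glob : ∀ (B : Bx k K) L p0 V W, B.Covs L → Thru k (B.rt p0) V → W ≤ V → ResK k W →
    ∃ p, ∃ y ∈ L p, Dom k y W ∧ Thru k y V ∧ Thru k (B.rt p) V
  af : ∀ (B : Bx k K) c V, Thru k (B.rt (.inr c)) V →
    IsE k (B.x⁻¹, B.y / B.x) V ∨ ∃ c', Thru k (B.rt (.inl c')) V
  inf : ∀ (B : Bx k K) c V, IsE k (B.x⁻¹, B.y / B.x) V → Thru k (B.rt (.inr c)) V

structure SCV : Prop where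
  pl1 : ∀ (V : ValuationSubring K) τ, HasK k V →
    (∀ c : k, V.valuation (τ - algebraMap k K c) = 1) → ∃ W, W ≤ V ∧ ResK k W ∧ τ ∉ W
  cv : ∀ (V : ValuationSubring K) τ ψ, HasK k V → ψ ∈ V →
    (∀ c : k, V.valuation (τ - algebraMap k K c) = 1) →
    (∀ W, W ≤ V → ResK k W → ψ ∈ W ∧ (τ ∉ W → W.valuation ψ < 1)) → V.valuation ψ < 1

def SLN : Prop :=
  ∀ (φ : K × K) V ψ, IsFr k φ → IsE k φ V → ψ ∈ V →
    (∀ W, W ≤ V → ResK k W → φ.2 ∈ W → ψ ∈ W) →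
    ∃ r : Polynomial k, V.valuation (ψ - Polynomial.aeval φ.2 r) < 1 ∧ ∀ a b : ℕ,
      (∀ W, W ≤ V → ResK k W → φ.2 ∉ W → ψ * φ.2 ^ a / φ.2 ^ b ∈ W) →
      r = 0 ∨ r.natDegree + a ≤ b

def SS : Prop :=
  ∀ (φ : K × K) L (m : ℕ) (σ : K) (g : K × K → K), IsFr k φ → Cov k φ L →
    (∀ y ∈ L, ∀ y' ∈ L, ∀ V, Thru k y V → Thru k y' V → (g y - g y') ^ m * σ ∈ V) →
    (∀ y ∈ L, ∀ V, Thru k y V → Thru k φ V → g y ^ m * σ ∈ V) →
    ∀ y ∈ L, ∀ V, Thru k y V → g y ^ m * σ ∈ V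

/-! ### B. Cohomology of the lattices -/

def SKA1 : Prop :=
  ∀ (B : Bx k K) L g, Bx.Cp L (fun V u => u ∈ V) g → B.Bdd L g →
    ∃ (G : K) (R : Polynomial k), R ≠ 0 ∧
      B.AfIn L (Polynomial.aeval B.x R) fun p y => g p y - G

def SKA2 : Prop :=
  ∀ (B : Bx k K) L g (R : Polynomial k), B.Covs L → Bx.Cp L (fun V u => u ∈ V) g → R ≠ 0 →
    B.AfIn L (Polynomial.aeval B.x R) g → ∃ G : K, B.AfIn L 1 fun p y => g p y - G

def SKA3 : Prop :=
  ∀ (B : Bx k K) L g (μ : ℕ), B.Covs L → Bx.Cp L (B.Lg 1 1 μ) g → B.AfIn L 1 g →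
    ∃ G : K, Bx.Sv L (B.Lg 1 1 μ) fun p y => g p y - G

def SKA : Prop := ∀ (B : Bx k K) L (μ : ℕ), B.Covs L → B.H1 L (B.Lg 1 1 μ)

def SORD : Prop :=
  ∀ (B : Bx k K) (g : P3) (κ : ℕ) p V, g.IsHomogeneous κ → B.hat 0 g ≠ 0 →
    Thru k (B.rt p) V → V.valuation (B.hat (chi p) g) < 1 →
    ∃ (t : K) (H : ℕ), Unif V t ∧ 0 < H ∧ H ≤ κ ∧
      V.valuation (B.hat (chi p) g) = V.valuation t ^ H

def SKB : Prop :=
  ∀ (B : Bx k K) L (g : P3) (κ m q E J : ℕ), B.Covs L → g.IsHomogeneous κ → B.hat 0 g ≠ 0 →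
    0 < m → E + q * κ = m * J → m * κ < E → B.H1 L (B.Lg m (B.hat 0 g ^ q) E)

def SH1 : Prop :=
  ∀ (B : Bx k K) (N : Nm) L (q : ℕ), B.Covs L → B.Nz N → N.m * N.κ < q * N.E →
    B.H1 L (B.Lam N q)

def SDEG : Prop :=
  ∀ (B : Bx k K) (s : P2 k) (σ A : K) (m E : ℕ), s ≠ 0 → σ ≠ 0 → 0 < m →
    m * s.totalDegree < E →
    (∀ c V, Thru k (B.rt (.inl c)) V → (ev k (B.x, B.y) s * A) ^ m * σ ∈ V) →
    (∀ V, IsE k (B.x⁻¹, B.y / B.x) V → A ^ m * σ * B.x ^ E ∈ V) → A = 0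

/-! ### C. Derivations -/

structure SDer : Prop where
  span0 : ∀ (B : Bx k K) (D : Derivation k K K) u, D u = D B.x * B.Dx u + D B.y * B.Dy u
  chain : ∀ (φ : K × K) (D : Derivation k K K) a,
    D (ev k φ a) = ev k φ (pderiv 0 a) * D φ.1 + ev k φ (pderiv 1 a) * D φ.2
  dual : ∀ (B : Bx k K) z i j, B.jac z ≠ 0 → B.dua z i (z j) = if i = j then 1 else 0
  span : ∀ (B : Bx k K) z (D : Derivation k K K) u, B.jac z ≠ 0 →
    D u = ∑ j, D (z j) * B.dua z j u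
  comm : ∀ (B : Bx k K) z (D D' : Derivation k K K), B.jac z ≠ 0 →
    (∀ j, D (D' (z j)) = D' (D (z j))) → ∀ u, D (D' u) = D' (D u)
  om : ∀ (B : Bx k K) z, B.jac z ≠ 0 →
    B.dua z 0 B.x * B.dua z 1 B.y - B.dua z 1 B.x * B.dua z 0 B.y = (B.jac z)⁻¹
  jmul : ∀ (B : Bx k K) z a b, B.jac z ≠ 0 → B.jac ![a, b] =
    (B.dua z 0 a * B.dua z 1 b - B.dua z 1 a * B.dua z 0 b) * B.jac z
  jfr : ∀ (B : Bx k K) (φ : K × K), IsFr k φ → B.jac ![φ.1, φ.2] ≠ 0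

structure SPres : Prop where
  lo : ∀ (φ : K × K) (D : Derivation k K K), IsFr k φ → D φ.1 ∈ Lo k φ → D φ.2 ∈ Lo k φ →
    ∀ u ∈ Lo k φ, D u ∈ Lo k φ
  val : ∀ (φ : K × K) V (D : Derivation k K K), IsFr k φ → Thru k φ V → D φ.1 ∈ V →
    D φ.2 ∈ V → ∀ u ∈ V, D u ∈ V
  crd : ∀ (B : Bx k K) (φ : K × K) (z : Fin 2 → K) (a b : k) V, IsFr k φ → Thru k φ V →
    φ = (z 0 - algebraMap k K a, z 1 - algebraMap k K b) →
    B.jac z ≠ 0 ∧ (∀ j, z j ∈ V) ∧ ∀ j, ∀ u ∈ V, B.dua z j u ∈ V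
  rt : ∀ (B : Bx k K) p V a b, Thru k (B.rt p) V → a ∈ V → b ∈ V →
    B.XX (chi p) ^ 3 * B.jac ![a, b] ∈ V

structure SPW : Prop where
  pw : ∀ (B : Bx k K) (l : ℕ) G, l.Prime → CharP K l → B.Dx G = 0 → B.Dy G = 0 →
    ∃ G0, G = G0 ^ l
  cx : ∀ (B : Bx k K) (l : ℕ) a H, l.Prime → CharP K l → a ^ l * B.x ^ (l - 1) = B.Dx H → a = 0
  cy : ∀ (B : Bx k K) (l : ℕ) a H, l.Prime → CharP K l → a ^ l * B.y ^ (l - 1) = B.Dy H → a = 0

structure SLog : Prop where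
  st1 : ∀ (B : Bx k K) N V D z, Dv V → B.Log N V D → z ≠ 0 →
    (B.Bd N V ∨ V.valuation z = 1) → D z / z ∈ V
  unit : ∀ (B : Bx k K) N V i (q : ℕ) u, B.Mx V i → ¬ B.Bd N V →
    (B.Lam N q V u ↔ u / B.XX i ^ (3 * q) ∈ V)
  stq : ∀ (B : Bx k K) N V D (l : ℕ) u, CharP K l → Dv V → B.Log N V D → B.Lam N l V u →
    B.Lam N l V (D u)
  dlf : ∀ (B : Bx k K) N V D i, B.Nz N → Dv V → B.Log N V D → B.Mx V i →
    D (B.hat i N.f) / B.hat i N.f ∈ V
  nabw : ∀ (B : Bx k K) N (lam : k) D i u, B.Nz N → (N.d : k) * lam = 3 →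
    B.nab N lam D u = B.XX i ^ 3 * D (u / B.XX i ^ 3) -
      algebraMap k K lam * (D (B.hat i N.f) / B.hat i N.f) * u
  stn : ∀ (B : Bx k K) N (lam : k) V D u, B.Nz N → (N.d : k) * lam = 3 → HasK k V → Dv V →
    B.Log N V D → B.Lam N 1 V u → B.Lam N 1 V (B.nab N lam D u)
  gen : ∀ (B : Bx k K) N V i, B.Nz N → B.Mx V i → B.Lam N 1 V (B.hat i N.f * B.XX i ^ 3)

structure SLf : Prop where
  nz : ∀ (B : Bx k K) N y i z a, B.Leaf N y i z a → B.Nz N ∧ ∀ j, z j ≠ 0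
  pres : ∀ (B : Bx k K) N y i z a V, B.Leaf N y i z a → Thru k y V →
    ∀ j, ∀ u ∈ V, B.dua z j u ∈ V
  unif : ∀ (B : Bx k K) N y i z a V j, B.Leaf N y i z a → Thru k y V →
    V.valuation (z j) < 1 → Unif V (z j) ∧ ∀ j', j' ≠ j → V.valuation (z j') = 1
  bd : ∀ (B : Bx k K) N y i z a V, B.Leaf N y i z a → Thru k y V →
    (B.Bd N V ↔ ∃ j, 0 < a j ∧ V.valuation (z j) < 1)
  log : ∀ (B : Bx k K) N y i z a V j, B.Leaf N y i z a → Thru k y V → B.Log N V (B.th z a j)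
  coef : ∀ (B : Bx k K) N y i z a V D j, B.Leaf N y i z a → Thru k y V → B.Log N V D →
    D (z j) / z j ^ min (a j) 1 ∈ V
  ord : ∀ (B : Bx k K) N y i z a V j, B.Leaf N y i z a → Thru k y V → V.valuation (z j) < 1 →
    ∃ n H : ℕ, n + H = a j ∧ V.valuation (B.hat i N.f) = V.valuation (z j) ^ n ∧
      V.valuation (B.hat i N.h) = V.valuation (z j) ^ H
  nu : ∀ (B : Bx k K) N y i z a V, B.Leaf N y i z a → Thru k y V →
    B.Lam N 1 V (B.th z a 0 B.x * B.th z a 1 B.y - B.th z a 1 B.x * B.th z a 0 B.y)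
  thc : ∀ (B : Bx k K) N y i z a u, B.Leaf N y i z a →
    B.th z a 0 (B.th z a 1 u) = B.th z a 1 (B.th z a 0 u)

structure SUq : Prop where
  uq : ∀ (B : Bx k K) N y i z a V V' j, B.Leaf N y i z a → Thru k y V → Thru k y V' →
    V.valuation (z j) < 1 → V'.valuation (z j) < 1 → V = V'
  mono : ∀ (B : Bx k K) N y i z a, B.Leaf N y i z a → ∃ n : Fin 2 → ℕ, (∀ j, n j ≤ a j) ∧
    (∀ V, Thru k y V → V.valuation (B.hat i N.f) = V.valuation (z 0 ^ n 0 * z 1 ^ n 1)) ∧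
    ∀ j, 0 < n j → ∃ V, Thru k y V ∧ V.valuation (z j) < 1

def SVAN : Prop :=
  ∀ (B : Bx k K) (N : Nm) L (q : ℕ) ζ, B.Covs L → B.Nz N → N.m * (N.d + N.κ) < q * N.E →
    B.Fm N L q ζ → ζ = 0

def SFI : Prop :=
  ∀ (B : Bx k K) (N : Nm) L (l : ℕ), l.Prime → CharP K l → B.Covs L → B.H1 L (B.Lam N l) →
    (∀ ζ, B.Fm N L l ζ → ζ = 0) → B.H1 L (B.Lam N 1)

def SBS : Prop :=
  ∀ (B : Bx k K) (N : Nm) L (l : ℕ) z a δ, l.Prime → CharP K l → B.Dat N l L z a δ →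
    B.H1 L (B.Lam N l) → (∀ ζ, B.Fm N L l ζ → ζ = 0) → ∀ η, B.Fm N L 1 η → η = 0

structure SRes : Prop where
  res : ∀ (V : ValuationSubring K) (D : Derivation k K K) t z (n : ℤ), (∀ u ∈ V, D u ∈ V) →
    D t = 1 → V.valuation t < 1 → V.valuation z = V.valuation t ^ n →
    V.valuation (t * D z / z - n) < 1
  lat : ∀ (B : Bx k K) N V i t (n H : ℕ), B.Mx V i → Unif V t →
    V.valuation (B.hat i N.f) = V.valuation t ^ n →
    V.valuation (B.hat i N.h) = V.valuation t ^ H → ∃ c : ℤ, -(H : ℤ) ≤ c ∧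
      ∀ u, B.Lam N 1 V u ↔ V.valuation (u / B.XX i ^ 3) ≤ V.valuation t ^ c

structure SU : Prop where
  u1 : ∀ (B : Bx k K) N (lam : k) (l : ℕ) y i z a V u, CharP K l → N.M < l →
    (N.d : k) * lam = 3 → B.Leaf N y i z a → Thru k y V → V.valuation (B.hat i N.f) < 1 →
    (∀ D, B.Log N V D → PIn (B.Lam N 1 V) (B.nabP N lam i D u)) → PIn (B.Lam N 1 V) u
  u2 : ∀ (B : Bx k K) N (lam : k) (l K1 : ℕ) p y z a V u, CharP K l →
    (N.d * (K1 + 1) + 3) * N.M < l → (N.d : k) * lam = 3 → B.Leaf N y (chi p) z a →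
    Thru k y V → Thru k (B.rt p) V → B.Lam N 1 V (B.hat (chi p) N.f ^ K1 * u) →
    (∀ D, B.Log N V D → B.Lam N 1 V (B.nab N lam D u)) → B.Lam N 1 V u

structure SCurl : Prop where
  curl : ∀ (B : Bx k K) N lam i (D D' : Derivation k K K) A A', (∀ u, D (D' u) = D' (D u)) →
    B.nabP N lam i D (B.bt A A' D') - B.nabP N lam i D' (B.bt A A' D) =
      (B.nabP N lam i B.Dx A + B.nabP N lam i B.Dy A') *
        Polynomial.C (D B.x * D' B.y - D' B.x * D B.y)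
  flat : ∀ (B : Bx k K) N lam i (D D' : Derivation k K K) u, (∀ u, D (D' u) = D' (D u)) →
    B.nabP N lam i D (B.nabP N lam i D' u) = B.nabP N lam i D' (B.nabP N lam i D u)
  flat0 : ∀ (B : Bx k K) N lam u,
    B.nab N lam B.Dx (B.nab N lam B.Dy u) = B.nab N lam B.Dy (B.nab N lam B.Dx u)
  sub : ∀ (B : Bx k K) N lam i D u u',
    B.nabP N lam i D (u - u') = B.nabP N lam i D u - B.nabP N lam i D u'
  smul : ∀ (B : Bx k K) N lam i D (P : Polynomial k) u,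
    B.nabP N lam i D (P.map (algebraMap k K) * u) = P.map (algebraMap k K) * B.nabP N lam i D u
  lin : ∀ (B : Bx k K) N lam i (D D0 D1 : Derivation k K K) c0 c1 A A' g,
    (∀ u, D u = c0 * D0 u + c1 * D1 u) →
    B.nabP N lam i D g =
      Polynomial.C c0 * B.nabP N lam i D0 g + Polynomial.C c1 * B.nabP N lam i D1 g ∧
    B.bt A A' D = Polynomial.C c0 * B.bt A A' D0 + Polynomial.C c1 * B.bt A A' D1
  pin : ∀ (B : Bx k K) N V (c : K) (P u : Polynomial K), PIn (fun e => e ∈ V) P →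
    PIn (fun e => B.Lam N 1 V (c * e)) u → PIn (fun e => B.Lam N 1 V (c * e)) (P * u)

variable {k K} in
/-- pole of order at most `n` with respect to the lattice -/
def St (B : Bx k K) (N : Nm) (y : K × K) (z : Fin 2 → K) (n : Fin 2 → ℕ) (u : Polynomial K) :
    Prop :=
  ∀ V, Thru k y V → PIn (fun e => B.Lam N 1 V (z 0 ^ n 0 * z 1 ^ n 1 * e)) u

def SStep : Prop :=
  ∀ (B : Bx k K) N (lam : k) y i z a j (n : Fin 2 → ℕ) V (e : ℕ), (N.d : k) * lam = 3 →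
    B.Leaf N y i z a → Thru k y V → V.valuation (z j) < 1 →
    V.valuation (B.hat i N.f) = V.valuation (z j) ^ e → (e : k) ≠ 0 → 0 < n j →
    ∃ P : Polynomial k, P ≠ 0 ∧ P.natDegree ≤ 1 ∧ ∀ u, St B N y z n u →
      St B N y z (Function.update n j (n j - 1))
        (P.map (algebraMap k K) * u - B.nabP N lam i (B.th z a j) u)

def SLoc : Prop :=
  ∀ (B : Bx k K) N (lam : k) (l K0 : ℕ) y i z a A A' ψ, CharP K l → N.M < l →
    (N.d : k) * lam = 3 → B.Leaf N y i z a → B.WCh N lam K0 i A A' ψ →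
    ∃ P g, B.Red N lam K0 i A A' y (2 * (K0 + 1) * N.M) P g

def STC : Prop :=
  ∀ (B : Bx k K) N (lam : k) (l K0 T : ℕ) p L (z : K × K → Fin 2 → K) (a : K × K → Fin 2 → ℕ)
    A A', CharP K l → (N.d * (K0 + 2) + 3) * N.M < l → (N.d : k) * lam = 3 →
    Cov k (B.rt p) L → (∀ y ∈ L, B.Leaf N y (chi p) (z y) (a y)) →
    (∀ y ∈ L, ∃ P g, B.Red N lam K0 (chi p) A A' y T P g) →
    ∃ g : K × K → K, (∀ y ∈ L, ∀ V, Thru k y V →
      B.Lam N 1 V (B.hat (chi p) N.f ^ (K0 + 1) * g y) ∧ ∀ D, B.Log N V D →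
        B.Lam N 1 V (A.coeff 0 * D B.y - A'.coeff 0 * D B.x - B.nab N lam D (g y))) ∧
      ∀ y ∈ L, ∀ y' ∈ L, ∀ V, Thru k y V → Thru k y' V → B.Lam N 1 V (g y - g y')

def SCore : Prop :=
  ∀ (B : Bx k K) N (lam : k) (l K0 : ℕ) L (z : Root k → K × K → Fin 2 → K)
    (a : Root k → K × K → Fin 2 → ℕ), CharP K l → (N.d * (K0 + 2) + 3) * N.M < l →
    (N.d : k) * lam = 3 → B.Nz N → B.Covs L →
    (∀ p y, y ∈ L p → B.Leaf N y (chi p) (z p y) (a p y)) → B.WOut N lam K0 →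
    B.H1 L (B.Lam N 1) → (∀ η, B.Fm N L 1 η → η = 0) → False

end

/-! ### D. The functional equation in the charts -/

def SWC : Prop :=
  ∀ (F : MvPolynomial (Fin 3) ℂ) (d : ℕ) (b : Polynomial ℂ), F.IsHomogeneous d →
    H72.IsBFunction F b → ∃ ws, WEq F d b ws

def SRat : Prop :=
  ∀ (f : P3) (d : ℕ) (b : Polynomial ℂ) ws (q : ℚ), WEq (map (Int.castRingHom ℂ) f) d b ws →
    b.eval (q : ℂ) ≠ 0 → ∃ b1 ws1, WEq f d b1 ws1 ∧ Polynomial.aeval q b1 ≠ 0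

def SDeh : Prop :=
  ∀ (F : MvPolynomial (Fin 3) ℂ) (d : ℕ) (b : Polynomial ℂ) ws (i : Fin 3) (c : Fin 2 → ℂ),
    F.IsHomogeneous d → WEq F d b ws → (∀ j, c j ≠ 0) →
    H72.IsBFunction (aeval (i.insertNth (α := fun _ => P2 ℂ) 1 fun j => C (c j) * X j) F) b

structure SAdj : Prop where
  adj : ∀ (k R : Type) [CommRing k] [CommRing R] [Algebra k R] (Q : DR k R)
    (a0 a1 γ u a0' a1' : R) (w : Word) (γ' τ : R), τ * Q.vl a0 a1 γ u w =
      ∑ j, Q.der (a0' + a0) (a1' + a1) (γ' + γ + (wgt w : R) + 1) j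
        (Q.xi a0' a1' (Q.vl a0 a1 γ u) w γ' τ j) + Q.ad a0' a1' w γ' τ * u
  map : ∀ (k R R' : Type) [CommRing k] [CommRing R] [Algebra k R] [CommRing R'] [Algebra k R']
    (Q : DR k R) (Q' : DR k R') (φ : R →+* R'), (∀ u, φ (Q.D0 u) = Q'.D0 (φ u)) →
    (∀ u, φ (Q.D1 u) = Q'.D1 (φ u)) → φ Q.x = Q'.x → φ Q.y = Q'.y →
    (∀ a0 a1 γ u w, φ (Q.vl a0 a1 γ u w) = Q'.vl (φ a0) (φ a1) (φ γ) (φ u) w) ∧
    (∀ a0 a1 w γ τ, φ (Q.ad a0 a1 w γ τ) = Q'.ad (φ a0) (φ a1) w (φ γ) (φ τ)) ∧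
    ∀ a0 a1 v w γ τ j, φ (Q.xi a0 a1 v w γ τ j) =
      Q'.xi (φ a0) (φ a1) (fun w => φ (v w)) w (φ γ) (φ τ) j

section

variable (k K : Type) [Field k] [Field K] [Algebra k K]

structure SVal : Prop where
  val : ∀ (B : Bx k K) (f : P3) (d n : ℕ) (w : Word), f.IsHomogeneous d → B.hat 0 f ≠ 0 →
    B.dr.vl (n * (B.Dx (B.hat 0 f) / B.hat 0 f)) (n * (B.Dy (B.hat 0 f) / B.hat 0 f))
      (d * (n + 1)) (B.hat 0 f) w * B.hat 0 f ^ n = B.hat 0 (act w (f ^ (n + 1)))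
  ad0 : ∀ (B : Bx k K) (w : Word), wgt w < 0 → B.dr.ad 0 0 w 0 1 = 0

variable {k K} in
/-- a word applied to `f ^ (s + 1)`, with `s = X - lam` -/
noncomputable def vP (B : Bx k K) (f : P3) (d : ℕ) (lam : k) : Word → Polynomial K :=
  B.drP.vl ((Polynomial.X - Polynomial.C (algebraMap k K lam)) *
      Polynomial.C (B.Dx (B.hat 0 f) / B.hat 0 f))
    ((Polynomial.X - Polynomial.C (algebraMap k K lam)) *
      Polynomial.C (B.Dy (B.hat 0 f) / B.hat 0 f))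
    ((d : Polynomial K) * (Polynomial.X - Polynomial.C (algebraMap k K lam) + 1))
    (Polynomial.C (B.hat 0 f))

variable {k K} in
/-- the connection of the test function `X_i ^ (-d X)` -/
noncomputable def aP (B : Bx k K) (d : ℕ) (i : Fin 3) (D : Derivation k K K) : Polynomial K :=
  -((d : Polynomial K) * Polynomial.X) * Polynomial.C (D (B.XX i) / B.XX i)

def SReg0 : Prop :=
  ∀ (B : Bx k K) i j (e : ℤ) (n : ℕ) g c, g ∈ B.Tc i → g ^ n * c / B.XX i ^ e ∈ B.Tc i →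
    g ^ (n + 1) * B.dr.der 0 0 e j c / B.XX i ^ (e - 1) ∈ B.Tc i

structure SReg : Prop where
  vl : ∀ (B : Bx k K) (f : P3) (d : ℕ) (lam : k) i (w : Word), f.IsHomogeneous d →
    B.hat 0 f ≠ 0 →
    PIn (fun c => B.hat i f ^ w.length * c / B.XX i ^ ((d : ℤ) + wgt w) ∈ B.Tc i) (vP B f d lam w)
  ad : ∀ (B : Bx k K) (d : ℕ) i (w : Word) (e : ℤ) τ,
    PIn (fun c => c / B.XX i ^ e ∈ B.Tc i) τ →
    PIn (fun c => c / B.XX i ^ (e + wgt w) ∈ B.Tc i)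
      (B.drP.ad (aP B d i B.Dx) (aP B d i B.Dy) w
        (-((d : Polynomial K) * Polynomial.X) + (e : Polynomial K)) τ)
  xi : ∀ (B : Bx k K) (f : P3) (d : ℕ) (lam : k) i (w : Word) (e : ℤ) τ j, f.IsHomogeneous d →
    B.hat 0 f ≠ 0 → e + d + wgt w = 0 → PIn (fun c => c / B.XX i ^ e ∈ B.Tc i) τ →
    PIn (fun c => B.hat i f ^ w.length * c / B.XX i ∈ B.Tc i)
      (B.drP.xi (aP B d i B.Dx) (aP B d i B.Dy) (vP B f d lam) w
        (-((d : Polynomial K) * Polynomial.X) + (e : Polynomial K)) τ j)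

def SSum : Prop :=
  ∀ (B : Bx k K) (f : P3) (d : ℕ) (lam : k) (l K0 : ℕ) (b : Polynomial ℤ) ws, CharP K l →
    K0 < l → f.IsHomogeneous d → B.hat 0 f ≠ 0 → WEq f d b ws → b.natDegree ≤ K0 →
    (∀ e ∈ ws, e.2.1 + e.2.2.length ≤ K0) →
    (ws.map fun e => (e.1 : Polynomial K) *
      (Polynomial.X - Polynomial.C (algebraMap k K lam)) ^ e.2.1 * vP B f d lam e.2.2).sum =
      Polynomial.aeval (Polynomial.X - Polynomial.C (algebraMap k K lam) : Polynomial K) b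

def SWO : Prop :=
  ∀ (B : Bx k K) (N : Nm) (lam : k) (l K0 : ℕ) (b : Polynomial ℤ) ws, CharP K l → K0 < l →
    (N.d : k) * lam = 3 → B.Nz N → WEq N.f N.d b ws → b.natDegree ≤ K0 →
    (∀ e ∈ ws, e.2.1 + e.2.2.length ≤ K0) → Polynomial.aeval (-lam) b ≠ 0 → B.WOut N lam K0

/-! ### E. Lifting modulo the square of the characteristic -/

def SW2 : Prop :=
  ∀ l : ℕ, l.Prime → CharP K l → ∃ (R : Type) (_ : CommRing R), Nonempty (W2 k K R l)

def SLK : Prop :=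
  ∀ (B : Bx k K) (N : Nm) (φ : K × K) i (ψ : Fin 3 → P2 k) (z0 z1 q2 q3 q4 : P2 k)
    (a0 a1 : ℕ), IsFr k φ → (∀ t, ev k φ (ψ t) = B.XX t / B.XX i) → a0 ≤ N.M → a1 ≤ N.M →
    e3 ψ (N.f * N.h) = q2 * z0 ^ a0 * z1 ^ a1 →
    q3 * (jac3 ψ * z0 ^ min a0 1 * z1 ^ min a1 1) ^ N.m * e3 ψ N.h = q4 * e3 ψ N.f ^ N.m →
    constantCoeff (q2 * q3 * jac2 z0 z1) ≠ 0 →
    B.Leaf N φ i ![ev k φ z0, ev k φ z1] ![a0, a1]

variable (R : Type) [CommRing R] (l : ℕ)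

structure SNice : Prop where
  ring : ∀ (W : W2 k K R l) B, ∃ S : Subring R, ∀ a, a ∈ S ↔ W.Nice B a
  inv : ∀ (W : W2 k K R l) B a b, a * b = 1 → W.Nice B a → W.Nice B b
  xt : ∀ (W : W2 k K R l) B t, W.Nice B (W.XT B t)

structure SIn : Prop where
  ring : ∀ (W : W2 k K R l) B Z V, ∃ S : Subring R, ∀ a, a ∈ S ↔ W.InS B Z V a
  mul : ∀ (W : W2 k K R l) B Z a b,
    W.del B Z (a * b) = W.rd a ^ l * W.del B Z b + W.rd b ^ l * W.del B Z a
  inv : ∀ (W : W2 k K R l) B Z V a b, a * b = 1 → V.valuation (W.rd a) = 1 → W.InS B Z V a →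
    W.InS B Z V b
  self : ∀ (W : W2 k K R l) B Z j, B.jac (W.rz Z) ≠ 0 → W.del B Z (Z j) = 0
  eqv : ∀ (W : W2 k K R l) B Z Z' V, B.jac (W.rz Z') ≠ 0 → (∀ j, W.InS B Z V (Z' j)) →
    (∀ j, ∀ u ∈ V, B.dua (W.rz Z') j u ∈ V) → W.Eqv B Z Z' V

def SLR : Prop :=
  ∀ (W : W2 k K R l) B (N : Nm) (O : Type) [CommRing O] (j : O →+* R) (r : O →+* k) ψ c i Y U φ
    Q, (∀ o, ∃ n : ℤ, j o = n ∧ r o = n) → W.Cht B j ψ c i Y U φ →
    Cert N.f N.h N.m N.M ψ Q → eval₂ r c Q ≠ 0 → ∃ L Z a, W.Tree B N i Y U φ L Z a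

def SNode : Prop :=
  ∀ (W : W2 k K R l) B (N : Nm) (O : Type) [CommRing O] (j : O →+* R) (r : O →+* k) i Y,
    (∀ o, ∃ n : ℤ, j o = n ∧ r o = n) → ∀ ψ c, PT N.f N.h N.m N.M r ψ c →
    ∀ U φ, W.Cht B j ψ c i Y U φ → ∃ L Z a, W.Tree B N i Y U φ L Z a

def SFor : Prop :=
  ∀ (W : W2 k K R l) B (N : Nm) (O : Type) [CommRing O] (j : O →+* R) (r : O →+* k),
    (∀ o, ∃ n : ℤ, j o = n ∧ r o = n) → (∀ i c, PT N.f N.h N.m N.M r (cht O i) c) →
    ∃ Y L Z a, W.Forest B N Y L Z a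

def SCmp : Prop :=
  ∀ (W : W2 k K R l) B (N : Nm) Y L Z a, N.M < l → W.Forest B N Y L Z a →
    B.Dat N l L (fun p y => W.rz (Z p y)) a fun p y j => W.dl (Z p y j)

end

/-! ### F. Resolution in characteristic zero and spreading out -/

def SLC : Prop :=
  ∀ (f h : P3) (m : ℕ) (ψ : Fin 3 → P2 ℂ) (z0 z1 g : P2 ℂ) (a0 a1 : ℕ), LG f h m →
    (∃ i, ψ i = 1) → Prime z0 → Prime z1 → ¬ z0 ∣ z1 →
    e3 ψ (f * h) = g * z0 ^ a0 * z1 ^ a1 → Cert f h m (max a0 a1) ψ (g * jac2 z0 z1)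

structure SSp : Prop where
  el : ∀ c : ℂ, ∀ᶠ A : Subring ℂ in FF, c ∈ A
  poly : ∀ P : P2 ℂ, ∀ᶠ A : Subring ℂ in FF, ∃ PA : P2 A, map A.subtype PA = P
  cert : ∀ f h m M (ψ : Fin 3 → P2 ℂ) Q, Cert f h m M ψ Q → ∀ᶠ A : Subring ℂ in FF,
    ∀ (ψA : Fin 3 → P2 A) (QA : P2 A), (∀ l, map A.subtype (ψA l) = ψ l) →
      map A.subtype QA = Q → Cert f h m M ψA QA
  pt : ∀ f h m M (ψ : Fin 3 → P2 ℂ) Q c, Cert f h m M ψ Q → eval c Q ≠ 0 → Pt f h m M ψ c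
  mono : ∀ f h m M M' (O k : Type) [CommRing O] [Field k] (r : O →+* k) ψ c, M ≤ M' →
    PT f h m M r ψ c → PT f h m M' r ψ c
  fin : ∀ p : Subring ℂ → Prop, (∀ᶠ A in FF, p A) → ∃ S : Finset ℂ, p (Subring.closure S)

def SGen : Prop :=
  ∀ (f h : P3) (m : ℕ) (ψ : Fin 3 → P2 ℂ), LG f h m → (∃ i, ψ i = 1) → e3 ψ (f * h) ≠ 0 →
    ∃ (M : ℕ) (S : Finset ℂ), ∀ᶠ A : Subring ℂ in FF, ∀ ψA : Fin 3 → P2 A,
      (∀ l, map A.subtype (ψA l) = ψ l) → ∀ (k : Type) [Field k] (r : A →+* k) (c : Fin 2 → k),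
        PT f h m M r ψA c ∨ ∃ cA : Fin 2 → A, (∀ i, (cA i : ℂ) ∈ S) ∧ c = fun i => r (cA i)

def SBl : Prop :=
  ∀ (f h : P3) (m : ℕ) (ψ : Fin 3 → P2 ℂ) (c : Fin 2 → ℂ), LG f h m → (∃ i, ψ i = 1) →
    e3 (finc c ψ) (f * h) ≠ 0 → (∀ t, ∃ M, Pt f h m M (finc c ψ) ![0, t]) →
    (∃ M, Pt f h m M (infc c ψ) ![0, 0]) → ∃ M, Pt f h m M ψ c

def SInd : Prop :=
  ∀ (f h : P3) (m : ℕ) (ψ : Fin 3 → P2 ℂ) (c : Fin 2 → ℂ), LG f h m → (∃ i, ψ i = 1) →
    e3 ψ (f * h) ≠ 0 → ∃ M, Pt f h m M ψ c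

def STop : Prop :=
  ∀ (f h : P3) (m n : ℕ), LG f h m → (f * h).IsHomogeneous n → f * h ≠ 0 →
    ∃ (M : ℕ) (S : Finset ℂ), ∀ (k : Type) [Field k] (r : Subring.closure (S : Set ℂ) →+* k) i c,
      PT f h m M r (cht _ i) c

def SSch : Prop :=
  ∀ (P : Polynomial ℤ) (n : ℕ), 0 < P.natDegree → (P.map (Int.castRingHom ℚ)).Separable →
    ∃ l, n < l ∧ l.Prime ∧ ∃ a : ZMod (l ^ 2), Polynomial.aeval a P = 0

def SSpl : Prop :=
  ∀ (S : Finset ℂ) (n : ℕ), ∃ l, n < l ∧ l.Prime ∧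
    Nonempty (Subring.closure (S : Set ℂ) →+* ZMod (l ^ 2))

/-! ### G. The function field, and counting -/

def SKex : Prop := ∀ (k : Type) [Field k], Nonempty (Bx k (FractionRing (P2 k)))

/-- the number of zeros modulo `p ^ m` -/
noncomputable def cnt {σ : Type} (g : MvPolynomial σ ℤ) (p m : ℕ) : ℕ :=
  Nat.card {x : σ → ZMod (p ^ m) // aeval x g = 0}

/-- the three scaled charts -/
noncomputable def gch (f : P3) (p : ℕ) : Fin 3 → P2 ℤ :=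
  ![aeval ![X 0, X 1, 1] f, aeval ![X 0, 1, C (p : ℤ) * X 1] f,
    aeval ![1, C (p : ℤ) * X 0, C (p : ℤ) * X 1] f]

def SCA : Prop :=
  ∀ (f : P3) (d p m : ℕ), p.Prime → f.IsHomogeneous d →
    (p : ℚ) ^ 2 * Nat.card {x : Fin 3 → ZMod (p ^ (m + 1)) // aeval x f = 0 ∧ ∃ i, IsUnit (x i)} =
      ((p : ℚ) ^ (m + 1) - p ^ m) * (p ^ 2 * cnt (gch f p 0) p (m + 1) +
        p * cnt (gch f p 1) p (m + 1) + cnt (gch f p 2) p (m + 1))

def SCB : Prop :=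
  ∀ (f : P3) (d p m : ℕ), p.Prime → f.IsHomogeneous (d + 1) →
    Nat.card {x : Fin 3 → ZMod (p ^ (m + 1)) // aeval x f = 0 ∧ ¬ ∃ i, IsUnit (x i)} =
      if m ≤ d then p ^ (3 * m) else cnt f p (m - d) * p ^ (3 * d)

def SCC : Prop :=
  ∀ (f : P3) (d p : ℕ), p.Prime → f.IsHomogeneous d → 0 < d →
    (1 - PowerSeries.C ((p : ℚ) ^ 3)⁻¹ * PowerSeries.X ^ d) * H72.poincare f p =
      PowerSeries.C (1 - (p : ℚ)⁻¹) * (H72.poincare (gch f p 0) p +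
        PowerSeries.C (p : ℚ)⁻¹ * H72.poincare (gch f p 1) p +
        PowerSeries.C ((p : ℚ) ^ 2)⁻¹ * H72.poincare (gch f p 2) p) +
      PowerSeries.C ((p : ℚ) ^ 3)⁻¹ * ∑ i ∈ Finset.range d, PowerSeries.X ^ i

/-! ### The tasks -/

def OfRL : Prop := ∀ (k : Type) [Field k], SRL k

/-- a statement about all algebraically closed `k` and all extensions `K` -/
def All (p : ∀ (k K : Type) [Field k] [Field K] [Algebra k K], Prop) : Prop :=
  ∀ (k K : Type) [Field k] [IsAlgClosed k] [Field K] [Algebra k K], p k K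

def OfPL : Prop := All fun k K => SPL k K
def OfFR : Prop := All fun k K => SFR k K
def OfST : Prop := All fun k K => SRL k → SFR k K → STR k K → SST k K
def OfEX : Prop := All fun k K => SEX k K
def OfDV : Prop := All fun k K => SST k K → SEX k K → SDV k K
def OfNM : Prop := All fun k K => SFR k K → SEX k K → SNM k K
def OfE : Prop := All fun k K => SST k K → SEX k K → SE k K
def OfTR : Prop := All fun k K => SFR k K → STR k K
def OfTW : Prop := All fun k K => SFR k K → STR k K → STW k K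
def OfTH : Prop := All fun k K => SPL k K → SFR k K → STR k K → STW k K → SE k K → STH k K
def OfCV : Prop := All fun k K => SPL k K → SCV k K
def OfLN : Prop := All fun k K => SEX k K → SE k K → SCV k K → SLN k K
def OfS : Prop := All fun k K =>
  SFR k K → STR k K → SE k K → STH k K → SCV k K → SNM k K → SS k K
def OfKA1 : Prop := All fun k K => SRL k → SST k K → SEX k K → SKA1 k K
def OfKA2 : Prop := All fun k K => SFR k K → STR k K → STW k K → SE k K → SDV k K → STH k K →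
  SNM k K → SLN k K → SS k K → SKA2 k K
def OfKA3 : Prop := All fun k K => SFR k K → STR k K → STW k K → SE k K → SDV k K → STH k K →
  SNM k K → SLN k K → SS k K → SKA3 k K
def OfORD : Prop := All fun k K => SFR k K → SST k K → SEX k K → SDV k K → SORD k K
def OfKB : Prop := All fun k K => SFR k K → STR k K → STW k K → SDV k K → STH k K → SCV k K →
  SNM k K → SS k K → SORD k K → SKA k K → SKB k K
def OfH1 : Prop := All fun k K =>
  (SKA1 k K → SKA2 k K → SKA3 k K → SKA k K) ∧ (SKB k K → SH1 k K)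
def OfDEG : Prop := All fun k K => SNM k K → SE k K → SFR k K → SDEG k K
def OfDer : Prop := All fun k K => SDer k K
def OfPres : Prop := All fun k K => SFR k K → STR k K → SST k K → SEX k K → SDer k K → SPres k K
def OfPW : Prop := All fun k K => SDer k K → SPW k K
def OfLog : Prop := All fun k K => SDV k K → SLog k K
def OfLf : Prop := All fun k K => SDV k K → SDer k K → SPres k K → SLog k K → SLf k K
def OfUq : Prop := All fun k K => STR k K → SST k K → SEX k K → STH k K → SDer k K → SLf k K →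
  SUq k K
def OfVAN : Prop := All fun k K => SFR k K → STW k K → SE k K → SDV k K → STH k K → SPres k K →
  SDEG k K → SVAN k K
def OfFI : Prop := All fun k K => SFR k K → STR k K → SDV k K → SDer k K → SPW k K → SLog k K →
  SFI k K
def OfBS : Prop := All fun k K => SDV k K → SDer k K → SPW k K → SLog k K → SLf k K → SBS k K
def OfRes : Prop := All fun k K => SDV k K → SRes k K
def OfU : Prop := All fun k K => SDV k K → SDer k K → SPres k K → SLog k K → SLf k K →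
  SRes k K → SU k K
def OfCurl : Prop := All fun k K => SDer k K → SCurl k K
def OfStep : Prop := All fun k K => SDV k K → SDer k K → SLog k K → SLf k K → SUq k K →
  SRes k K → SStep k K
def OfLoc : Prop := All fun k K => SDer k K → SLog k K → SLf k K → SUq k K → SCurl k K →
  SStep k K → SLoc k K
def OfTC : Prop := All fun k K => SFR k K → SDV k K → SS k K → SLog k K → SLf k K → SU k K →
  SCurl k K → STC k K
def OfCore : Prop := All fun k K => SFR k K → STW k K → SDV k K → SDer k K → SLog k K →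
  SU k K → SCurl k K → SLoc k K → STC k K → SCore k K
def OfVal : Prop := All fun k K => SVal k K
def OfReg0 : Prop := All fun k K => SReg0 k K
def OfReg : Prop := All fun k K => SReg0 k K → SReg k K
def OfSum : Prop := All fun k K => SAdj → SVal k K → SSum k K
def OfWO : Prop := All fun k K => SAdj → SVal k K → SReg k K → SSum k K → SWO k K
def OfW2 : Prop := All fun k K => SW2 k K
def OfLK : Prop := All fun k K => STR k K → SDer k K → SPres k K → SLK k K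

/-- the same with a ring `R` and the characteristic `l` -/
def AllR (p : ∀ (k K : Type) [Field k] [Field K] [Algebra k K] (R : Type) [CommRing R], ℕ → Prop) :
    Prop :=
  ∀ (k K : Type) [Field k] [IsAlgClosed k] [Field K] [Algebra k K] (R : Type) [CommRing R]
    (l : ℕ), l.Prime → CharP K l → p k K R l

def OfNice : Prop := AllR fun k K _ _ _ R _ l => SNice k K R l
def OfIn : Prop := AllR fun k K _ _ _ R _ l => SDer k K → SIn k K R l
def OfLR : Prop := AllR fun k K _ _ _ R _ l => STR k K → SPres k K → SLf k K → SLK k K →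
  SNice k K R l → SIn k K R l → SLR k K R l
def OfNode : Prop := AllR fun k K _ _ _ R _ l => SFR k K → STR k K → STW k K → SPres k K →
  SNice k K R l → SIn k K R l → SLR k K R l → SNode k K R l
def OfFor : Prop := AllR fun k K _ _ _ R _ l => SFR k K → STR k K → STW k K → SPres k K →
  SNice k K R l → SIn k K R l → SNode k K R l → SFor k K R l
def OfCmp : Prop := AllR fun k K _ _ _ R _ l => SLf k K → SIn k K R l → SCmp k K R l

def OfGen : Prop := SRL ℂ → SLC → SSp → SGen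
def OfBl : Prop := SSp → SGen → SBl
def OfInd : Prop := SLC → SSp → SBl → SInd
def OfTop : Prop := SSp → SGen → SInd → STop
def OfSpl : Prop := SSch → SSpl
def OfCC : Prop := SCA → SCB → SCC

end Pool.Agent.MP_5d9b3c_ag.H59
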