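import Pool.Agent.MP_5d9b3c_ag.H72.Defs

/-!
Plane curves whose complement is of log general type.
-/

namespace Pool.Agent.MP_5d9b3c_ag.H59

open MvPolynomial

/-- The determinant with rows `ψ`, `∂ψ / ∂X_0`, `∂ψ / ∂X_1`: the pull-back of the form
`x_0 dx_1 dx_2 - x_1 dx_0 dx_2 + x_2 dx_0 dx_1` along `ψ` is `jac3 ψ dX_0 dX_1`. -/
noncomputable def jac3 {O : Type} [CommRing O] (ψ : Fin 3 → MvPolynomial (Fin 2) O) :
    MvPolynomial (Fin 2) O :=
  Matrix.det (Matrix.of ![ψ, fun i => pderiv 0 (ψ i), fun i => pderiv 1 (ψ i)])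

/-- The complement of the curve `f = 0` of degree `d` in the projective plane is of log general
type: for some `m` and some nonzero form `h` of degree smaller than `m (d - 3)`, the twisted
pluricanonical form `h Ω ^ m / f ^ m` has a pole of order at most `m` along every prime divisor
over the plane, that is along `π = 0` after pull-back by any polynomial map `ψ` from the affine
plane that is defined at the generic point of `π = 0`. -/
def LogGeneral (f : MvPolynomial (Fin 3) ℤ) (d : ℕ) : Prop :=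
  ∃ (h : MvPolynomial (Fin 3) ℤ) (m κ : ℕ), h ≠ 0 ∧ h.IsHomogeneous κ ∧ κ + 3 * m < m * d ∧
    ∀ (ψ : Fin 3 → MvPolynomial (Fin 2) ℂ) (π : MvPolynomial (Fin 2) ℂ) (n : ℕ),
      Irreducible π → (∃ i, ¬ π ∣ ψ i) → π ^ n ∣ aeval ψ f ^ m →
        π ^ n ∣ aeval ψ h * (π * jac3 ψ) ^ m

end Pool.Agent.MP_5d9b3c_ag.H59
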